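import Mathlib
import Pool.Agent.H64.Cook.Defs

/-!
# Star and restricted star colourings; NP-completeness for graphs of bounded degree
-/

namespace Pool.Agent.H79.Thr

open Pool.Agent.PPS Pool.Agent.H64.Cook

variable {V : Type}

/-- `f` is a `k`-colouring: adjacent vertices get different colours. -/
def IsCol (G : SimpleGraph V) {k : ℕ} (f : V → Fin k) : Prop :=
  ∀ u v, G.Adj u v → f u ≠ f v

/-- `f` is a star `k`-colouring: a `k`-colouring in which no path `a b c d` on four (distinct)
vertices receives only two colours. -/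
def IsStar (G : SimpleGraph V) {k : ℕ} (f : V → Fin k) : Prop :=
  IsCol G f ∧ ∀ a b c d, G.Adj a b → G.Adj b c → G.Adj c d → a ≠ c → a ≠ d → b ≠ d →
    2 < ({f a, f b, f c, f d} : Finset (Fin k)).card

/-- `f` is an rs `k`-colouring: a `k`-colouring for which there is no path `u v w` on three
(distinct) vertices with `f u = f w < f v`. -/
def IsRS (G : SimpleGraph V) {k : ℕ} (f : V → Fin k) : Prop :=
  IsCol G f ∧ ∀ u v w, G.Adj u v → G.Adj v w → u ≠ w → ¬ (f u = f w ∧ f w < f v)

/-- The graph `G` has a star `k`-colouring. -/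
def StarColourable (k : ℕ) (G : SimpleGraph V) : Prop := ∃ f : V → Fin k, IsStar G f

/-- The graph `G` has an rs `k`-colouring. -/
def RSColourable (k : ℕ) (G : SimpleGraph V) : Prop := ∃ f : V → Fin k, IsRS G f

/-- The maximum degree of `G` is at most `d`. -/
def MaxDegLE (G : SimpleGraph V) (d : ℕ) : Prop :=
  ∀ v, (G.neighborSet v).Finite ∧ (G.neighborSet v).ncard ≤ d

open Classical in
/-- The word that encodes a graph on the vertices `0, …, n - 1`: the `n * n` entries of its
adjacency matrix, row after row. -/
noncomputable def enc {n : ℕ} (G : SimpleGraph (Fin n)) : List Bool :=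
  (List.ofFn fun u : Fin n => List.ofFn fun v : Fin n => decide (G.Adj u v)).flatten

/-- The decision problem `Q` is NP-complete for graphs of maximum degree at most `d`: the set of
the words `enc G`, where `G` has maximum degree at most `d` and property `Q`, is in `NP`, and for
every language `L` in `NP` there is a function `φ`, computed in polynomial time, that maps every
word `x` to the word `enc G` of some graph `G` of maximum degree at most `d` which has property
`Q` iff `x ∈ L`. -/
def NPCompleteOn (d : ℕ) (Q : ∀ n : ℕ, SimpleGraph (Fin n) → Prop) : Prop :=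
  {x : List Bool | ∃ (n : ℕ) (G : SimpleGraph (Fin n)), x = enc G ∧ MaxDegLE G d ∧ Q n G} ∈ NP ∧
  ∀ L ∈ NP, ∃ φ ∈ FP, ∀ x, ∃ (n : ℕ) (G : SimpleGraph (Fin n)),
    φ x = enc G ∧ MaxDegLE G d ∧ (x ∈ L ↔ Q n G)

end Pool.Agent.H79.Thr
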