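import Pool.Agent.H79.Thr.Defs
import Pool.Agent.H64.ENC.Build
import Pool.Agent.H64.Cook.Verifier

/-!
# Membership in `NP`

The verifier reads the number `n` of vertices off the length `n * n` of the word, checks that the
word is a symmetric matrix with zero diagonal and at most `d` ones in every row, and checks a
colouring, which is given by `k` bits for every vertex (the colour is the number of ones).
-/

namespace Pool.Agent.H79.Thr

open Pool.Agent.PPS Pool.Agent.H64.Cook

/-! ### Matrices as words -/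

theorem mflat_eq {n k : ℕ} (F : Fin n → Fin k → Bool) :
    (List.ofFn fun u => List.ofFn fun v => F u v).flatten =
      List.ofFn (fun i : Fin (n * k) => F i.divNat i.modNat) := by
  rw [List.ofFn_mul]
  congr 1
  apply congrArg List.ofFn
  funext u
  apply congrArg List.ofFn
  funext v
  have h1 : (⟨u * k + v, by
      calc (u : ℕ) * k + v < (u + 1) * k := by rw [Nat.add_mul]; omega
        _ ≤ n * k := Nat.mul_le_mul_right _ u.2⟩ : Fin (n * k)).divNat = u := by
    ext
    rw [Fin.coe_divNat]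
    show (u * k + v) / k = (u : ℕ)
    exact Nat.div_eq_of_lt_le (by omega) (by rw [Nat.add_mul]; omega)
  have h2 : (⟨u * k + v, by
      calc (u : ℕ) * k + v < (u + 1) * k := by rw [Nat.add_mul]; omega
        _ ≤ n * k := Nat.mul_le_mul_right _ u.2⟩ : Fin (n * k)).modNat = v := by
    ext
    rw [Fin.coe_modNat]
    show (u * k + v) % k = v
    rw [Nat.add_comm, Nat.add_mul_mod_self_right]
    exact Nat.mod_eq_of_lt v.2
  rw [h1, h2]

theorem mflat_length {n k : ℕ} (F : Fin n → Fin k → Bool) :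
    (List.ofFn fun u => List.ofFn fun v => F u v).flatten.length = n * k := by
  rw [mflat_eq, List.length_ofFn]

theorem mflat_getD {n k : ℕ} (F : Fin n → Fin k → Bool) (u : Fin n) (v : Fin k) :
    (List.ofFn fun u => List.ofFn fun v => F u v).flatten.getD (u * k + v) false = F u v := by
  have hlt : (u : ℕ) * k + v < n * k := by
    calc (u : ℕ) * k + v < (u + 1) * k := by rw [Nat.add_mul]; omega
        _ ≤ n * k := Nat.mul_le_mul_right _ u.2
  rw [mflat_eq, List.getD_eq_getElem _ _ (by rw [List.length_ofFn]; exact hlt), List.getElem_ofFn]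
  have h1 : (⟨u * k + v, hlt⟩ : Fin (n * k)).divNat = u := by
    ext
    rw [Fin.coe_divNat]
    show (u * k + v) / k = (u : ℕ)
    exact Nat.div_eq_of_lt_le (by omega) (by rw [Nat.add_mul]; omega)
  have h2 : (⟨u * k + v, hlt⟩ : Fin (n * k)).modNat = v := by
    ext
    rw [Fin.coe_modNat]
    show (u * k + v) % k = v
    rw [Nat.add_comm, Nat.add_mul_mod_self_right]
    exact Nat.mod_eq_of_lt v.2
  rw [h1, h2]

theorem enc_len {n : ℕ} (G : SimpleGraph (Fin n)) : (enc G).length = n * n := by
  classical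
  unfold enc
  exact mflat_length _

/-- Entry of the matrix. -/
def ment (x : List Bool) (n u v : ℕ) : Bool := x.getD (u * n + v) false

theorem ment_enc {n : ℕ} (G : SimpleGraph (Fin n)) (u v : Fin n) :
    ment (enc G) n u v = true ↔ G.Adj u v := by
  classical
  unfold ment enc
  rw [mflat_getD]
  simp

/-! ### The check of the graph -/

/-- The square root of a square. -/
def mroot (m : ℕ) : ℕ := ((List.range (m + 1)).filter fun n => decide (n * n = m)).headD 0

theorem mroot_sq (n : ℕ) : mroot (n * n) = n := by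
  unfold mroot
  have h : ((List.range (n * n + 1)).filter fun k => decide (k * k = n * n)) = [n] := by
    have h1 : ∀ k ∈ (List.range (n * n + 1)).filter fun k => decide (k * k = n * n), k = n := by
      intro k hk
      simp only [List.mem_filter, decide_eq_true_eq] at hk
      exact Nat.mul_self_inj.1 hk.2
    have h2 : n ∈ (List.range (n * n + 1)).filter fun k => decide (k * k = n * n) := by
      simp only [List.mem_filter, List.mem_range, decide_eq_true_eq, and_true]
      exact Nat.lt_succ_of_le (Nat.le_mul_self n)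
    have h3 : ((List.range (n * n + 1)).filter fun k => decide (k * k = n * n)).Nodup :=
      List.nodup_range.filter _
    generalize (List.range (n * n + 1)).filter (fun k => decide (k * k = n * n)) = l at h1 h2 h3
    rcases l with _ | ⟨a, _ | ⟨b, l⟩⟩
    · simp at h2
    · rw [h1 a (by simp)]
    · have ha := h1 a (by simp)
      have hb := h1 b (by simp)
      subst ha
      rw [hb] at h3
      simp at h3
  rw [h]
  rfl

/-- The check that `x` is the matrix of a graph on `n` vertices with maximum degree at most `d`. -/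
def mchkG (d : ℕ) (x : List Bool) (n : ℕ) : Bool :=
  decide (x.length = n * n) &&
  ((List.range n).all fun u =>
    !(ment x n u u) &&
    (decide (((List.range n).filter fun v => ment x n u v).length ≤ d) &&
    ((List.range n).all fun v => ment x n u v == ment x n v u)))

theorem deg_iff {n : ℕ} {x : List Bool} {G : SimpleGraph (Fin n)}
    (hG : ∀ u v : Fin n, ment x n u v = true ↔ G.Adj u v) (d : ℕ) (u : Fin n) :
    ((List.range n).filter fun v => ment x n u v).length ≤ d ↔
      ((G.neighborSet u).Finite ∧ (G.neighborSet u).ncard ≤ d) := by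
  have h1 : (G.neighborSet u).ncard = ((List.range n).filter fun v => ment x n u v).length := by
    rw [← Set.ncard_image_of_injective (G.neighborSet u) Fin.val_injective]
    have h2 : (Fin.val '' G.neighborSet u) =
        (((List.range n).filter fun v => ment x n u v).toFinset : Set ℕ) := by
      ext v
      simp only [Set.mem_image, SimpleGraph.mem_neighborSet, List.coe_toFinset, List.mem_filter,
        List.mem_range, Set.mem_ofPred_eq]
      constructor
      · rintro ⟨w, hw, rfl⟩
        exact ⟨w.2, (hG u w).2 hw⟩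
      · rintro ⟨hv, hv'⟩
        exact ⟨⟨v, hv⟩, (hG u ⟨v, hv⟩).1 hv', rfl⟩
    rw [h2, Set.ncard_coe_finset, List.toFinset_card_of_nodup (List.nodup_range.filter _)]
  rw [h1]
  exact ⟨fun h => ⟨Set.toFinite _, h⟩, fun h => h.2⟩

theorem mchkG_enc {n : ℕ} {G : SimpleGraph (Fin n)} {d : ℕ} (h : MaxDegLE G d) :
    mchkG d (enc G) n = true := by
  simp only [mchkG, enc_len, decide_true, Bool.true_and, List.all_eq_true, List.mem_range,
    Bool.and_eq_true, Bool.not_eq_true', decide_eq_true_eq, beq_iff_eq]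
  intro u hu
  refine ⟨?_, ?_, ?_⟩
  · have := (ment_enc G ⟨u, hu⟩ ⟨u, hu⟩).not.2 (SimpleGraph.irrefl G)
    simpa using this
  · exact (deg_iff (ment_enc G) d ⟨u, hu⟩).2 (h ⟨u, hu⟩)
  · intro v hv
    rw [Bool.eq_iff_iff]
    have h1 := ment_enc G ⟨u, hu⟩ ⟨v, hv⟩
    have h2 := ment_enc G ⟨v, hv⟩ ⟨u, hu⟩
    simp only at h1 h2
    rw [h1, h2]
    exact ⟨fun h => h.symm, fun h => h.symm⟩

theorem mchkG_spec {n d : ℕ} {x : List Bool} (h : mchkG d x n = true) :
    ∃ G : SimpleGraph (Fin n), x = enc G ∧ MaxDegLE G d := by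
  classical
  simp only [mchkG, List.all_eq_true, List.mem_range,
    Bool.and_eq_true, Bool.not_eq_true', decide_eq_true_eq, beq_iff_eq] at h
  obtain ⟨hl, h⟩ := h
  let G : SimpleGraph (Fin n) :=
    { Adj := fun u v => ment x n u v = true
      symm := ⟨fun u v huv => by
        have := (h u u.2).2.2 v v.2
        rw [← this]
        exact huv⟩
      loopless := ⟨fun u hu => by
        rw [(h u u.2).1] at hu
        exact absurd hu (by simp)⟩ }
  have hG : ∀ u v : Fin n, ment x n u v = true ↔ G.Adj u v := fun _ _ => Iff.rfl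
  refine ⟨G, ?_, ?_⟩
  · unfold enc
    rw [mflat_eq]
    apply List.ext_getElem
    · rw [List.length_ofFn, hl]
    · intro i h1 h2
      rw [List.getElem_ofFn]
      have h3 : ∀ (j : Fin (n * n)) (inst : Decidable (G.Adj j.divNat j.modNat)),
          @decide _ inst = ment x n j.divNat j.modNat := by
        intro j inst
        rw [Bool.eq_iff_iff, decide_eq_true_eq]
      refine Eq.trans ?_ (h3 ⟨i, hl ▸ h1⟩ _).symm
      rw [ment, Fin.coe_divNat, Fin.coe_modNat]
      show x[i] = x.getD (i / n * n + i % n) false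
      rw [Nat.div_add_mod', List.getD_eq_getElem _ _ h1]
  · intro u
    exact (deg_iff hG d u).1 (h u u.2).2.1

/-! ### The general lemma -/

section pt

variable {m : Bool} {α : Type} [Rep α]

@[fun_prop]
theorem PT.ment' {x : α → List Bool} {n u v : α → ℕ} (hx : PT m x) (hn : PT m n) (hu : PT m u)
    (hv : PT m v) : PT m (fun a => ment (x a) (n a) (u a) (v a)) := by
  unfold ment
  fun_prop

@[fun_prop]
theorem PT.mroot' {n : α → ℕ} (hn : PT m n) : PT m (fun a => mroot (n a)) := by
  unfold mroot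
  have h := H64.Cook.PT.filter' (m := m) (l := fun a => List.range (n a + 1))
    (f := fun z : α × ℕ => decide (z.2 * z.2 = n z.1)) (by fun_prop) (by fun_prop)
  fun_prop

theorem PT.mchkG' (d : ℕ) {x : α → List Bool} {n : α → ℕ} (hx : PT m x) (hn : PT m n) :
    PT m (fun a => mchkG d (x a) (n a)) := by
  unfold mchkG
  have h1 : PT m (fun z : α × ℕ => ((List.range (n z.1)).filter fun v =>
      ment (x z.1) (n z.1) z.2 v)) :=
    H64.Cook.PT.filter' (m := m) (l := fun z : α × ℕ => List.range (n z.1))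
      (f := fun z : (α × ℕ) × ℕ => ment (x z.1.1) (n z.1.1) z.1.2 z.2) (by fun_prop) (by fun_prop)
  have h2 : PT m (fun z : α × ℕ => ((List.range (n z.1)).all fun v =>
      ment (x z.1) (n z.1) z.2 v == ment (x z.1) (n z.1) v z.2)) :=
    H64.Cook.PT.all' (m := m) (l := fun z : α × ℕ => List.range (n z.1))
      (f := fun z : (α × ℕ) × ℕ => ment (x z.1.1) (n z.1.1) z.1.2 z.2 ==
        ment (x z.1.1) (n z.1.1) z.2 z.1.2) (by fun_prop) (by fun_prop)
  have h3 : PT m (fun z : α × ℕ => !(ment (x z.1) (n z.1) z.2 z.2) &&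
    (decide (((List.range (n z.1)).filter fun v => ment (x z.1) (n z.1) z.2 v).length ≤ d) &&
    ((List.range (n z.1)).all fun v =>
      ment (x z.1) (n z.1) z.2 v == ment (x z.1) (n z.1) v z.2))) := by
    refine PT.and' (by fun_prop) (PT.and' ?_ h2)
    exact PT.decideLe (PT.length' h1) (PT.const' d)
  have h4 := H64.Cook.PT.all' (m := m) (l := fun a => List.range (n a)) (by fun_prop) h3
  exact PT.and' (by fun_prop) h4

end pt

theorem mem_of_chk (d : ℕ) (Q : ∀ n : ℕ, SimpleGraph (Fin n) → Prop)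
    {chk : ℕ × (List Bool × List Bool) → Bool} (hchk : PT true chk) (q : Polynomial ℕ)
    (h1 : ∀ (n : ℕ) (G : SimpleGraph (Fin n)), Q n G →
      ∃ y : List Bool, y.length < q.eval (n * n) ∧ chk (n, enc G, y) = true)
    (h2 : ∀ (n : ℕ) (G : SimpleGraph (Fin n)) (y : List Bool), chk (n, enc G, y) = true → Q n G) :
    {x : List Bool | ∃ (n : ℕ) (G : SimpleGraph (Fin n)), x = enc G ∧ MaxDegLE G d ∧ Q n G} ∈
      NP := by
  refine mem_NP_of (c := fun z => mchkG d z.1 (mroot z.1.length) &&
    chk (mroot z.1.length, z.1, z.2)) ?_ q ?_ ?_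
  · refine PT.and' (PT.mchkG' d (by fun_prop) (by fun_prop)) ?_
    exact hchk.comp' (by fun_prop)
  · rintro x ⟨n, G, rfl, hd, hQ⟩
    obtain ⟨y, hy, hc⟩ := h1 n G hQ
    refine ⟨y, ?_, ?_⟩
    · rw [enc_len]
      exact hy
    · simp only [enc_len, mroot_sq, mchkG_enc hd, hc, Bool.and_self]
  · intro x y h
    simp only [Bool.and_eq_true] at h
    obtain ⟨h3, h4⟩ := h
    obtain ⟨G, hG, hd⟩ := mchkG_spec h3
    refine ⟨_, G, hG, hd, h2 _ G y ?_⟩
    rw [← hG]
    exact h4

/-! ### Colourings -/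

/-- The colour of the vertex `u`: the number of ones in the block `u` of length `k`. -/
def mcol (y : List Bool) (k u : ℕ) : ℕ :=
  ((List.range k).filter fun i => y.getD (u * k + i) false).length

@[fun_prop]
theorem PT.mcol' {m : Bool} {α : Type} [Rep α] {y : α → List Bool} (k : ℕ) {u : α → ℕ}
    (hy : PT m y) (hu : PT m u) : PT m (fun a => mcol (y a) k (u a)) := by
  unfold mcol
  refine PT.length' (H64.Cook.PT.filter' (m := m) (l := fun _ : α => List.range k)
    (f := fun z : α × ℕ => (y z.1).getD (u z.1 * k + z.2) false) (by fun_prop) (by fun_prop))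

/-- The word of a colouring. -/
def mword {n k : ℕ} (f : Fin n → Fin k) : List Bool :=
  (List.ofFn fun u : Fin n => List.ofFn fun i : Fin k => decide ((i : ℕ) < f u)).flatten

theorem mcol_mword {n k : ℕ} (f : Fin n → Fin k) (u : Fin n) : mcol (mword f) k u = f u := by
  unfold mcol
  have h1 : (List.range k).filter (fun i => (mword f).getD (u * k + i) false) =
      (List.range k).filter (fun i => decide (i < (f u : ℕ))) := by
    apply List.filter_congr
    intro i hi
    rw [List.mem_range] at hi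
    exact mflat_getD (fun u i => decide ((i : ℕ) < f u)) u ⟨i, hi⟩
  rw [h1]
  have h2 : ∀ c ≤ k, ((List.range k).filter (fun i => decide (i < c))).length = c := by
    intro c hc
    rw [← List.toFinset_card_of_nodup (List.nodup_range.filter _)]
    have : ((List.range k).filter (fun i => decide (i < c))).toFinset = Finset.range c := by
      ext i
      simp only [List.mem_toFinset, List.mem_filter, List.mem_range, decide_eq_true_eq,
        Finset.mem_range]
      omega
    rw [this, Finset.card_range]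
  exact h2 _ (f u).2.le

/-- The check that `y` is a proper colouring of the graph `x` with `n` vertices. -/
def mchkC (k : ℕ) (z : ℕ × (List Bool × List Bool)) : Bool :=
  (List.range z.1).all fun u => decide (mcol z.2.2 k u < k) &&
    ((List.range z.1).all fun v =>
      !(ment z.2.1 z.1 u v && decide (mcol z.2.2 k u = mcol z.2.2 k v)))

theorem PT.mchkC' (k : ℕ) : PT true (mchkC k) := by
  unfold mchkC
  have h1 : PT true (fun w : (ℕ × (List Bool × List Bool)) × ℕ =>
      (List.range w.1.1).all fun v =>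
      !(ment w.1.2.1 w.1.1 w.2 v && decide (mcol w.1.2.2 k w.2 = mcol w.1.2.2 k v))) :=
    H64.Cook.PT.all' (m := true) (l := fun w : (ℕ × (List Bool × List Bool)) × ℕ => List.range w.1.1)
      (f := fun w : ((ℕ × (List Bool × List Bool)) × ℕ) × ℕ =>
        !(ment w.1.1.2.1 w.1.1.1 w.1.2 w.2 &&
          decide (mcol w.1.1.2.2 k w.1.2 = mcol w.1.1.2.2 k w.2))) (by fun_prop) (by fun_prop)
  exact H64.Cook.PT.all' (m := true) (l := fun z : ℕ × (List Bool × List Bool) => List.range z.1)
    (f := fun w : (ℕ × (List Bool × List Bool)) × ℕ => decide (mcol w.1.2.2 k w.2 < k) &&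
      ((List.range w.1.1).all fun v =>
      !(ment w.1.2.1 w.1.1 w.2 v && decide (mcol w.1.2.2 k w.2 = mcol w.1.2.2 k v))))
    (by fun_prop) (PT.and' (by fun_prop) h1)

theorem mchkC_of {n k : ℕ} {G : SimpleGraph (Fin n)} {f : Fin n → Fin k} (hf : IsCol G f) :
    mchkC k (n, enc G, mword f) = true := by
  simp only [mchkC, List.all_eq_true, List.mem_range, Bool.and_eq_true, decide_eq_true_eq,
    Bool.not_eq_true', Bool.and_eq_false_iff, decide_eq_false_iff_not]
  intro u hu
  refine ⟨?_, ?_⟩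
  · have := mcol_mword f ⟨u, hu⟩
    simp only at this
    rw [this]
    exact (f _).2
  · intro v hv
    by_cases h : G.Adj ⟨u, hu⟩ ⟨v, hv⟩
    · right
      have h1 := mcol_mword f ⟨u, hu⟩
      have h2 := mcol_mword f ⟨v, hv⟩
      simp only at h1 h2
      rw [h1, h2]
      intro h3
      exact hf _ _ h (Fin.ext h3)
    · left
      have := (ment_enc G ⟨u, hu⟩ ⟨v, hv⟩).not.2 h
      simpa using this

theorem exists_of_mchkC {n k : ℕ} {G : SimpleGraph (Fin n)} {y : List Bool}
    (h : mchkC k (n, enc G, y) = true) :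
    ∃ f : Fin n → Fin k, (∀ u, (f u : ℕ) = mcol y k u) ∧ IsCol G f := by
  simp only [mchkC, List.all_eq_true, List.mem_range, Bool.and_eq_true, decide_eq_true_eq,
    Bool.not_eq_true', Bool.and_eq_false_iff, decide_eq_false_iff_not] at h
  refine ⟨fun u => ⟨mcol y k u, (h u u.2).1⟩, fun _ => rfl, ?_⟩
  intro u v huv he
  rcases (h u u.2).2 v v.2 with h1 | h1
  · rw [(ment_enc G u v).2 huv] at h1
    exact absurd h1 (by simp)
  · exact h1 (Fin.ext_iff.1 he)

theorem mword_length {n k : ℕ} (f : Fin n → Fin k) :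
    (mword f).length < (Polynomial.C k * Polynomial.X + 1 : Polynomial ℕ).eval (n * n) := by
  unfold mword
  rw [mflat_length]
  simp only [Polynomial.eval_add, Polynomial.eval_mul, Polynomial.eval_C, Polynomial.eval_X,
    Polynomial.eval_one]
  have h := Nat.mul_le_mul_left k (Nat.le_mul_self n)
  rw [Nat.mul_comm n k]
  omega

/-- The additional check for star colourings. -/
def mchkS (k : ℕ) (z : ℕ × (List Bool × List Bool)) : Bool :=
  (List.range z.1).all fun a => (List.range z.1).all fun b => (List.range z.1).all fun c =>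
    (List.range z.1).all fun d =>
      !(ment z.2.1 z.1 a b && (ment z.2.1 z.1 b c && (ment z.2.1 z.1 c d &&
        (!(decide (a = c)) && (!(decide (a = d)) && (!(decide (b = d)) &&
        (decide (mcol z.2.2 k a = mcol z.2.2 k c) &&
          decide (mcol z.2.2 k b = mcol z.2.2 k d))))))))

theorem PT.mchkS' (k : ℕ) : PT true (mchkS k) := by
  unfold mchkS
  refine H64.Cook.PT.all' (m := true) (l := fun z : ℕ × (List Bool × List Bool) => List.range z.1)
    (f := fun w : (ℕ × (List Bool × List Bool)) × ℕ =>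
    (List.range w.1.1).all fun b => (List.range w.1.1).all fun c =>
    (List.range w.1.1).all fun d =>
      !(ment w.1.2.1 w.1.1 w.2 b && (ment w.1.2.1 w.1.1 b c && (ment w.1.2.1 w.1.1 c d &&
        (!(decide (w.2 = c)) && (!(decide (w.2 = d)) && (!(decide (b = d)) &&
        (decide (mcol w.1.2.2 k w.2 = mcol w.1.2.2 k c) &&
          decide (mcol w.1.2.2 k b = mcol w.1.2.2 k d)))))))))
    (by fun_prop) ?_
  refine H64.Cook.PT.all' (m := true)
    (l := fun w : (ℕ × (List Bool × List Bool)) × ℕ => List.range w.1.1)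
    (f := fun w : ((ℕ × (List Bool × List Bool)) × ℕ) × ℕ =>
    (List.range w.1.1.1).all fun c => (List.range w.1.1.1).all fun d =>
      !(ment w.1.1.2.1 w.1.1.1 w.1.2 w.2 && (ment w.1.1.2.1 w.1.1.1 w.2 c &&
        (ment w.1.1.2.1 w.1.1.1 c d &&
        (!(decide (w.1.2 = c)) && (!(decide (w.1.2 = d)) && (!(decide (w.2 = d)) &&
        (decide (mcol w.1.1.2.2 k w.1.2 = mcol w.1.1.2.2 k c) &&
          decide (mcol w.1.1.2.2 k w.2 = mcol w.1.1.2.2 k d)))))))))
    (by fun_prop) ?_
  refine H64.Cook.PT.all' (m := true)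
    (l := fun w : ((ℕ × (List Bool × List Bool)) × ℕ) × ℕ => List.range w.1.1.1)
    (f := fun w : (((ℕ × (List Bool × List Bool)) × ℕ) × ℕ) × ℕ =>
    (List.range w.1.1.1.1).all fun d =>
      !(ment w.1.1.1.2.1 w.1.1.1.1 w.1.1.2 w.1.2 && (ment w.1.1.1.2.1 w.1.1.1.1 w.1.2 w.2 &&
        (ment w.1.1.1.2.1 w.1.1.1.1 w.2 d &&
        (!(decide (w.1.1.2 = w.2)) && (!(decide (w.1.1.2 = d)) && (!(decide (w.1.2 = d)) &&
        (decide (mcol w.1.1.1.2.2 k w.1.1.2 = mcol w.1.1.1.2.2 k w.2) &&
          decide (mcol w.1.1.1.2.2 k w.1.2 = mcol w.1.1.1.2.2 k d)))))))))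
    (by fun_prop) ?_
  exact H64.Cook.PT.all' (m := true)
    (l := fun w : (((ℕ × (List Bool × List Bool)) × ℕ) × ℕ) × ℕ => List.range w.1.1.1.1)
    (f := fun w : ((((ℕ × (List Bool × List Bool)) × ℕ) × ℕ) × ℕ) × ℕ =>
      !(ment w.1.1.1.1.2.1 w.1.1.1.1.1 w.1.1.1.2 w.1.1.2 &&
        (ment w.1.1.1.1.2.1 w.1.1.1.1.1 w.1.1.2 w.1.2 &&
        (ment w.1.1.1.1.2.1 w.1.1.1.1.1 w.1.2 w.2 &&
        (!(decide (w.1.1.1.2 = w.1.2)) && (!(decide (w.1.1.1.2 = w.2)) &&
        (!(decide (w.1.1.2 = w.2)) &&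
        (decide (mcol w.1.1.1.1.2.2 k w.1.1.1.2 = mcol w.1.1.1.1.2.2 k w.1.2) &&
          decide (mcol w.1.1.1.1.2.2 k w.1.1.2 = mcol w.1.1.1.1.2.2 k w.2)))))))))
    (by fun_prop) (by fun_prop)

theorem card_star {k : ℕ} {a b c d : Fin k} (hab : a ≠ b) (hbc : b ≠ c) (hcd : c ≠ d) :
    2 < ({a, b, c, d} : Finset (Fin k)).card ↔ ¬ (a = c ∧ b = d) := by
  constructor
  · rintro h ⟨rfl, rfl⟩
    have h1 : ({a, b, a, b} : Finset (Fin k)) ⊆ {a, b} := by
      intro x hx
      simp only [Finset.mem_insert, Finset.mem_singleton] at hx ⊢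
      tauto
    have h2 := Finset.card_le_card h1
    have h3 : ({a, b} : Finset (Fin k)).card ≤ 2 := Finset.card_le_two
    omega
  · intro h
    by_cases hac : a = c
    · have hbd : b ≠ d := fun h' => h ⟨hac, h'⟩
      have h1 : ({b, c, d} : Finset (Fin k)) ⊆ {a, b, c, d} := by
        intro x hx
        simp only [Finset.mem_insert, Finset.mem_singleton] at hx ⊢
        tauto
      have h2 := Finset.card_le_card h1
      rw [Finset.card_eq_three.2 ⟨b, c, d, hbc, hbd, hcd, rfl⟩] at h2
      omega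
    · have h1 : ({a, b, c} : Finset (Fin k)) ⊆ {a, b, c, d} := by
        intro x hx
        simp only [Finset.mem_insert, Finset.mem_singleton] at hx ⊢
        tauto
      have h2 := Finset.card_le_card h1
      rw [Finset.card_eq_three.2 ⟨a, b, c, hab, hac, hbc, rfl⟩] at h2
      omega

/-- Job THR-2. -/
theorem mem_star (k d : ℕ) :
    {x : List Bool | ∃ (n : ℕ) (G : SimpleGraph (Fin n)), x = enc G ∧ MaxDegLE G d ∧
      StarColourable k G} ∈ NP := by
  refine mem_of_chk d (fun _ G => StarColourable k G)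
    (chk := fun z => mchkC k z && mchkS k z) (PT.and' (PT.mchkC' k) (PT.mchkS' k))
    (Polynomial.C k * Polynomial.X + 1) ?_ ?_
  · rintro n G ⟨f, hf, hs⟩
    refine ⟨mword f, mword_length f, ?_⟩
    rw [mchkC_of hf, Bool.true_and]
    simp only [mchkS, List.all_eq_true, List.mem_range, Bool.not_eq_true']
    intro a ha b hb c hc e he
    rw [← Bool.not_eq_true]
    simp only [Bool.and_eq_true, Bool.not_eq_true', decide_eq_true_eq, decide_eq_false_iff_not]
    rintro ⟨h1, h2, h3, h4, h5, h6, h7, h8⟩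
    have g1 := (ment_enc G ⟨a, ha⟩ ⟨b, hb⟩).1 h1
    have g2 := (ment_enc G ⟨b, hb⟩ ⟨c, hc⟩).1 h2
    have g3 := (ment_enc G ⟨c, hc⟩ ⟨e, he⟩).1 h3
    have g := hs _ _ _ _ g1 g2 g3 (fun h => h4 (Fin.ext_iff.1 h)) (fun h => h5 (Fin.ext_iff.1 h))
      (fun h => h6 (Fin.ext_iff.1 h))
    rw [card_star (hf _ _ g1) (hf _ _ g2) (hf _ _ g3)] at g
    apply g
    have k1 := mcol_mword f ⟨a, ha⟩
    have k2 := mcol_mword f ⟨b, hb⟩
    have k3 := mcol_mword f ⟨c, hc⟩
    have k4 := mcol_mword f ⟨e, he⟩
    simp only at k1 k2 k3 k4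
    rw [k1, k3] at h7
    rw [k2, k4] at h8
    exact ⟨Fin.ext h7, Fin.ext h8⟩
  · intro n G y h
    simp only [Bool.and_eq_true] at h
    obtain ⟨hC, hS⟩ := h
    obtain ⟨f, hf, hcol⟩ := exists_of_mchkC hC
    refine ⟨f, hcol, ?_⟩
    intro a b c e h1 h2 h3 h4 h5 h6
    rw [card_star (hcol _ _ h1) (hcol _ _ h2) (hcol _ _ h3)]
    rintro ⟨h7, h8⟩
    simp only [mchkS, List.all_eq_true, List.mem_range, Bool.not_eq_true'] at hS
    have h9 := hS a a.2 b b.2 c c.2 e e.2
    rw [← Bool.not_eq_true] at h9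
    apply h9
    simp only [Bool.and_eq_true, Bool.not_eq_true', decide_eq_true_eq, decide_eq_false_iff_not]
    refine ⟨(ment_enc G a b).2 h1, (ment_enc G b c).2 h2, (ment_enc G c e).2 h3,
      fun h => h4 (Fin.ext h), fun h => h5 (Fin.ext h), fun h => h6 (Fin.ext h), ?_, ?_⟩
    · rw [← hf, ← hf, h7]
    · rw [← hf, ← hf, h8]

/-- The additional check for rs colourings. -/
def mchkR (k : ℕ) (z : ℕ × (List Bool × List Bool)) : Bool :=
  (List.range z.1).all fun a => (List.range z.1).all fun b => (List.range z.1).all fun c =>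
      !(ment z.2.1 z.1 a b && (ment z.2.1 z.1 b c && (!(decide (a = c)) &&
        (decide (mcol z.2.2 k a = mcol z.2.2 k c) &&
          decide (mcol z.2.2 k c < mcol z.2.2 k b)))))

theorem PT.mchkR' (k : ℕ) : PT true (mchkR k) := by
  unfold mchkR
  refine H64.Cook.PT.all' (m := true) (l := fun z : ℕ × (List Bool × List Bool) => List.range z.1)
    (f := fun w : (ℕ × (List Bool × List Bool)) × ℕ =>
    (List.range w.1.1).all fun b => (List.range w.1.1).all fun c =>
      !(ment w.1.2.1 w.1.1 w.2 b && (ment w.1.2.1 w.1.1 b c && (!(decide (w.2 = c)) &&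
        (decide (mcol w.1.2.2 k w.2 = mcol w.1.2.2 k c) &&
          decide (mcol w.1.2.2 k c < mcol w.1.2.2 k b))))))
    (by fun_prop) ?_
  refine H64.Cook.PT.all' (m := true)
    (l := fun w : (ℕ × (List Bool × List Bool)) × ℕ => List.range w.1.1)
    (f := fun w : ((ℕ × (List Bool × List Bool)) × ℕ) × ℕ =>
    (List.range w.1.1.1).all fun c =>
      !(ment w.1.1.2.1 w.1.1.1 w.1.2 w.2 && (ment w.1.1.2.1 w.1.1.1 w.2 c &&
        (!(decide (w.1.2 = c)) && (decide (mcol w.1.1.2.2 k w.1.2 = mcol w.1.1.2.2 k c) &&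
          decide (mcol w.1.1.2.2 k c < mcol w.1.1.2.2 k w.2))))))
    (by fun_prop) ?_
  exact H64.Cook.PT.all' (m := true)
    (l := fun w : ((ℕ × (List Bool × List Bool)) × ℕ) × ℕ => List.range w.1.1.1)
    (f := fun w : (((ℕ × (List Bool × List Bool)) × ℕ) × ℕ) × ℕ =>
      !(ment w.1.1.1.2.1 w.1.1.1.1 w.1.1.2 w.1.2 && (ment w.1.1.1.2.1 w.1.1.1.1 w.1.2 w.2 &&
        (!(decide (w.1.1.2 = w.2)) &&
        (decide (mcol w.1.1.1.2.2 k w.1.1.2 = mcol w.1.1.1.2.2 k w.2) &&
          decide (mcol w.1.1.1.2.2 k w.2 < mcol w.1.1.1.2.2 k w.1.2))))))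
    (by fun_prop) (by fun_prop)

/-- Job THR-2. -/
theorem mem_rs (k d : ℕ) :
    {x : List Bool | ∃ (n : ℕ) (G : SimpleGraph (Fin n)), x = enc G ∧ MaxDegLE G d ∧
      RSColourable k G} ∈ NP := by
  refine mem_of_chk d (fun _ G => RSColourable k G)
    (chk := fun z => mchkC k z && mchkR k z) (PT.and' (PT.mchkC' k) (PT.mchkR' k))
    (Polynomial.C k * Polynomial.X + 1) ?_ ?_
  · rintro n G ⟨f, hf, hs⟩
    refine ⟨mword f, mword_length f, ?_⟩
    rw [mchkC_of hf, Bool.true_and]
    simp only [mchkR, List.all_eq_true, List.mem_range, Bool.not_eq_true']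
    intro a ha b hb c hc
    rw [← Bool.not_eq_true]
    simp only [Bool.and_eq_true, Bool.not_eq_true', decide_eq_true_eq, decide_eq_false_iff_not]
    rintro ⟨h1, h2, h4, h7, h8⟩
    have g1 := (ment_enc G ⟨a, ha⟩ ⟨b, hb⟩).1 h1
    have g2 := (ment_enc G ⟨b, hb⟩ ⟨c, hc⟩).1 h2
    refine hs _ _ _ g1 g2 (fun h => h4 (Fin.ext_iff.1 h)) ?_
    have k1 := mcol_mword f ⟨a, ha⟩
    have k2 := mcol_mword f ⟨b, hb⟩
    have k3 := mcol_mword f ⟨c, hc⟩
    simp only at k1 k2 k3
    rw [k1, k3] at h7
    rw [k2, k3] at h8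
    exact ⟨Fin.ext h7, h8⟩
  · intro n G y h
    simp only [Bool.and_eq_true] at h
    obtain ⟨hC, hS⟩ := h
    obtain ⟨f, hf, hcol⟩ := exists_of_mchkC hC
    refine ⟨f, hcol, ?_⟩
    rintro a b c h1 h2 h4 ⟨h7, h8⟩
    simp only [mchkR, List.all_eq_true, List.mem_range, Bool.not_eq_true'] at hS
    have h9 := hS a a.2 b b.2 c c.2
    rw [← Bool.not_eq_true] at h9
    apply h9
    simp only [Bool.and_eq_true, Bool.not_eq_true', decide_eq_true_eq, decide_eq_false_iff_not]
    refine ⟨(ment_enc G a b).2 h1, (ment_enc G b c).2 h2, fun h => h4 (Fin.ext h), ?_, ?_⟩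
    · rw [← hf, ← hf, h7]
    · rw [← hf, ← hf]
      exact h8

end Pool.Agent.H79.Thr
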