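import Pool.Agent.H79.Thr.Col3

/-!
# `k`-colourability is NP-hard
-/

namespace Pool.Agent.H79.Thr

open Pool.Agent.PPS Pool.Agent.H64.Cook

/-- Add `r` new vertices `(i + 1, default)`, `i < r`, joined to each other and to all vertices
`(0, v)`, where `v` is an endpoint of an edge in `E`; the old edges are those between the
`(0, v)`. -/
def addClique {α : Type} [Inhabited α] (r : ℕ) (E : List (α × α)) :
    List ((ℕ × α) × (ℕ × α)) :=
  E.map (fun e => ((0, e.1), (0, e.2))) ++
  (List.range r).flatMap (fun i =>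
    (List.range i).map (fun j => ((i + 1, default), (j + 1, default))) ++
    E.flatMap (fun e => [((i + 1, default), (0, e.1)), ((i + 1, default), (0, e.2))]))

theorem mem_addClique {α : Type} [Inhabited α] {r : ℕ} {E : List (α × α)}
    {e : (ℕ × α) × (ℕ × α)} : e ∈ addClique r E ↔
      (∃ d ∈ E, e = ((0, d.1), (0, d.2))) ∨
      ∃ i, i < r ∧ ((∃ j, j < i ∧ e = ((i + 1, default), (j + 1, default))) ∨
        ∃ d ∈ E, e = ((i + 1, default), (0, d.1)) ∨ e = ((i + 1, default), (0, d.2))) := by
  simp only [addClique, List.mem_append, List.mem_map, List.mem_flatMap, List.mem_range,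
    List.mem_cons, List.not_mem_nil, or_false, eq_comm]

/-- Job THR-4. -/
theorem addClique_loopless {α : Type} [Inhabited α] (r : ℕ) (E : List (α × α))
    (h : ∀ e ∈ E, e.1 ≠ e.2) : ∀ e ∈ addClique r E, e.1 ≠ e.2 := by
  intro e he
  rw [mem_addClique] at he
  rcases he with ⟨d, hd, rfl⟩ | ⟨i, -, ⟨j, hj, rfl⟩ | ⟨d, -, rfl | rfl⟩⟩
  · intro h'
    exact h d hd (congrArg Prod.snd h')
  · intro h'
    have : i + 1 = j + 1 := congrArg Prod.fst h'
    omega
  · intro h'
    have : i + 1 = 0 := congrArg Prod.fst h'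
    omega
  · intro h'
    have : i + 1 = 0 := congrArg Prod.fst h'
    omega

/-- Job THR-4. -/
theorem addClique_iff {α : Type} [Inhabited α] (r : ℕ) (E : List (α × α)) :
    EColourable (3 + r) (addClique r E) ↔ EColourable 3 E := by
  classical
  constructor
  · rintro ⟨h, hh⟩
    let c : Fin r → Fin (3 + r) := fun i => h ((i : ℕ) + 1, default)
    have hc : Function.Injective c := by
      intro i j hij
      by_contra hne
      rcases lt_or_gt_of_ne hne with hlt | hlt
      · exact hh (((j : ℕ) + 1, default), ((i : ℕ) + 1, default))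
          (mem_addClique.2 (Or.inr ⟨j, j.2, Or.inl ⟨i, hlt, rfl⟩⟩)) hij.symm
      · exact hh (((i : ℕ) + 1, default), ((j : ℕ) + 1, default))
          (mem_addClique.2 (Or.inr ⟨i, i.2, Or.inl ⟨j, hlt, rfl⟩⟩)) hij
    let C : Finset (Fin (3 + r)) := (Finset.univ.image c)ᶜ
    have hC : C.card = 3 := by
      rw [Finset.card_compl, Finset.card_image_of_injective _ hc, Finset.card_univ,
        Fintype.card_fin, Fintype.card_fin]
      omega
    have eq : C ≃ Fin 3 := Finset.equivFinOfCardEq hC
    have hmem : ∀ v : α, (∀ i : ℕ, i < r → h (i + 1, default) ≠ h (0, v)) → h (0, v) ∈ C := by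
      intro v hv
      rw [Finset.mem_compl, Finset.mem_image]
      rintro ⟨i, -, hi⟩
      exact hv i i.2 hi
    refine ⟨fun v => if hv : h (0, v) ∈ C then eq ⟨h (0, v), hv⟩ else 0, ?_⟩
    intro e he
    have h1 : h (0, e.1) ∈ C := hmem _ (fun i hi =>
      hh ((i + 1, default), (0, e.1))
        (mem_addClique.2 (Or.inr ⟨i, hi, Or.inr ⟨e, he, Or.inl rfl⟩⟩)))
    have h2 : h (0, e.2) ∈ C := hmem _ (fun i hi =>
      hh ((i + 1, default), (0, e.2))
        (mem_addClique.2 (Or.inr ⟨i, hi, Or.inr ⟨e, he, Or.inr rfl⟩⟩)))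
    simp only [dif_pos h1, dif_pos h2]
    intro h3
    have h4 := eq.injective h3
    have h5 : h (0, e.1) = h (0, e.2) := congrArg Subtype.val h4
    exact hh ((0, e.1), (0, e.2)) (mem_addClique.2 (Or.inl ⟨e, he, rfl⟩)) h5
  · rintro ⟨h, hh⟩
    refine ⟨fun x => if x.1 = 0 then Fin.castAdd r (h x.2) else
      if hx : x.1 - 1 < r then Fin.natAdd 3 ⟨x.1 - 1, hx⟩ else Fin.castAdd r 0, ?_⟩
    intro e he
    rw [mem_addClique] at he
    rcases he with ⟨d, hd, rfl⟩ | ⟨i, hi, ⟨j, hj, rfl⟩ | ⟨d, -, rfl | rfl⟩⟩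
    · simp only [if_true]
      intro h'
      exact hh d hd (Fin.castAdd_injective 3 r h')
    · have h1 : i + 1 ≠ 0 := by omega
      have h2 : j + 1 ≠ 0 := by omega
      have h3 : i + 1 - 1 < r := by omega
      have h4 : j + 1 - 1 < r := by omega
      simp only [if_neg h1, if_neg h2, dif_pos h3, dif_pos h4]
      intro h'
      have h5 := congrArg Fin.val h'
      simp only [Fin.val_natAdd] at h5
      omega
    · have h1 : i + 1 ≠ 0 := by omega
      have h3 : i + 1 - 1 < r := by omega
      simp only [if_neg h1, dif_pos h3, if_true]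
      intro h'
      have h5 := congrArg Fin.val h'
      simp only [Fin.val_natAdd, Fin.val_castAdd] at h5
      omega
    · have h1 : i + 1 ≠ 0 := by omega
      have h3 : i + 1 - 1 < r := by omega
      simp only [if_neg h1, dif_pos h3, if_true]
      intro h'
      have h5 := congrArg Fin.val h'
      simp only [Fin.val_natAdd, Fin.val_castAdd] at h5
      omega

/-- Job THR-4. **`k`-colourability is NP-hard.** -/
theorem hardk {k : ℕ} (hk : 3 ≤ k) {L : Set (List Bool)} (hL : L ∈ NP) :
    ∃ φ : List Bool → List ((ℕ × V3) × (ℕ × V3)), PT true φ ∧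
      ∀ x, (∀ e ∈ φ x, e.1 ≠ e.2) ∧ (x ∈ L ↔ EColourable k (φ x)) := by
  obtain ⟨φ, hφ, h⟩ := hard3 hL
  obtain ⟨r, rfl⟩ := Nat.exists_eq_add_of_le hk
  refine ⟨fun x => addClique r (φ x), ?_, fun x => ⟨addClique_loopless r _ (h x).1, ?_⟩⟩
  · unfold addClique
    refine PT.append' ?_ ?_
    · exact PT.map' (m := true) (l := φ)
        (f := fun z : List Bool × (V3 × V3) => (((0 : ℕ), z.2.1), ((0 : ℕ), z.2.2))) hφ
        (by fun_prop)
    · refine PT.flatMap' (m := true) (l := fun _ => List.range r)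
        (f := fun z : List Bool × ℕ =>
          (List.range z.2).map (fun j => ((z.2 + 1, (default : V3)), (j + 1, (default : V3)))) ++
          (φ z.1).flatMap (fun e => [((z.2 + 1, (default : V3)), ((0 : ℕ), e.1)),
            ((z.2 + 1, (default : V3)), ((0 : ℕ), e.2))])) (by fun_prop) ?_
      refine PT.append' ?_ ?_
      · exact PT.map' (m := true) (l := fun z : List Bool × ℕ => List.range z.2)
          (f := fun w : (List Bool × ℕ) × ℕ =>
            ((w.1.2 + 1, (default : V3)), (w.2 + 1, (default : V3)))) (by fun_prop)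
          (by fun_prop)
      · exact PT.flatMap' (m := true) (l := fun z : List Bool × ℕ => φ z.1)
          (f := fun w : (List Bool × ℕ) × (V3 × V3) =>
            [((w.1.2 + 1, (default : V3)), ((0 : ℕ), w.2.1)),
              ((w.1.2 + 1, (default : V3)), ((0 : ℕ), w.2.2))]) (by fun_prop)
          (by fun_prop)
  · rw [(h x).2, addClique_iff]

end Pool.Agent.H79.Thr
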