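import Pool.Agent.H79.Thr.Col

/-!
# 3-colourability is NP-hard
-/

namespace Pool.Agent.H79.Thr

open Pool.Agent.PPS Pool.Agent.H64.Cook

section build

/-- default variable -/
def z3 : Vr := (0, (0, (0, 0)))

/-- a vertex -/
def n3 (a b c : ℕ) (v : Vr) : V3 := (a, (b, (c, v)))

/-- palette vertex -/
def pal3 (b : ℕ) : V3 := n3 0 b 0 z3

/-- literal vertex -/
def lit3 (l : Bool × Vr) : V3 := n3 1 (bif l.1 then 1 else 0) 0 l.2

/-- edges of a variable -/
def varE3 (v : Vr) : List (V3 × V3) :=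
  [(lit3 (true, v), lit3 (false, v)), (lit3 (true, v), pal3 2), (lit3 (false, v), pal3 2)]

/-- edges of the OR gadget -/
def gadE3 (j i : ℕ) (l : Bool × Vr) : List (V3 × V3) :=
  [(n3 3 j i z3, n3 4 j i z3), (n3 4 j i z3, n3 2 j (i + 1) z3),
    (n3 3 j i z3, n3 2 j (i + 1) z3), (n3 2 j i z3, n3 3 j i z3), (lit3 l, n3 4 j i z3),
    (n3 2 j (i + 1) z3, pal3 2)]

/-- edges of a clause -/
def clauseE3 (j : ℕ) (C : List (Bool × Vr)) : List (V3 × V3) :=
  [(n3 2 j 0 z3, pal3 0), (n3 2 j 0 z3, pal3 2), (n3 2 j C.length z3, pal3 1)] ++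
    (List.range C.length).flatMap fun i => gadE3 j i (C.getD i (false, z3))

/-- edges of a formula -/
def edges3 (Φ : List (List (Bool × Vr))) : List (V3 × V3) :=
  [(pal3 0, pal3 1), (pal3 1, pal3 2), (pal3 2, pal3 0)] ++
    ((Φ.flatten.flatMap fun l => varE3 l.2) ++
      (List.range Φ.length).flatMap fun j => clauseE3 j (Φ.getD j []))

end build

section pt3

variable {m : Bool} {α : Type} [Rep α]

@[fun_prop]
theorem PT.n3' {a b c : α → ℕ} {v : α → Vr} (ha : PT m a) (hb : PT m b) (hc : PT m c)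
    (hv : PT m v) : PT m (fun x => n3 (a x) (b x) (c x) (v x)) := by
  unfold n3; fun_prop

@[fun_prop]
theorem PT.lit3' {l : α → Bool × Vr} (hl : PT m l) : PT m (fun x => lit3 (l x)) := by
  unfold lit3; fun_prop

theorem PT.varE3' {v : α → Vr} (hv : PT m v) : PT m (fun x => varE3 (v x)) := by
  unfold varE3; fun_prop

theorem PT.gadE3' {j i : α → ℕ} {l : α → Bool × Vr} (hj : PT m j) (hi : PT m i)
    (hl : PT m l) : PT m (fun x => gadE3 (j x) (i x) (l x)) := by
  unfold gadE3; fun_prop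

theorem PT.clauseE3' {j : α → ℕ} {C : α → List (Bool × Vr)} (hj : PT m j) (hC : PT m C) :
    PT m (fun x => clauseE3 (j x) (C x)) := by
  unfold clauseE3
  refine PT.append' (by fun_prop) ?_
  exact PT.flatMap' (m := m) (l := fun x => List.range (C x).length)
    (f := fun z : α × ℕ => gadE3 (j z.1) z.2 ((C z.1).getD z.2 (false, z3))) (by fun_prop)
    (PT.gadE3' (by fun_prop) (by fun_prop) (by fun_prop))

theorem PT.edges3' {Φ : α → List (List (Bool × Vr))} (hΦ : PT m Φ) :
    PT m (fun x => edges3 (Φ x)) := by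
  unfold edges3
  refine PT.append' (by fun_prop) (PT.append' ?_ ?_)
  · exact PT.flatMap' (m := m) (l := fun x => (Φ x).flatten)
      (f := fun z : α × (Bool × Vr) => varE3 z.2.2) (by fun_prop) (PT.varE3' (by fun_prop))
  · exact PT.flatMap' (m := m) (l := fun x => List.range (Φ x).length)
      (f := fun z : α × ℕ => clauseE3 z.2 ((Φ z.1).getD z.2 [])) (by fun_prop)
      (PT.clauseE3' (by fun_prop) (by fun_prop))

end pt3

section facts

theorem mem_varE3 {v : Vr} {e : V3 × V3} : e ∈ varE3 v ↔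
    e = (lit3 (true, v), lit3 (false, v)) ∨ e = (lit3 (true, v), pal3 2) ∨
      e = (lit3 (false, v), pal3 2) := by
  simp [varE3]

theorem mem_gadE3 {j i : ℕ} {l : Bool × Vr} {e : V3 × V3} : e ∈ gadE3 j i l ↔
    e = (n3 3 j i z3, n3 4 j i z3) ∨ e = (n3 4 j i z3, n3 2 j (i + 1) z3) ∨
    e = (n3 3 j i z3, n3 2 j (i + 1) z3) ∨ e = (n3 2 j i z3, n3 3 j i z3) ∨
    e = (lit3 l, n3 4 j i z3) ∨ e = (n3 2 j (i + 1) z3, pal3 2) := by
  simp [gadE3]

theorem mem_clauseE3 {j : ℕ} {C : List (Bool × Vr)} {e : V3 × V3} : e ∈ clauseE3 j C ↔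
    e = (n3 2 j 0 z3, pal3 0) ∨ e = (n3 2 j 0 z3, pal3 2) ∨
    e = (n3 2 j C.length z3, pal3 1) ∨
      ∃ i, i < C.length ∧ e ∈ gadE3 j i (C.getD i (false, z3)) := by
  simp only [clauseE3, List.cons_append, List.nil_append, List.mem_cons, List.mem_flatMap,
    List.mem_range]

theorem mem_edges3 {Φ : List (List (Bool × Vr))} {e : V3 × V3} : e ∈ edges3 Φ ↔
    e = (pal3 0, pal3 1) ∨ e = (pal3 1, pal3 2) ∨ e = (pal3 2, pal3 0) ∨
      (∃ l, l ∈ Φ.flatten ∧ e ∈ varE3 l.2) ∨
      ∃ j, j < Φ.length ∧ e ∈ clauseE3 j (Φ.getD j []) := by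
  simp only [edges3, List.cons_append, List.nil_append, List.mem_cons, List.mem_append,
    List.mem_flatMap, List.mem_range]

theorem fst_ne {a b : V3} (h : a.1 ≠ b.1) : a ≠ b := fun e => h (congrArg Prod.fst e)

theorem edges3_ne {Φ : List (List (Bool × Vr))} {e : V3 × V3} (he : e ∈ edges3 Φ) :
    e.1 ≠ e.2 := by
  rw [mem_edges3] at he
  rcases he with rfl | rfl | rfl | ⟨l, -, he⟩ | ⟨j, -, he⟩
  · simp [pal3, n3]
  · simp [pal3, n3]
  · simp [pal3, n3]
  · rw [mem_varE3] at he
    rcases he with rfl | rfl | rfl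
    · simp [lit3, n3]
    · exact fst_ne (by simp [lit3, pal3, n3])
    · exact fst_ne (by simp [lit3, pal3, n3])
  · rw [mem_clauseE3] at he
    rcases he with rfl | rfl | rfl | ⟨i, -, he⟩
    · exact fst_ne (by simp [pal3, n3])
    · exact fst_ne (by simp [pal3, n3])
    · exact fst_ne (by simp [pal3, n3])
    · rw [mem_gadE3] at he
      rcases he with rfl | rfl | rfl | rfl | rfl | rfl
      · exact fst_ne (by simp [n3])
      · exact fst_ne (by simp [n3])
      · exact fst_ne (by simp [n3])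
      · exact fst_ne (by simp [n3])
      · exact fst_ne (by simp [n3, lit3])
      · exact fst_ne (by simp [n3, pal3])

/-- the three colours -/
private theorem fin3_aux {a t f b : Fin 3} (h1 : t ≠ f) (h2 : f ≠ b) (h3 : b ≠ t)
    (h4 : a ≠ t) (h5 : a ≠ b) : a = f := by
  revert a t f b; decide

private theorem fin3_gad {t f b x y u w o : Fin 3} (h1 : t ≠ f) (h2 : f ≠ b) (h3 : b ≠ t)
    (hx : x = f) (hy : y = f) (huw : u ≠ w) (hwo : w ≠ o) (huo : u ≠ o) (hxu : x ≠ u)
    (hyw : y ≠ w) : o = f := by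
  subst hx; subst hy
  revert t b y u w o; decide

theorem sound3 {Φ : List (List (Bool × Vr))} (h : EColourable 3 (edges3 Φ)) : Sat Φ := by
  classical
  obtain ⟨h, hh⟩ := h
  have hE : ∀ e, e ∈ edges3 Φ → h e.1 ≠ h e.2 := hh
  have hTF : h (pal3 0) ≠ h (pal3 1) := hE (_, _) (mem_edges3.mpr (Or.inl rfl))
  have hFB : h (pal3 1) ≠ h (pal3 2) := hE (_, _) (mem_edges3.mpr (Or.inr (Or.inl rfl)))
  have hBT : h (pal3 2) ≠ h (pal3 0) :=
    hE (_, _) (mem_edges3.mpr (Or.inr (Or.inr (Or.inl rfl))))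
  have hvar : ∀ l, l ∈ Φ.flatten → ∀ e, e ∈ varE3 l.2 → h e.1 ≠ h e.2 := fun l hl e he =>
    hE e (mem_edges3.mpr (Or.inr (Or.inr (Or.inr (Or.inl ⟨l, hl, he⟩)))))
  have hcl : ∀ j, j < Φ.length → ∀ e, e ∈ clauseE3 j (Φ.getD j []) → h e.1 ≠ h e.2 :=
    fun j hj e he => hE e (mem_edges3.mpr (Or.inr (Or.inr (Or.inr (Or.inr ⟨j, hj, he⟩)))))
  have hlit : ∀ l, l ∈ Φ.flatten → h (lit3 l) ≠ h (pal3 2) := by
    rintro ⟨b, v⟩ hl
    cases b
    · exact hvar _ hl (_, _) (mem_varE3.mpr (Or.inr (Or.inr rfl)))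
    · exact hvar _ hl (_, _) (mem_varE3.mpr (Or.inr (Or.inl rfl)))
  refine ⟨fun v => decide (h (lit3 (true, v)) = h (pal3 0)), ?_⟩
  intro C hC
  by_contra hno
  obtain ⟨j, hj, hjC⟩ := List.mem_iff_getElem.mp hC
  have hjC' : Φ.getD j [] = C := by
    rw [List.getD_eq_getElem _ _ hj, hjC]
  have hc := hcl j hj
  rw [hjC'] at hc
  have hfl : ∀ l, l ∈ C → l ∈ Φ.flatten := fun l hl => List.mem_flatten.mpr ⟨C, hC, hl⟩
  -- no literal of the clause has the colour of `T`
  have hlF : ∀ l, l ∈ C → h (lit3 l) = h (pal3 1) := by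
    rintro ⟨b, v⟩ hl
    refine fin3_aux hTF hFB hBT ?_ (hlit _ (hfl _ hl))
    intro hT
    apply hno
    refine ⟨(b, v), hl, ?_⟩
    cases b
    · have h1 : h (lit3 (true, v)) ≠ h (lit3 (false, v)) :=
        hvar _ (hfl _ hl) (_, _) (mem_varE3.mpr (Or.inl rfl))
      rw [hT] at h1
      simp only [decide_eq_false_iff_not]
      exact h1
    · simp only [decide_eq_true_eq]
      exact hT
  have ho : ∀ i, i ≤ C.length → h (n3 2 j i z3) = h (pal3 1) := by
    intro i
    induction i with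
    | zero =>
      intro _
      refine fin3_aux hTF hFB hBT ?_ ?_
      · exact hc (_, _) (mem_clauseE3.mpr (Or.inl rfl))
      · exact hc (_, _) (mem_clauseE3.mpr (Or.inr (Or.inl rfl)))
    | succ i ih =>
      intro hi
      have hi' : i < C.length := hi
      have hg : ∀ e, e ∈ gadE3 j i (C.getD i (false, z3)) → h e.1 ≠ h e.2 := fun e he =>
        hc e (mem_clauseE3.mpr (Or.inr (Or.inr (Or.inr ⟨i, hi', he⟩))))
      have hl : h (lit3 (C.getD i (false, z3))) = h (pal3 1) := by
        apply hlF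
        rw [List.getD_eq_getElem _ _ hi']
        exact List.getElem_mem _
      refine fin3_gad hTF hFB hBT (ih hi'.le) hl
        (hg (n3 3 j i z3, n3 4 j i z3) (mem_gadE3.mpr (Or.inl rfl)))
        (hg (n3 4 j i z3, n3 2 j (i + 1) z3) (mem_gadE3.mpr (Or.inr (Or.inl rfl))))
        (hg (n3 3 j i z3, n3 2 j (i + 1) z3) (mem_gadE3.mpr (Or.inr (Or.inr (Or.inl rfl)))))
        (hg (n3 2 j i z3, n3 3 j i z3)
          (mem_gadE3.mpr (Or.inr (Or.inr (Or.inr (Or.inl rfl))))))
        (hg (lit3 _, n3 4 j i z3)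
          (mem_gadE3.mpr (Or.inr (Or.inr (Or.inr (Or.inr (Or.inl rfl)))))))
  exact hc (n3 2 j C.length z3, pal3 1)
    (mem_clauseE3.mpr (Or.inr (Or.inr (Or.inl rfl)))) (ho _ le_rfl)

open Classical in
/-- some literal among the first `i` ones is true -/
private def pre3 (σ : Vr → Bool) (C : List (Bool × Vr)) (i : ℕ) : Prop :=
  ∃ k, k < i ∧ k < C.length ∧ σ (C.getD k (false, z3)).2 = (C.getD k (false, z3)).1

open Classical in
/-- the colouring of a satisfied formula -/
private noncomputable def colour3 (σ : Vr → Bool) (Φ : List (List (Bool × Vr))) (p : V3) : Fin 3 :=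
  if p.1 = 0 then (if p.2.1 = 0 then 0 else if p.2.1 = 1 then 1 else 2)
  else if p.1 = 1 then
    (if p.2.1 = 1 then (if σ p.2.2.2 = true then 0 else 1)
      else (if σ p.2.2.2 = true then 1 else 0))
  else if p.1 = 2 then (if pre3 σ (Φ.getD p.2.1 []) p.2.2.1 then 0 else 1)
  else if p.1 = 3 then
    (if pre3 σ (Φ.getD p.2.1 []) p.2.2.1 then 1
      else if pre3 σ (Φ.getD p.2.1 []) (p.2.2.1 + 1) then 2 else 0)
  else (if pre3 σ (Φ.getD p.2.1 []) p.2.2.1 then 2
      else if pre3 σ (Φ.getD p.2.1 []) (p.2.2.1 + 1) then 1 else 2)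

theorem complete3 {Φ : List (List (Bool × Vr))} (h : Sat Φ) : EColourable 3 (edges3 Φ) := by
  classical
  obtain ⟨σ, hσ⟩ := h
  refine ⟨colour3 σ Φ, ?_⟩
  have c0 : colour3 σ Φ (pal3 0) = 0 := by simp [colour3, pal3, n3]
  have c1 : colour3 σ Φ (pal3 1) = 1 := by simp [colour3, pal3, n3]
  have c2 : colour3 σ Φ (pal3 2) = 2 := by simp [colour3, pal3, n3]
  have cl : ∀ l : Bool × Vr, colour3 σ Φ (lit3 l) = if σ l.2 = l.1 then 0 else 1 := by
    rintro ⟨b, v⟩
    cases b <;> cases hv : σ v <;> simp [colour3, lit3, n3, hv]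
  have co : ∀ j i, colour3 σ Φ (n3 2 j i z3) = if pre3 σ (Φ.getD j []) i then 0 else 1 := by
    intro j i; simp [colour3, n3]
  have cu : ∀ j i, colour3 σ Φ (n3 3 j i z3) = if pre3 σ (Φ.getD j []) i then 1
      else if pre3 σ (Φ.getD j []) (i + 1) then 2 else 0 := by
    intro j i; simp [colour3, n3]
  have cw : ∀ j i, colour3 σ Φ (n3 4 j i z3) = if pre3 σ (Φ.getD j []) i then 2
      else if pre3 σ (Φ.getD j []) (i + 1) then 1 else 2 := by
    intro j i; simp [colour3, n3]
  intro e he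
  rw [mem_edges3] at he
  rcases he with rfl | rfl | rfl | ⟨l, -, he⟩ | ⟨j, hj, he⟩
  · simp only [c0, c1]; decide
  · simp only [c1, c2]; decide
  · simp only [c2, c0]; decide
  · rw [mem_varE3] at he
    rcases he with rfl | rfl | rfl
    · simp only [cl]
      cases hv : σ l.2 <;> simp
    · simp only [cl, c2]
      split_ifs <;> decide
    · simp only [cl, c2]
      split_ifs <;> decide
  · have hC : Φ.getD j [] ∈ Φ := by
      rw [List.getD_eq_getElem _ _ hj]
      exact List.getElem_mem _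
    generalize hCe : Φ.getD j [] = C at he hC
    rw [mem_clauseE3] at he
    rcases he with rfl | rfl | rfl | ⟨i, hi, he⟩
    · simp only [co, c0, hCe]
      have : ¬ pre3 σ C 0 := by
        rintro ⟨k, hk, -⟩
        exact absurd hk (Nat.not_lt_zero k)
      rw [if_neg this]; decide
    · simp only [co, c2, hCe]
      split_ifs <;> decide
    · simp only [co, c1, hCe]
      have : pre3 σ C C.length := by
        obtain ⟨l, hl, hl2⟩ := hσ C hC
        obtain ⟨k, hk, hkl⟩ := List.mem_iff_getElem.mp hl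
        refine ⟨k, hk, hk, ?_⟩
        rw [List.getD_eq_getElem _ _ hk, hkl]
        exact hl2
      rw [if_pos this]; decide
    · have hs : pre3 σ C (i + 1) ↔ pre3 σ C i ∨
          σ (C.getD i (false, z3)).2 = (C.getD i (false, z3)).1 := by
        constructor
        · rintro ⟨k, hk, hk2, hk3⟩
          rcases Nat.lt_succ_iff_lt_or_eq.mp hk with hk | rfl
          · exact Or.inl ⟨k, hk, hk2, hk3⟩
          · exact Or.inr hk3
        · rintro (⟨k, hk, hk2, hk3⟩ | hk)
          · exact ⟨k, hk.trans (Nat.lt_succ_self i), hk2, hk3⟩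
          · exact ⟨i, Nat.lt_succ_self i, hi, hk⟩
      rw [mem_gadE3] at he
      rcases he with rfl | rfl | rfl | rfl | rfl | rfl
      · simp only [cu, cw, hCe]
        split_ifs <;> decide
      · simp only [cw, co, hCe, hs]
        by_cases h1 : pre3 σ C i
        · simp [h1]
        · by_cases h2 : σ (C.getD i (false, z3)).2 = (C.getD i (false, z3)).1
          · simp only [h1, h2, or_true, if_true, if_false]; decide
          · simp only [h1, h2, or_false, if_false]; decide
      · simp only [cu, co, hCe, hs]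
        by_cases h1 : pre3 σ C i
        · simp [h1]
        · by_cases h2 : σ (C.getD i (false, z3)).2 = (C.getD i (false, z3)).1
          · simp only [h1, h2, or_true, if_true, if_false]; decide
          · simp only [h1, h2, or_false, if_false]; decide
      · simp only [cu, co, hCe, hs]
        by_cases h1 : pre3 σ C i
        · simp [h1]
        · by_cases h2 : σ (C.getD i (false, z3)).2 = (C.getD i (false, z3)).1
          · simp only [h1, h2, or_true, if_true, if_false]; decide
          · simp only [h1, h2, or_false, if_false]; decide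
      · simp only [cl, cw, hCe, hs]
        by_cases h1 : pre3 σ C i
        · by_cases h2 : σ (C.getD i (false, z3)).2 = (C.getD i (false, z3)).1
          · simp only [h1, h2, if_true]; decide
          · simp only [h1, h2, if_true, if_false]; decide
        · by_cases h2 : σ (C.getD i (false, z3)).2 = (C.getD i (false, z3)).1
          · simp only [h1, h2, or_true, if_true, if_false]; decide
          · simp only [h1, h2, or_false, if_false]; decide
      · simp only [co, c2, hCe]
        split_ifs <;> decide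

end facts

/-- Job THR-3. **3-colourability is NP-hard** (reduction from `Sat`, `cookLevin`).

Suggested construction for `Φ : List (List (Bool × Vr))`. Write `0` for `(0, 0, (0, 0, 0)) : Vr`
(any fixed default).
* palette: `T = (0, 0, 0, 0)`, `Fa = (0, 1, 0, 0)`, `B = (0, 2, 0, 0)`, pairwise joined;
* for every variable `v` of `Φ`: `pos v = (1, 1, 0, v)`, `neg v = (1, 0, 0, v)`; the edges
  `pos v - neg v`, `pos v - B`, `neg v - B`;
* for clause number `j`: vertices `o j i = (2, j, i, 0)` for `i ≤ ℓ` (`ℓ` the length of the clause);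
  edges `o j 0 - T`, `o j 0 - B`, `o j ℓ - Fa`, and for `i < ℓ` the OR gadget: the triangle
  `u = (3, j, i, 0)`, `w = (4, j, i, 0)`, `o j (i+1)`, and the edges `o j i - u`, `lit - w`,
  `o j (i+1) - B`, where `lit` is `pos v` or `neg v` for the `i`-th literal `(b, v)` of the clause.
Then `o j (i+1)` can have the colour of `T` iff `o j i` or `lit` has it (otherwise it must have
the colour of `Fa`). -/
theorem hard3 {L : Set (List Bool)} (hL : L ∈ NP) :
    ∃ φ : List Bool → List (V3 × V3), PT true φ ∧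
      ∀ x, (∀ e ∈ φ x, e.1 ≠ e.2) ∧ (x ∈ L ↔ EColourable 3 (φ x)) := by
  obtain ⟨f, hf, hfx⟩ := cookLevin hL
  refine ⟨fun x => edges3 (f x), PT.edges3' hf, fun x => ⟨fun e he => edges3_ne he, ?_⟩⟩
  rw [hfx]
  exact ⟨complete3, sound3⟩

end Pool.Agent.H79.Thr
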