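import Pool.Agent.H79.Thr.Defs
import Pool.Agent.H64.ENC.Build

/-!
# From lists of edges to adjacency matrices
-/

namespace Pool.Agent.H79.Thr

open Pool.Agent.PPS Pool.Agent.H64.Cook

/-- The graph whose edges are listed in `RE` (in any orientation, repetitions allowed, loops are
ignored). -/
def relG {F : Type} (RE : List (F × F)) : SimpleGraph F where
  Adj a b := a ≠ b ∧ ((a, b) ∈ RE ∨ (b, a) ∈ RE)
  symm := ⟨fun _ _ h => ⟨h.1.symm, h.2.symm⟩⟩
  loopless := ⟨fun _ h => h.1 rfl⟩

section

variable {F : Type} [DecidableEq F]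

/-- The vertices of the edges listed in `RE`, each once. -/
def verts (RE : List (F × F)) : List F := (RE.flatMap fun e => [e.1, e.2]).dedup

/-- The adjacency matrix of the graph induced by `relG RE` on the vertices `verts RE`. -/
def mat (RE : List (F × F)) : List Bool :=
  (verts RE).flatMap fun u => (verts RE).map fun v =>
    !(decide (u = v)) && (decide ((u, v) ∈ RE) || decide ((v, u) ∈ RE))

theorem Conv.mem_verts {RE : List (F × F)} {a b : F} (h : (relG RE).Adj a b) :
    a ∈ verts RE := by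
  unfold verts
  rw [List.mem_dedup, List.mem_flatMap]
  rcases h.2 with h | h
  · exact ⟨(a, b), h, by simp⟩
  · exact ⟨(b, a), h, by simp⟩

omit [DecidableEq F] in
theorem Conv.transfer {n k : ℕ} (φ : Fin n → F) (hφ : Function.Injective φ) (H : SimpleGraph F)
    (hr : ∀ u v, H.Adj u v → ∃ i, φ i = u) (hk : 1 ≤ k) :
    (StarColourable k (H.comap φ) ↔ StarColourable k H) ∧
      (RSColourable k (H.comap φ) ↔ RSColourable k H) := by
  have hr' : ∀ u v, H.Adj u v → ∃ i, φ i = v := fun u v h => hr v u h.symm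
  have hext : ∀ f : Fin n → Fin k, ∃ g : F → Fin k, ∀ i, g (φ i) = f i := fun f =>
    ⟨Function.extend φ f (fun _ => ⟨0, hk⟩), fun i => hφ.extend_apply _ _ _⟩
  refine ⟨⟨?_, ?_⟩, ⟨?_, ?_⟩⟩
  · rintro ⟨f, hf1, hf2⟩
    obtain ⟨g, hg⟩ := hext f
    refine ⟨g, ?_, ?_⟩
    · intro u v huv
      obtain ⟨i, rfl⟩ := hr u v huv
      obtain ⟨j, rfl⟩ := hr' _ v huv
      rw [hg, hg]
      exact hf1 i j huv
    · intro a b c d hab hbc hcd hac had hbd
      obtain ⟨i, rfl⟩ := hr a b hab
      obtain ⟨j, rfl⟩ := hr b c hbc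
      obtain ⟨p, rfl⟩ := hr c d hcd
      obtain ⟨q, rfl⟩ := hr' _ d hcd
      rw [hg, hg, hg, hg]
      exact hf2 i j p q hab hbc hcd (fun h => hac (by rw [h])) (fun h => had (by rw [h]))
        (fun h => hbd (by rw [h]))
  · rintro ⟨f, hf1, hf2⟩
    refine ⟨fun i => f (φ i), fun u v huv => hf1 _ _ huv, ?_⟩
    intro a b c d hab hbc hcd hac had hbd
    exact hf2 _ _ _ _ hab hbc hcd (fun h => hac (hφ h)) (fun h => had (hφ h))
      (fun h => hbd (hφ h))
  · rintro ⟨f, hf1, hf2⟩
    obtain ⟨g, hg⟩ := hext f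
    refine ⟨g, ?_, ?_⟩
    · intro u v huv
      obtain ⟨i, rfl⟩ := hr u v huv
      obtain ⟨j, rfl⟩ := hr' _ v huv
      rw [hg, hg]
      exact hf1 i j huv
    · intro a b c hab hbc hac
      obtain ⟨i, rfl⟩ := hr a b hab
      obtain ⟨j, rfl⟩ := hr b c hbc
      obtain ⟨p, rfl⟩ := hr' _ c hbc
      rw [hg, hg, hg]
      exact hf2 i j p hab hbc (fun h => hac (by rw [h]))
  · rintro ⟨f, hf1, hf2⟩
    refine ⟨fun i => f (φ i), fun u v huv => hf1 _ _ huv, ?_⟩
    intro a b c hab hbc hac
    exact hf2 _ _ _ hab hbc (fun h => hac (hφ h))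

/-- Job THR-1. `mat RE` encodes a graph on `Fin n` that is isomorphic to `relG RE` without isolated
vertices. -/
theorem mat_spec (RE : List (F × F)) :
    ∃ (n : ℕ) (G : SimpleGraph (Fin n)), mat RE = enc G ∧
      (∀ d, MaxDegLE (relG RE) d → MaxDegLE G d) ∧
      (∀ k, 1 ≤ k → (StarColourable k G ↔ StarColourable k (relG RE))) ∧
      (∀ k, 1 ≤ k → (RSColourable k G ↔ RSColourable k (relG RE))) := by
  classical
  have hnd : (verts RE).Nodup := List.nodup_dedup _
  have hinj : Function.Injective (fun i : Fin (verts RE).length => (verts RE).get i) :=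
    List.nodup_iff_injective_get.1 hnd
  have hr : ∀ u v, (relG RE).Adj u v →
      ∃ i, (fun i : Fin (verts RE).length => (verts RE).get i) i = u := by
    intro u v huv
    obtain ⟨i, hi⟩ := List.get_of_mem (Conv.mem_verts huv)
    exact ⟨i, hi⟩
  refine ⟨(verts RE).length,
    (relG RE).comap (fun i : Fin (verts RE).length => (verts RE).get i), ?_, ?_, ?_, ?_⟩
  · have h1 : ∀ {γ : Type} (g : F → γ),
        (verts RE).map g = List.ofFn (fun i : Fin (verts RE).length => g ((verts RE).get i)) := by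
      intro γ g
      conv_lhs => rw [← List.ofFn_get (verts RE)]
      rw [List.map_ofFn]
      rfl
    unfold mat enc
    rw [List.flatMap_def, h1]
    congr 1
    congr 1
    funext u
    rw [h1]
    congr 1
    funext v
    rw [Bool.eq_iff_iff]
    simp [relG]
  · intro d hd v
    refine ⟨Set.toFinite _, ?_⟩
    refine le_trans ?_ (hd ((verts RE).get v)).2
    refine Set.ncard_le_ncard_of_injOn (fun i => (verts RE).get i) ?_ hinj.injOn
      (hd ((verts RE).get v)).1
    intro w hw
    exact hw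
  · intro k hk
    exact (Conv.transfer _ hinj (relG RE) hr hk).1
  · intro k hk
    exact (Conv.transfer _ hinj (relG RE) hr hk).2

/-- Job THR-1. `mat` is computable in polynomial time. -/
theorem PT.mat' [Rep F] {m : Bool} {α : Type} [Rep α] {RE : α → List (F × F)} (h : PT m RE) :
    PT m (fun a => mat (RE a)) := by
  have hv : PT m (fun a => verts (RE a)) := by
    unfold verts
    exact H64.ENC.PT.dedup' (H64.Cook.PT.flatMap' (m := m) (l := RE)
      (f := fun z : α × (F × F) => [z.2.1, z.2.2]) h (by fun_prop))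
  have hv1 : PT m (fun z : α × F => verts (RE z.1)) := hv.comp' PT.fst
  have h2 : PT m (fun z : (α × F) × F => RE z.1.1) := h.comp' (PT.fst.comp' PT.fst)
  have hmem1 : PT m (fun z : (α × F) × F => decide ((z.1.2, z.2) ∈ RE z.1.1)) := by
    have h3 := H64.Cook.PT.mem' (m := m) (l := fun z : (α × F) × F => RE z.1.1)
      (f := fun z : (α × F) × F => (z.1.2, z.2)) h2 (by fun_prop)
    exact h3.of_eq (fun z => decide_eq_decide.2 Iff.rfl)
  have hmem2 : PT m (fun z : (α × F) × F => decide ((z.2, z.1.2) ∈ RE z.1.1)) := by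
    have h3 := H64.Cook.PT.mem' (m := m) (l := fun z : (α × F) × F => RE z.1.1)
      (f := fun z : (α × F) × F => (z.2, z.1.2)) h2 (by fun_prop)
    exact h3.of_eq (fun z => decide_eq_decide.2 Iff.rfl)
  unfold mat
  refine H64.Cook.PT.flatMap' (m := m) (l := fun a => verts (RE a))
    (f := fun z : α × F => (verts (RE z.1)).map fun v =>
      !(decide (z.2 = v)) && (decide ((z.2, v) ∈ RE z.1) || decide ((v, z.2) ∈ RE z.1))) hv ?_
  refine PT.map' (m := m) (l := fun z : α × F => verts (RE z.1))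
    (f := fun z : (α × F) × F => !(decide (z.1.2 = z.2)) &&
      (decide ((z.1.2, z.2) ∈ RE z.1.1) || decide ((z.2, z.1.2) ∈ RE z.1.1))) hv1 ?_
  fun_prop

end

end Pool.Agent.H79.Thr
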