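import Pool.Agent.H79.Thr.Defs
import Pool.Agent.H64.ENC.Build

/-!
# Colourability of graphs that are given by lists of edges
-/

namespace Pool.Agent.H79.Thr

open Pool.Agent.PPS Pool.Agent.H64.Cook

/-- The graph with the edges listed in `E` is `k`-colourable. -/
def EColourable {α : Type} (k : ℕ) (E : List (α × α)) : Prop :=
  ∃ h : α → Fin k, ∀ e ∈ E, h e.1 ≠ h e.2

/-- The type of the vertices in the reduction of satisfiability to 3-colourability. -/
abbrev V3 := ℕ × (ℕ × (ℕ × Vr))

end Pool.Agent.H79.Thr
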