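import Mathlib

/-!
# Counting functions that miss many independent patterns
-/

namespace Pool.Agent.H79.Thr

/-- Two events that depend on complementary sets of coordinates are independent. -/
private theorem thr7_indep {I A : Type} [Fintype I] [DecidableEq I] [Fintype A] (D : Finset I)
    (S T : Set (I → A))
    (hS : ∀ ω ω' : I → A, (∀ i ∈ D, ω i = ω' i) → (ω ∈ S ↔ ω' ∈ S))
    (hT : ∀ ω ω' : I → A, (∀ i, i ∉ D → ω i = ω' i) → (ω ∈ T ↔ ω' ∈ T)) :
    (S ∩ T).ncard * Fintype.card A ^ Fintype.card I = S.ncard * T.ncard := by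
  classical
  have h1 : ((S ∩ T) ×ˢ (Set.univ : Set (I → A))).ncard = (S ×ˢ T).ncard := by
    refine Set.ncard_congr (fun p _ => ((fun i => if i ∈ D then p.1 i else p.2 i,
      fun i => if i ∈ D then p.2 i else p.1 i) : (I → A) × (I → A))) ?_ ?_ ?_
    · rintro ⟨ω, η⟩ h
      simp only [Set.mem_prod, Set.mem_inter_iff, Set.mem_univ, and_true] at h
      refine ⟨?_, ?_⟩
      · refine (hS ω _ ?_).1 h.1
        intro i hi
        simp [hi]
      · refine (hT ω _ ?_).1 h.2
        intro i hi
        simp [hi]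
    · rintro ⟨ω, η⟩ ⟨ω', η'⟩ _ _ h
      simp only [Prod.mk.injEq] at h
      obtain ⟨ha, hb⟩ := h
      have e1 : ω = ω' := by
        funext i
        by_cases hi : i ∈ D
        · simpa [hi] using congrFun ha i
        · simpa [hi] using congrFun hb i
      have e2 : η = η' := by
        funext i
        by_cases hi : i ∈ D
        · simpa [hi] using congrFun hb i
        · simpa [hi] using congrFun ha i
      rw [e1, e2]
    · rintro ⟨s, t⟩ ⟨hs, ht⟩
      refine ⟨(fun i => if i ∈ D then s i else t i, fun i => if i ∈ D then t i else s i),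
        ?_, ?_⟩
      · simp only [Set.mem_prod, Set.mem_inter_iff, Set.mem_univ, and_true]
        refine ⟨?_, ?_⟩
        · refine (hS s _ ?_).1 hs
          intro i hi
          simp [hi]
        · refine (hT t _ ?_).1 ht
          intro i hi
          simp [hi]
      · simp only [Prod.mk.injEq]
        refine ⟨?_, ?_⟩
        · funext i
          by_cases hi : i ∈ D <;> simp [hi]
        · funext i
          by_cases hi : i ∈ D <;> simp [hi]
  rw [Set.ncard_prod, Set.ncard_prod, Set.ncard_univ, Nat.card_eq_fintype_card,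
    Fintype.card_fun] at h1
  exact h1

/-- Job THR-7. Events that depend on disjoint sets of coordinates are independent: if the sets
`D j`, `j ∈ J`, are pairwise disjoint, whether `ω ∈ E j` depends only on the restriction of `ω` to
`D j`, and `E j` contains at most the fraction `q` of all `ω`, then at most the fraction
`q ^ |J|` of all `ω` are in all `E j`. -/
theorem card_inter_le {I A ι : Type} [Fintype I] [DecidableEq I] [Fintype A] [DecidableEq ι]
    (J : Finset ι) (D : ι → Finset I) (E : ι → Set (I → A))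
    (hD : ∀ j ∈ J, ∀ j' ∈ J, j ≠ j' → Disjoint (D j) (D j'))
    (hE : ∀ j ∈ J, ∀ ω ω' : I → A, (∀ i ∈ D j, ω i = ω' i) → (ω ∈ E j ↔ ω' ∈ E j))
    (q : ℝ) (hq : 0 ≤ q)
    (hc : ∀ j ∈ J, ((E j).ncard : ℝ) ≤ q * (Fintype.card A : ℝ) ^ Fintype.card I) :
    (({ω | ∀ j ∈ J, ω ∈ E j} : Set (I → A)).ncard : ℝ) ≤
      q ^ J.card * (Fintype.card A : ℝ) ^ Fintype.card I := by
  classical
  rcases Nat.eq_zero_or_pos (Fintype.card A ^ Fintype.card I) with h0 | hpos
  · have hz : Fintype.card (I → A) = 0 := by rw [Fintype.card_fun]; exact h0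
    have : IsEmpty (I → A) := Fintype.card_eq_zero_iff.1 hz
    have h1 : ({ω | ∀ j ∈ J, ω ∈ E j} : Set (I → A)) = ∅ := by
      ext ω
      exact this.elim ω
    rw [h1, Set.ncard_empty, Nat.cast_zero]
    positivity
  induction J using Finset.induction_on with
  | empty =>
    have h1 : ({ω | ∀ j ∈ (∅ : Finset ι), ω ∈ E j} : Set (I → A)) = Set.univ := by
      ext ω
      simp
    rw [h1, Set.ncard_univ, Nat.card_eq_fintype_card, Fintype.card_fun]
    simp
  | insert j J hj ih =>
    have hN : (0 : ℝ) < (Fintype.card A : ℝ) ^ Fintype.card I := by exact_mod_cast hpos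
    have ih' := ih
      (fun a ha b hb => hD a (Finset.mem_insert_of_mem ha) b (Finset.mem_insert_of_mem hb))
      (fun a ha => hE a (Finset.mem_insert_of_mem ha))
      (fun a ha => hc a (Finset.mem_insert_of_mem ha))
    have h1 : ({ω | ∀ a ∈ insert j J, ω ∈ E a} : Set (I → A)) =
        E j ∩ {ω | ∀ a ∈ J, ω ∈ E a} := by
      ext ω
      simp
    have h2 := thr7_indep (D j) (E j) {ω | ∀ a ∈ J, ω ∈ E a}
      (hE j (Finset.mem_insert_self j J)) (by
        intro ω ω' h
        have key : ∀ a ∈ J, (ω ∈ E a ↔ ω' ∈ E a) := by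
          intro a ha
          apply hE a (Finset.mem_insert_of_mem ha)
          intro i hi
          apply h
          intro hij
          have hne : j ≠ a := by
            rintro rfl
            exact hj ha
          exact Finset.disjoint_left.1
            (hD j (Finset.mem_insert_self j J) a (Finset.mem_insert_of_mem ha) hne) hij hi
        simp only [Set.mem_setOf_eq]
        exact ⟨fun h a ha => (key a ha).1 (h a ha), fun h a ha => (key a ha).2 (h a ha)⟩)
    have h3 : (((E j ∩ {ω | ∀ a ∈ J, ω ∈ E a} : Set (I → A)).ncard : ℝ)) *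
        (Fintype.card A : ℝ) ^ Fintype.card I =
        ((E j).ncard : ℝ) * (({ω | ∀ a ∈ J, ω ∈ E a} : Set (I → A)).ncard : ℝ) := by
      exact_mod_cast h2
    rw [h1, Finset.card_insert_of_notMem hj]
    have h4 := hc j (Finset.mem_insert_self j J)
    have h5 : ((E j).ncard : ℝ) * (({ω | ∀ a ∈ J, ω ∈ E a} : Set (I → A)).ncard : ℝ) ≤
        (q * (Fintype.card A : ℝ) ^ Fintype.card I) *
          (q ^ J.card * (Fintype.card A : ℝ) ^ Fintype.card I) :=
      mul_le_mul h4 ih' (by positivity) (by positivity)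
    have h6 : (((E j ∩ {ω | ∀ a ∈ J, ω ∈ E a} : Set (I → A)).ncard : ℝ)) *
        (Fintype.card A : ℝ) ^ Fintype.card I ≤
        (q ^ (J.card + 1) * (Fintype.card A : ℝ) ^ Fintype.card I) *
          (Fintype.card A : ℝ) ^ Fintype.card I := by
      rw [h3]
      refine h5.trans (le_of_eq ?_)
      ring
    exact le_of_mul_le_mul_right h6 hN

/-- Job THR-7. The number of `ω` with given values on a set `D` of coordinates. -/
theorem card_fixed {I A : Type} [Fintype I] [DecidableEq I] [Fintype A] (D : Finset I)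
    (r : I → A) :
    (({ω | ∀ i ∈ D, ω i = r i} : Set (I → A)).ncard : ℝ) * (Fintype.card A : ℝ) ^ D.card =
      (Fintype.card A : ℝ) ^ Fintype.card I := by
  classical
  have h1 : (({ω | ∀ i ∈ D, ω i = r i} : Set (I → A)) ×ˢ
      (Set.univ : Set (D → A))).ncard = (Set.univ : Set (I → A)).ncard := by
    refine Set.ncard_congr (fun p _ => (fun i => if h : i ∈ D then p.2 ⟨i, h⟩ else p.1 i))
      ?_ ?_ ?_
    · intro _ _
      exact Set.mem_univ _
    · rintro ⟨ω, η⟩ ⟨ω', η'⟩ h h' he
      simp only [Set.mem_prod, Set.mem_setOf_eq, Set.mem_univ, and_true] at h h'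
      have e1 : ω = ω' := by
        funext i
        by_cases hi : i ∈ D
        · rw [h i hi, h' i hi]
        · simpa [hi] using congrFun he i
      have e2 : η = η' := by
        funext i
        have := congrFun he i.1
        simpa using this
      rw [e1, e2]
    · intro f _
      refine ⟨(fun i => if i ∈ D then r i else f i, fun i => f i.1), ?_, ?_⟩
      · simp only [Set.mem_prod, Set.mem_setOf_eq, Set.mem_univ, and_true]
        intro i hi
        simp [hi]
      · funext i
        by_cases hi : i ∈ D <;> simp [hi]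
  rw [Set.ncard_prod, Set.ncard_univ, Set.ncard_univ, Nat.card_eq_fintype_card,
    Nat.card_eq_fintype_card, Fintype.card_fun, Fintype.card_fun, Fintype.card_coe] at h1
  exact_mod_cast h1

/-- Job THR-7. Missing many disjoint patterns: `N` is the number of values, every pattern has at
most `d` coordinates. -/
theorem card_miss_le {I A ι : Type} [Fintype I] [DecidableEq I] [Fintype A] [Nonempty A]
    [DecidableEq ι] (J : Finset ι) (D : ι → Finset I) (r : ι → I → A) (d : ℕ)
    (hD : ∀ j ∈ J, ∀ j' ∈ J, j ≠ j' → Disjoint (D j) (D j'))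
    (hd : ∀ j ∈ J, (D j).card ≤ d) :
    (({ω | ∀ j ∈ J, ¬ ∀ i ∈ D j, ω i = r j i} : Set (I → A)).ncard : ℝ) ≤
      (1 - 1 / (Fintype.card A : ℝ) ^ d) ^ J.card * (Fintype.card A : ℝ) ^ Fintype.card I := by
  classical
  have hA : (1 : ℝ) ≤ (Fintype.card A : ℝ) := by
    exact_mod_cast Fintype.card_pos
  have hA0 : (0 : ℝ) < (Fintype.card A : ℝ) := by linarith
  refine card_inter_le J D (fun j => {ω | ¬ ∀ i ∈ D j, ω i = r j i}) hD ?_ _ ?_ ?_
  · intro j _ ω ω' h
    simp only [Set.mem_setOf_eq]
    refine not_congr ⟨fun h1 i hi => ?_, fun h1 i hi => ?_⟩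
    · rw [← h i hi]; exact h1 i hi
    · rw [h i hi]; exact h1 i hi
  · have h1 : (1 : ℝ) / (Fintype.card A : ℝ) ^ d ≤ 1 := by
      rw [div_le_one (by positivity)]
      exact one_le_pow₀ hA
    linarith
  · intro j hj
    have h1 := card_fixed (D j) (r j)
    have h2 : (({ω | ∀ i ∈ D j, ω i = r j i} : Set (I → A)).ncard) +
        (({ω | ¬ ∀ i ∈ D j, ω i = r j i} : Set (I → A)).ncard) =
        Fintype.card A ^ Fintype.card I := by
      have h3 := Set.ncard_add_ncard_compl ({ω | ∀ i ∈ D j, ω i = r j i} : Set (I → A))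
      rw [Nat.card_eq_fintype_card, Fintype.card_fun] at h3
      exact h3
    have h2' : ((({ω | ∀ i ∈ D j, ω i = r j i} : Set (I → A)).ncard) : ℝ) +
        ((({ω | ¬ ∀ i ∈ D j, ω i = r j i} : Set (I → A)).ncard) : ℝ) =
        (Fintype.card A : ℝ) ^ Fintype.card I := by
      exact_mod_cast h2
    have h3 : (Fintype.card A : ℝ) ^ Fintype.card I / (Fintype.card A : ℝ) ^ d ≤
        (({ω | ∀ i ∈ D j, ω i = r j i} : Set (I → A)).ncard : ℝ) := by
      rw [← h1, div_le_iff₀ (by positivity)]
      refine mul_le_mul_of_nonneg_left ?_ (by positivity)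
      exact pow_le_pow_right₀ hA (hd j hj)
    have h4 : (1 - 1 / (Fintype.card A : ℝ) ^ d) * (Fintype.card A : ℝ) ^ Fintype.card I =
        (Fintype.card A : ℝ) ^ Fintype.card I -
          (Fintype.card A : ℝ) ^ Fintype.card I / (Fintype.card A : ℝ) ^ d := by
      ring
    rw [h4]
    linarith

/-- The number of `ω` with values in `Z` on `T`. -/
private theorem thr7_card_on {I A : Type} [Fintype I] [DecidableEq I] [Fintype A]
    [DecidableEq A] [Nonempty A] (T : Finset I) (Z : Finset A) :
    (({ω | ∀ i ∈ T, ω i ∈ Z} : Set (I → A)).ncard : ℝ) =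
      ((Z.card : ℝ) / (Fintype.card A : ℝ)) ^ T.card * (Fintype.card A : ℝ) ^ Fintype.card I := by
  classical
  have hA0 : (0 : ℝ) < (Fintype.card A : ℝ) := by
    exact_mod_cast Fintype.card_pos
  have h1 : ({ω | ∀ i ∈ T, ω i ∈ Z} : Set (I → A)) =
      ((Fintype.piFinset (fun i => if i ∈ T then Z else Finset.univ) : Finset (I → A)) :
        Set (I → A)) := by
    ext ω
    simp only [Set.mem_setOf_eq, Finset.mem_coe, Fintype.mem_piFinset]
    refine ⟨fun h i => ?_, fun h i hi => ?_⟩
    · by_cases hi : i ∈ T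
      · simpa [hi] using h i hi
      · simp [hi]
    · simpa [hi] using h i
  rw [h1, Set.ncard_coe_finset, Fintype.card_piFinset]
  have h2 : ∏ i : I, (if i ∈ T then Z else Finset.univ).card =
      Z.card ^ T.card * (Fintype.card A) ^ (Fintype.card I - T.card) := by
    have h3 : ∀ i : I, (if i ∈ T then Z else Finset.univ).card =
        if i ∈ T then Z.card else Fintype.card A := by
      intro i
      split_ifs <;> simp
    rw [Finset.prod_congr rfl (fun i _ => h3 i), Finset.prod_ite, Finset.prod_const,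
      Finset.prod_const]
    congr 2
    · congr 1
      ext i
      simp
    · have : (Finset.univ.filter fun i => i ∉ T) = Tᶜ := by
        ext i
        simp
      rw [this, Finset.card_compl]
  rw [h2]
  have hT : T.card ≤ Fintype.card I := Finset.card_le_univ T
  push_cast
  rw [div_pow]
  have h4 : (Fintype.card A : ℝ) ^ Fintype.card I =
      (Fintype.card A : ℝ) ^ T.card * (Fintype.card A : ℝ) ^ (Fintype.card I - T.card) := by
    rw [← pow_add]
    congr 1
    omega
  rw [h4]
  field_simp

/-- Job THR-7. The number of `ω` with values in `Z` at all coordinates in some `t`-element subset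
of `S` is at most `|S|^t / t! * (|Z| / |A|)^t * |A|^|I|`. -/
theorem card_many_le {I A : Type} [Fintype I] [DecidableEq I] [Fintype A] [DecidableEq A]
    [Nonempty A] (S : Finset I) (Z : Finset A) (t : ℕ) :
    (({ω | t ≤ (S.filter fun i => ω i ∈ Z).card} : Set (I → A)).ncard : ℝ) ≤
      (S.card : ℝ) ^ t / (t.factorial : ℝ) * ((Z.card : ℝ) / (Fintype.card A : ℝ)) ^ t *
        (Fintype.card A : ℝ) ^ Fintype.card I := by
  classical
  have h1 : ({ω | t ≤ (S.filter fun i => ω i ∈ Z).card} : Set (I → A)) ⊆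
      ⋃ T ∈ S.powersetCard t, ({ω | ∀ i ∈ T, ω i ∈ Z} : Set (I → A)) := by
    intro ω hω
    obtain ⟨T, hT, hc⟩ := Finset.exists_subset_card_eq (show t ≤ _ from hω)
    simp only [Set.mem_iUnion]
    refine ⟨T, Finset.mem_powersetCard.2 ⟨hT.trans (Finset.filter_subset _ _), hc⟩, ?_⟩
    intro i hi
    exact (Finset.mem_filter.1 (hT hi)).2
  have h2 : ({ω | t ≤ (S.filter fun i => ω i ∈ Z).card} : Set (I → A)).ncard ≤
      ∑ T ∈ S.powersetCard t, ({ω | ∀ i ∈ T, ω i ∈ Z} : Set (I → A)).ncard := by
    refine (Set.ncard_le_ncard h1 (Set.toFinite _)).trans ?_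
    exact Finset.set_ncard_biUnion_le _ _
  have h3 : (({ω | t ≤ (S.filter fun i => ω i ∈ Z).card} : Set (I → A)).ncard : ℝ) ≤
      ∑ T ∈ S.powersetCard t, (({ω | ∀ i ∈ T, ω i ∈ Z} : Set (I → A)).ncard : ℝ) := by
    exact_mod_cast h2
  refine h3.trans ?_
  have h4 : ∑ T ∈ S.powersetCard t, (({ω | ∀ i ∈ T, ω i ∈ Z} : Set (I → A)).ncard : ℝ) =
      ((S.card.choose t : ℕ) : ℝ) * (((Z.card : ℝ) / (Fintype.card A : ℝ)) ^ t *
        (Fintype.card A : ℝ) ^ Fintype.card I) := by
    rw [Finset.sum_congr rfl (fun T hT => by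
      rw [thr7_card_on, (Finset.mem_powersetCard.1 hT).2]), Finset.sum_const,
      Finset.card_powersetCard, nsmul_eq_mul]
  rw [h4, mul_assoc]
  refine mul_le_mul_of_nonneg_right ?_ (by positivity)
  exact Nat.choose_le_pow_div t S.card

end Pool.Agent.H79.Thr
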