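import Pool.Agent.H79.Thr.Blocks

/-!
# Proportions of events on a finite product
-/

namespace Pool.Agent.H79.Thr

variable {I A : Type} [Fintype I] [DecidableEq I] [Fintype A]

/-- The proportion of the event `E` among all functions. -/
noncomputable def pr (E : Set (I → A)) : ℝ :=
  (E.ncard : ℝ) / (Fintype.card A : ℝ) ^ Fintype.card I

/-- The event `E` depends only on the coordinates in `D`. -/
def DepOn (E : Set (I → A)) (D : Finset I) : Prop :=
  ∀ ω ω' : I → A, (∀ i ∈ D, ω i = ω' i) → (ω ∈ E ↔ ω' ∈ E)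

omit [Fintype I] [Fintype A] in
theorem DepOn.mono {E : Set (I → A)} {D D' : Finset I} (h : DepOn E D) (hD : D ⊆ D') :
    DepOn E D' := fun ω ω' h' => h ω ω' fun i hi => h' i (hD hi)

omit [Fintype I] [Fintype A] in
theorem DepOn.compl {E : Set (I → A)} {D : Finset I} (h : DepOn E D) : DepOn Eᶜ D :=
  fun ω ω' h' => not_congr (h ω ω' h')

omit [Fintype I] [Fintype A] in
theorem DepOn.inter {E E' : Set (I → A)} {D D' : Finset I} (h : DepOn E D) (h' : DepOn E' D') :
    DepOn (E ∩ E') (D ∪ D') := fun ω ω' e =>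
  and_congr (h ω ω' fun i hi => e i (Finset.mem_union_left _ hi))
    (h' ω ω' fun i hi => e i (Finset.mem_union_right _ hi))

omit [Fintype I] [Fintype A] in
theorem DepOn.union {E E' : Set (I → A)} {D D' : Finset I} (h : DepOn E D) (h' : DepOn E' D') :
    DepOn (E ∪ E') (D ∪ D') := fun ω ω' e =>
  or_congr (h ω ω' fun i hi => e i (Finset.mem_union_left _ hi))
    (h' ω ω' fun i hi => e i (Finset.mem_union_right _ hi))

/-- Job THR-13. -/
theorem pr_nonneg (E : Set (I → A)) : 0 ≤ pr E := by
  unfold pr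
  positivity

/-- The number of elements of an event is at most the number of functions. -/
private theorem thr13_ncard_le (E : Set (I → A)) :
    (E.ncard : ℝ) ≤ (Fintype.card A : ℝ) ^ Fintype.card I := by
  classical
  have h1 : E.ncard ≤ (Set.univ : Set (I → A)).ncard :=
    Set.ncard_le_ncard (Set.subset_univ _) (Set.toFinite _)
  rw [Set.ncard_univ, Nat.card_eq_fintype_card, Fintype.card_fun] at h1
  exact_mod_cast h1

/-- The proportion is at most one, also for an empty alphabet. -/
private theorem thr13_le_one (E : Set (I → A)) : pr E ≤ 1 := by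
  unfold pr
  exact div_le_one_of_le₀ (thr13_ncard_le E) (by positivity)

/-- Job THR-13. -/
theorem pr_le_one [Nonempty A] (E : Set (I → A)) : pr E ≤ 1 :=
  thr13_le_one E

/-- Job THR-13. -/
theorem pr_mono {E E' : Set (I → A)} (h : E ⊆ E') : pr E ≤ pr E' := by
  unfold pr
  refine div_le_div_of_nonneg_right ?_ (by positivity)
  exact_mod_cast Set.ncard_le_ncard h (Set.toFinite _)

/-- Job THR-13. -/
theorem pr_compl [Nonempty A] (E : Set (I → A)) : pr Eᶜ = 1 - pr E := by
  classical
  have hA0 : (0 : ℝ) < (Fintype.card A : ℝ) := by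
    exact_mod_cast Fintype.card_pos
  have h3 := Set.ncard_add_ncard_compl E
  rw [Nat.card_eq_fintype_card, Fintype.card_fun] at h3
  have h4 : (E.ncard : ℝ) + (Eᶜ.ncard : ℝ) = (Fintype.card A : ℝ) ^ Fintype.card I := by
    exact_mod_cast h3
  have hN : (Fintype.card A : ℝ) ^ Fintype.card I ≠ 0 := by positivity
  unfold pr
  rw [eq_sub_iff_add_eq, ← add_div, add_comm, h4, div_self hN]

/-- Job THR-13. -/
theorem pr_union_le (E E' : Set (I → A)) : pr (E ∪ E') ≤ pr E + pr E' := by
  unfold pr
  rw [← add_div]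
  refine div_le_div_of_nonneg_right ?_ (by positivity)
  exact_mod_cast Set.ncard_union_le E E'

/-- Job THR-13. -/
theorem pr_iUnion_le {ι : Type} [Fintype ι] (E : ι → Set (I → A)) :
    pr {ω | ∃ i, ω ∈ E i} ≤ ∑ i, pr (E i) := by
  classical
  have h1 : ({ω | ∃ i, ω ∈ E i} : Set (I → A)) = ⋃ i ∈ (Finset.univ : Finset ι), E i := by
    ext ω
    simp
  have h2 : ({ω | ∃ i, ω ∈ E i} : Set (I → A)).ncard ≤ ∑ i, (E i).ncard := by
    rw [h1]
    exact Finset.set_ncard_biUnion_le _ _
  unfold pr
  rw [← Finset.sum_div]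
  refine div_le_div_of_nonneg_right ?_ (by positivity)
  exact_mod_cast h2

/-- Two events that depend on complementary sets of coordinates are independent. -/
private theorem thr13_indep (D : Finset I) (S T : Set (I → A))
    (hS : ∀ ω ω' : I → A, (∀ i ∈ D, ω i = ω' i) → (ω ∈ S ↔ ω' ∈ S))
    (hT : ∀ ω ω' : I → A, (∀ i, i ∉ D → ω i = ω' i) → (ω ∈ T ↔ ω' ∈ T)) :
    (S ∩ T).ncard * Fintype.card A ^ Fintype.card I = S.ncard * T.ncard := by
  classical
  have h1 : ((S ∩ T) ×ˢ (Set.univ : Set (I → A))).ncard = (S ×ˢ T).ncard := by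
    refine Set.ncard_congr (fun p _ => ((fun i => if i ∈ D then p.1 i else p.2 i,
      fun i => if i ∈ D then p.2 i else p.1 i) : (I → A) × (I → A))) ?_ ?_ ?_
    · rintro ⟨ω, η⟩ h
      simp only [Set.mem_prod, Set.mem_inter_iff, Set.mem_univ, and_true] at h
      refine ⟨?_, ?_⟩
      · refine (hS ω _ ?_).1 h.1
        intro i hi
        simp [hi]
      · refine (hT ω _ ?_).1 h.2
        intro i hi
        simp [hi]
    · rintro ⟨ω, η⟩ ⟨ω', η'⟩ _ _ h
      simp only [Prod.mk.injEq] at h
      obtain ⟨ha, hb⟩ := h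
      have e1 : ω = ω' := by
        funext i
        by_cases hi : i ∈ D
        · simpa [hi] using congrFun ha i
        · simpa [hi] using congrFun hb i
      have e2 : η = η' := by
        funext i
        by_cases hi : i ∈ D
        · simpa [hi] using congrFun hb i
        · simpa [hi] using congrFun ha i
      rw [e1, e2]
    · rintro ⟨s, t⟩ ⟨hs, ht⟩
      refine ⟨(fun i => if i ∈ D then s i else t i, fun i => if i ∈ D then t i else s i),
        ?_, ?_⟩
      · simp only [Set.mem_prod, Set.mem_inter_iff, Set.mem_univ, and_true]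
        refine ⟨?_, ?_⟩
        · refine (hS s _ ?_).1 hs
          intro i hi
          simp [hi]
        · refine (hT t _ ?_).1 ht
          intro i hi
          simp [hi]
      · simp only [Prod.mk.injEq]
        refine ⟨?_, ?_⟩
        · funext i
          by_cases hi : i ∈ D <;> simp [hi]
        · funext i
          by_cases hi : i ∈ D <;> simp [hi]
  rw [Set.ncard_prod, Set.ncard_prod, Set.ncard_univ, Nat.card_eq_fintype_card,
    Fintype.card_fun] at h1
  exact h1

/-- Job THR-13. Independence of events that depend on disjoint sets of coordinates. -/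
theorem pr_inter_of_disjoint {E E' : Set (I → A)} {D D' : Finset I} (h : DepOn E D)
    (h' : DepOn E' D') (hD : Disjoint D D') : pr (E ∩ E') = pr E * pr E' := by
  have h1 := thr13_indep D E E' h (fun ω ω' e => h' ω ω' fun i hi =>
    e i (Finset.disjoint_right.1 hD hi))
  have h2 : ((E ∩ E').ncard : ℝ) * (Fintype.card A : ℝ) ^ Fintype.card I =
      (E.ncard : ℝ) * (E'.ncard : ℝ) := by
    exact_mod_cast h1
  unfold pr
  by_cases h0 : (Fintype.card A : ℝ) ^ Fintype.card I = 0
  · rw [h0]
    simp
  · rw [div_mul_div_comm, ← h2]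
    field_simp

/-- Job THR-13. -/
theorem pr_forall_le {ι : Type} [DecidableEq ι] (J : Finset ι) (D : ι → Finset I)
    (E : ι → Set (I → A)) (q : ι → ℝ)
    (hD : ∀ j ∈ J, ∀ j' ∈ J, j ≠ j' → Disjoint (D j) (D j'))
    (hE : ∀ j ∈ J, DepOn (E j) (D j)) (hq : ∀ j ∈ J, pr (E j) ≤ q j) :
    pr {ω | ∀ j ∈ J, ω ∈ E j} ≤ ∏ j ∈ J, q j := by
  classical
  induction J using Finset.induction_on with
  | empty =>
    rw [Finset.prod_empty]
    exact thr13_le_one _
  | insert j J hj ih =>
    have ih' := ih
      (fun a ha b hb => hD a (Finset.mem_insert_of_mem ha) b (Finset.mem_insert_of_mem hb))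
      (fun a ha => hE a (Finset.mem_insert_of_mem ha))
      (fun a ha => hq a (Finset.mem_insert_of_mem ha))
    have h1 : ({ω | ∀ a ∈ insert j J, ω ∈ E a} : Set (I → A)) =
        E j ∩ {ω | ∀ a ∈ J, ω ∈ E a} := by
      ext ω
      simp
    have hdep : DepOn ({ω | ∀ a ∈ J, ω ∈ E a} : Set (I → A)) (J.biUnion D) := by
      intro ω ω' h
      have key : ∀ a ∈ J, (ω ∈ E a ↔ ω' ∈ E a) := fun a ha =>
        hE a (Finset.mem_insert_of_mem ha) ω ω' fun i hi =>
          h i (Finset.mem_biUnion.2 ⟨a, ha, hi⟩)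
      simp only [Set.mem_ofPred_eq]
      exact ⟨fun h a ha => (key a ha).1 (h a ha), fun h a ha => (key a ha).2 (h a ha)⟩
    have hdis : Disjoint (D j) (J.biUnion D) := by
      rw [Finset.disjoint_biUnion_right]
      intro a ha
      refine hD j (Finset.mem_insert_self j J) a (Finset.mem_insert_of_mem ha) ?_
      rintro rfl
      exact hj ha
    rw [h1, pr_inter_of_disjoint (hE j (Finset.mem_insert_self j J)) hdep hdis,
      Finset.prod_insert hj]
    have h4 := hq j (Finset.mem_insert_self j J)
    exact mul_le_mul h4 ih' (pr_nonneg _) ((pr_nonneg _).trans h4)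

/-- Job THR-13. The proportion of an event about one coordinate. -/
theorem pr_coord (i : I) (S : Finset A) [Nonempty A] :
    pr {ω : I → A | ω i ∈ S} = (S.card : ℝ) / (Fintype.card A : ℝ) := by
  classical
  have hA0 : (0 : ℝ) < (Fintype.card A : ℝ) := by
    exact_mod_cast Fintype.card_pos
  have h1 : ({ω | ω i ∈ S} : Set (I → A)) =
      ((Fintype.piFinset (fun j => if j = i then S else Finset.univ) : Finset (I → A)) :
        Set (I → A)) := by
    ext ω
    simp only [Set.mem_ofPred_eq, Finset.mem_coe, Fintype.mem_piFinset]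
    refine ⟨fun h j => ?_, fun h => ?_⟩
    · by_cases hj : j = i
      · subst hj
        simpa using h
      · simp [hj]
    · simpa using h i
  have h2 : (Fintype.piFinset (fun j => if j = i then S else (Finset.univ : Finset A)) :
      Finset (I → A)).card = S.card * Fintype.card A ^ (Fintype.card I - 1) := by
    rw [Fintype.card_piFinset, ← Finset.mul_prod_erase Finset.univ _ (Finset.mem_univ i)]
    rw [if_pos rfl]
    congr 1
    have h3 : ∀ j ∈ (Finset.univ : Finset I).erase i,
        (if j = i then S else (Finset.univ : Finset A)).card = Fintype.card A := by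
      intro j hj
      rw [if_neg (Finset.ne_of_mem_erase hj), Finset.card_univ]
    rw [Finset.prod_congr rfl h3, Finset.prod_const, Finset.card_erase_of_mem (Finset.mem_univ i),
      Finset.card_univ]
  have hI : 0 < Fintype.card I := Fintype.card_pos_iff.2 ⟨i⟩
  unfold pr
  rw [h1, Set.ncard_coe_finset, h2]
  have h4 : (Fintype.card A : ℝ) ^ Fintype.card I =
      (Fintype.card A : ℝ) * (Fintype.card A : ℝ) ^ (Fintype.card I - 1) := by
    rw [← pow_succ']
    congr 1
    omega
  rw [h4]
  push_cast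
  field_simp

open Classical in
/-- Job THR-13. Chernoff bound: if `X ω` is the number of `i ∈ S` with `ω i ∈ Z i` then
`2 ^ t * pr {t ≤ X} ≤ mean of 2 ^ X = ∏ (1 + |Z i| / |A|) ≤ exp (∑ |Z i| / |A|)`. -/
theorem pr_many_le [Nonempty A] (S : Finset I) (Z : I → Finset A) (t : ℕ) :
    2 ^ t * pr {ω : I → A | t ≤ (S.filter fun i => ω i ∈ Z i).card} ≤
      Real.exp (∑ i ∈ S, ((Z i).card : ℝ) / (Fintype.card A : ℝ)) := by
  have hA0 : (0 : ℝ) < (Fintype.card A : ℝ) := by
    exact_mod_cast Fintype.card_pos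
  set N : ℝ := (Fintype.card A : ℝ) ^ Fintype.card I with hNdef
  have hN : 0 < N := by positivity
  set X : (I → A) → ℕ := fun ω => (S.filter fun i => ω i ∈ Z i).card with hX
  -- the weight of one value
  have hw : ∀ ω : I → A, (2 : ℝ) ^ X ω =
      ∏ i : I, (if i ∈ S ∧ ω i ∈ Z i then (2 : ℝ) else 1) := by
    intro ω
    have he : (S.filter fun i => ω i ∈ Z i) =
        Finset.univ.filter fun i => i ∈ S ∧ ω i ∈ Z i := by
      ext i
      simp
    rw [Finset.prod_ite, Finset.prod_const, Finset.prod_const_one, mul_one]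
    simp only [hX]
    rw [he]
  have hsum : ∑ ω : I → A, (2 : ℝ) ^ X ω =
      ∏ i : I, ((Fintype.card A : ℝ) + if i ∈ S then ((Z i).card : ℝ) else 0) := by
    rw [Finset.sum_congr rfl fun ω _ => hw ω]
    have h5 := Finset.prod_univ_sum (fun _ : I => (Finset.univ : Finset A))
      (fun i a => if i ∈ S ∧ a ∈ Z i then (2 : ℝ) else 1)
    rw [Fintype.piFinset_univ] at h5
    rw [← h5]
    refine Finset.prod_congr rfl fun i _ => ?_
    by_cases hi : i ∈ S
    · simp only [hi, true_and, if_true]
      have h6 : ∀ a : A, (if a ∈ Z i then (2 : ℝ) else 1) = 1 + if a ∈ Z i then (1 : ℝ) else 0 := by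
        intro a
        split_ifs <;> norm_num
      rw [Finset.sum_congr rfl fun a _ => h6 a, Finset.sum_add_distrib, Finset.sum_const,
        Finset.card_univ, nsmul_eq_mul, mul_one, Finset.sum_ite_mem, Finset.univ_inter,
        Finset.sum_const, nsmul_eq_mul, mul_one]
    · simp only [hi, false_and, if_false, add_zero]
      rw [Finset.sum_const, Finset.card_univ, nsmul_eq_mul, mul_one]
  have hle : (2 : ℝ) ^ t * ({ω : I → A | t ≤ X ω}.ncard : ℝ) ≤ ∑ ω : I → A, (2 : ℝ) ^ X ω := by
    have h7 : ({ω : I → A | t ≤ X ω} : Set (I → A)) =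
        ((Finset.univ.filter fun ω : I → A => t ≤ X ω : Finset (I → A)) : Set (I → A)) := by
      ext ω
      simp
    rw [h7, Set.ncard_coe_finset, mul_comm, ← nsmul_eq_mul]
    refine (Finset.card_nsmul_le_sum _ (fun ω => (2 : ℝ) ^ X ω) _ ?_).trans ?_
    · intro ω hω
      exact pow_le_pow_right₀ (by norm_num) (Finset.mem_filter.1 hω).2
    · exact Finset.sum_le_univ_sum_of_nonneg (fun ω => by positivity)
  have hprod : (∏ i : I, ((Fintype.card A : ℝ) + if i ∈ S then ((Z i).card : ℝ) else 0)) / N =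
      ∏ i ∈ S, (1 + ((Z i).card : ℝ) / (Fintype.card A : ℝ)) := by
    have h8 : N = ∏ _i : I, (Fintype.card A : ℝ) := by
      rw [Finset.prod_const, Finset.card_univ]
    rw [h8, ← Finset.prod_div_distrib]
    have h9 : ∀ i : I, ((Fintype.card A : ℝ) + if i ∈ S then ((Z i).card : ℝ) else 0) /
        (Fintype.card A : ℝ) = if i ∈ S then 1 + ((Z i).card : ℝ) / (Fintype.card A : ℝ) else 1 := by
      intro i
      split_ifs
      · rw [add_div, div_self hA0.ne']
      · rw [add_zero, div_self hA0.ne']
    rw [Finset.prod_congr rfl fun i _ => h9 i, Finset.prod_ite_mem, Finset.univ_inter]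
  have hmain : 2 ^ t * pr {ω : I → A | t ≤ X ω} ≤
      ∏ i ∈ S, (1 + ((Z i).card : ℝ) / (Fintype.card A : ℝ)) := by
    rw [← hprod, ← hsum]
    unfold pr
    rw [← mul_div_assoc]
    exact div_le_div_of_nonneg_right hle hN.le
  refine hmain.trans ?_
  rw [Real.exp_sum]
  refine Finset.prod_le_prod (fun i _ => by positivity) fun i _ => ?_
  rw [add_comm]
  exact Real.add_one_le_exp _

end Pool.Agent.H79.Thr
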