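import Pool.Agent.H79.Thr.Conv
import Pool.Agent.H79.Thr.Col

/-!
# The reduction of 3-colourability (bounded degree) to rs `k`-colourability
-/

namespace Pool.Agent.H79.Thr

open Pool.Agent.PPS Pool.Agent.H64.Cook

/-- A gadget for rs `k`-colourings: a graph on `Fin N` of maximum degree at most `D` that has a
unique rs `k`-colouring `f`, with a vertex `y` of colour at least `3`, such that the neighbours of
`y` of smaller colours have exactly the colours `3, …, f y - 1`. -/
structure RSGadget (k D N : ℕ) (H : SimpleGraph (Fin N)) (f : Fin N → Fin k) (y : Fin N) :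
    Prop where
  deg : ∀ x, (H.neighborSet x).ncard ≤ D
  rs : IsRS H f
  uniq : ∀ g : Fin N → Fin k, IsRS H g → g = f
  y3 : 3 ≤ (f y : ℕ)
  low : ∀ w, H.Adj y w → f w < f y → 3 ≤ (f w : ℕ)
  all : ∀ c : Fin k, 3 ≤ (c : ℕ) → c < f y → ∃ w, H.Adj y w ∧ f w = c

open Classical in
/-- Every vertex is in at most `r` of the listed edges. -/
def EDegLE {β : Type} (E : List (β × β)) (r : ℕ) : Prop :=
  ∀ v, (E.filter fun e => decide (e.1 = v ∨ e.2 = v)).length ≤ r

section

variable {β : Type} {N : ℕ}

/-- The vertices of the big graph: `((false, v), (0, y))` stands for the vertex `v`, and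
`((true, default), (i, x))` is the vertex `x` of the copy number `i` of the gadget. -/
abbrev FR (β : Type) (N : ℕ) := (Bool × β) × (ℕ × Fin N)

/-- The vertex `v`. -/
def zv (y : Fin N) (v : β) : FR β N := ((false, v), (0, y))

/-- The vertex `x` of the copy number `i` of the gadget. -/
def cp [Inhabited β] (i : ℕ) (x : Fin N) : FR β N := ((true, default), (i, x))

/-- The items: the edges, and for every edge its two ends as loops. -/
def items (E : List (β × β)) : List (β × β) :=
  E ++ E.flatMap fun e => [(e.1, e.1), (e.2, e.2)]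

/-- The list of the edges of the big graph: item number `i` gives a copy of the gadget whose vertex
`y` is joined to the two ends of the item. -/
def rsE [Inhabited β] (gl : List (Fin N × Fin N)) (y : Fin N) (E : List (β × β)) :
    List (FR β N × FR β N) :=
  (List.range (items E).length).flatMap fun i =>
    gl.map (fun z => (cp i z.1, cp i z.2)) ++
      [(cp i y, zv y ((items E).getD i default).1), (cp i y, zv y ((items E).getD i default).2)]

variable [Inhabited β] {gl : List (Fin N × Fin N)} {y : Fin N} {E : List (β × β)}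
  {H : SimpleGraph (Fin N)} {k D : ℕ} {f : Fin N → Fin k}

omit [Inhabited β] in
theorem PT.items' [Rep β] {m : Bool} {γ : Type} [Rep γ] {E : γ → List (β × β)} (h : PT m E) :
    PT m (fun a => items (E a)) := by
  unfold items
  refine PT.append' h ?_
  exact Pool.Agent.H64.Cook.PT.flatMap' (m := m) (l := E)
    (f := fun z : γ × (β × β) => [(z.2.1, z.2.1), (z.2.2, z.2.2)]) h (by fun_prop)

/-- Job THR-25. -/
theorem PT.rsE' [Rep β] {m : Bool} {γ : Type} [Rep γ] (gl : List (Fin N × Fin N)) (y : Fin N)
    {E : γ → List (β × β)} (h : PT m E) : PT m (fun a => rsE gl y (E a)) := by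
  have hi : PT m (fun a => items (E a)) := PT.items' h
  have hi1 : PT m (fun z : γ × ℕ => items (E z.1)) := hi.comp' PT.fst
  have h2 : PT m (fun z : γ × ℕ => (items (E z.1)).getD z.2 default) :=
    PT.getD' (by fun_prop) hi1 (by fun_prop)
  unfold rsE
  refine Pool.Agent.H64.Cook.PT.flatMap' (m := m) (l := fun a => List.range (items (E a)).length)
    (f := fun z : γ × ℕ => gl.map (fun w => (cp z.2 w.1, cp z.2 w.2)) ++
      [(cp z.2 y, zv y ((items (E z.1)).getD z.2 default).1),
        (cp z.2 y, zv y ((items (E z.1)).getD z.2 default).2)]) (by fun_prop) ?_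
  refine PT.append' ?_ ?_
  · have := Pool.Agent.H64.Cook.PT.flatMapConst (m := m) gl
      (f := fun w (z : γ × ℕ) => [((cp z.2 w.1 : FR β N), (cp z.2 w.2 : FR β N))])
      (fun w => by
        unfold cp
        fun_prop)
    convert this using 2 with z
    rw [List.map_eq_flatMap]
  · unfold cp zv
    fun_prop

/-- The end number `t` of the item number `i`. -/
def itm (E : List (β × β)) (i : ℕ) (t : Bool) : β :=
  if t then ((items E).getD i default).2 else ((items E).getD i default).1

theorem cp_injective (i : ℕ) : Function.Injective (cp (β := β) (N := N) i) := by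
  intro a b h
  simpa [cp] using h

theorem cp_ne_zv (i : ℕ) (x y : Fin N) (v : β) : cp i x ≠ zv y v := by
  simp [cp, zv]

theorem mem_rsE {a b : FR β N} : (a, b) ∈ rsE gl y E ↔ ∃ i < (items E).length,
    (∃ z ∈ gl, a = cp i z.1 ∧ b = cp i z.2) ∨ (∃ t, a = cp i y ∧ b = zv y (itm E i t)) := by
  simp only [rsE, List.mem_append, List.mem_flatMap, List.mem_map, List.mem_range,
    List.mem_cons, List.not_mem_nil, or_false, Prod.mk.injEq, itm]
  refine exists_congr fun i => and_congr Iff.rfl (or_congr ?_ ?_)
  · exact exists_congr fun z => and_congr Iff.rfl (and_congr eq_comm eq_comm)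
  · constructor
    · rintro (⟨h1, h2⟩ | ⟨h1, h2⟩)
      · exact ⟨false, h1, by simpa using h2⟩
      · exact ⟨true, h1, by simpa using h2⟩
    · rintro ⟨t, h1, h2⟩
      cases t with
      | false => exact Or.inl ⟨h1, by simpa using h2⟩
      | true => exact Or.inr ⟨h1, by simpa using h2⟩

/-- Adjacency in the big graph. -/
theorem rsE_adj (hgl : ∀ x x', H.Adj x x' ↔ (x, x') ∈ gl) {a b : FR β N} :
    (relG (rsE gl y E)).Adj a b ↔ ∃ i < (items E).length,
      (∃ x x', H.Adj x x' ∧ a = cp i x ∧ b = cp i x') ∨
      (∃ t, a = cp i y ∧ b = zv y (itm E i t)) ∨ (∃ t, b = cp i y ∧ a = zv y (itm E i t)) := by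
  constructor
  · rintro ⟨_, h | h⟩
    · rw [mem_rsE] at h
      obtain ⟨i, hi, ⟨z, hz, ha, hb⟩ | ⟨t, ha, hb⟩⟩ := h
      · exact ⟨i, hi, Or.inl ⟨z.1, z.2, (hgl _ _).2 hz, ha, hb⟩⟩
      · exact ⟨i, hi, Or.inr (Or.inl ⟨t, ha, hb⟩)⟩
    · rw [mem_rsE] at h
      obtain ⟨i, hi, ⟨z, hz, ha, hb⟩ | ⟨t, ha, hb⟩⟩ := h
      · exact ⟨i, hi, Or.inl ⟨z.2, z.1, ((hgl _ _).2 hz).symm, hb, ha⟩⟩
      · exact ⟨i, hi, Or.inr (Or.inr ⟨t, ha, hb⟩)⟩
  · rintro ⟨i, hi, ⟨x, x', hxx, ha, hb⟩ | ⟨t, ha, hb⟩ | ⟨t, hb, ha⟩⟩
    · refine ⟨?_, Or.inl (mem_rsE.2 ⟨i, hi, Or.inl ⟨(x, x'), (hgl _ _).1 hxx, ha, hb⟩⟩)⟩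
      rw [ha, hb]
      exact fun h => hxx.ne (cp_injective i h)
    · refine ⟨?_, Or.inl (mem_rsE.2 ⟨i, hi, Or.inr ⟨t, ha, hb⟩⟩)⟩
      rw [ha, hb]
      exact cp_ne_zv _ _ _ _
    · refine ⟨?_, Or.inr (mem_rsE.2 ⟨i, hi, Or.inr ⟨t, hb, ha⟩⟩)⟩
      rw [ha, hb]
      exact (cp_ne_zv _ _ _ _).symm

omit [Inhabited β] in
theorem card_index_le {γ : Type} (d : γ) (p : γ → Prop) [DecidablePred p] (l : List γ) :
    ({i | i < l.length ∧ p (l.getD i d)} : Set ℕ).ncard ≤ (l.filter fun e => decide (p e)).length ∧
      ({i | i < l.length ∧ p (l.getD i d)} : Set ℕ).Finite := by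
  induction l using List.reverseRecOn with
  | nil => simp
  | append_singleton l a ih =>
    have hsub : ({i | i < (l ++ [a]).length ∧ p ((l ++ [a]).getD i d)} : Set ℕ) ⊆
        {i | i < l.length ∧ p (l.getD i d)} ∪ {i | i = l.length ∧ p a} := by
      rintro i ⟨hi, hp⟩
      simp only [List.length_append, List.length_cons, List.length_nil] at hi
      rcases Nat.lt_or_ge i l.length with h | h
      · refine Or.inl ⟨h, ?_⟩
        rwa [List.getD_append _ _ _ _ h] at hp
      · have hi' : i = l.length := by omega
        refine Or.inr ⟨hi', ?_⟩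
        rw [List.getD_append_right _ _ _ _ h, hi'] at hp
        simpa using hp
    have hfin : ({i | i = l.length ∧ p a} : Set ℕ).Finite :=
      (Set.finite_singleton l.length).subset fun i hi => hi.1
    refine ⟨?_, (ih.2.union hfin).subset hsub⟩
    refine (Set.ncard_le_ncard hsub (ih.2.union hfin)).trans ?_
    refine (Set.ncard_union_le _ _).trans ?_
    rw [List.filter_append, List.length_append]
    refine Nat.add_le_add ih.1 ?_
    by_cases hpa : p a
    · have : ({i | i = l.length ∧ p a} : Set ℕ) = {l.length} := by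
        ext i; simp [hpa]
      rw [this, Set.ncard_singleton]
      simp [hpa]
    · have : ({i | i = l.length ∧ p a} : Set ℕ) = ∅ := by
        ext i; simp [hpa]
      rw [this]
      simp

open Classical in
omit [Inhabited β] in
theorem items_filter_le (hl : ∀ e ∈ E, e.1 ≠ e.2) (hE : EDegLE E 5) (v : β) :
    ((items E).filter fun e => decide (e.1 = v ∨ e.2 = v)).length ≤ 10 := by
  have key : ∀ E : List (β × β), (∀ e ∈ E, e.1 ≠ e.2) →
      ((E.flatMap fun e => [(e.1, e.1), (e.2, e.2)]).filter
        fun e => decide (e.1 = v ∨ e.2 = v)).length ≤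
      (E.filter fun e => decide (e.1 = v ∨ e.2 = v)).length := by
    intro E
    induction E with
    | nil => simp
    | cons a l ih =>
      intro h
      have h1 := ih fun e he => h e (List.mem_cons_of_mem _ he)
      have h2 := h a List.mem_cons_self
      rw [List.flatMap_cons, List.filter_append, List.length_append, List.filter_cons]
      by_cases ha : a.1 = v
      · have hb : a.2 ≠ v := fun hb => h2 (ha.trans hb.symm)
        simp only [List.filter_cons, List.filter_nil, ha, hb, true_or, or_false, or_self,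
          decide_true, decide_false, if_true, Bool.false_eq_true, if_false, List.length_cons,
          List.length_nil]
        omega
      · by_cases hb : a.2 = v
        · simp only [List.filter_cons, List.filter_nil, ha, hb, false_or, or_false, or_self,
            decide_true, decide_false, if_true, Bool.false_eq_true, if_false, List.length_cons,
            List.length_nil]
          omega
        · simp only [List.filter_cons, List.filter_nil, ha, hb, or_self,
            decide_false, Bool.false_eq_true, if_false, List.length_nil]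
          omega
  have h1 := key E hl
  have h2 := hE v
  unfold items
  rw [List.filter_append, List.length_append]
  omega

/-- Job THR-25. Degrees. -/
theorem rsE_deg (hH : RSGadget k D N H f y) (hgl : ∀ x x', H.Adj x x' ↔ (x, x') ∈ gl)
    (hl : ∀ e ∈ E, e.1 ≠ e.2) (hE : EDegLE E 5) (hD : 8 ≤ D) :
    MaxDegLE (relG (rsE gl y E)) (D + 2) := by
  classical
  rintro ⟨⟨t, v⟩, ⟨i, x⟩⟩
  cases t with
  | false =>
    set I : Set ℕ := {i | i < (items E).length ∧
      (((items E).getD i default).1 = v ∨ ((items E).getD i default).2 = v)} with hI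
    have hI1 := card_index_le (default : β × β) (fun e => e.1 = v ∨ e.2 = v) (items E)
    have hI2 := items_filter_le hl hE v
    have hIc : I.ncard ≤ 10 := by
      refine le_trans hI1.1 ?_
      convert hI2
    have hIf : I.Finite := hI1.2
    have hsub : (relG (rsE gl y E)).neighborSet ((false, v), (i, x)) ⊆
        (fun j => cp j y) '' I := by
      intro b hb
      rw [SimpleGraph.mem_neighborSet, rsE_adj hgl] at hb
      obtain ⟨j, hj, ⟨x1, x2, _, ha, _⟩ | ⟨t, ha, _⟩ | ⟨t, hb, ha⟩⟩ := hb
      · simp [cp] at ha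
      · simp [cp] at ha
      · refine ⟨j, ⟨hj, ?_⟩, hb.symm⟩
        simp only [zv, Prod.mk.injEq, true_and] at ha
        have hv := ha.1
        unfold itm at hv
        cases t with
        | false => exact Or.inl (by simpa using hv.symm)
        | true => exact Or.inr (by simpa using hv.symm)
    refine ⟨(hIf.image _).subset hsub, (Set.ncard_le_ncard hsub (hIf.image _)).trans ?_⟩
    refine (Set.ncard_image_le hIf).trans ?_
    omega
  | true =>
    set S : Set (FR β N) := (cp i '' H.neighborSet x) ∪
      {zv y (itm E i false), zv y (itm E i true)} with hS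
    have hfin : S.Finite :=
      Set.Finite.union ((Set.toFinite _).image _) (Set.toFinite _)
    have hsub : (relG (rsE gl y E)).neighborSet ((true, v), (i, x)) ⊆ S := by
      intro b hb
      rw [SimpleGraph.mem_neighborSet, rsE_adj hgl] at hb
      obtain ⟨j, hj, ⟨x1, x2, h12, ha, hb⟩ | ⟨t, ha, hb⟩ | ⟨t, _, ha⟩⟩ := hb
      · simp only [cp, Prod.mk.injEq, true_and] at ha
        obtain ⟨_, rfl, rfl⟩ := ha
        exact Or.inl ⟨x2, h12, hb.symm⟩
      · simp only [cp, Prod.mk.injEq, true_and] at ha
        obtain ⟨_, rfl, _⟩ := ha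
        refine Or.inr ?_
        rw [hb]
        cases t with
        | false => exact Or.inl rfl
        | true => exact Or.inr rfl
      · simp [zv] at ha
    refine ⟨hfin.subset hsub, (Set.ncard_le_ncard hsub hfin).trans ?_⟩
    refine (Set.ncard_union_le _ _).trans ?_
    have h1 : (cp (β := β) i '' H.neighborSet x).ncard ≤ D :=
      (Set.ncard_image_le (Set.toFinite _)).trans (hH.deg x)
    have h2 : ({zv y (itm E i false), zv y (itm E i true)} : Set (FR β N)).ncard ≤ 2 :=
      (Set.ncard_insert_le _ _).trans (by rw [Set.ncard_singleton])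
    omega

omit [Inhabited β] in
theorem mem_items_edge {i : ℕ} (hi : i < (items E).length) (d : β × β)
    (hne : ((items E).getD i d).1 ≠ ((items E).getD i d).2) : (items E).getD i d ∈ E := by
  have h : (items E).getD i d ∈ items E := by
    rw [List.getD_eq_getElem _ _ hi]
    exact List.getElem_mem hi
  unfold items at h hne ⊢
  rw [List.mem_append, List.mem_flatMap] at h
  rcases h with h | ⟨e, _, h⟩
  · exact h
  · rw [List.mem_cons, List.mem_cons] at h
    rcases h with h | h | h
    · rw [h] at hne
      exact absurd rfl hne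
    · rw [h] at hne
      exact absurd rfl hne
    · exact absurd h List.not_mem_nil

/-- Every edge is an item, and every end of an edge is a loop item with a different number. -/
theorem exists_items {e : β × β} (he : e ∈ E) : ∃ i < (items E).length,
    itm E i false = e.1 ∧ itm E i true = e.2 ∧ ∀ v, (v = e.1 ∨ v = e.2) →
      ∃ j < (items E).length, j ≠ i ∧ itm E j false = v := by
  obtain ⟨i, hi, hie⟩ := List.getElem_of_mem he
  have hlen : (items E).length = E.length +
      (E.flatMap fun e => [(e.1, e.1), (e.2, e.2)]).length := by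
    unfold items
    rw [List.length_append]
  have hget : (items E).getD i default = e := by
    unfold items
    rw [List.getD_append _ _ _ _ hi, List.getD_eq_getElem _ _ hi, hie]
  refine ⟨i, by omega, by simp only [itm, Bool.false_eq_true, if_false, hget],
    by simp only [itm, if_true, hget], ?_⟩
  intro v hv
  have hmem : (v, v) ∈ E.flatMap fun e => [(e.1, e.1), (e.2, e.2)] := by
    rw [List.mem_flatMap]
    refine ⟨e, he, ?_⟩
    rcases hv with rfl | rfl
    · exact List.mem_cons_self
    · exact List.mem_cons_of_mem _ List.mem_cons_self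
  obtain ⟨j, hj, hje⟩ := List.getElem_of_mem hmem
  refine ⟨E.length + j, by omega, by omega, ?_⟩
  have hget2 : (items E).getD (E.length + j) default = (v, v) := by
    unfold items
    rw [List.getD_append_right _ _ _ _ (by omega), Nat.add_sub_cancel_left,
      List.getD_eq_getElem _ _ hj, hje]
  simp only [itm, Bool.false_eq_true, if_false, hget2]

/-- Job THR-25. Soundness. In an rs colouring `g` every copy of the gadget has the colouring `f`. A
vertex `zv y v` (`v` an end of an edge) is joined to the vertex `y` of at least two copies (an edge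
and a loop), so `g (zv y v) < f y`, and then `g (zv y v)` is not one of `3, …, f y - 1`. For an
edge `(u, w)` the vertex `y` of its copy has the two different lower neighbours `zv y u`,
`zv y w`. -/
theorem rsE_sound (hH : RSGadget k D N H f y) (hgl : ∀ x x', H.Adj x x' ↔ (x, x') ∈ gl)
    (hE : ∀ e ∈ E, e.1 ≠ e.2) (h : RSColourable k (relG (rsE gl y E))) : EColourable 3 E := by
  obtain ⟨g, hg1, hg2⟩ := h
  have hcopy : ∀ i < (items E).length, ∀ x, g (cp i x) = f x := by
    intro i hi x
    have hadj : ∀ x x', H.Adj x x' → (relG (rsE gl y E)).Adj (cp i x) (cp i x') :=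
      fun x x' hxx => (rsE_adj hgl).2 ⟨i, hi, Or.inl ⟨x, x', hxx, rfl, rfl⟩⟩
    have hrs : IsRS H (fun x => g (cp i x)) := by
      refine ⟨fun x x' hxx => hg1 _ _ (hadj x x' hxx), ?_⟩
      intro a b c hab hbc hac
      exact hg2 _ _ _ (hadj _ _ hab) (hadj _ _ hbc) (fun h => hac (cp_injective i h))
    exact congrFun (hH.uniq _ hrs) x
  have hend : ∀ i < (items E).length, ∀ t,
      (relG (rsE gl y E)).Adj (cp i y) (zv y (itm E i t)) :=
    fun i hi t => (rsE_adj hgl).2 ⟨i, hi, Or.inr (Or.inl ⟨t, rfl, rfl⟩)⟩
  have hlt : ∀ i < (items E).length, ∀ t, (∃ j < (items E).length, j ≠ i ∧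
      itm E j false = itm E i t) → g (zv y (itm E i t)) < f y := by
    rintro i hi t ⟨j, hj, hji, hjt⟩
    have h1 := hend i hi t
    have h2 := hend j hj false
    rw [hjt] at h2
    have hne := hg1 _ _ h1
    rw [hcopy i hi] at hne
    by_contra hcon
    have hlt' : f y < g (zv y (itm E i t)) := lt_of_le_of_ne (not_lt.1 hcon) hne
    refine hg2 _ _ _ h1 h2.symm ?_ ⟨?_, ?_⟩
    · intro h
      simp only [cp, Prod.mk.injEq, true_and] at h
      exact hji h.1.symm
    · rw [hcopy i hi, hcopy j hj]
    · rw [hcopy j hj]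
      exact hlt'
  have hlt3 : ∀ i < (items E).length, ∀ t, g (zv y (itm E i t)) < f y →
      (g (zv y (itm E i t)) : ℕ) < 3 := by
    intro i hi t hlt
    by_contra hcon
    obtain ⟨w, hw, hfw⟩ := hH.all _ (not_lt.1 hcon) hlt
    have h1 := hend i hi t
    have h2 : (relG (rsE gl y E)).Adj (cp i y) (cp i w) :=
      (rsE_adj hgl).2 ⟨i, hi, Or.inl ⟨y, w, hw, rfl, rfl⟩⟩
    refine hg2 _ _ _ h1.symm h2 (cp_ne_zv _ _ _ _).symm ⟨?_, ?_⟩
    · rw [hcopy i hi, hfw]
    · rw [hcopy i hi, hcopy i hi, hfw]
      exact hlt
  refine ⟨fun v => if hv : (g (zv y v) : ℕ) < 3 then ⟨g (zv y v), hv⟩ else 0, ?_⟩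
  intro e he
  obtain ⟨i, hi, hi1, hi2, hi3⟩ := exists_items he
  have ha := hlt i hi false (by rw [hi1]; exact hi3 _ (Or.inl rfl))
  have hb := hlt i hi true (by rw [hi2]; exact hi3 _ (Or.inr rfl))
  have ha3 := hlt3 i hi false ha
  have hb3 := hlt3 i hi true hb
  have h1 := hend i hi false
  have h2 := hend i hi true
  rw [hi1] at ha ha3 h1
  rw [hi2] at hb hb3 h2
  simp only [dif_pos ha3, dif_pos hb3]
  intro hcon
  have hcon' : g (zv y e.1) = g (zv y e.2) := Fin.ext (by simpa using congrArg Fin.val hcon)
  refine hg2 _ _ _ h1.symm h2 ?_ ⟨hcon', ?_⟩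
  · intro h
    simp only [zv, Prod.mk.injEq, true_and] at h
    exact hE e he h.1
  · rw [hcopy i hi]
    exact hb

/-- Job THR-25. Completeness. Colour `zv y v` with the colour of `v` and the copies by `f`. -/
theorem rsE_complete (hH : RSGadget k D N H f y) (hgl : ∀ x x', H.Adj x x' ↔ (x, x') ∈ gl)
    (hE : ∀ e ∈ E, e.1 ≠ e.2) (h : EColourable 3 E) : RSColourable k (relG (rsE gl y E)) := by
  obtain ⟨c, hc⟩ := h
  have hk : 3 < k := lt_of_le_of_lt hH.y3 (f y).2
  set g : FR β N → Fin k := fun a =>
    if a.1.1 then f a.2.2 else ⟨(c a.1.2 : ℕ), (c a.1.2).2.trans hk⟩ with hg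
  have hgc : ∀ i x, g (cp i x) = f x := fun i x => by simp [hg, cp]
  have hgz : ∀ v, (g (zv y v) : ℕ) = c v := fun v => by simp [hg, zv]
  have hy3 := hH.y3
  have hz3 : ∀ v, (g (zv y v) : ℕ) < 3 := fun v => by rw [hgz]; exact (c v).2
  refine ⟨g, ?_, ?_⟩
  · intro u v huv
    rw [rsE_adj hgl] at huv
    obtain ⟨i, hi, ⟨x, x', hxx, rfl, rfl⟩ | ⟨t, rfl, rfl⟩ | ⟨t, rfl, rfl⟩⟩ := huv
    · rw [hgc, hgc]
      exact hH.rs.1 _ _ hxx
    · intro h
      have h1 := congrArg Fin.val h
      rw [hgc] at h1
      have h2 := hz3 (itm E i t)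
      omega
    · intro h
      have h1 := congrArg Fin.val h
      rw [hgc] at h1
      have h2 := hz3 (itm E i t)
      omega
  · rintro u v w huv hvw huw ⟨h1, h2⟩
    rw [rsE_adj hgl] at huv hvw
    obtain ⟨i, hi, ⟨x, x', hxx, rfl, rfl⟩ | ⟨t, rfl, rfl⟩ | ⟨t, rfl, rfl⟩⟩ := huv
    · -- the middle vertex is in a copy and `u` too
      obtain ⟨j, hj, ⟨z, z', hzz, hz, rfl⟩ | ⟨s, hz, rfl⟩ | ⟨s, rfl, hz⟩⟩ := hvw
      · simp only [cp, Prod.mk.injEq, true_and] at hz
        obtain ⟨rfl, rfl⟩ := hz
        rw [hgc, hgc] at h1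
        rw [hgc, hgc] at h2
        exact hH.rs.2 _ _ _ hxx hzz (fun h => huw (by rw [h])) ⟨h1, h2⟩
      · simp only [cp, Prod.mk.injEq, true_and] at hz
        obtain ⟨rfl, rfl⟩ := hz
        have h3 := hz3 (itm E i s)
        rw [hgc] at h1
        rw [hgc] at h2
        rw [← h1] at h2 h3
        have := hH.low x hxx.symm h2
        omega
      · exact cp_ne_zv _ _ _ _ hz
    · -- the middle vertex is `zv`
      obtain ⟨j, hj, ⟨z, z', hzz, hz, rfl⟩ | ⟨s, hz, rfl⟩ | ⟨s, rfl, hz⟩⟩ := hvw
      · exact cp_ne_zv _ _ _ _ hz.symm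
      · exact cp_ne_zv _ _ _ _ hz.symm
      · rw [hgc] at h2
        have h3 := hz3 (itm E i t)
        have h4 : (f y : ℕ) < (g (zv y (itm E i t)) : ℕ) := h2
        omega
    · -- the middle vertex is `y` of a copy and `u` is an end
      obtain ⟨j, hj, ⟨z, z', hzz, hz, rfl⟩ | ⟨s, hz, rfl⟩ | ⟨s, rfl, hz⟩⟩ := hvw
      · simp only [cp, Prod.mk.injEq, true_and] at hz
        obtain ⟨rfl, rfl⟩ := hz
        have h3 := hz3 (itm E i t)
        rw [hgc] at h1
        rw [hgc, hgc] at h2
        rw [h1] at h3
        have := hH.low z' hzz h2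
        omega
      · simp only [cp, Prod.mk.injEq, true_and] at hz
        obtain ⟨rfl, _⟩ := hz
        have hts : itm E i t ≠ itm E i s := fun h => huw (by rw [h])
        have hval : c (itm E i t) = c (itm E i s) := by
          apply Fin.ext
          rw [← hgz, ← hgz, h1]
        have hne : ((items E).getD i default).1 ≠ ((items E).getD i default).2 := by
          intro h
          apply hts
          unfold itm
          split_ifs
          · rfl
          · exact h.symm
          · exact h
          · rfl
        have hmem := mem_items_edge hi default hne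
        have := hc _ hmem
        unfold itm at hval hts
        cases t with
        | false =>
          cases s with
          | false => exact hts rfl
          | true =>
            simp only [Bool.false_eq_true, if_false, if_true] at hval
            exact this hval
        | true =>
          cases s with
          | false =>
            simp only [Bool.false_eq_true, if_false, if_true] at hval
            exact this hval.symm
          | true => exact hts rfl
      · exact cp_ne_zv _ _ _ _ hz

end

end Pool.Agent.H79.Thr
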