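import Pool.Agent.H79.Thr.Col3
import Pool.Agent.H79.Thr.RSRed

/-!
# 3-colourability of graphs of bounded degree is NP-hard
-/

namespace Pool.Agent.H79.Thr

open Pool.Agent.PPS Pool.Agent.H64.Cook

/-- The graph with copies of the vertices: the copies number `i` and `i + 1` of `v` are the two
ends `(v, (i, 0))`, `(v, (i + 1, 0))` of a diamond (two triangles with a common edge), and edge number
`i` joins the copies number `i` of its ends. -/
def spreadE {α : Type} [Inhabited α] [DecidableEq α] (E : List (α × α)) :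
    List ((α × (ℕ × ℕ)) × (α × (ℕ × ℕ))) :=
  (E.flatMap fun e => [e.1, e.2]).dedup.flatMap (fun v =>
    (List.range E.length).flatMap fun i =>
      [((v, i, 0), (v, i, 1)), ((v, i, 0), (v, i, 2)), ((v, i, 1), (v, i, 2)),
        ((v, i + 1, 0), (v, i, 1)), ((v, i + 1, 0), (v, i, 2))]) ++
  (List.range E.length).map fun i =>
    (((E.getD i default).1, i, 0), ((E.getD i default).2, i, 0))

variable {α : Type} [Inhabited α] [DecidableEq α]

/-- Job THR-26. -/
theorem PT.spreadE' [Rep α] {m : Bool} {β : Type} [Rep β] {E : β → List (α × α)} (h : PT m E) :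
    PT m (fun a => spreadE (E a)) := by
  unfold spreadE
  refine PT.append' ?_ ?_
  · refine PT.flatMap' (m := m) (l := fun a => ((E a).flatMap fun e => [e.1, e.2]).dedup)
      (f := fun z : β × α => (List.range (E z.1).length).flatMap fun i =>
        [((z.2, i, 0), (z.2, i, 1)), ((z.2, i, 0), (z.2, i, 2)), ((z.2, i, 1), (z.2, i, 2)),
          ((z.2, i + 1, 0), (z.2, i, 1)), ((z.2, i + 1, 0), (z.2, i, 2))]) ?_ ?_
    · exact Pool.Agent.H64.ENC.PT.dedup' (PT.flatMap' (m := m) (l := E)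
        (f := fun z : β × (α × α) => [z.2.1, z.2.2]) h (by fun_prop))
    · exact PT.flatMap' (m := m) (l := fun z : β × α => List.range (E z.1).length)
        (f := fun z : (β × α) × ℕ => [((z.1.2, z.2, 0), (z.1.2, z.2, 1)),
          ((z.1.2, z.2, 0), (z.1.2, z.2, 2)), ((z.1.2, z.2, 1), (z.1.2, z.2, 2)),
          ((z.1.2, z.2 + 1, 0), (z.1.2, z.2, 1)), ((z.1.2, z.2 + 1, 0), (z.1.2, z.2, 2))])
        (by fun_prop) (by fun_prop)
  · exact PT.map' (m := m) (l := fun a => List.range (E a).length)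
      (f := fun z : β × ℕ => ((((E z.1).getD z.2 default).1, z.2, 0),
        (((E z.1).getD z.2 default).2, z.2, 0))) (by fun_prop) (by fun_prop)

theorem mem_spreadE {E : List (α × α)} {e : (α × (ℕ × ℕ)) × (α × (ℕ × ℕ))} :
    e ∈ spreadE E ↔ (∃ v, (∃ e' ∈ E, v = e'.1 ∨ v = e'.2) ∧ ∃ i, i < E.length ∧
      (e = ((v, i, 0), (v, i, 1)) ∨ e = ((v, i, 0), (v, i, 2)) ∨ e = ((v, i, 1), (v, i, 2)) ∨
        e = ((v, i + 1, 0), (v, i, 1)) ∨ e = ((v, i + 1, 0), (v, i, 2)))) ∨
      ∃ i, i < E.length ∧ e = (((E.getD i default).1, i, 0), ((E.getD i default).2, i, 0)) := by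
  simp only [spreadE, List.mem_append, List.mem_flatMap, List.mem_dedup, List.mem_range,
    List.mem_map, List.mem_cons, List.not_mem_nil, or_false]
  constructor
  · rintro (h | ⟨i, hi, h⟩)
    · exact Or.inl h
    · exact Or.inr ⟨i, hi, h.symm⟩
  · rintro (h | ⟨i, hi, h⟩)
    · exact Or.inl h
    · exact Or.inr ⟨i, hi, h.symm⟩

/-- Job THR-26. -/
theorem spreadE_loopless {E : List (α × α)} (hE : ∀ e ∈ E, e.1 ≠ e.2) :
    ∀ e ∈ spreadE E, e.1 ≠ e.2 := by
  intro e he
  rw [mem_spreadE] at he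
  rcases he with ⟨v, -, i, -, rfl | rfl | rfl | rfl | rfl⟩ | ⟨i, hi, rfl⟩
  · simp
  · simp
  · simp
  · simp
  · simp
  · intro h
    refine hE (E.getD i default) ?_ (congrArg Prod.fst h)
    rw [List.getD_eq_getElem _ _ hi]
    exact List.getElem_mem _

theorem spreadE_nodup (E : List (α × α)) : (spreadE E).Nodup := by
  unfold spreadE
  rw [List.nodup_append]
  refine ⟨?_, ?_, ?_⟩
  · rw [List.nodup_flatMap]
    refine ⟨fun v _ => ?_, ?_⟩
    · rw [List.nodup_flatMap]
      refine ⟨fun i _ => by simp, ?_⟩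
      refine List.Pairwise.imp ?_ List.nodup_range
      intro i j hij
      rw [Function.onFun, List.disjoint_left]
      intro e h1 h2
      have h3 : e.2.2.1 = i := by
        simp only [List.mem_cons, List.not_mem_nil, or_false] at h1
        rcases h1 with rfl | rfl | rfl | rfl | rfl <;> rfl
      have h4 : e.2.2.1 = j := by
        simp only [List.mem_cons, List.not_mem_nil, or_false] at h2
        rcases h2 with rfl | rfl | rfl | rfl | rfl <;> rfl
      exact hij (h3.symm.trans h4)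
    · refine List.Pairwise.imp ?_ (List.nodup_dedup _)
      intro v w hvw
      rw [Function.onFun, List.disjoint_left]
      intro e h1 h2
      have h3 : e.2.1 = v := by
        simp only [List.mem_flatMap, List.mem_cons, List.not_mem_nil, or_false] at h1
        obtain ⟨i, -, rfl | rfl | rfl | rfl | rfl⟩ := h1 <;> rfl
      have h4 : e.2.1 = w := by
        simp only [List.mem_flatMap, List.mem_cons, List.not_mem_nil, or_false] at h2
        obtain ⟨i, -, rfl | rfl | rfl | rfl | rfl⟩ := h2 <;> rfl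
      exact hvw (h3.symm.trans h4)
  · refine List.Nodup.map ?_ List.nodup_range
    intro i j hij
    exact congrArg (fun z => z.1.2.1) hij
  · intro a ha b hb hab
    subst hab
    simp only [List.mem_flatMap, List.mem_cons, List.not_mem_nil, or_false, List.mem_map] at ha hb
    obtain ⟨j, -, hj⟩ := hb
    have h0 : a.2.2.2 = 0 := by rw [← hj]
    obtain ⟨v, -, i, -, rfl | rfl | rfl | rfl | rfl⟩ := ha <;> simp at h0

/-- Job THR-26. -/
theorem spreadE_deg {E : List (α × α)} (hE : ∀ e ∈ E, e.1 ≠ e.2) : EDegLE (spreadE E) 5 := by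
  classical
  have _ := hE
  rintro ⟨u, j, t⟩
  rcases Nat.eq_zero_or_pos t with rfl | ht
  · refine (((spreadE_nodup E).filter _).subperm (l₂ := [((u, j, 0), (u, j, 1)),
      ((u, j, 0), (u, j, 2)), ((u, j, 0), (u, j - 1, 1)), ((u, j, 0), (u, j - 1, 2)),
      (((E.getD j default).1, j, 0), ((E.getD j default).2, j, 0))]) ?_).length_le
    intro e he
    rw [List.mem_filter, mem_spreadE] at he
    obtain ⟨he, h2⟩ := he
    simp only [decide_eq_true_eq] at h2
    simp only [List.mem_cons, List.not_mem_nil, or_false]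
    rcases he with ⟨v, -, i, -, rfl | rfl | rfl | rfl | rfl⟩ | ⟨i, hi, rfl⟩
    · simp only [Prod.mk.injEq] at h2 ⊢
      rcases h2 with ⟨rfl, rfl, -⟩ | ⟨-, -, h⟩
      · simp
      · simp at h
    · simp only [Prod.mk.injEq] at h2 ⊢
      rcases h2 with ⟨rfl, rfl, -⟩ | ⟨-, -, h⟩
      · simp
      · simp at h
    · simp only [Prod.mk.injEq] at h2 ⊢
      rcases h2 with ⟨-, -, h⟩ | ⟨-, -, h⟩ <;> simp at h
    · simp only [Prod.mk.injEq] at h2 ⊢
      rcases h2 with ⟨rfl, rfl, -⟩ | ⟨-, -, h⟩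
      · simp
      · simp at h
    · simp only [Prod.mk.injEq] at h2 ⊢
      rcases h2 with ⟨rfl, rfl, -⟩ | ⟨-, -, h⟩
      · simp
      · simp at h
    · have : i = j := by
        simp only [Prod.mk.injEq] at h2
        rcases h2 with ⟨-, h, -⟩ | ⟨-, h, -⟩ <;> exact h
      subst this
      exact Or.inr (Or.inr (Or.inr (Or.inr rfl)))
  · refine ((((spreadE_nodup E).filter _).subperm (l₂ := [((u, j, 0), (u, j, t)),
      ((u, j, 1), (u, j, 2)), ((u, j + 1, 0), (u, j, t))]) ?_).length_le).trans (by simp)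
    intro e he
    rw [List.mem_filter, mem_spreadE] at he
    obtain ⟨he, h2⟩ := he
    simp only [decide_eq_true_eq] at h2
    simp only [List.mem_cons, List.not_mem_nil, or_false]
    rcases he with ⟨v, -, i, -, rfl | rfl | rfl | rfl | rfl⟩ | ⟨i, hi, rfl⟩
    · simp only [Prod.mk.injEq] at h2 ⊢
      rcases h2 with ⟨-, -, h⟩ | ⟨rfl, rfl, rfl⟩
      · omega
      · simp
    · simp only [Prod.mk.injEq] at h2 ⊢
      rcases h2 with ⟨-, -, h⟩ | ⟨rfl, rfl, rfl⟩
      · omega
      · simp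
    · simp only [Prod.mk.injEq] at h2 ⊢
      rcases h2 with ⟨rfl, rfl, -⟩ | ⟨rfl, rfl, -⟩ <;> simp
    · simp only [Prod.mk.injEq] at h2 ⊢
      rcases h2 with ⟨-, -, h⟩ | ⟨rfl, rfl, rfl⟩
      · omega
      · simp
    · simp only [Prod.mk.injEq] at h2 ⊢
      rcases h2 with ⟨-, -, h⟩ | ⟨rfl, rfl, rfl⟩
      · omega
      · simp
    · simp only [Prod.mk.injEq] at h2
      rcases h2 with ⟨-, -, h⟩ | ⟨-, -, h⟩ <;> omega

private theorem diamond_aux {a b c d : Fin 3} (h1 : a ≠ c) (h2 : a ≠ d) (h3 : c ≠ d)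
    (h4 : b ≠ c) (h5 : b ≠ d) : b = a := by
  rw [Ne, Fin.ext_iff] at h1 h2 h3 h4 h5
  have := a.isLt
  have := b.isLt
  have := c.isLt
  have := d.isLt
  rw [Fin.ext_iff]
  omega

/-- Job THR-26. -/
theorem spreadE_iff {E : List (α × α)} : EColourable 3 (spreadE E) ↔ EColourable 3 E := by
  constructor
  · rintro ⟨h, hh⟩
    refine ⟨fun v => h (v, 0, 0), ?_⟩
    have key : ∀ v, (∃ e' ∈ E, v = e'.1 ∨ v = e'.2) → ∀ i, i ≤ E.length →
        h (v, i, 0) = h (v, 0, 0) := by
      intro v hv i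
      induction i with
      | zero => intro _; rfl
      | succ i ih =>
        intro hi
        have hi' : i < E.length := hi
        rw [← ih hi'.le]
        exact diamond_aux
          (hh ((v, i, 0), (v, i, 1)) (mem_spreadE.mpr (Or.inl ⟨v, hv, i, hi', Or.inl rfl⟩)))
          (hh ((v, i, 0), (v, i, 2))
            (mem_spreadE.mpr (Or.inl ⟨v, hv, i, hi', Or.inr (Or.inl rfl)⟩)))
          (hh ((v, i, 1), (v, i, 2))
            (mem_spreadE.mpr (Or.inl ⟨v, hv, i, hi', Or.inr (Or.inr (Or.inl rfl))⟩)))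
          (hh ((v, i + 1, 0), (v, i, 1))
            (mem_spreadE.mpr (Or.inl ⟨v, hv, i, hi', Or.inr (Or.inr (Or.inr (Or.inl rfl)))⟩)))
          (hh ((v, i + 1, 0), (v, i, 2))
            (mem_spreadE.mpr (Or.inl ⟨v, hv, i, hi', Or.inr (Or.inr (Or.inr (Or.inr rfl)))⟩)))
    intro e he
    obtain ⟨i, hi, hie⟩ := List.mem_iff_getElem.mp he
    have hie' : E.getD i default = e := by
      rw [List.getD_eq_getElem _ _ hi, hie]
    have h1 := hh _ (mem_spreadE.mpr (Or.inr ⟨i, hi, rfl⟩))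
    simp only [hie'] at h1
    rw [key e.1 ⟨e, he, Or.inl rfl⟩ i hi.le, key e.2 ⟨e, he, Or.inr rfl⟩ i hi.le] at h1
    exact h1
  · rintro ⟨h, hh⟩
    have aux : ∀ c : Fin 3, c ≠ c + 1 ∧ c ≠ c + 2 ∧ c + 1 ≠ c + 2 := by decide
    refine ⟨fun z => if z.2.2 = 0 then h z.1 else if z.2.2 = 1 then h z.1 + 1 else h z.1 + 2, ?_⟩
    intro e he
    rw [mem_spreadE] at he
    rcases he with ⟨v, -, i, -, rfl | rfl | rfl | rfl | rfl⟩ | ⟨i, hi, rfl⟩
    · exact (aux (h v)).1
    · exact (aux (h v)).2.1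
    · exact (aux (h v)).2.2
    · exact (aux (h v)).1
    · exact (aux (h v)).2.1
    · refine hh (E.getD i default) ?_
      rw [List.getD_eq_getElem _ _ hi]
      exact List.getElem_mem _

/-- Job THR-26. **3-colourability of graphs of maximum degree 5 is NP-hard.** -/
theorem hard3B {L : Set (List Bool)} (hL : L ∈ NP) :
    ∃ φ : List Bool → List ((V3 × (ℕ × ℕ)) × (V3 × (ℕ × ℕ))), PT true φ ∧
      ∀ x, (∀ e ∈ φ x, e.1 ≠ e.2) ∧ EDegLE (φ x) 5 ∧ (x ∈ L ↔ EColourable 3 (φ x)) := by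
  classical
  obtain ⟨φ, hφ, hx⟩ := hard3 hL
  refine ⟨fun x => spreadE (φ x), PT.spreadE' hφ, fun x => ⟨spreadE_loopless (hx x).1,
    spreadE_deg (hx x).1, ?_⟩⟩
  rw [spreadE_iff]
  exact (hx x).2

end Pool.Agent.H79.Thr
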