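import Pool.Agent.H79.Thr.RSDef

/-!
# The random gadget for rs colourings: the intended colouring, degrees
-/

namespace Pool.Agent.H79.Thr

variable {n h M : ℕ} {b : ℕ} {m : ℕ → ℕ}

theorem rsb_pick {m : ℕ → ℕ} {j v : ℕ} {σ : Bool} (hp : pick m j v = some σ) :
    v < 2 * m j ∧ σ = decide (¬ v < m j) := by
  unfold pick at hp
  split_ifs at hp with h1 h2
  · refine ⟨by omega, ?_⟩
    have : false = σ := Option.some.inj hp
    rw [← this]
    simp [h1]
  · refine ⟨h2, ?_⟩
    have : true = σ := Option.some.inj hp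
    rw [← this]
    simp [h1]

theorem rsb_down_inr {ω : Omr n h M} {x : Wt n h} {y : Wt n h} (hd : down b m ω x y) :
    ∃ q : Fin n × Bool, y = .inr q := by
  rcases y with z | q
  · rcases x with z' | q' <;> exact absurd hd (fun h => h)
  · exact ⟨q, rfl⟩

theorem rsb_down_lt {ω : Omr n h M} {x y : Wt n h} (hd : down b m ω x y) :
    (colF y : Fin (n + 1)) < colF x := by
  obtain ⟨⟨j, σ⟩, rfl⟩ := rsb_down_inr hd
  rw [Fin.lt_def]
  have hj := j.2
  rcases x with z | ⟨i, τ⟩
  · change n - 1 - (j : ℕ) < n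
    omega
  · have hij : i < j := hd.1
    rw [Fin.lt_def] at hij
    change n - 1 - (j : ℕ) < n - 1 - (i : ℕ)
    omega

theorem rsb_down_unique {ω : Omr n h M} {x : Wt n h} {j : Fin n} {σ σ' : Bool}
    (h1 : down b m ω x (.inr (j, σ))) (h2 : down b m ω x (.inr (j, σ'))) : σ = σ' := by
  rcases x with z | ⟨i, τ⟩
  · by_cases hj : (j : ℕ) < h
    · change (if (j : ℕ) < h then _ else _) at h1
      change (if (j : ℕ) < h then _ else _) at h2
      rw [if_pos hj] at h1 h2
      rw [← h1, ← h2]
    · change (if (j : ℕ) < h then _ else _) at h1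
      change (if (j : ℕ) < h then _ else _) at h2
      rw [if_neg hj] at h1 h2
      exact Option.some.inj (h1.symm.trans h2)
  · have h1' := h1.2
    have h2' := h2.2
    by_cases hD : Dp b i j
    · rw [if_pos hD] at h1' h2'
      rw [← h1', ← h2']
    · rw [if_neg hD] at h1' h2'
      exact Option.some.inj (h1'.symm.trans h2')

theorem rsb_colF_inr {q q' : Fin n × Bool}
    (he : (colF (.inr q : Wt n h) : Fin (n + 1)) = colF (.inr q' : Wt n h)) : q.1 = q'.1 := by
  have h1 := congrArg Fin.val he
  change n - 1 - (q.1 : ℕ) = n - 1 - (q'.1 : ℕ) at h1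
  have h2 := q.1.2
  have h3 := q'.1.2
  exact Fin.ext (by omega)

/-- Job THR-14. The intended colouring is an rs colouring, since a vertex has at most one
neighbour in every level below it. -/
theorem rsG_colF (ω : Omr n h M) : IsRS (rsG b m ω) (colF : Wt n h → Fin (n + 1)) := by
  refine ⟨?_, ?_⟩
  · intro u v huv
    rcases huv with h1 | h1
    · exact (rsb_down_lt h1).ne'
    · exact (rsb_down_lt h1).ne
  · rintro u v w huv hvw huw ⟨h1, h2⟩
    have hvu : down b m ω v u := by
      rcases huv with h3 | h3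
      · exact absurd (rsb_down_lt h3) (by rw [h1]; exact not_lt.2 h2.le)
      · exact h3
    have hvw' : down b m ω v w := by
      rcases hvw with h3 | h3
      · exact h3
      · exact absurd (rsb_down_lt h3) (not_lt.2 h2.le)
    obtain ⟨q, rfl⟩ := rsb_down_inr hvu
    obtain ⟨q', rfl⟩ := rsb_down_inr hvw'
    have h3 := rsb_colF_inr h1
    obtain ⟨j, σ⟩ := q
    obtain ⟨j', σ'⟩ := q'
    dsimp only at h3
    subst h3
    exact huw (by rw [rsb_down_unique hvu hvw'])

/-- The number of the levels in which `w` picks a vertex (counted generously). -/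
def dnN (m : ℕ → ℕ) (ω : Omr n h M) (w : Wt n h) : ℕ :=
  (Finset.univ.filter fun l : Fin n => ((ω (w, l) : ℕ) < 2 * m l)).card

/-- The number of the vertices in higher levels that pick a vertex of the level `j`. -/
def upN (b : ℕ) (m : ℕ → ℕ) (ω : Omr n h M) (j : Fin n) : ℕ :=
  (Finset.univ.filter fun x : Fin n × Bool =>
    (x.1 < j ∧ ¬ Dp b x.1 j) ∧ ((ω (.inr x, j) : ℕ) < 2 * m j)).card

/-- Job THR-14. The degree of a vertex of the top class: `h` neighbours in the levels `< h`, and
the others are counted by `dnN`. -/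
theorem rsG_deg_inl (ω : Omr n h M) (z : Zt h) :
    ((rsG b m ω).neighborSet (.inl z)).ncard ≤ h + dnN m ω (.inl z) := by
  classical
  set S1 : Finset (Fin n) := Finset.univ.filter fun l : Fin n => (l : ℕ) < h with hS1
  set S2 : Finset (Fin n) :=
    Finset.univ.filter fun l : Fin n => ((ω (.inl z, l) : ℕ) < 2 * m l) with hS2
  have hsub : (rsG b m ω).neighborSet (.inl z) ⊆
      ↑((S1.image fun l => (Sum.inr (l, eps z l) : Wt n h)) ∪
        S2.image fun l => (Sum.inr (l, decide (¬ (ω (.inl z, l) : ℕ) < m l)) : Wt n h)) := by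
    intro y hy
    rcases hy with hy | hy
    · obtain ⟨⟨j, σ⟩, rfl⟩ := rsb_down_inr hy
      change (if (j : ℕ) < h then eps z j = σ else pick m j (ω (.inl z, j)) = some σ) at hy
      rw [Finset.coe_union, Set.mem_union]
      by_cases hj : (j : ℕ) < h
      · rw [if_pos hj] at hy
        left
        rw [Finset.mem_coe, Finset.mem_image]
        exact ⟨j, by rw [hS1, Finset.mem_filter]; exact ⟨Finset.mem_univ _, hj⟩, by rw [hy]⟩
      · rw [if_neg hj] at hy
        obtain ⟨h1, h2⟩ := rsb_pick hy
        right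
        rw [Finset.mem_coe, Finset.mem_image]
        exact ⟨j, by rw [hS2, Finset.mem_filter]; exact ⟨Finset.mem_univ _, h1⟩, by rw [h2]⟩
    · obtain ⟨q, hq⟩ := rsb_down_inr hy
      exact absurd hq (by simp)
  have h1 := Set.ncard_le_ncard hsub (Finset.finite_toSet _)
  rw [Set.ncard_coe_finset] at h1
  have h2 : S1.card ≤ h := by
    have := Finset.card_le_card_of_injOn (s := S1) (t := Finset.range h) (fun l : Fin n => (l : ℕ))
      (by
        intro l hl
        rw [hS1, Finset.coe_filter] at hl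
        exact Finset.mem_coe.2 (Finset.mem_range.2 hl.2))
      (fun a _ b _ hab => Fin.ext hab)
    rwa [Finset.card_range] at this
  refine h1.trans ((Finset.card_union_le _ _).trans ?_)
  exact Nat.add_le_add (Finset.card_image_le.trans h2) Finset.card_image_le

theorem rsb_card_D (n : ℕ) {b : ℕ} (hb : 1 ≤ b) :
    ((Finset.Ioo 0 n).filter fun d => d ≤ 4 * b ∨ d % b = 0).card ≤ 4 * b + n / b := by
  rw [Finset.filter_or]
  refine (Finset.card_union_le _ _).trans (Nat.add_le_add ?_ ?_)
  · refine (Finset.card_le_card (t := Finset.Icc 1 (4 * b)) ?_).trans ?_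
    · intro d hd
      rw [Finset.mem_filter, Finset.mem_Ioo] at hd
      rw [Finset.mem_Icc]
      omega
    · rw [Nat.card_Icc]; omega
  · have := Finset.card_le_card_of_injOn
      (s := (Finset.Ioo 0 n).filter fun d => d % b = 0) (t := Finset.Ioc 0 (n / b))
      (fun d => d / b)
      (by
        intro d hd
        rw [Finset.mem_coe, Finset.mem_filter, Finset.mem_Ioo] at hd
        obtain ⟨⟨h1, h2⟩, h3⟩ := hd
        rw [Finset.mem_coe, Finset.mem_Ioc]
        refine ⟨?_, Nat.div_le_div_right h2.le⟩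
        have h4 := Nat.div_add_mod d b
        rw [h3, add_zero] at h4
        rcases Nat.eq_zero_or_pos (d / b) with h5 | h5
        · rw [h5, mul_zero] at h4; omega
        · exact h5)
      (by
        intro d hd d' hd' hdd
        rw [Finset.mem_coe, Finset.mem_filter] at hd hd'
        have h4 := Nat.div_add_mod d b
        have h5 := Nat.div_add_mod d' b
        rw [hd.2] at h4
        rw [hd'.2] at h5
        dsimp only at hdd
        rw [hdd] at h4
        omega)
    rwa [Nat.card_Ioc, Nat.sub_zero] at this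

theorem rsb_card_lo {b : ℕ} (hb : 1 ≤ b) (j : Fin n) :
    (Finset.univ.filter fun i : Fin n => i < j ∧ Dp b i j).card ≤ 4 * b + n / b := by
  refine le_trans ?_ (rsb_card_D n hb)
  refine Finset.card_le_card_of_injOn (fun i : Fin n => (j : ℕ) - i) ?_ ?_
  · intro i hi
    rw [Finset.mem_coe, Finset.mem_filter] at hi
    obtain ⟨-, h1, h2⟩ := hi
    rw [Fin.lt_def] at h1
    have hj := j.2
    rw [Finset.mem_coe, Finset.mem_filter, Finset.mem_Ioo]
    refine ⟨⟨?_, ?_⟩, h2⟩ <;> dsimp only <;> omega
  · intro i hi i' hi' hii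
    rw [Finset.mem_coe, Finset.mem_filter] at hi hi'
    have h1 := hi.2.1
    have h2 := hi'.2.1
    rw [Fin.lt_def] at h1 h2
    dsimp only at hii
    exact Fin.ext (by omega)

theorem rsb_card_hi {b : ℕ} (hb : 1 ≤ b) (j : Fin n) :
    (Finset.univ.filter fun l : Fin n => j < l ∧ Dp b j l).card ≤ 4 * b + n / b := by
  refine le_trans ?_ (rsb_card_D n hb)
  refine Finset.card_le_card_of_injOn (fun l : Fin n => (l : ℕ) - j) ?_ ?_
  · intro i hi
    rw [Finset.mem_coe, Finset.mem_filter] at hi
    obtain ⟨-, h1, h2⟩ := hi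
    rw [Fin.lt_def] at h1
    have hj := i.2
    rw [Finset.mem_coe, Finset.mem_filter, Finset.mem_Ioo]
    refine ⟨⟨?_, ?_⟩, h2⟩ <;> dsimp only <;> omega
  · intro i hi i' hi' hii
    rw [Finset.mem_coe, Finset.mem_filter] at hi hi'
    have h1 := hi.2.1
    have h2 := hi'.2.1
    rw [Fin.lt_def] at h1 h2
    dsimp only at hii
    exact Fin.ext (by omega)

/-- Job THR-14. The degree of a vertex `(j, σ)`: at most `|Zt h|` neighbours in the top class, at
most `2 (4 b + n / b)` in higher levels `i` with `Dp b i j`, at most `4 b + n / b` in lower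
levels `l` with `Dp b j l`; the others are counted by `upN` and `dnN`. -/
theorem rsG_deg_inr (hb : 1 ≤ b) (ω : Omr n h M) (x : Fin n × Bool) :
    ((rsG b m ω).neighborSet (.inr x)).ncard ≤
      4 * h ^ 2 * (2 * h + 1) + 3 * (4 * b + n / b) + upN b m ω x.1 + dnN m ω (.inr x) := by
  classical
  obtain ⟨j, τ⟩ := x
  set A : Finset (Wt n h) := (Finset.univ : Finset (Zt h)).image Sum.inl with hA
  set B : Finset (Wt n h) := ((Finset.univ.filter fun i : Fin n => i < j ∧ Dp b i j) ×ˢ
    (Finset.univ : Finset Bool)).image Sum.inr with hB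
  set C : Finset (Wt n h) := (Finset.univ.filter fun l : Fin n => j < l ∧ Dp b j l).image
    (fun l => (Sum.inr (l, bitM M (ω (.inr (j, false), l))) : Wt n h)) with hC
  set U : Finset (Wt n h) := (Finset.univ.filter fun x : Fin n × Bool =>
    (x.1 < j ∧ ¬ Dp b x.1 j) ∧ ((ω (.inr x, j) : ℕ) < 2 * m j)).image Sum.inr with hU
  set E : Finset (Wt n h) :=
    (Finset.univ.filter fun l : Fin n => ((ω (.inr (j, τ), l) : ℕ) < 2 * m l)).image
    (fun l => (Sum.inr (l, decide (¬ (ω (.inr (j, τ), l) : ℕ) < m l)) : Wt n h)) with hE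
  have hsub : (rsG b m ω).neighborSet (.inr (j, τ)) ⊆ ↑((((A ∪ B) ∪ C) ∪ U) ∪ E) := by
    intro y hy
    rw [Finset.mem_coe, Finset.mem_union, Finset.mem_union, Finset.mem_union, Finset.mem_union]
    rcases hy with hy | hy
    · -- `y` is below
      obtain ⟨⟨l, σ⟩, rfl⟩ := rsb_down_inr hy
      obtain ⟨h1, h2⟩ := hy
      by_cases hD : Dp b j l
      · rw [if_pos hD] at h2
        refine Or.inl (Or.inl (Or.inr ?_))
        rw [hC, Finset.mem_image]
        exact ⟨l, by rw [Finset.mem_filter]; exact ⟨Finset.mem_univ _, h1, hD⟩, by rw [h2]⟩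
      · rw [if_neg hD] at h2
        obtain ⟨h3, h4⟩ := rsb_pick h2
        refine Or.inr ?_
        rw [hE, Finset.mem_image]
        exact ⟨l, by rw [Finset.mem_filter]; exact ⟨Finset.mem_univ _, h3⟩, by rw [h4]⟩
    · rcases y with z | ⟨i, σ⟩
      · refine Or.inl (Or.inl (Or.inl (Or.inl ?_)))
        rw [hA, Finset.mem_image]
        exact ⟨z, Finset.mem_univ _, rfl⟩
      · obtain ⟨h1, h2⟩ := hy
        by_cases hD : Dp b i j
        · refine Or.inl (Or.inl (Or.inl (Or.inr ?_)))
          rw [hB, Finset.mem_image]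
          refine ⟨(i, σ), ?_, rfl⟩
          rw [Finset.mem_product, Finset.mem_filter]
          exact ⟨⟨Finset.mem_univ _, h1, hD⟩, Finset.mem_univ _⟩
        · rw [if_neg hD] at h2
          refine Or.inl (Or.inr ?_)
          rw [hU, Finset.mem_image]
          refine ⟨(i, σ), ?_, rfl⟩
          rw [Finset.mem_filter]
          exact ⟨Finset.mem_univ _, ⟨h1, hD⟩, (rsb_pick h2).1⟩
  have h0 := Set.ncard_le_ncard hsub (Finset.finite_toSet _)
  rw [Set.ncard_coe_finset] at h0
  have h1 := Finset.card_union_le ((((A ∪ B) ∪ C) ∪ U)) E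
  have h2 := Finset.card_union_le (((A ∪ B) ∪ C)) U
  have h3 := Finset.card_union_le (A ∪ B) C
  have h4 := Finset.card_union_le A B
  have hAc : A.card ≤ 4 * h ^ 2 * (2 * h + 1) := by
    rw [← card_Zt h]
    exact Finset.card_image_le
  have hBc : B.card ≤ 2 * (4 * b + n / b) := by
    refine Finset.card_image_le.trans ?_
    rw [Finset.card_product, Finset.card_univ, Fintype.card_bool]
    have := rsb_card_lo hb j
    omega
  have hCc : C.card ≤ 4 * b + n / b := Finset.card_image_le.trans (rsb_card_hi hb j)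
  have hUc : U.card ≤ upN b m ω j := Finset.card_image_le
  have hEc : E.card ≤ dnN m ω (.inr (j, τ)) := Finset.card_image_le
  change _ ≤ 4 * h ^ 2 * (2 * h + 1) + 3 * (4 * b + n / b) + upN b m ω j + dnN m ω (.inr (j, τ))
  omega

end Pool.Agent.H79.Thr
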