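import Pool.Agent.H79.Thr.RSDef

/-!
# The random gadget for rs colourings: the levels above `h`
-/

namespace Pool.Agent.H79.Thr

variable {n h M : ℕ} {b : ℕ} {m : ℕ → ℕ}

/-- Job THR-15. Every vertex of the top class has exactly one neighbour in every level `i < h`. -/
theorem adj_near (ω : Omr n h M) (z : Zt h) (i : Fin n) (hi : (i : ℕ) < h) (σ : Bool) :
    (rsG b m ω).Adj (.inl z) (.inr (i, σ)) ↔ eps z i = σ := by
  have h1 : (rsG b m ω).Adj (.inl z) (.inr (i, σ)) ↔
      ((if (i : ℕ) < h then eps z i = σ else pick m i (ω (.inl z, i)) = some σ) ∨ False) :=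
    Iff.rfl
  rw [h1, if_pos hi, or_false]

/-- The set of the vertices of the top class and of the levels `< h`. -/
def topS (n h : ℕ) : Set (Wt n h) := {w | ∀ i τ, w = .inr (i, τ) → (i : ℕ) < h}

/-- Job THR-15. If two vertices of different levels `< h` have the same colour then the top class
gets at least `2 h + 1` colours: they have at least `2 h + 1` common neighbours `z` in the top class
(`z.i0 = i`, `z.i1 = i'`, `z.b0 = σ`, `z.b1 = σ'`), all of them have smaller colours than the two vertices
(otherwise the two vertices and `z` are a forbidden path), hence different colours. -/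
theorem card_top_of_near {ω : Omr n h M} {g : Wt n h → Fin (n + 1)} (hg : IsRS (rsG b m ω) g)
    {i i' : Fin n} {σ σ' : Bool} (hi : (i : ℕ) < h) (hi' : (i' : ℕ) < h) (hne : i ≠ i')
    (he : g (.inr (i, σ)) = g (.inr (i', σ'))) :
    2 * h + 1 ≤ (g '' Set.range (Sum.inl : Zt h → Wt n h)).ncard := by
  classical
  have hii : (i' : ℕ) ≠ (i : ℕ) := fun e => hne (Fin.ext e.symm)
  have a1 : ∀ r : Fin (2 * h + 1), (rsG b m ω).Adj
      (.inl ⟨⟨i, hi⟩, ⟨i', hi'⟩, σ, σ', r⟩) (.inr (i, σ)) := by
    intro r
    rw [adj_near _ _ _ hi]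
    simp [eps]
  have a2 : ∀ r : Fin (2 * h + 1), (rsG b m ω).Adj
      (.inl ⟨⟨i, hi⟩, ⟨i', hi'⟩, σ, σ', r⟩) (.inr (i', σ')) := by
    intro r
    rw [adj_near _ _ _ hi']
    simp [eps, hii]
  have hne2 : (Sum.inr (i, σ) : Wt n h) ≠ .inr (i', σ') := by
    intro e
    exact hne (congrArg Prod.fst (Sum.inr.inj e))
  have hlt : ∀ r : Fin (2 * h + 1),
      g (.inl ⟨⟨i, hi⟩, ⟨i', hi'⟩, σ, σ', r⟩) < g (.inr (i, σ)) := by
    intro r
    rcases lt_trichotomy (g (.inl ⟨⟨i, hi⟩, ⟨i', hi'⟩, σ, σ', r⟩)) (g (.inr (i, σ)))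
      with h1 | h1 | h1
    · exact h1
    · exact absurd h1 (hg.1 _ _ (a1 r))
    · exact absurd ⟨he, he ▸ h1⟩ (hg.2 _ _ _ (a1 r).symm (a2 r) hne2)
  have hinj : Function.Injective
      (fun r : Fin (2 * h + 1) => g (.inl ⟨⟨i, hi⟩, ⟨i', hi'⟩, σ, σ', r⟩)) := by
    intro r r' hr
    by_contra hrr
    refine hg.2 _ _ _ (a1 r) (a1 r').symm ?_ ⟨hr, hlt r'⟩
    intro e
    exact hrr (congrArg Zt.r (Sum.inl.inj e))
  have h2 : (Set.range (fun r : Fin (2 * h + 1) =>
      g (.inl ⟨⟨i, hi⟩, ⟨i', hi'⟩, σ, σ', r⟩))).ncard = 2 * h + 1 := by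
    rw [← Set.image_univ, Set.ncard_image_of_injective _ hinj, Set.ncard_univ,
      Nat.card_eq_fintype_card, Fintype.card_fin]
  rw [← h2]
  refine Set.ncard_le_ncard ?_ (Set.toFinite _)
  rintro _ ⟨r, rfl⟩
  exact ⟨_, ⟨_, rfl⟩, rfl⟩

/-- Job THR-15. If no two vertices of different levels `< h` have the same colour and a vertex `z`
of the top class has the colour of a vertex `(i, σ)` with `i < h` then the level `i` has two
colours (as `z` is adjacent to `(i, !σ)`). -/
theorem split_of_top {ω : Omr n h M} {g : Wt n h → Fin (n + 1)} (hg : IsRS (rsG b m ω) g)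
    {z : Zt h} {i : Fin n} {σ : Bool} (hi : (i : ℕ) < h)
    (he : g (.inl z) = g (.inr (i, σ))) :
    eps z i = !σ ∧ g (.inr (i, false)) ≠ g (.inr (i, true)) := by
  have h1 : eps z i ≠ σ := by
    intro e
    exact hg.1 _ _ ((adj_near ω z i hi σ).2 e) he
  have h2 : eps z i = !σ := by
    cases σ <;> cases h3 : eps z i <;> simp_all
  refine ⟨h2, ?_⟩
  have h4 := hg.1 _ _ ((adj_near ω z i hi (!σ)).2 h2)
  rw [he] at h4
  cases σ
  · exact h4
  · exact h4.symm

/-- The number of the levels below `h`. -/
private theorem thr15_card_levels (hn : h ≤ n) :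
    (Finset.univ.filter fun i : Fin n => (i : ℕ) < h).card = h := by
  have h1 : (Finset.univ.filter fun i : Fin n => (i : ℕ) < h) =
      (Finset.univ : Finset (Fin h)).map (Fin.castLEEmb hn) := by
    ext i
    simp only [Finset.mem_filter, Finset.mem_univ, true_and, Finset.mem_map]
    constructor
    · intro hi
      exact ⟨⟨i, hi⟩, rfl⟩
    · rintro ⟨j, rfl⟩
      exact j.2
  rw [h1, Finset.card_map, Finset.card_univ, Fintype.card_fin]

open Classical in
/-- The colours of the first vertices of the levels below `h`. -/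
private noncomputable def thr15A (g : Wt n h → Fin (n + 1)) : Finset (Fin (n + 1)) :=
  (Finset.univ.filter fun i : Fin n => (i : ℕ) < h).image fun i => g (.inr (i, false))

open Classical in
/-- The colours of the second vertices of the levels below `h` with two colours. -/
private noncomputable def thr15B (g : Wt n h → Fin (n + 1)) : Finset (Fin (n + 1)) :=
  (Finset.univ.filter fun i : Fin n => (i : ℕ) < h ∧
      g (.inr (i, false)) ≠ g (.inr (i, true))).image fun i => g (.inr (i, true))

private theorem thr15_cardA {g : Wt n h → Fin (n + 1)} (hn : h ≤ n)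
    (hne : ∀ (i i' : Fin n) (σ σ' : Bool), (i : ℕ) < h → (i' : ℕ) < h → i ≠ i' →
      g (.inr (i, σ)) ≠ g (.inr (i', σ'))) : (thr15A g).card = h := by
  classical
  unfold thr15A
  rw [Finset.card_image_of_injOn, thr15_card_levels hn]
  intro i hi i' hi' e
  by_contra hii
  have h1 : (i : ℕ) < h := by simpa using hi
  have h2 : (i' : ℕ) < h := by simpa using hi'
  exact hne i i' false false h1 h2 hii e

open Classical in
private theorem thr15_cardB {g : Wt n h → Fin (n + 1)}
    (hne : ∀ (i i' : Fin n) (σ σ' : Bool), (i : ℕ) < h → (i' : ℕ) < h → i ≠ i' →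
      g (.inr (i, σ)) ≠ g (.inr (i', σ'))) : (thr15B g).card =
      (Finset.univ.filter fun i : Fin n => (i : ℕ) < h ∧
        g (.inr (i, false)) ≠ g (.inr (i, true))).card := by
  unfold thr15B
  rw [Finset.card_image_of_injOn]
  intro i hi i' hi' e
  by_contra hii
  have h1 : (i : ℕ) < h := (Finset.mem_filter.1 (Finset.mem_coe.1 hi)).2.1
  have h2 : (i' : ℕ) < h := (Finset.mem_filter.1 (Finset.mem_coe.1 hi')).2.1
  exact hne i i' true true h1 h2 hii e

private theorem thr15_disj {g : Wt n h → Fin (n + 1)}
    (hne : ∀ (i i' : Fin n) (σ σ' : Bool), (i : ℕ) < h → (i' : ℕ) < h → i ≠ i' →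
      g (.inr (i, σ)) ≠ g (.inr (i', σ'))) : Disjoint (thr15A g) (thr15B g) := by
  classical
  rw [Finset.disjoint_left]
  intro c hc hc'
  unfold thr15A at hc
  unfold thr15B at hc'
  simp only [Finset.mem_image, Finset.mem_filter, Finset.mem_univ, true_and] at hc hc'
  obtain ⟨i, hi, rfl⟩ := hc
  obtain ⟨i', ⟨hi', hs⟩, he⟩ := hc'
  by_cases hii : i = i'
  · subst hii
    exact hs he.symm
  · exact hne i i' false true hi hi' hii he.symm

private theorem thr15_memA {g : Wt n h → Fin (n + 1)} {c : Fin (n + 1)} (hc : c ∈ thr15A g) :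
    ∃ i : Fin n, (i : ℕ) < h ∧ g (.inr (i, false)) = c := by
  classical
  unfold thr15A at hc
  simpa using hc

private theorem thr15_memB {g : Wt n h → Fin (n + 1)} {c : Fin (n + 1)} (hc : c ∈ thr15B g) :
    ∃ i : Fin n, (i : ℕ) < h ∧ g (.inr (i, true)) = c := by
  classical
  unfold thr15B at hc
  simp only [Finset.mem_image, Finset.mem_filter, Finset.mem_univ, true_and] at hc
  obtain ⟨i, hi, he⟩ := hc
  exact ⟨i, hi.1, he⟩

private theorem thr15_topS_of_lt {i : Fin n} {σ : Bool} (hi : (i : ℕ) < h) :
    (Sum.inr (i, σ) : Wt n h) ∈ topS n h := by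
  intro j τ e
  have h1 : i = j := congrArg Prod.fst (Sum.inr.inj e)
  rw [← h1]
  exact hi

private theorem thr15_topS_inl (z : Zt h) : (Sum.inl z : Wt n h) ∈ topS n h := by
  intro j τ e
  exact absurd e (by simp)

private theorem thr15_sub {g : Wt n h → Fin (n + 1)} :
    ((thr15A g ∪ thr15B g : Finset (Fin (n + 1))) : Set (Fin (n + 1))) ⊆ g '' topS n h := by
  intro c hc
  rw [Finset.mem_coe, Finset.mem_union] at hc
  rcases hc with hc | hc
  · obtain ⟨i, hi, rfl⟩ := thr15_memA hc
    exact ⟨_, thr15_topS_of_lt hi, rfl⟩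
  · obtain ⟨i, hi, rfl⟩ := thr15_memB hc
    exact ⟨_, thr15_topS_of_lt hi, rfl⟩

open Classical in
/-- Job THR-15. If no two vertices of different levels `< h` have the same colour then `topS` has
at least `h + (number of the levels < h with two colours)` colours. -/
theorem card_topS_split {g : Wt n h → Fin (n + 1)} (hn : h ≤ n)
    (hne : ∀ (i i' : Fin n) (σ σ' : Bool), (i : ℕ) < h → (i' : ℕ) < h → i ≠ i' →
      g (.inr (i, σ)) ≠ g (.inr (i', σ'))) :
    h + (Finset.univ.filter fun i : Fin n => (i : ℕ) < h ∧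
      g (.inr (i, false)) ≠ g (.inr (i, true))).card ≤ (g '' topS n h).ncard := by
  have h1 := Set.ncard_le_ncard (thr15_sub (g := g)) (Set.toFinite _)
  rw [Set.ncard_coe_finset, Finset.card_union_of_disjoint (thr15_disj hne), thr15_cardA hn hne,
    thr15_cardB hne] at h1
  exact h1

/-- Job THR-15. `topS` always has at least `h + 1` colours. -/
theorem card_topS {ω : Omr n h M} {g : Wt n h → Fin (n + 1)} (hg : IsRS (rsG b m ω) g)
    (hh : 1 ≤ h) (hn : h ≤ n) : h + 1 ≤ (g '' topS n h).ncard := by
  classical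
  by_cases hne : ∀ (i i' : Fin n) (σ σ' : Bool), (i : ℕ) < h → (i' : ℕ) < h → i ≠ i' →
      g (.inr (i, σ)) ≠ g (.inr (i', σ'))
  · have h1 := card_topS_split hn hne
    by_cases hs : ∃ i : Fin n, (i : ℕ) < h ∧ g (.inr (i, false)) ≠ g (.inr (i, true))
    · obtain ⟨i, hi⟩ := hs
      have h2 : 0 < (Finset.univ.filter fun i : Fin n => (i : ℕ) < h ∧
          g (.inr (i, false)) ≠ g (.inr (i, true))).card :=
        Finset.card_pos.2 ⟨i, by simpa using hi⟩
      omega
    · push Not at hs
      set z : Zt h := ⟨⟨0, hh⟩, ⟨0, hh⟩, false, false, ⟨0, by omega⟩⟩ with hz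
      have h3 : g (.inl z) ∉ thr15A g := by
        intro hc
        obtain ⟨i, hi, he⟩ := thr15_memA hc
        exact (split_of_top hg hi he.symm).2 (hs i hi)
      have h4 : ((insert (g (.inl z)) (thr15A g) : Finset (Fin (n + 1))) :
          Set (Fin (n + 1))) ⊆ g '' topS n h := by
        intro c hc
        rw [Finset.mem_coe, Finset.mem_insert] at hc
        rcases hc with rfl | hc
        · exact ⟨_, thr15_topS_inl z, rfl⟩
        · exact thr15_sub (by
            rw [Finset.mem_coe, Finset.mem_union]
            exact Or.inl hc)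
      have h5 := Set.ncard_le_ncard h4 (Set.toFinite _)
      rw [Set.ncard_coe_finset, Finset.card_insert_of_notMem h3, thr15_cardA hn hne] at h5
      exact h5
  · push Not at hne
    obtain ⟨i, i', σ, σ', hi, hi', hii, he⟩ := hne
    have h1 := card_top_of_near hg hi hi' hii he
    have h2 : (g '' Set.range (Sum.inl : Zt h → Wt n h)).ncard ≤ (g '' topS n h).ncard := by
      refine Set.ncard_le_ncard (Set.image_mono ?_) (Set.toFinite _)
      rintro _ ⟨z, rfl⟩
      exact thr15_topS_inl z
    omega

/-- The number of the levels not below `h`. -/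
private theorem thr16_card_levels (hn : h ≤ n) :
    (Finset.univ.filter fun i : Fin n => h ≤ (i : ℕ)).card = n - h := by
  have h1 := Finset.card_filter_add_card_filter_not (s := (Finset.univ : Finset (Fin n)))
    (fun i : Fin n => (i : ℕ) < h)
  have h2 : (Finset.univ.filter fun i : Fin n => ¬ (i : ℕ) < h) =
      Finset.univ.filter fun i : Fin n => h ≤ (i : ℕ) := by
    ext i
    simp
  rw [thr15_card_levels hn, h2, Finset.card_univ, Fintype.card_fin] at h1
  omega

/-- The good levels use colours that do not occur in `topS`. -/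
private theorem thr16_card_le {g : Wt n h → Fin (n + 1)} (hn : h ≤ n)
    (hgood : ∀ i : Fin n, h ≤ (i : ℕ) → GoodL g i) : (g '' topS n h).ncard ≤ h + 1 := by
  classical
  set C : Finset (Fin (n + 1)) :=
    (Finset.univ.filter fun i : Fin n => h ≤ (i : ℕ)).image fun i => g (.inr (i, false)) with hC
  have hCc : C.card = n - h := by
    rw [hC, Finset.card_image_of_injOn, thr16_card_levels hn]
    intro i hi i' hi' e
    have h1 : h ≤ (i' : ℕ) := by simpa using hi'
    obtain ⟨τ, hτ⟩ := (hgood i' h1).2 _ e
    exact congrArg Prod.fst (Sum.inr.inj hτ)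
  have hdis : Disjoint (g '' topS n h) (C : Set (Fin (n + 1))) := by
    rw [Set.disjoint_left]
    rintro c ⟨w, hw, rfl⟩ hc
    rw [hC, Finset.mem_coe, Finset.mem_image] at hc
    obtain ⟨i, hi, he⟩ := hc
    have h1 : h ≤ (i : ℕ) := by simpa using hi
    obtain ⟨τ, rfl⟩ := (hgood i h1).2 w he.symm
    have h2 := hw i τ rfl
    omega
  have h3 := Set.ncard_union_eq hdis (Set.toFinite _) (Set.toFinite _)
  have h4 : (g '' topS n h ∪ (C : Set (Fin (n + 1)))).ncard ≤ n + 1 := by
    have h5 := Set.ncard_le_ncard (Set.subset_univ (g '' topS n h ∪ (C : Set (Fin (n + 1)))))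
      (Set.toFinite _)
    rw [Set.ncard_univ, Nat.card_eq_fintype_card, Fintype.card_fin] at h5
    exact h5
  rw [Set.ncard_coe_finset, hCc] at h3
  omega

/-- Job THR-16. If all levels `≥ h` are good then `g` is the intended colouring.

Proof: the `n - h` levels `≥ h` use `n - h` colours that occur nowhere else, so `topS` has at most,
hence exactly, `h + 1` colours. So by `card_top_of_near` no two vertices of different levels
`< h` have the same colour, and by `card_topS_split` at most one level `< h` has two colours. If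
there is such a level `i`, then (`h + 1` colours are used on the levels `< h`) every `z` has a
colour of a vertex of a level `< h`, so by `split_of_top` of a vertex of level `i`, the one that is
not its neighbour. Let `x`, `x'` be the vertices of level `i`, `g x > g x'`: there are two different
`z`, `z'` adjacent to `x` (`z.i0 = i`, `z.i1` another level, `h ≥ 2`), they have the colour
`g x' < g x`, a contradiction. So the levels `< h` have one colour each, `z` has none of these
colours by `split_of_top`, so the top class has one colour. Two vertices of the same colour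
adjacent to `v` have a larger colour than `v`. By `Dp b i (i + 1)` both vertices of level `i` are
adjacent to one of level `i + 1`, and two vertices of the top class are adjacent to a vertex of
level `0`. So the colours are strictly decreasing, from the top class to level `n - 1`, and there
are `n + 1` colours. -/
theorem rs_final {ω : Omr n h M} {g : Wt n h → Fin (n + 1)} (hg : IsRS (rsG b m ω) g)
    (hb : 1 ≤ b) (hh : 2 ≤ h) (hn : h ≤ n) (hgood : ∀ i : Fin n, h ≤ (i : ℕ) → GoodL g i) :
    g = colF := by
  classical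
  have hle := thr16_card_le hn hgood
  have hge := card_topS hg (by omega) hn
  have hinl : (g '' Set.range (Sum.inl : Zt h → Wt n h)).ncard ≤ (g '' topS n h).ncard := by
    refine Set.ncard_le_ncard (Set.image_mono ?_) (Set.toFinite _)
    rintro _ ⟨z, rfl⟩
    exact thr15_topS_inl z
  -- no two vertices of different levels below `h` have the same colour
  have hne : ∀ (i i' : Fin n) (σ σ' : Bool), (i : ℕ) < h → (i' : ℕ) < h → i ≠ i' →
      g (.inr (i, σ)) ≠ g (.inr (i', σ')) := by
    intro i i' σ σ' hi hi' hii he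
    have h1 := card_top_of_near hg hi hi' hii he
    omega
  have hsplit := card_topS_split hn hne
  -- two vertices of the top class with the same neighbours in the levels below `h`
  have htwo : ∀ (i : Fin n) (σ : Bool), (i : ℕ) < h → ∃ z z' : Zt h, z ≠ z' ∧
      (rsG b m ω).Adj (.inl z) (.inr (i, σ)) ∧ (rsG b m ω).Adj (.inl z') (.inr (i, σ)) := by
    intro i σ hi
    refine ⟨⟨⟨i, hi⟩, ⟨i, hi⟩, σ, σ, ⟨0, by omega⟩⟩, ⟨⟨i, hi⟩, ⟨i, hi⟩, σ, σ, ⟨1, by omega⟩⟩,
      ?_, ?_, ?_⟩
    · intro e
      have := congrArg (fun z : Zt h => (z.r : ℕ)) e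
      simp at this
    · rw [adj_near _ _ _ hi]
      simp [eps]
    · rw [adj_near _ _ _ hi]
      simp [eps]
  -- no level below `h` has two colours
  have hone : ∀ i : Fin n, (i : ℕ) < h → g (.inr (i, false)) = g (.inr (i, true)) := by
    by_contra hcon
    push Not at hcon
    obtain ⟨i, hi, hs⟩ := hcon
    set Sp : Finset (Fin n) := Finset.univ.filter fun i : Fin n => (i : ℕ) < h ∧
      g (.inr (i, false)) ≠ g (.inr (i, true)) with hSp
    have hiS : i ∈ Sp := by
      rw [hSp]
      simpa using ⟨hi, hs⟩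
    have hpos : 0 < Sp.card := Finset.card_pos.2 ⟨i, hiS⟩
    have hone : Sp.card = 1 := by omega
    have huniq : ∀ j ∈ Sp, j = i := by
      obtain ⟨a, ha⟩ := Finset.card_eq_one.1 hone
      intro j hj
      rw [ha, Finset.mem_singleton] at hj hiS
      rw [hj, hiS]
    have hcov : ((thr15A g ∪ thr15B g : Finset (Fin (n + 1))) : Set (Fin (n + 1))) =
        g '' topS n h := by
      refine Set.eq_of_subset_of_ncard_le thr15_sub ?_ (Set.toFinite _)
      have hB : (thr15B g).card = Sp.card := by
        rw [hSp]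
        convert thr15_cardB hne
      rw [Set.ncard_coe_finset, Finset.card_union_of_disjoint (thr15_disj hne),
        thr15_cardA hn hne, hB]
      omega
    have hz : ∀ z : Zt h, g (.inl z) = g (.inr (i, !(eps z i))) := by
      intro z
      have h1 : g (.inl z) ∈ g '' topS n h := ⟨_, thr15_topS_inl z, rfl⟩
      rw [← hcov, Finset.mem_coe, Finset.mem_union] at h1
      have h2 : ∃ (j : Fin n) (σ : Bool), (j : ℕ) < h ∧ g (.inl z) = g (.inr (j, σ)) := by
        rcases h1 with h1 | h1
        · obtain ⟨j, hj, he⟩ := thr15_memA h1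
          exact ⟨j, false, hj, he.symm⟩
        · obtain ⟨j, hj, he⟩ := thr15_memB h1
          exact ⟨j, true, hj, he.symm⟩
      obtain ⟨j, σ, hj, he⟩ := h2
      have h3 := split_of_top hg hj he
      have h4 : j = i := huniq j (by
        rw [hSp]
        simpa using ⟨hj, h3.2⟩)
      subst h4
      rw [he, h3.1, Bool.not_not]
    have hlt : ∃ σ : Bool, g (.inr (i, !σ)) < g (.inr (i, σ)) := by
      rcases lt_or_gt_of_ne hs with h1 | h1
      · exact ⟨true, h1⟩
      · exact ⟨false, h1⟩
    obtain ⟨σ, hσ⟩ := hlt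
    obtain ⟨z, z', hzz, ha, ha'⟩ := htwo i σ hi
    have e1 := (adj_near ω z i hi σ).1 ha
    have e2 := (adj_near ω z' i hi σ).1 ha'
    have f1 := hz z
    have f2 := hz z'
    rw [e1] at f1
    rw [e2] at f2
    refine hg.2 _ _ _ ha ha'.symm (fun e => hzz (Sum.inl.inj e)) ⟨f1.trans f2.symm, ?_⟩
    rw [f2]
    exact hσ
  -- the colour of the top class
  have hzne : ∀ (z : Zt h) (i : Fin n) (σ : Bool), (i : ℕ) < h →
      g (.inl z) ≠ g (.inr (i, σ)) := by
    intro z i σ hi he
    exact (split_of_top hg hi he).2 (hone i hi)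
  have hztop : ∀ z z' : Zt h, g (.inl z) = g (.inl z') := by
    intro z z'
    by_contra hzz
    have h3 : g (.inl z) ∉ thr15A g := by
      intro hc
      obtain ⟨i, hi, he⟩ := thr15_memA hc
      exact hzne z i false hi he.symm
    have h3' : g (.inl z') ∉ thr15A g := by
      intro hc
      obtain ⟨i, hi, he⟩ := thr15_memA hc
      exact hzne z' i false hi he.symm
    have h3'' : g (.inl z) ∉ insert (g (.inl z')) (thr15A g) := by
      rw [Finset.mem_insert]
      exact fun h => h.elim hzz h3
    have h4 : ((insert (g (.inl z)) (insert (g (.inl z')) (thr15A g)) : Finset (Fin (n + 1))) :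
        Set (Fin (n + 1))) ⊆ g '' topS n h := by
      intro c hc
      rw [Finset.mem_coe, Finset.mem_insert, Finset.mem_insert] at hc
      rcases hc with rfl | rfl | hc
      · exact ⟨_, thr15_topS_inl z, rfl⟩
      · exact ⟨_, thr15_topS_inl z', rfl⟩
      · exact thr15_sub (by
          rw [Finset.mem_coe, Finset.mem_union]
          exact Or.inl hc)
    have h5 := Set.ncard_le_ncard h4 (Set.toFinite _)
    rw [Set.ncard_coe_finset, Finset.card_insert_of_notMem h3'',
      Finset.card_insert_of_notMem h3', thr15_cardA hn hne] at h5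
    omega
  -- every level has one colour
  have hlev : ∀ (i : Fin n) (σ : Bool), g (.inr (i, σ)) = g (.inr (i, false)) := by
    intro i σ
    cases σ
    · rfl
    · by_cases hi : (i : ℕ) < h
      · exact (hone i hi).symm
      · exact (hgood i (by omega)).1.symm
  -- different levels have different colours
  have hcne : ∀ i i' : Fin n, i ≠ i' → g (.inr (i, false)) ≠ g (.inr (i', false)) := by
    intro i i' hii he
    by_cases hi : (i : ℕ) < h
    · by_cases hi' : (i' : ℕ) < h
      · exact hne i i' false false hi hi' hii he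
      · obtain ⟨τ, hτ⟩ := (hgood i' (by omega)).2 _ he
        exact hii (congrArg Prod.fst (Sum.inr.inj hτ))
    · obtain ⟨τ, hτ⟩ := (hgood i (by omega)).2 _ he.symm
      exact hii (congrArg Prod.fst (Sum.inr.inj hτ)).symm
  -- consecutive levels
  have hstep : ∀ (i : ℕ) (hi : i + 1 < n), g (.inr (⟨i + 1, hi⟩, false)) <
      g (.inr (⟨i, by omega⟩, false)) := by
    intro i hi
    set a : Fin n := ⟨i, by omega⟩ with ha
    set c : Fin n := ⟨i + 1, hi⟩ with hc
    have hac : a < c := by
      rw [ha, hc, Fin.mk_lt_mk]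
      omega
    have hD : Dp b (a : ℕ) (c : ℕ) := by
      left
      simp only [ha, hc]
      omega
    set σ : Bool := bitM M (ω (.inr (a, false), c)) with hσ
    have hadj : ∀ τ : Bool, (rsG b m ω).Adj (.inr (a, τ)) (.inr (c, σ)) := by
      intro τ
      left
      change a < c ∧ _
      refine ⟨hac, ?_⟩
      rw [if_pos hD]
    have h1 : a ≠ c := hac.ne
    rcases lt_trichotomy (g (.inr (c, false))) (g (.inr (a, false))) with h2 | h2 | h2
    · exact h2
    · exact absurd h2.symm (hcne a c h1)
    · exfalso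
      refine hg.2 _ _ _ (hadj false) (hadj true).symm ?_ ⟨hlev a true ▸ rfl, ?_⟩
      · intro e
        exact absurd (congrArg Prod.snd (Sum.inr.inj e)) (by simp)
      · rw [hlev a true, hlev c σ]
        exact h2
  have htop : ∀ z : Zt h, g (.inr (⟨0, by omega⟩, false)) < g (.inl z) := by
    intro z
    set a : Fin n := ⟨0, by omega⟩ with ha
    have ha0 : (a : ℕ) < h := by
      simp only [ha]
      omega
    rcases lt_trichotomy (g (.inr (a, false))) (g (.inl z)) with h2 | h2 | h2
    · exact h2
    · exact absurd h2.symm (hzne z a false ha0)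
    · exfalso
      obtain ⟨y, y', hyy, hy, hy'⟩ := htwo a false ha0
      refine hg.2 _ _ _ hy hy'.symm (fun e => hyy (Sum.inl.inj e)) ⟨hztop y y', ?_⟩
      rw [hztop y' z]
      exact h2
  -- upper bounds
  have hup : ∀ (i : ℕ) (hi : i < n), (g (.inr (⟨i, hi⟩, false)) : ℕ) ≤ n - 1 - i := by
    intro i
    induction i with
    | zero =>
      intro hi
      have h1 := htop ⟨⟨0, by omega⟩, ⟨0, by omega⟩, false, false, ⟨0, by omega⟩⟩
      have h2 := (g (.inl ⟨⟨0, by omega⟩, ⟨0, by omega⟩, false, false, ⟨0, by omega⟩⟩)).2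
      rw [Fin.lt_def] at h1
      omega
    | succ i ih =>
      intro hi
      have h1 := ih (by omega)
      have h2 := hstep i hi
      rw [Fin.lt_def] at h2
      omega
  -- lower bounds
  have hlo : ∀ (d i : ℕ) (hi : i < n), n - 1 - i = d → d ≤ (g (.inr (⟨i, hi⟩, false)) : ℕ) := by
    intro d
    induction d with
    | zero =>
      intro i hi _
      exact Nat.zero_le _
    | succ d ih =>
      intro i hi hd
      have h1 := ih (i + 1) (by omega) (by omega)
      have h2 := hstep i (by omega)
      rw [Fin.lt_def] at h2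
      omega
  funext w
  rcases w with z | ⟨⟨i, hi⟩, σ⟩
  · apply Fin.ext
    have h1 := htop z
    have h2 := hlo (n - 1 - 0) 0 (by omega) rfl
    have h3 := (g (.inl z)).2
    rw [Fin.lt_def] at h1
    change (g (.inl z) : ℕ) = n
    omega
  · apply Fin.ext
    rw [hlev]
    change (g (.inr (⟨i, hi⟩, false)) : ℕ) = n - 1 - i
    exact le_antisymm (hup i hi) (hlo _ i hi rfl)

end Pool.Agent.H79.Thr
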