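import Pool.Agent.H79.Thr.Defs

/-!
# The random gadget for rs colourings: definitions

There are `n` levels `0, …, n - 1` with two vertices each, and above them the top class `Zt h`.
The intended colouring `colF` has `n + 1` colours: the top class has colour `n`, level `i` has
colour `n - 1 - i` (so level `0` is the highest one).
-/

namespace Pool.Agent.H79.Thr

/-- The vertices of the top class. -/
structure Zt (h : ℕ) where
  /-- a level -/
  i0 : Fin h
  /-- another level -/
  i1 : Fin h
  /-- the choice in the level `i0` -/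
  b0 : Bool
  /-- the choice in the level `i1` -/
  b1 : Bool
  /-- a copy number -/
  r : Fin (2 * h + 1)
deriving DecidableEq, Fintype

theorem card_Zt (h : ℕ) : Fintype.card (Zt h) = 4 * h ^ 2 * (2 * h + 1) := by
  have e : Zt h ≃ (Fin h × Fin h) × (Bool × Bool) × Fin (2 * h + 1) :=
    { toFun := fun z => ((z.i0, z.i1), (z.b0, z.b1), z.r)
      invFun := fun y => ⟨y.1.1, y.1.2, y.2.1.1, y.2.1.2, y.2.2⟩
      left_inv := fun _ => rfl
      right_inv := fun _ => rfl }
  rw [Fintype.card_congr e]
  simp only [Fintype.card_prod, Fintype.card_fin, Fintype.card_bool]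
  ring

/-- The neighbour of `z` in the level `i < h` is `(i, eps z i)`. -/
def eps {h : ℕ} (z : Zt h) (i : ℕ) : Bool :=
  if i = (z.i0 : ℕ) then z.b0 else if i = (z.i1 : ℕ) then z.b1 else false

/-- The vertices of the gadget: the top class and the levels. -/
abbrev Wt (n h : ℕ) := Zt h ⊕ (Fin n × Bool)

/-- The random object: a number below `M` for every vertex `w` and every level `j` (only those for
`w` above `j` are used). -/
abbrev Omr (n h M : ℕ) := (Wt n h × Fin n) → Fin M

/-- The direct pairs of levels. -/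
def Dp (b i j : ℕ) : Prop := j - i ≤ 4 * b ∨ (j - i) % b = 0

instance (b i j : ℕ) : Decidable (Dp b i j) := by unfold Dp; infer_instance

/-- The choice of a vertex of level `j` (or of none) given by the number `v`. -/
def pick (m : ℕ → ℕ) (j v : ℕ) : Option Bool :=
  if v < m j then some false else if v < 2 * m j then some true else none

/-- A bit given by the number `v < M`. -/
def bitM (M v : ℕ) : Bool := decide (2 * v < M)

section

variable {n h M : ℕ} (b : ℕ) (m : ℕ → ℕ)

/-- The edges from a vertex to the vertices of lower levels. -/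
def down (ω : Omr n h M) : Wt n h → Wt n h → Prop
  | .inl z, .inr (j, σ) =>
      if (j : ℕ) < h then eps z j = σ else pick m j (ω (.inl z, j)) = some σ
  | .inr (i, τ), .inr (j, σ) => i < j ∧
      if Dp b i j then bitM M (ω (.inr (i, false), j)) = σ
      else pick m j (ω (.inr (i, τ), j)) = some σ
  | _, .inl _ => False

theorem down_irrefl (ω : Omr n h M) (x : Wt n h) : ¬ down b m ω x x := by
  rcases x with z | ⟨i, τ⟩
  · exact fun h => h
  · exact fun h => lt_irrefl _ h.1

/-- The random gadget for rs colourings. -/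
def rsG (ω : Omr n h M) : SimpleGraph (Wt n h) where
  Adj x y := down b m ω x y ∨ down b m ω y x
  symm := ⟨fun _ _ h => h.symm⟩
  loopless := ⟨fun x h => h.elim (down_irrefl b m ω x) (down_irrefl b m ω x)⟩

end

/-- The intended colouring. -/
def colF {n h : ℕ} : Wt n h → Fin (n + 1)
  | .inl _ => Fin.last n
  | .inr (i, _) => ⟨n - 1 - i, by omega⟩

variable {n h : ℕ}

/-- The level `i` is good for `g`: its two vertices form a colour class. -/
def GoodL (g : Wt n h → Fin (n + 1)) (i : Fin n) : Prop :=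
  g (.inr (i, false)) = g (.inr (i, true)) ∧
    ∀ w, g w = g (.inr (i, false)) → ∃ τ, w = .inr (i, τ)

open Classical in
/-- The levels that are not good. -/
noncomputable def badL (g : Wt n h → Fin (n + 1)) : Finset (Fin n) :=
  Finset.univ.filter fun i => ¬ GoodL g i

/-- The supports of the vertices: a vertex of the top class, or a level. -/
def sup (w : Wt n h) : Zt h ⊕ Fin n := Sum.map id Prod.fst w

/-- `u` is above the level `i`. -/
def Above (u : Wt n h) (i : Fin n) : Prop := ∀ a τ, u = .inr (a, τ) → a < i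

/-- The pairs `P j = (u, x)` have different supports, `x` is in a level `≥ h`, `u` is above it. -/
def SpreadR {s : ℕ} (P : Fin s → Wt n h × (Fin n × Bool)) : Prop :=
  (∀ j, h ≤ ((P j).2.1 : ℕ) ∧ Above (P j).1 (P j).2.1) ∧
  Function.Injective fun x : Fin s × Bool =>
    if x.2 then (Sum.inr (P x.1).2.1 : Zt h ⊕ Fin n) else sup (P x.1).1

open Classical in
/-- The regular levels for the set `B` of exceptional levels: those outside `B` whose block (of
length `b`) is not next to a block at least half of which is in `B`. -/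
noncomputable def regL (b : ℕ) (B : Finset (Fin n)) : Finset (Fin n) :=
  Finset.univ.filter fun i => i ∉ B ∧ ∀ β : ℕ, β + 1 = (i : ℕ) / b ∨ β = (i : ℕ) / b + 1 →
    2 * (B.filter fun l : Fin n => (l : ℕ) / b = β).card < b

/-- All tests of the pattern `(B, P, θ, γ)` fail. -/
def AllFailR {M s : ℕ} (b : ℕ) (m : ℕ → ℕ) (ω : Omr n h M) (B : Finset (Fin n))
    (P : Fin s → Wt n h × (Fin n × Bool)) (θ : Fin s → Fin (n + 1)) (γ : Fin s → Fin (n + 1)) :
    Prop :=
  (∀ j, ∀ c ∈ regL b B, c < (P j).2.1 →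
    if (c : ℕ) < (θ j : ℕ) then
      ¬ ∃ τ, (rsG b m ω).Adj (.inr (c, τ)) (P j).1 ∧ (rsG b m ω).Adj (.inr (c, τ)) (.inr (P j).2)
    else ¬ ∀ τ, (rsG b m ω).Adj (.inr (c, τ)) (.inr (P j).2)) ∧
  ∀ i j, i ≠ j → γ j ≤ γ i →
    ¬ ((rsG b m ω).Adj (.inr (P i).2) (P j).1 ∧ (rsG b m ω).Adj (.inr (P i).2) (.inr (P j).2))

/-- The pattern is proper. -/
def ProperR {s : ℕ} (B : Finset (Fin n)) (P : Fin s → Wt n h × (Fin n × Bool)) : Prop :=
  SpreadR P ∧ B.card ≤ 20 * s ∧ ∀ j, (P j).2.1 ∈ B ∧ ∀ a τ, (P j).1 = .inr (a, τ) → a ∈ B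

/-- The coordinates that belong to a pair of supports. -/
def blk2 : Zt h ⊕ Fin n → Zt h ⊕ Fin n → Finset (Wt n h × Fin n)
  | .inl z, .inr c => {(.inl z, c)}
  | .inr c, .inl z => {(.inl z, c)}
  | .inr a, .inr c => {(.inr (min a c, false), max a c), (.inr (min a c, true), max a c)}
  | .inl _, .inl _ => ∅

/-- The conditions on the parameters. -/
structure ParOk (n b h M : ℕ) (m : ℕ → ℕ) (lam : ℝ) : Prop where
  hb : 4 ≤ b
  hh : 600 ≤ h
  hhb : h ≤ 4 * b
  hn : 4 * b + 4 ≤ n
  hM : 2 ≤ M
  anti : Antitone m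
  m4 : ∀ j, 4 * m j ≤ M
  lam0 : 0 ≤ lam
  lam1 : ∀ j : ℕ, h ≤ j → j < n → lam * (M : ℝ) ^ 2 ≤ ((j : ℝ) + 1) * (m j : ℝ) ^ 2

end Pool.Agent.H79.Thr
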