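import Pool.Agent.H79.Thr.RSD

/-!
# The random gadget for rs colourings: many broken pairs
-/

namespace Pool.Agent.H79.Thr

variable {n h M : ℕ} {b : ℕ} {m : ℕ → ℕ}

/-- A family of `s` pairs as in the statement. -/
private def FamR (g : Wt n h → Fin (n + 1)) (s : ℕ) : Prop :=
  ∃ P : Fin s → Wt n h × (Fin n × Bool), SpreadR P ∧ ∀ j, g (P j).1 = g (.inr (P j).2)

private theorem famR_le {g : Wt n h → Fin (n + 1)} {s : ℕ} (hs : FamR g s) : s ≤ n := by
  obtain ⟨P, hP, -⟩ := hs
  have hinj : Function.Injective fun j => (P j).2.1 := by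
    intro i j hij
    have h1 := @hP.2 (i, true) (j, true) (by simpa using hij)
    exact (Prod.mk.inj h1).1
  simpa using Fintype.card_le_of_injective _ hinj

private theorem famR_zero (g : Wt n h → Fin (n + 1)) : FamR g 0 :=
  ⟨fun j => j.elim0, ⟨fun j => j.elim0, fun x => x.1.elim0⟩, fun j => j.elim0⟩

/-- The support of a vertex above a level is not this level. -/
private theorem sup_ne_of_above {u : Wt n h} {i : Fin n} (hu : Above u i) :
    sup u ≠ Sum.inr i := by
  intro he
  rcases u with z | ⟨a, τ⟩
  · simp [sup] at he
  · have h1 : a = i := by simpa [sup] using he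
    have h2 := hu a τ rfl
    rw [h1] at h2
    exact lt_irrefl _ h2

/-- One more pair with two new supports. -/
private theorem famR_succ {g : Wt n h → Fin (n + 1)} {s : ℕ}
    {P : Fin s → Wt n h × (Fin n × Bool)} (hP : SpreadR P)
    (hg : ∀ j, g (P j).1 = g (.inr (P j).2)) {u : Wt n h} {x : Fin n × Bool}
    (hx : h ≤ (x.1 : ℕ)) (hu : Above u x.1) (he : g u = g (.inr x))
    (h1 : ∀ j, sup (P j).1 ≠ sup u ∧ (Sum.inr (P j).2.1 : Zt h ⊕ Fin n) ≠ sup u)
    (h2 : ∀ j, sup (P j).1 ≠ Sum.inr x.1 ∧
      (Sum.inr (P j).2.1 : Zt h ⊕ Fin n) ≠ Sum.inr x.1) :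
    FamR g (s + 1) := by
  have hne := sup_ne_of_above hu
  refine ⟨Fin.cons (u, x) P, ⟨?_, ?_⟩, ?_⟩
  · intro j
    refine Fin.cases ?_ (fun i => ?_) j
    · simpa using ⟨hx, hu⟩
    · simpa using hP.1 i
  · rintro ⟨i, β⟩ ⟨j, γ⟩ hij
    induction i using Fin.cases with
    | zero =>
      induction j using Fin.cases with
      | zero =>
        cases β <;> cases γ
        · rfl
        · exact absurd (by simpa using hij) hne
        · exact absurd (by simpa using hij.symm) hne
        · rfl
      | succ j =>
        exfalso
        cases β <;> cases γ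
        · exact (h1 j).1 (by simpa using hij.symm)
        · exact (h1 j).2 (by simpa using hij.symm)
        · exact (h2 j).1 (by simpa using hij.symm)
        · exact (h2 j).2 (by simpa using hij.symm)
    | succ i =>
      induction j using Fin.cases with
      | zero =>
        exfalso
        cases β <;> cases γ
        · exact (h1 i).1 (by simpa using hij)
        · exact (h2 i).1 (by simpa using hij)
        · exact (h1 i).2 (by simpa using hij)
        · exact (h2 i).2 (by simpa using hij)
      | succ j =>
        have h3 := @hP.2 (i, β) (j, γ) (by simpa using hij)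
        have h4 := Prod.mk.inj h3
        rw [h4.1, h4.2]
  · intro j
    refine Fin.cases ?_ (fun i => ?_) j
    · simpa using he
    · simpa using hg i

/-- There are at most two vertices for every support. -/
private theorem card_touched (Z : Finset (Zt h ⊕ Fin n)) (W : Finset (Wt n h))
    (hW : ∀ w ∈ W, sup w ∈ Z) : W.card ≤ 2 * Z.card := by
  have h1 : W.card ≤ (Z ×ˢ (Finset.univ : Finset Bool)).card := by
    refine Finset.card_le_card_of_injOn
      (fun w => (sup w, Sum.elim (fun _ => false) Prod.snd w)) ?_ ?_
    · intro w hw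
      simpa using hW w hw
    · intro w _ w' _ he
      rcases w with z | ⟨a, τ⟩ <;> rcases w' with z' | ⟨a', τ'⟩
      · simpa [sup] using he
      · simp [sup] at he
      · simp [sup] at he
      · simpa [sup] using he
  rw [Finset.card_product] at h1
  simpa [mul_comm] using h1

/-- Job THR-17. If some level `≥ h` is not good then there are `s ≥ 1` pairs of vertices of the
same colour with different supports, the second one in a level `≥ h`, where `20 s` is at least the
number of all levels that are not good.

Proof: take a family `P` as in the statement (`SpreadR P` and equal colours) with `s` maximum (it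
is at most `n`). `X`: the set of the supports that occur in `P` (`2 s` supports); a support or
vertex is touched if it is in `X` (its support is in `X`). By maximality: (a) two vertices in
different untouched levels `≥ h` have different colours; (b) an untouched vertex of a level `≥ h` and
an untouched vertex of `topS` have different colours. Let `m₀` be the number of bad levels `≥ h`,
`ν` the number of bad levels `< h`, `t` the number of colours of `topS`.

The good levels `≥ h` use `n - h - m₀` colours that occur nowhere else; so all other vertices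
have at most `m₀ + h + 1` colours. Let `Y₁`, `Y₂` be the sets of the untouched bad levels `≥ h` with
one, two colours. The colours of `Y₁ ∪ Y₂` are `|Y₁| + 2 |Y₂|` different colours by (a), and by (b)
they are different from the colours of the untouched vertices of `topS`, which are at least `t - 2 s`
(every pair touches at most two vertices of `topS`). So `|Y₁| + 2 |Y₂| + t - 2 s ≤ m₀ + h + 1`. At
most `2 s` levels `≥ h` are touched: `|Y₁| + |Y₂| ≥ m₀ - 2 s`. Hence `|Y₂| + (t - h - 1) ≤ 4 s`.
A level of `Y₁` is bad, so its colour occurs at another vertex, which must be touched by (a)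
and (b); there are at most `4 s` touched vertices and the colours are different, so `|Y₁| ≤ 4 s`.
So `m₀ ≤ 10 s` and `t - h - 1 ≤ 4 s`; by assumption `m₀ ≥ 1`, so `s ≥ 1`.

Near levels: if two vertices of different levels `< h` have the same colour then `t ≥ 2 h + 1`
(`card_top_of_near`), so `ν ≤ h ≤ t - h - 1 ≤ 4 s`. Otherwise, by `card_topS_split`, at most
`t - h ≤ 4 s + 1` levels `< h` have two colours. A bad level `< h` with one colour shares this
colour with a vertex outside, which is not in the top class by `split_of_top`, so it is in a level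
`≥ h`; if the level `< h` is untouched then this vertex is touched by (b); so there are at most
`s + 4 s` such levels. So `ν ≤ 9 s + 1`. -/
theorem exists_spreadR {ω : Omr n h M} {g : Wt n h → Fin (n + 1)} (hg : IsRS (rsG b m ω) g)
    (hh : 2 ≤ h) (hn : h ≤ n) (hbad : ∃ i : Fin n, h ≤ (i : ℕ) ∧ ¬ GoodL g i) :
    ∃ (s : ℕ) (P : Fin s → Wt n h × (Fin n × Bool)), 1 ≤ s ∧ s ≤ n ∧
      (badL g).card ≤ 20 * s ∧ SpreadR P ∧ ∀ j, g (P j).1 = g (.inr (P j).2) := by
  classical
  set s := Nat.findGreatest (FamR g) n with hs
  have hfam : FamR g s := Nat.findGreatest_spec (P := FamR g) (Nat.zero_le n) (famR_zero g)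
  have hmax : ¬ FamR g (s + 1) := by
    intro h0
    have h1 := famR_le h0
    have h2 : s + 1 ≤ s := Nat.le_findGreatest h1 h0
    omega
  have hsn : s ≤ n := famR_le hfam
  obtain ⟨P, hP, hgP⟩ := hfam
  -- the supports met by the family
  set XA : Finset (Zt h ⊕ Fin n) := Finset.univ.image fun j => sup (P j).1 with hXA
  set XB : Finset (Zt h ⊕ Fin n) := Finset.univ.image fun j => (Sum.inr (P j).2.1) with hXB
  have hXAc : XA.card ≤ s := by
    simpa using Finset.card_image_le (s := (Finset.univ : Finset (Fin s)))
      (f := fun j => sup (P j).1)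
  have hXBc : XB.card ≤ s := by
    simpa using Finset.card_image_le (s := (Finset.univ : Finset (Fin s)))
      (f := fun j => (Sum.inr (P j).2.1 : Zt h ⊕ Fin n))
  set X : Finset (Zt h ⊕ Fin n) := XA ∪ XB with hX
  have hXc : X.card ≤ 2 * s := by
    have h0 := Finset.card_union_le XA XB
    rw [← hX] at h0
    omega
  have hXm : ∀ y, y ∉ X → ∀ j, sup (P j).1 ≠ y ∧ (Sum.inr (P j).2.1 : Zt h ⊕ Fin n) ≠ y := by
    intro y hy j
    constructor
    · intro h0
      exact hy (Finset.mem_union_left _ (Finset.mem_image.2 ⟨j, Finset.mem_univ _, h0⟩))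
    · intro h0
      exact hy (Finset.mem_union_right _ (Finset.mem_image.2 ⟨j, Finset.mem_univ _, h0⟩))
  have key0 : ∀ (u : Wt n h) (x : Fin n × Bool), h ≤ (x.1 : ℕ) → Above u x.1 → sup u ∉ X →
      Sum.inr x.1 ∉ X → g u ≠ g (.inr x) := by
    intro u x hx hu h1 h2 he
    exact hmax (famR_succ hP hgP hx hu he (hXm _ h1) (hXm _ h2))
  have key : ∀ (u : Wt n h) (i : Fin n) (σ : Bool), h ≤ (i : ℕ) → sup u ∉ X →
      Sum.inr i ∉ X → sup u ≠ Sum.inr i → g u ≠ g (.inr (i, σ)) := by
    intro u i σ hi h1 h2 hne
    rcases u with z | ⟨a, τ⟩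
    · exact key0 _ (i, σ) hi (fun a τ e => by cases e) h1 h2
    · have hai : a ≠ i := by
        intro e
        exact hne (by simp [sup, e])
      rcases lt_or_gt_of_ne hai with hlt | hlt
      · refine key0 _ (i, σ) hi (fun a' τ' e => ?_) h1 h2
        have : a = a' := by
          have := Sum.inr.inj e
          exact (Prod.mk.inj this).1
        rw [← this]
        exact hlt
      · have hia : (i : ℕ) < (a : ℕ) := hlt
        intro he
        refine key0 (.inr (i, σ)) (a, τ) (by simpa using hi.trans hia.le)
          (fun a' τ' e => ?_) (by simpa [sup] using h2) (by simpa [sup] using h1) he.symm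
        have : i = a' := by
          have := Sum.inr.inj e
          exact (Prod.mk.inj this).1
        rw [← this]
        exact hlt
  -- the levels
  set G' : Finset (Fin n) := Finset.univ.filter fun i => h ≤ (i : ℕ) ∧ GoodL g i with hG'
  set B1 : Finset (Fin n) := Finset.univ.filter fun i => h ≤ (i : ℕ) ∧ ¬ GoodL g i with hB1
  set B0 : Finset (Fin n) := Finset.univ.filter fun i => (i : ℕ) < h ∧ ¬ GoodL g i with hB0
  have hlow : (Finset.univ.filter fun i : Fin n => (i : ℕ) < h).card = h := by
    have e : (Finset.univ.filter fun i : Fin n => (i : ℕ) < h) =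
        Finset.univ.map (Fin.castLEEmb hn) := by
      ext i
      simp only [Finset.mem_filter, Finset.mem_univ, true_and, Finset.mem_map]
      constructor
      · intro hi
        exact ⟨⟨i, hi⟩, by ext; simp⟩
      · rintro ⟨a, rfl⟩
        simp
    rw [e, Finset.card_map, Finset.card_univ, Fintype.card_fin]
  have hcount : G'.card + B1.card + h = n := by
    have h1 := Finset.card_filter_add_card_filter_not (s := (Finset.univ : Finset (Fin n)))
      (p := fun i => (i : ℕ) < h)
    have h2 := Finset.card_filter_add_card_filter_not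
      (s := (Finset.univ.filter fun i : Fin n => ¬ (i : ℕ) < h))
      (p := fun i => GoodL g i)
    rw [Finset.filter_filter, Finset.filter_filter] at h2
    have e1 : (Finset.univ.filter fun i : Fin n => ¬ (i : ℕ) < h ∧ GoodL g i) = G' := by
      rw [hG']
      ext i
      simp
    have e2 : (Finset.univ.filter fun i : Fin n => ¬ (i : ℕ) < h ∧ ¬ GoodL g i) = B1 := by
      rw [hB1]
      ext i
      simp
    rw [e1, e2] at h2
    rw [hlow] at h1
    simp only [Finset.card_univ, Fintype.card_fin] at h1
    omega
  have hbadL : (badL g).card ≤ B1.card + B0.card := by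
    refine (Finset.card_le_card ?_).trans (Finset.card_union_le B1 B0)
    intro i hi
    have hi' : ¬ GoodL g i := by simpa [badL] using hi
    rcases le_or_gt h (i : ℕ) with h1 | h1
    · exact Finset.mem_union_left _ (Finset.mem_filter.2 ⟨Finset.mem_univ _, h1, hi'⟩)
    · exact Finset.mem_union_right _ (Finset.mem_filter.2 ⟨Finset.mem_univ _, h1, hi'⟩)
  have hB1pos : 1 ≤ B1.card := by
    obtain ⟨i, h1, h2⟩ := hbad
    exact Finset.card_pos.2 ⟨i, Finset.mem_filter.2 ⟨Finset.mem_univ _, h1, h2⟩⟩
  set Y : Finset (Fin n) := B1.filter fun i => (Sum.inr i : Zt h ⊕ Fin n) ∉ X with hY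
  set Y1 : Finset (Fin n) := Y.filter fun i => g (.inr (i, false)) = g (.inr (i, true)) with hY1
  set Y2 : Finset (Fin n) := Y.filter fun i => ¬ g (.inr (i, false)) = g (.inr (i, true)) with hY2
  have hYc : Y1.card + Y2.card = Y.card :=
    Finset.card_filter_add_card_filter_not (s := Y)
      (p := fun i => g (.inr (i, false)) = g (.inr (i, true)))
  have hmY : ∀ i ∈ Y, h ≤ (i : ℕ) ∧ ¬ GoodL g i ∧ (Sum.inr i : Zt h ⊕ Fin n) ∉ X := by
    intro i hi
    have h1 := Finset.mem_filter.1 hi
    have h2 := Finset.mem_filter.1 h1.1
    exact ⟨h2.2.1, h2.2.2, h1.2⟩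
  have hBY : B1.card ≤ Y.card + 2 * s := by
    have h1 := Finset.card_filter_add_card_filter_not (s := B1)
      (p := fun i => (Sum.inr i : Zt h ⊕ Fin n) ∉ X)
    have h2 : (B1.filter fun i => ¬ (Sum.inr i : Zt h ⊕ Fin n) ∉ X).card ≤ X.card := by
      refine Finset.card_le_card_of_injOn (fun i => (Sum.inr i : Zt h ⊕ Fin n)) ?_ ?_
      · intro i hi
        have := (Finset.mem_filter.1 hi).2
        exact Finset.mem_coe.2 (not_not.1 this)
      · intro i _ i' _ e
        exact Sum.inr.inj e
    rw [← hY] at h1
    omega
  -- the vertices of the top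
  set T' : Finset (Wt n h) := Finset.univ.filter fun w => w ∈ topS n h ∧ sup w ∉ X with hT'
  set TT : Finset (Wt n h) := Finset.univ.filter fun w => w ∈ topS n h ∧ sup w ∈ X with hTT
  have htopsup : ∀ (w : Wt n h) (i : Fin n), w ∈ topS n h → h ≤ (i : ℕ) → sup w ≠ Sum.inr i := by
    intro w i hw hi he
    rcases w with z | ⟨a, τ⟩
    · simp [sup] at he
    · have h1 : a = i := by simpa [sup] using he
      have h2 := hw a τ rfl
      rw [h1] at h2
      omega
  have hTTc : TT.card ≤ 2 * s := by
    have h1 : TT.card ≤ 2 * XA.card := by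
      refine card_touched XA TT fun w hw => ?_
      have h1 := Finset.mem_filter.1 hw
      rcases Finset.mem_union.1 h1.2.2 with h2 | h2
      · exact h2
      · exfalso
        obtain ⟨j, -, hj⟩ := Finset.mem_image.1 h2
        exact htopsup w _ h1.2.1 (hP.1 j).1 hj.symm
    omega
  have ht : (g '' topS n h).ncard ≤ (T'.image g).card + 2 * s := by
    have h1 : (g '' topS n h) ⊆ ((T'.image g ∪ TT.image g : Finset (Fin (n + 1))) :
        Set (Fin (n + 1))) := by
      rintro _ ⟨w, hw, rfl⟩
      rw [Finset.coe_union, Finset.coe_image, Finset.coe_image]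
      by_cases hwX : sup w ∈ X
      · exact Or.inr ⟨w, Finset.mem_coe.2 (Finset.mem_filter.2 ⟨Finset.mem_univ _, hw, hwX⟩), rfl⟩
      · exact Or.inl ⟨w, Finset.mem_coe.2 (Finset.mem_filter.2 ⟨Finset.mem_univ _, hw, hwX⟩), rfl⟩
    have h2 := Set.ncard_le_ncard h1 (Finset.finite_toSet _)
    rw [Set.ncard_coe_finset] at h2
    have h3 := Finset.card_union_le (T'.image g) (TT.image g)
    have h4 := Finset.card_image_le (s := TT) (f := g)
    omega
  -- counting the colours
  set U : Finset (Wt n h) := ((G' ∪ Y).image fun i => (.inr (i, false))) ∪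
    (Y2.image fun i => (.inr (i, true))) with hU
  have hmU : ∀ w, w ∈ U → ∃ i τ, w = .inr (i, τ) ∧ h ≤ (i : ℕ) ∧
      ((GoodL g i ∧ τ = false) ∨ (i ∈ Y ∧ (τ = true → i ∈ Y2))) := by
    intro w hw
    rw [hU, Finset.mem_union, Finset.mem_image, Finset.mem_image] at hw
    rcases hw with ⟨i, hi, rfl⟩ | ⟨i, hi, rfl⟩
    · rcases Finset.mem_union.1 hi with h1 | h1
      · have h2 := (Finset.mem_filter.1 h1).2
        exact ⟨i, false, rfl, h2.1, Or.inl ⟨h2.2, rfl⟩⟩
      · exact ⟨i, false, rfl, (hmY i h1).1, Or.inr ⟨h1, fun h' => absurd h' (by simp)⟩⟩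
    · have h1 := (Finset.mem_filter.1 hi).1
      exact ⟨i, true, rfl, (hmY i h1).1, Or.inr ⟨h1, fun _ => hi⟩⟩
  have hgood : ∀ (i : Fin n) (τ : Bool) (w : Wt n h), GoodL g i → g w = g (.inr (i, τ)) →
      sup w = Sum.inr i := by
    intro i τ w hi he
    have h1 : g w = g (.inr (i, false)) := by
      cases τ
      · exact he
      · rw [he, hi.1]
    obtain ⟨σ, rfl⟩ := hi.2 w h1
    simp [sup]
  have hinjU : Set.InjOn g (U : Set (Wt n h)) := by
    intro w hw w' hw' he
    obtain ⟨i, τ, rfl, hi, h1⟩ := hmU w hw
    obtain ⟨i', τ', rfl, hi', h1'⟩ := hmU w' hw'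
    by_cases hc : i = i'
    · subst hc
      have aux : ∀ σ σ' : Bool, σ ≠ σ' → g (.inr (i, σ)) = g (.inr (i, σ')) →
          i ∈ Y2 → False := by
        intro σ σ' hσ he hiY
        have h2 := (Finset.mem_filter.1 hiY).2
        cases σ <;> cases σ'
        · exact hσ rfl
        · exact h2 he
        · exact h2 he.symm
        · exact hσ rfl
      by_cases hb : τ = τ'
      · rw [hb]
      · exfalso
        have htrue : τ = true ∨ τ' = true := by
          cases τ
          · cases τ'
            · exact absurd rfl hb
            · exact Or.inr rfl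
          · exact Or.inl rfl
        rcases htrue with h2 | h2
        · rcases h1 with h3 | h3
          · exact absurd (h3.2.symm.trans h2) (by simp)
          · exact aux τ τ' hb he (h3.2 h2)
        · rcases h1' with h3 | h3
          · exact absurd (h3.2.symm.trans h2) (by simp)
          · exact aux τ τ' hb he (h3.2 h2)
    · exfalso
      rcases h1 with h2 | h2
      · have h3 := hgood i τ _ h2.1 he.symm
        exact hc (by simpa [sup] using h3.symm)
      · rcases h1' with h3 | h3
        · have h4 := hgood i' τ' _ h3.1 he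
          exact hc (by simpa [sup] using h4)
        · refine key (.inr (i, τ)) i' τ' hi' ?_ (hmY _ h3.1).2.2 ?_ he
          · simpa [sup] using (hmY _ h2.1).2.2
          · simpa [sup] using hc
  have hdisj : Disjoint (U.image g) (T'.image g) := by
    rw [Finset.disjoint_left]
    intro c hc hc'
    obtain ⟨w, hw, rfl⟩ := Finset.mem_image.1 hc
    obtain ⟨w', hw', he⟩ := Finset.mem_image.1 hc'
    obtain ⟨i, τ, rfl, hi, h1⟩ := hmU w hw
    have h2 := (Finset.mem_filter.1 hw').2
    have h3 := htopsup w' i h2.1 hi
    rcases h1 with h4 | h4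
    · exact h3 (hgood i τ w' h4.1 he)
    · exact key w' i τ hi h2.2 (hmY _ h4.1).2.2 h3 he
  have hUn : U.card + (T'.image g).card ≤ n + 1 := by
    have h1 := Finset.card_image_of_injOn hinjU
    have h2 := Finset.card_union_of_disjoint hdisj
    have h3 := Finset.card_le_univ (U.image g ∪ T'.image g)
    rw [h2, h1] at h3
    simpa using h3
  have hUc : U.card = G'.card + Y.card + Y2.card := by
    rw [hU, Finset.card_union_of_disjoint, Finset.card_image_of_injective,
      Finset.card_image_of_injective, Finset.card_union_of_disjoint]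
    · rw [Finset.disjoint_left]
      intro i hi hi'
      exact (hmY i hi').2.1 (Finset.mem_filter.1 hi).2.2
    · intro a b e
      exact (Prod.mk.inj (Sum.inr.inj e)).1
    · intro a b e
      exact (Prod.mk.inj (Sum.inr.inj e)).1
    · rw [Finset.disjoint_left]
      intro x hx hx'
      obtain ⟨c, -, rfl⟩ := Finset.mem_image.1 hx
      obtain ⟨c', -, e⟩ := Finset.mem_image.1 hx'
      have := (Prod.mk.inj (Sum.inr.inj e)).2
      exact absurd this (by simp)
  have htop : h + 1 ≤ (g '' topS n h).ncard := card_topS hg (by omega) hn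
  set t := (g '' topS n h).ncard with htdef
  have hmain : Y2.card + t ≤ h + 1 + 4 * s := by omega
  -- the levels with one colour
  have hex : ∀ i : Fin n, i ∈ Y1 → ∃ w : Wt n h, sup w ∈ X ∧ g w = g (.inr (i, false)) := by
    intro i hi
    have h1 := Finset.mem_filter.1 hi
    have h2 := hmY i h1.1
    by_contra hno
    push Not at hno
    apply h2.2.1
    refine ⟨h1.2, fun w hw => ?_⟩
    by_contra hne
    have hwX : sup w ∉ X := fun h0 => hno w h0 hw
    refine key w i false h2.1 hwX h2.2.2 ?_ hw
    intro he
    rcases w with z | ⟨a, τ⟩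
    · simp [sup] at he
    · have h3 : a = i := by simpa [sup] using he
      exact hne ⟨τ, by rw [h3]⟩
  have hY1s : Y1.card ≤ 4 * s := by
    choose! f hf1 hf2 using hex
    have hinj : Set.InjOn f (Y1 : Set (Fin n)) := by
      intro i hi i' hi' he
      by_contra hne
      have h1 := hmY i (Finset.mem_filter.1 hi).1
      have h2 := hmY i' (Finset.mem_filter.1 hi').1
      refine key (.inr (i, false)) i' false h2.1 (by simpa [sup] using h1.2.2) h2.2.2
        (by simpa [sup] using hne) ?_
      rw [← hf2 i hi, ← hf2 i' hi', he]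
    have h1 := card_touched X (Y1.image f) (by
      intro w hw
      obtain ⟨i, hi, rfl⟩ := Finset.mem_image.1 hw
      exact hf1 i hi)
    rw [Finset.card_image_of_injOn hinj] at h1
    omega
  have hB10 : B1.card ≤ 10 * s := by omega
  have hB0 : B0.card ≤ 9 * s + 1 := by
    by_cases hne : ∀ (i i' : Fin n) (σ σ' : Bool), (i : ℕ) < h → (i' : ℕ) < h → i ≠ i' →
      g (.inr (i, σ)) ≠ g (.inr (i', σ'))
    · have h1 := card_topS_split hn hne
      set N2 : Finset (Fin n) := Finset.univ.filter fun i : Fin n => (i : ℕ) < h ∧
        g (.inr (i, false)) ≠ g (.inr (i, true)) with hN2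
      set Bt : Finset (Fin n) := Finset.univ.filter fun i : Fin n => (i : ℕ) < h ∧
        (Sum.inr i : Zt h ⊕ Fin n) ∈ X with hBt
      set Bu : Finset (Fin n) := Finset.univ.filter fun i : Fin n => (i : ℕ) < h ∧
        ¬ GoodL g i ∧ g (.inr (i, false)) = g (.inr (i, true)) ∧
        (Sum.inr i : Zt h ⊕ Fin n) ∉ X with hBu
      have h2 : B0.card ≤ N2.card + Bt.card + Bu.card := by
        have h3 : B0 ⊆ (N2 ∪ Bt) ∪ Bu := by
          intro i hi
          have h4 := (Finset.mem_filter.1 hi).2
          by_cases h5 : g (.inr (i, false)) = g (.inr (i, true))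
          · by_cases h6 : (Sum.inr i : Zt h ⊕ Fin n) ∈ X
            · exact Finset.mem_union_left _ (Finset.mem_union_right _
                (Finset.mem_filter.2 ⟨Finset.mem_univ _, h4.1, h6⟩))
            · exact Finset.mem_union_right _
                (Finset.mem_filter.2 ⟨Finset.mem_univ _, h4.1, h4.2, h5, h6⟩)
          · exact Finset.mem_union_left _ (Finset.mem_union_left _
              (Finset.mem_filter.2 ⟨Finset.mem_univ _, h4.1, h5⟩))
        have h4 := Finset.card_le_card h3
        have h5 := Finset.card_union_le (N2 ∪ Bt) Bu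
        have h6 := Finset.card_union_le N2 Bt
        omega
      have h3 : Bt.card ≤ s := by
        have h4 : Bt.card ≤ XA.card := by
          refine Finset.card_le_card_of_injOn (fun i => (Sum.inr i : Zt h ⊕ Fin n)) ?_ ?_
          · intro i hi
            have h5 := (Finset.mem_filter.1 hi).2
            rcases Finset.mem_union.1 h5.2 with h6 | h6
            · exact Finset.mem_coe.2 h6
            · exfalso
              obtain ⟨j, -, hj⟩ := Finset.mem_image.1 h6
              have h7 := (hP.1 j).1
              rw [Sum.inr.inj hj] at h7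
              omega
          · intro i _ i' _ e
            exact Sum.inr.inj e
        omega
      have h4 : Bu.card ≤ 4 * s := by
        have hex : ∀ i : Fin n, i ∈ Bu → ∃ w : Wt n h, sup w ∈ X ∧
            g w = g (.inr (i, false)) := by
          intro i hi
          obtain ⟨h5, h6, h7, h8⟩ := (Finset.mem_filter.1 hi).2
          by_contra hno
          push Not at hno
          apply h6
          refine ⟨h7, fun w hw => ?_⟩
          by_contra hne'
          have hwX : sup w ∉ X := fun h0 => hno w h0 hw
          rcases w with z | ⟨a, τ⟩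
          · exact (split_of_top hg h5 hw).2 h7
          · have hai : a ≠ i := fun e => hne' ⟨τ, by rw [e]⟩
            rcases lt_or_ge (a : ℕ) h with h9 | h9
            · exact hne a i τ false h9 h5 hai hw
            · refine key (.inr (i, false)) a τ h9 (by simpa [sup] using h8)
                (by simpa [sup] using hwX) ?_ hw.symm
              intro e
              exact hai (by simpa [sup] using e.symm)
        choose! f hf1 hf2 using hex
        have hinj : Set.InjOn f (Bu : Set (Fin n)) := by
          intro i hi i' hi' he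
          by_contra hne'
          refine hne i i' false false (Finset.mem_filter.1 hi).2.1
            (Finset.mem_filter.1 hi').2.1 hne' ?_
          rw [← hf2 i hi, ← hf2 i' hi', he]
        have h5 := card_touched X (Bu.image f) (by
          intro w hw
          obtain ⟨i, hi, rfl⟩ := Finset.mem_image.1 hw
          exact hf1 i hi)
        rw [Finset.card_image_of_injOn hinj] at h5
        omega
      omega
    · push Not at hne
      obtain ⟨i, i', σ, σ', hi, hi', hii, he⟩ := hne
      have h1 := card_top_of_near hg hi hi' hii he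
      have h2 : (g '' Set.range (Sum.inl : Zt h → Wt n h)).ncard ≤ t := by
        refine Set.ncard_le_ncard (Set.image_mono ?_) (Set.toFinite _)
        rintro _ ⟨z, rfl⟩ a τ e
        cases e
      have h3 : B0.card ≤ h := by
        rw [← hlow]
        refine Finset.card_le_card ?_
        intro j hj
        exact Finset.mem_filter.2 ⟨Finset.mem_univ _, (Finset.mem_filter.1 hj).2.1⟩
      omega
  exact ⟨s, P, by omega, hsn, by omega, hP, hgP⟩

end Pool.Agent.H79.Thr
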