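import Pool.Agent.H79.Thr.RSDef

/-!
# The random gadget for rs colourings: regular levels
-/

namespace Pool.Agent.H79.Thr

variable {n h M : ℕ} {b : ℕ} {m : ℕ → ℕ}

private theorem card_block_le (hb : 1 ≤ b) (β : ℕ) :
    (Finset.univ.filter fun i : Fin n => (i : ℕ) / b = β).card ≤ b := by
  have h1 : (Finset.univ.filter fun i : Fin n => (i : ℕ) / b = β).card ≤ (Finset.range b).card := by
    refine Finset.card_le_card_of_injOn (fun i : Fin n => (i : ℕ) % b) ?_ ?_
    · intro i _
      simp only [Finset.coe_range, Set.mem_Iio]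
      exact Nat.mod_lt _ hb
    · intro i hi j hj hij
      simp only [Finset.coe_filter, Finset.mem_univ, true_and, Set.mem_ofPred_eq] at hi hj hij
      apply Fin.ext
      have h2 := Nat.div_add_mod (i : ℕ) b
      have h3 := Nat.div_add_mod (j : ℕ) b
      rw [hi] at h2
      rw [hj] at h3
      omega
  simpa using h1

/-- Job THR-18. At most `5 |B|` levels are not regular: a block with at least `b / 2` elements
of `B` makes at most the `2 b` levels of the two neighbouring blocks irregular, and there are at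
most `2 |B| / b` such blocks. -/
theorem card_not_regL (hb : 1 ≤ b) (B : Finset (Fin n)) :
    (Finset.univ.filter fun i : Fin n => i ∉ regL b B).card ≤ 5 * B.card := by
  classical
  set H : Finset ℕ := (B.image fun l : Fin n => (l : ℕ) / b).filter
    (fun β => b ≤ 2 * (B.filter fun l : Fin n => (l : ℕ) / b = β).card) with hH
  have hsub : (Finset.univ.filter fun i : Fin n => i ∉ regL b B) ⊆
      B ∪ H.biUnion (fun β => (Finset.univ.filter fun i : Fin n => (i : ℕ) / b = β + 1) ∪
        (Finset.univ.filter fun i : Fin n => (i : ℕ) / b = β - 1)) := by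
    intro i hi
    simp only [Finset.mem_filter, Finset.mem_univ, true_and, regL, not_and, not_forall,
      not_lt] at hi
    by_cases hiB : i ∈ B
    · exact Finset.mem_union_left _ hiB
    obtain ⟨β, hβ, hc⟩ := hi hiB
    apply Finset.mem_union_right
    have hc' : b ≤ 2 * (B.filter fun l : Fin n => (l : ℕ) / b = β).card := by
      convert hc
    refine Finset.mem_biUnion.2 ⟨β, ?_, ?_⟩
    · rw [hH]
      refine Finset.mem_filter.2 ⟨?_, hc'⟩
      have hpos : 0 < (B.filter fun l : Fin n => (l : ℕ) / b = β).card := by omega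
      obtain ⟨l, hl⟩ := Finset.card_pos.1 hpos
      rw [Finset.mem_filter] at hl
      exact Finset.mem_image.2 ⟨l, hl.1, hl.2⟩
    · rcases hβ with h1 | h1
      · refine Finset.mem_union_left _ ?_
        simp only [Finset.mem_filter, Finset.mem_univ, true_and]
        exact h1.symm
      · refine Finset.mem_union_right _ ?_
        simp only [Finset.mem_filter, Finset.mem_univ, true_and]
        rw [h1, Nat.add_sub_cancel]
  have hsum : ∑ β ∈ H, (B.filter fun l : Fin n => (l : ℕ) / b = β).card ≤ B.card := by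
    rw [Finset.card_eq_sum_card_image (fun l : Fin n => (l : ℕ) / b) B]
    exact Finset.sum_le_sum_of_subset (Finset.filter_subset _ _)
  calc (Finset.univ.filter fun i : Fin n => i ∉ regL b B).card
      ≤ _ := Finset.card_le_card hsub
    _ ≤ B.card + (H.biUnion (fun β => (Finset.univ.filter fun i : Fin n => (i : ℕ) / b = β + 1) ∪
        (Finset.univ.filter fun i : Fin n => (i : ℕ) / b = β - 1))).card :=
        Finset.card_union_le _ _
    _ ≤ B.card + ∑ β ∈ H, 4 * (B.filter fun l : Fin n => (l : ℕ) / b = β).card := by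
        refine Nat.add_le_add_left ?_ _
        refine Finset.card_biUnion_le.trans ?_
        refine Finset.sum_le_sum fun β hβ => ?_
        have h1 := card_block_le (n := n) hb (β + 1)
        have h2 := card_block_le (n := n) hb (β - 1)
        have h3 : b ≤ 2 * (B.filter fun l : Fin n => (l : ℕ) / b = β).card := by
          rw [hH] at hβ
          exact (Finset.mem_filter.1 hβ).2
        have h4 := Finset.card_union_le (Finset.univ.filter fun i : Fin n => (i : ℕ) / b = β + 1)
          (Finset.univ.filter fun i : Fin n => (i : ℕ) / b = β - 1)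
        omega
    _ ≤ 5 * B.card := by
        rw [← Finset.mul_sum]
        omega

/-- Job THR-18. A direct pair of good levels has the right order. -/
theorem lt_of_Dp {ω : Omr n h M} {g : Wt n h → Fin (n + 1)} (hg : IsRS (rsG b m ω) g)
    {i j : Fin n} (hij : i < j) (hD : Dp b i j) (hi : GoodL g i) (hj : GoodL g j) (σ τ : Bool) :
    g (.inr (j, σ)) < g (.inr (i, τ)) := by
  have hadj : ∀ τ' : Bool, (rsG b m ω).Adj (.inr (i, τ'))
      (.inr (j, bitM M (ω (.inr (i, false), j)))) := by
    intro τ'
    refine Or.inl ⟨hij, ?_⟩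
    rw [if_pos hD]
  set β := bitM M (ω (.inr (i, false), j)) with hβ
  have hcolj : ∀ s s' : Bool, g (.inr (j, s)) = g (.inr (j, s')) := by
    intro s s'
    cases s <;> cases s' <;> first | rfl | exact hj.1 | exact hj.1.symm
  have hcoli : ∀ s s' : Bool, g (.inr (i, s)) = g (.inr (i, s')) := by
    intro s s'
    cases s <;> cases s' <;> first | rfl | exact hi.1 | exact hi.1.symm
  have h1 := hg.2 (.inr (i, false)) (.inr (j, β)) (.inr (i, true)) (hadj false) (hadj true).symm
    (by simp)
  have h2 := hg.1 _ _ (hadj true)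
  rw [hcolj σ β, hcoli τ true]
  have h3 : ¬ g (.inr (i, true)) < g (.inr (j, β)) := fun h => h1 ⟨hi.1, h⟩
  exact lt_of_le_of_ne (not_lt.1 h3) (Ne.symm h2)

/-- Job THR-18. The colours of the regular levels are strictly decreasing.

Proof: let `i < j` be regular. If `j - i ≤ 4 b` use `lt_of_Dp`. Otherwise `j / b ≥ i / b + 4`. In
the blocks `i / b + 1` and `j / b - 1` (complete blocks of `b` levels) less than `b / 2` levels
each are bad; so there is a residue `a < b` such that the levels `(i / b + 1) * b + a` and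
`(j / b - 1) * b + a` are good. The levels `i < (i / b + 1) * b + a < (j / b - 1) * b + a < j` are
consecutively in the relation `Dp b`. -/
theorem regL_anti {ω : Omr n h M} {g : Wt n h → Fin (n + 1)} (hg : IsRS (rsG b m ω) g)
    (hb : 1 ≤ b) {i j : Fin n} (hi : i ∈ regL b (badL g)) (hj : j ∈ regL b (badL g))
    (hij : i < j) (σ τ : Bool) : g (.inr (j, σ)) < g (.inr (i, τ)) := by
  classical
  have hgood : ∀ l : Fin n, l ∉ badL g → GoodL g l := by
    intro l hl
    by_contra hc
    exact hl (Finset.mem_filter.2 ⟨Finset.mem_univ _, hc⟩)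
  have hi' := (Finset.mem_filter.1 hi).2
  have hj' := (Finset.mem_filter.1 hj).2
  have hgi : GoodL g i := hgood i hi'.1
  have hgj : GoodL g j := hgood j hj'.1
  by_cases hD : (j : ℕ) - i ≤ 4 * b
  · exact lt_of_Dp hg hij (Or.inl hD) hgi hgj σ τ
  obtain ⟨p, hp⟩ : ∃ p, (i : ℕ) / b = p := ⟨_, rfl⟩
  obtain ⟨q, hq⟩ : ∃ q, (j : ℕ) / b = q := ⟨_, rfl⟩
  rw [hp] at hi'
  rw [hq] at hj'
  have hpi : b * p + (i : ℕ) % b = i := by rw [← hp]; exact Nat.div_add_mod _ _
  have hqj : b * q + (j : ℕ) % b = j := by rw [← hq]; exact Nat.div_add_mod _ _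
  clear hp hq
  have hmi : (i : ℕ) % b < b := Nat.mod_lt _ hb
  have hmj : (j : ℕ) % b < b := Nat.mod_lt _ hb
  have hpq : p + 4 ≤ q := by
    by_contra hc
    have h1 : q ≤ p + 3 := by omega
    have h2 : b * q ≤ b * (p + 3) := Nat.mul_le_mul_left _ h1
    have h3 : b * (p + 3) = b * p + 3 * b := by ring
    omega
  have hb1 : 2 * ((badL g).filter fun l : Fin n => (l : ℕ) / b = p + 1).card < b := by
    have := hi'.2 (p + 1) (Or.inr rfl)
    convert this
  have hb2 : 2 * ((badL g).filter fun l : Fin n => (l : ℕ) / b = q - 1).card < b := by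
    have := hj'.2 (q - 1) (Or.inl (by omega))
    convert this
  -- a common good residue
  obtain ⟨a, hab, ha1, ha2⟩ : ∃ a, a < b ∧
      a ∉ ((badL g).filter fun l : Fin n => (l : ℕ) / b = p + 1).image (fun l : Fin n => (l : ℕ) % b) ∧
      a ∉ ((badL g).filter fun l : Fin n => (l : ℕ) / b = q - 1).image (fun l : Fin n => (l : ℕ) % b) := by
    by_contra hc
    push Not at hc
    have hsub : Finset.range b ⊆
        ((badL g).filter fun l : Fin n => (l : ℕ) / b = p + 1).image (fun l : Fin n => (l : ℕ) % b) ∪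
        ((badL g).filter fun l : Fin n => (l : ℕ) / b = q - 1).image (fun l : Fin n => (l : ℕ) % b) := by
      intro a ha
      by_cases h1 : a ∈ ((badL g).filter fun l : Fin n => (l : ℕ) / b = p + 1).image
          (fun l : Fin n => (l : ℕ) % b)
      · exact Finset.mem_union_left _ h1
      · exact Finset.mem_union_right _ (hc a (Finset.mem_range.1 ha) h1)
    have h1 := Finset.card_le_card hsub
    have h2 := Finset.card_union_le
      (((badL g).filter fun l : Fin n => (l : ℕ) / b = p + 1).image (fun l : Fin n => (l : ℕ) % b))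
      (((badL g).filter fun l : Fin n => (l : ℕ) / b = q - 1).image (fun l : Fin n => (l : ℕ) % b))
    have h3 := Finset.card_image_le (s := (badL g).filter fun l : Fin n => (l : ℕ) / b = p + 1)
      (f := fun l : Fin n => (l : ℕ) % b)
    have h4 := Finset.card_image_le (s := (badL g).filter fun l : Fin n => (l : ℕ) / b = q - 1)
      (f := fun l : Fin n => (l : ℕ) % b)
    rw [Finset.card_range] at h1
    omega
  have e1 : b * (p + 1) = b * p + b := by ring
  have e2 : b * (q - 1) + b = b * q := by
    obtain ⟨q', hq'⟩ : ∃ q', q = q' + 1 := ⟨q - 1, by omega⟩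
    rw [hq', Nat.add_sub_cancel]; ring
  have e3 : b * (p + 2) ≤ b * (q - 1) := Nat.mul_le_mul_left _ (by omega)
  have e4 : b * (p + 2) = b * p + 2 * b := by ring
  have hjn := j.isLt
  let c1 : Fin n := ⟨b * (p + 1) + a, by omega⟩
  let c2 : Fin n := ⟨b * (q - 1) + a, by omega⟩
  have hc1d : (c1 : ℕ) / b = p + 1 := by
    change (b * (p + 1) + a) / b = p + 1
    rw [Nat.mul_add_div hb, Nat.div_eq_of_lt hab, add_zero]
  have hc1m : (c1 : ℕ) % b = a := by
    change (b * (p + 1) + a) % b = a
    rw [Nat.mul_add_mod, Nat.mod_eq_of_lt hab]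
  have hc2d : (c2 : ℕ) / b = q - 1 := by
    change (b * (q - 1) + a) / b = q - 1
    rw [Nat.mul_add_div hb, Nat.div_eq_of_lt hab, add_zero]
  have hc2m : (c2 : ℕ) % b = a := by
    change (b * (q - 1) + a) % b = a
    rw [Nat.mul_add_mod, Nat.mod_eq_of_lt hab]
  have hg1 : GoodL g c1 := by
    apply hgood
    intro hbad
    exact ha1 (Finset.mem_image.2 ⟨c1, Finset.mem_filter.2 ⟨hbad, hc1d⟩, hc1m⟩)
  have hg2 : GoodL g c2 := by
    apply hgood
    intro hbad
    exact ha2 (Finset.mem_image.2 ⟨c2, Finset.mem_filter.2 ⟨hbad, hc2d⟩, hc2m⟩)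
  have hic1 : i < c1 := by
    rw [Fin.lt_def]
    change (i : ℕ) < b * (p + 1) + a
    omega
  have hc12 : c1 < c2 := by
    rw [Fin.lt_def]
    change b * (p + 1) + a < b * (q - 1) + a
    omega
  have hc2j : c2 < j := by
    rw [Fin.lt_def]
    change b * (q - 1) + a < (j : ℕ)
    omega
  have hD1 : Dp b i c1 := by
    left
    change b * (p + 1) + a - (i : ℕ) ≤ 4 * b
    omega
  have hD2 : Dp b c1 c2 := by
    right
    change (b * (q - 1) + a - (b * (p + 1) + a)) % b = 0
    rw [Nat.add_sub_add_right, ← Nat.mul_sub]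
    exact Nat.mul_mod_right _ _
  have hD3 : Dp b c2 j := by
    left
    change (j : ℕ) - (b * (q - 1) + a) ≤ 4 * b
    omega
  exact (lt_of_Dp hg hc2j hD3 hg2 hgj σ false).trans
    ((lt_of_Dp hg hc12 hD2 hg1 hg2 false false).trans (lt_of_Dp hg hic1 hD1 hgi hg1 false τ))

end Pool.Agent.H79.Thr
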