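import Pool.Agent.H79.Thr.RSE
import Pool.Agent.H79.Thr.RSF

/-!
# The random gadget for rs colourings: patterns
-/

namespace Pool.Agent.H79.Thr

variable {n h M : ℕ} {b : ℕ} {m : ℕ → ℕ}

theorem GoodL.eq {g : Wt n h → Fin (n + 1)} {i : Fin n} (hi : GoodL g i) (σ τ : Bool) :
    g (.inr (i, σ)) = g (.inr (i, τ)) := by
  cases σ <;> cases τ
  · rfl
  · exact hi.1
  · exact hi.1.symm
  · rfl

theorem GoodL.level {g : Wt n h → Fin (n + 1)} {i : Fin n} (hi : GoodL g i) {w : Wt n h} {σ : Bool}
    (hw : g w = g (.inr (i, σ))) : ∃ τ, w = .inr (i, τ) :=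
  hi.2 w (hw.trans (hi.eq _ _))

theorem mem_badL {g : Wt n h → Fin (n + 1)} {i : Fin n} : i ∈ badL g ↔ ¬ GoodL g i := by
  simp [badL]

theorem good_of_regL {g : Wt n h → Fin (n + 1)} {i : Fin n} (hi : i ∈ regL b (badL g)) :
    GoodL g i := by
  have h1 : i ∉ badL g := by
    simp only [regL, Finset.mem_filter, Finset.mem_univ, true_and] at hi
    exact hi.1
  rw [mem_badL, not_not] at h1
  exact h1

/-- Job THR-19. An rs colouring that is not the intended one gives a proper pattern all tests of
which fail.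

Proof: by `rs_final` some level `≥ h` is bad; take `s`, `P` from `exists_spreadR`, `B := badL g`,
`γ j := g (P j).1`. The levels of the pairs are bad, since the two vertices of a pair have the same
colour and different supports. On `regL b B` the colours are strictly decreasing (`regL_anti`) and
never equal to `γ j` (good levels), so there is `θ j ≤ n` such that for `c ∈ regL b B`:
`c < θ j` iff the colour of the level `c` is larger than `γ j` (e.g. `θ j` = supremum of the
`c + 1` for `c ∈ regL b B` with a larger colour). The tests fail: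
* `c < θ j`: a vertex of level `c` adjacent to `(P j).1` and `(P j).2` would have two neighbours of
  the same smaller colour;
* `c ≥ θ j`: `(P j).2` would have the two neighbours `(c, false)`, `(c, true)` of the same smaller
  colour;
* `γ j < γ i`: `(P i).2` would have the two neighbours `(P j).1`, `(P j).2` of the same smaller
  colour; `γ j = γ i`: adjacent vertices of the same colour. -/
theorem exists_patternR {lam : ℝ} (hp : ParOk n b h M m lam) {ω : Omr n h M}
    {g : Wt n h → Fin (n + 1)} (hg : IsRS (rsG b m ω) g) (hne : g ≠ colF) :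
    ∃ (s : ℕ) (B : Finset (Fin n)) (P : Fin s → Wt n h × (Fin n × Bool))
      (θ γ : Fin s → Fin (n + 1)), 1 ≤ s ∧ s ≤ n ∧ ProperR B P ∧ AllFailR b m ω B P θ γ := by
  classical
  have hb := hp.hb
  have hh := hp.hh
  have hn : h ≤ n := by
    have := hp.hhb
    have := hp.hn
    omega
  have hbad : ∃ i : Fin n, h ≤ (i : ℕ) ∧ ¬ GoodL g i := by
    by_contra hcon
    push Not at hcon
    exact hne (rs_final hg (by omega) (by omega) hn hcon)
  obtain ⟨s, P, hs1, hsn, hcard, hsp, hcol⟩ := exists_spreadR hg (by omega) hn hbad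
  have hux : ∀ j, (P j).1 ≠ .inr (P j).2 := by
    intro j e
    exact lt_irrefl _ ((hsp.1 j).2 (P j).2.1 (P j).2.2 e)
  let S : Fin s → Finset (Fin n) := fun j =>
    (regL b (badL g)).filter fun c => g (P j).1 < g (.inr (c, false))
  have hθ : ∀ j, (S j).sup (fun c : Fin n => (c : ℕ) + 1) < n + 1 := by
    intro j
    rw [Nat.lt_succ_iff, Finset.sup_le_iff]
    intro c _
    exact c.2
  refine ⟨s, badL g, P, fun j => ⟨(S j).sup fun c : Fin n => (c : ℕ) + 1, hθ j⟩,
    fun j => g (P j).1, hs1, hsn, ⟨hsp, hcard, fun j => ⟨?_, ?_⟩⟩, ?_, ?_⟩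
  · rw [mem_badL]
    intro hG
    obtain ⟨τ, hτ⟩ := hG.level (w := (P j).1) (σ := (P j).2.2) (hcol j)
    exact lt_irrefl _ ((hsp.1 j).2 _ _ hτ)
  · intro a τ ha
    rw [mem_badL]
    intro hG
    have h1 : g (.inr (P j).2) = g (.inr (a, τ)) := by rw [← hcol j, ha]
    obtain ⟨σ, hσ⟩ := hG.level h1
    have h2 : (P j).2.1 = a := by
      have := Sum.inr.inj hσ
      rw [this]
    have := (hsp.1 j).2 a τ ha
    rw [h2] at this
    exact lt_irrefl _ this
  · intro j c hc hcj
    have hGc := good_of_regL hc
    split_ifs with hcθ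
    · rintro ⟨τ, h1, h2⟩
      simp only [Finset.lt_sup_iff] at hcθ
      obtain ⟨c', hc', hlt⟩ := hcθ
      rw [Finset.mem_filter] at hc'
      have hle : g (.inr (c', false)) ≤ g (.inr (c, τ)) := by
        rcases Nat.lt_or_ge (c : ℕ) (c' : ℕ) with h3 | h3
        · exact (regL_anti hg (by omega) hc hc'.1 h3 _ _).le
        · have : c' = c := Fin.ext (by omega)
          subst this
          exact (hGc.eq _ _).le
      exact hg.2 _ _ _ h1.symm h2 (hux j) ⟨hcol j, (hcol j) ▸ (hc'.2.trans_le hle)⟩
    · intro hall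
      simp only [Finset.lt_sup_iff, not_exists, not_and] at hcθ
      have h1 : ¬ g (P j).1 < g (.inr (c, false)) := by
        intro h2
        exact hcθ c (Finset.mem_filter.2 ⟨hc, h2⟩) (Nat.lt_succ_self _)
      have h2 : g (.inr (c, false)) ≠ g (.inr (P j).2) := by
        intro h3
        obtain ⟨τ, hτ⟩ := hGc.level h3.symm
        have h4 : (P j).2.1 = c := by
          have := Sum.inr.inj hτ
          rw [this]
        rw [h4] at hcj
        exact lt_irrefl _ hcj
      have h3 : g (.inr (c, true)) < g (.inr (P j).2) := by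
        rw [← hGc.eq false true]
        rw [hcol j] at h1
        exact lt_of_le_of_ne (not_lt.1 h1) h2
      refine hg.2 (.inr (c, false)) (.inr (P j).2) (.inr (c, true)) (hall false) (hall true).symm
        ?_ ⟨hGc.1, h3⟩
      simp
  · intro i j hij hγ
    rintro ⟨h1, h2⟩
    rcases hγ.lt_or_eq with h3 | h3
    · refine hg.2 _ _ _ h1.symm h2 (hux j) ⟨hcol j, ?_⟩
      rw [← hcol j, ← hcol i]
      exact h3
    · refine hg.1 _ _ h2 ?_
      rw [← hcol j, ← hcol i]
      exact h3.symm

end Pool.Agent.H79.Thr
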