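import Pool.Agent.H79.Thr.RSDef
import Pool.Agent.H79.Thr.Blocks2

/-!
# The random gadget for rs colourings: the probability of one test
-/

namespace Pool.Agent.H79.Thr

variable {n h M : ℕ} {b : ℕ} {m : ℕ → ℕ} {lam : ℝ}

/-- Job THR-20. The blocks of different pairs of supports are disjoint. -/
theorem blk2_disjoint {x y x' y' : Zt h ⊕ Fin n} (h1 : ¬ (x = x' ∧ y = y'))
    (h2 : ¬ (x = y' ∧ y = x')) : Disjoint (blk2 x y) (blk2 x' y') := by
  rcases x with z | a <;> rcases y with w | c <;> rcases x' with z' | a' <;>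
    rcases y' with w' | c' <;>
    simp only [blk2, Finset.disjoint_left, Finset.mem_singleton, Finset.mem_insert,
      Finset.notMem_empty, IsEmpty.forall_iff, implies_true, not_false_iff, Sum.inl.injEq,
      Sum.inr.injEq, reduceCtorEq, false_and, and_false] at h1 h2 ⊢
  · rintro q rfl hq
    rw [Prod.mk.injEq, Sum.inl.injEq] at hq
    exact h1 hq
  · rintro q rfl hq
    rw [Prod.mk.injEq, Sum.inl.injEq] at hq
    exact h2 hq
  · rintro q rfl hq
    rcases hq with hq | hq
    · exact absurd (congrArg Prod.fst hq) (by simp)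
    · exact absurd (congrArg Prod.fst hq) (by simp)
  · rintro q rfl hq
    rw [Prod.mk.injEq, Sum.inl.injEq] at hq
    exact h2 ⟨hq.2, hq.1⟩
  · rintro q rfl hq
    rw [Prod.mk.injEq, Sum.inl.injEq] at hq
    exact h1 ⟨hq.2, hq.1⟩
  · rintro q rfl hq
    rcases hq with hq | hq
    · exact absurd (congrArg Prod.fst hq) (by simp)
    · exact absurd (congrArg Prod.fst hq) (by simp)
  · rintro q hq rfl
    rcases hq with hq | hq
    · exact absurd (congrArg Prod.fst hq) (by simp)
    · exact absurd (congrArg Prod.fst hq) (by simp)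
  · rintro q hq rfl
    rcases hq with hq | hq
    · exact absurd (congrArg Prod.fst hq) (by simp)
    · exact absurd (congrArg Prod.fst hq) (by simp)
  · rintro q hq hq'
    have e : min a c = min a' c' ∧ max a c = max a' c' := by
      rcases hq with rfl | rfl <;> rcases hq' with hq' | hq' <;>
        simp only [Prod.mk.injEq, Sum.inr.injEq, and_true, reduceCtorEq, and_false,
          false_and] at hq' <;> exact hq'
    obtain ⟨e1, e2⟩ := e
    rcases le_total a c with h3 | h3 <;> rcases le_total a' c' with h4 | h4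
    · rw [min_eq_left h3, min_eq_left h4] at e1
      rw [max_eq_right h3, max_eq_right h4] at e2
      exact h1 ⟨e1, e2⟩
    · rw [min_eq_left h3, min_eq_right h4] at e1
      rw [max_eq_right h3, max_eq_left h4] at e2
      exact h2 ⟨e1, e2⟩
    · rw [min_eq_right h3, min_eq_left h4] at e1
      rw [max_eq_left h3, max_eq_right h4] at e2
      exact h2 ⟨e2, e1⟩
    · rw [min_eq_right h3, min_eq_right h4] at e1
      rw [max_eq_left h3, max_eq_left h4] at e2
      exact h1 ⟨e2, e1⟩

/-- Adjacency in terms of the numbers of the block. -/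
private theorem thr20_down_congr {ω ω' : Omr n h M} (w w' : Wt n h)
    (he : ∀ q ∈ blk2 (sup w) (sup w'), ω q = ω' q) : down b m ω w w' ↔ down b m ω' w w' := by
  rcases w with z | ⟨i, τ⟩ <;> rcases w' with z' | ⟨j, σ⟩
  · exact Iff.rfl
  · have h1 : ω (.inl z, j) = ω' (.inl z, j) := he _ (by simp [sup, blk2])
    change (if (j : ℕ) < h then eps z j = σ else pick m j (ω (.inl z, j)) = some σ) ↔
      (if (j : ℕ) < h then eps z j = σ else pick m j (ω' (.inl z, j)) = some σ)
    rw [h1]
  · exact Iff.rfl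
  · change (i < j ∧ if Dp b i j then bitM M (ω (.inr (i, false), j)) = σ
        else pick m j (ω (.inr (i, τ), j)) = some σ) ↔
      (i < j ∧ if Dp b i j then bitM M (ω' (.inr (i, false), j)) = σ
        else pick m j (ω' (.inr (i, τ), j)) = some σ)
    refine and_congr_right fun hij => ?_
    have h1 : ∀ τ : Bool, ω (.inr (i, τ), j) = ω' (.inr (i, τ), j) := by
      intro τ
      refine he _ ?_
      simp only [sup, blk2, Sum.map_inr, min_eq_left hij.le, max_eq_right hij.le,
        Finset.mem_insert, Finset.mem_singleton]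
      cases τ
      · exact Or.inl rfl
      · exact Or.inr rfl
    rw [h1 false, h1 τ]

private theorem thr20_blk2_comm (x y : Zt h ⊕ Fin n) : blk2 x y = blk2 y x := by
  rcases x with z | a <;> rcases y with w | c
  · rfl
  · rfl
  · rfl
  · simp only [blk2]
    rw [min_comm, max_comm]

/-- Job THR-20. Adjacency of two vertices depends on the block of their supports. -/
theorem dep_adj (w w' : Wt n h) :
    DepOn {ω : Omr n h M | (rsG b m ω).Adj w w'} (blk2 (sup w) (sup w')) := by
  intro ω ω' he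
  refine or_congr (thr20_down_congr w w' he) (thr20_down_congr w' w ?_)
  rw [thr20_blk2_comm]
  exact he

/-- Counting numbers below `M`. -/
private theorem thr20_card {M : ℕ} (a k : ℕ) (hk : a + k ≤ M) (S : Finset (Fin M))
    (hS : ∀ v : Fin M, a ≤ (v : ℕ) → (v : ℕ) < a + k → v ∈ S) : k ≤ S.card := by
  have h1 : (Finset.univ : Finset (Fin k)).card ≤ S.card := by
    refine Finset.card_le_card_of_injOn (fun i => (⟨a + i, by omega⟩ : Fin M)) ?_ ?_
    · intro i _
      exact hS _ (by simp) (by simp)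
    · intro i _ i' _ e
      have := congrArg (fun v : Fin M => (v : ℕ)) e
      simp only at this
      exact Fin.ext (by omega)
  rwa [Finset.card_univ, Fintype.card_fin] at h1

private theorem thr20_card_pick (hp : ParOk n b h M m lam) (j : ℕ) (σ : Bool) :
    m j ≤ (Finset.univ.filter fun v : Fin M => pick m j v = some σ).card := by
  have h4 := hp.m4 j
  cases σ
  · refine thr20_card 0 (m j) (by omega) _ fun v _ h1 => ?_
    rw [Finset.mem_filter]
    refine ⟨Finset.mem_univ _, ?_⟩
    unfold pick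
    rw [if_pos (by omega)]
  · refine thr20_card (m j) (m j) (by omega) _ fun v h0 h1 => ?_
    rw [Finset.mem_filter]
    refine ⟨Finset.mem_univ _, ?_⟩
    unfold pick
    rw [if_neg (by omega), if_pos (by omega)]

private theorem thr20_card_bit (hp : ParOk n b h M m lam) (j : ℕ) (σ : Bool) :
    m j ≤ (Finset.univ.filter fun v : Fin M => bitM M v = σ).card := by
  have h4 := hp.m4 j
  have hM := hp.hM
  cases σ
  · refine thr20_card (M - m j) (m j) (by omega) _ fun v h0 h1 => ?_
    rw [Finset.mem_filter]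
    refine ⟨Finset.mem_univ _, ?_⟩
    unfold bitM
    rw [decide_eq_false_iff_not]
    omega
  · refine thr20_card 0 (m j) (by omega) _ fun v _ h1 => ?_
    rw [Finset.mem_filter]
    refine ⟨Finset.mem_univ _, ?_⟩
    unfold bitM
    rw [decide_eq_true_iff]
    omega

private theorem thr20_pr_coord (hp : ParOk n b h M m lam) (q : Wt n h × Fin n)
    (P : Fin M → Prop) [DecidablePred P] (k : ℕ)
    (hk : k ≤ (Finset.univ.filter fun v : Fin M => P v).card) :
    (k : ℝ) / M ≤ pr {ω : Omr n h M | P (ω q)} := by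
  have hM := hp.hM
  haveI : Nonempty (Fin M) := ⟨⟨0, by omega⟩⟩
  have h1 := pr_coord q (Finset.univ.filter fun v : Fin M => P v)
  have h2 : ({ω : Omr n h M | ω q ∈ Finset.univ.filter fun v : Fin M => P v}) =
      {ω : Omr n h M | P (ω q)} := by
    ext ω
    simp
  rw [h2, Fintype.card_fin] at h1
  rw [h1]
  exact div_le_div_of_nonneg_right (by exact_mod_cast hk) (by positivity)

/-- Job THR-20. A vertex above the level `j` is adjacent to `(j, σ)` with probability at least
`m j / M` (if the vertex is in the top class, for `j ≥ h`): for a direct pair of levels the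
probability is at least `⌊M / 2⌋ / M`, otherwise it is `m j / M` (note `2 * m j ≤ M`; the levels
that are not in the relation `Dp` to `j` exist only for `j > 4 b ≥ h`). -/
theorem pr_adj (hp : ParOk n b h M m lam) (w : Wt n h) (j : Fin n) (σ : Bool) (hw : Above w j)
    (hj : (∃ y, w = .inr y) ∨ h ≤ (j : ℕ)) :
    (m j : ℝ) / M ≤ pr {ω : Omr n h M | (rsG b m ω).Adj w (.inr (j, σ))} := by
  rcases w with z | ⟨a, τ⟩
  · have hhj : h ≤ (j : ℕ) := by
      rcases hj with ⟨y, hy⟩ | hj
      · exact absurd hy (by simp)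
      · exact hj
    refine (thr20_pr_coord hp (.inl z, j) (fun v => pick m j v = some σ) (m j)
      (thr20_card_pick hp j σ)).trans (pr_mono ?_)
    intro ω hω
    left
    change (if (j : ℕ) < h then eps z j = σ else pick m j (ω (.inl z, j)) = some σ)
    rw [if_neg (by omega)]
    exact hω
  · have haj : a < j := hw a τ rfl
    by_cases hD : Dp b a j
    · refine (thr20_pr_coord hp (.inr (a, false), j) (fun v => bitM M v = σ) (m j)
        (thr20_card_bit hp j σ)).trans (pr_mono ?_)
      intro ω hω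
      left
      refine ⟨haj, ?_⟩
      rw [if_pos hD]
      exact hω
    · refine (thr20_pr_coord hp (.inr (a, τ), j) (fun v => pick m j v = some σ) (m j)
        (thr20_card_pick hp j σ)).trans (pr_mono ?_)
      intro ω hω
      left
      refine ⟨haj, ?_⟩
      rw [if_neg hD]
      exact hω

private theorem thr20_div_le (hp : ParOk n b h M m lam) {i L : ℕ} (hiL : i ≤ L) :
    (m L : ℝ) / M ≤ (m i : ℝ) / M := by
  refine div_le_div_of_nonneg_right ?_ (by positivity)
  exact_mod_cast hp.anti hiL

private theorem thr20_sq_le (hp : ParOk n b h M m lam) (i : ℕ) :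
    ((m i : ℝ) / M) ^ 2 ≤ (m i : ℝ) / M := by
  have h4 := hp.m4 i
  have hM := hp.hM
  have h0 : (0 : ℝ) ≤ (m i : ℝ) / M := by positivity
  have h1 : (m i : ℝ) / M ≤ 1 := by
    refine div_le_one_of_le₀ ?_ (by positivity)
    exact_mod_cast (by omega : m i ≤ M)
  nlinarith

/-- A vertex `(i, σ)` is adjacent to a vertex of another support. -/
private theorem thr20_adj_ge (hp : ParOk n b h M m lam) (w : Wt n h) (i : Fin n) (σ : Bool)
    (L : ℕ) (hiL : (i : ℕ) ≤ L) (hwL : ∀ a τ, w = .inr (a, τ) → (a : ℕ) ≤ L)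
    (hi : (∃ y, w = .inr y) ∨ h ≤ (i : ℕ)) (hne : sup w ≠ .inr i) :
    (m L : ℝ) / M ≤ pr {ω : Omr n h M | (rsG b m ω).Adj (.inr (i, σ)) w} := by
  by_cases hw : Above w i
  · refine ((thr20_div_le hp hiL).trans (pr_adj hp w i σ hw hi)).trans (pr_mono ?_)
    intro ω hω
    have h1 : (rsG b m ω).Adj w (.inr (i, σ)) := hω
    exact h1.symm
  · rcases w with z | ⟨a, τ⟩
    · exact absurd (fun a τ e => absurd e (by simp)) hw
    · have hia : i < a := by
        have h1 : ¬ a < i := by
          intro h2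
          refine hw fun a' τ' e => ?_
          have h3 : a = a' := congrArg Prod.fst (Sum.inr.inj e)
          rw [← h3]
          exact h2
        have h2 : a ≠ i := by
          rintro rfl
          exact hne rfl
        exact lt_of_le_of_ne (not_lt.1 h1) h2.symm
      refine (thr20_div_le hp (hwL a τ rfl)).trans (pr_adj hp (.inr (i, σ)) a τ ?_
        (Or.inl ⟨_, rfl⟩))
      intro a' τ' e
      have h3 : i = a' := congrArg Prod.fst (Sum.inr.inj e)
      rw [← h3]
      exact hia

/-- Two adjacencies at a vertex `(i, σ)`. -/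
private theorem thr20_prod (i : Fin n) (σ : Bool) (u v : Wt n h)
    (huv : sup u ≠ sup v) (hu : sup u ≠ .inr i) (q : ℝ) (hq : 0 ≤ q)
    (h1 : q ≤ pr {ω : Omr n h M | (rsG b m ω).Adj (.inr (i, σ)) u})
    (h2 : q ≤ pr {ω : Omr n h M | (rsG b m ω).Adj (.inr (i, σ)) v}) :
    q ^ 2 ≤ pr {ω : Omr n h M | (rsG b m ω).Adj (.inr (i, σ)) u ∧
      (rsG b m ω).Adj (.inr (i, σ)) v} := by
  have h3 := pr_inter_of_disjoint (dep_adj (b := b) (m := m) (M := M) (.inr (i, σ)) u)
    (dep_adj (b := b) (m := m) (M := M) (.inr (i, σ)) v)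
    (blk2_disjoint (fun e => huv e.2) (fun e => hu e.2))
  have h4 : ({ω : Omr n h M | (rsG b m ω).Adj (.inr (i, σ)) u ∧
      (rsG b m ω).Adj (.inr (i, σ)) v}) =
      {ω : Omr n h M | (rsG b m ω).Adj (.inr (i, σ)) u} ∩
        {ω : Omr n h M | (rsG b m ω).Adj (.inr (i, σ)) v} := rfl
  rw [h4, h3, sq]
  exact mul_le_mul h1 h2 hq (pr_nonneg _)

/-- Job THR-20. The test of the first kind. For `u` in the top class and `c < h` use that `u` is
adjacent to `(c, eps u c)`; otherwise take `τ = false`; `u` and `(c, τ)` are adjacent with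
probability at least `m i' / M`, `(c, τ)` and `(i', σ')` too, and these are independent. -/
theorem pr_plus (hp : ParOk n b h M m lam) (u : Wt n h) (c i' : Fin n) (σ' : Bool) (hc : c < i')
    (hi : h ≤ (i' : ℕ)) (hu : Above u i') (huc : sup u ≠ .inr c) :
    ((m i' : ℝ) / M) ^ 2 ≤ pr {ω : Omr n h M |
      ∃ τ, (rsG b m ω).Adj (.inr (c, τ)) u ∧ (rsG b m ω).Adj (.inr (c, τ)) (.inr (i', σ'))} := by
  have hv : ∀ τ : Bool, (m i' : ℝ) / M ≤
      pr {ω : Omr n h M | (rsG b m ω).Adj (.inr (c, τ)) (.inr (i', σ'))} := by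
    intro τ
    refine pr_adj hp (.inr (c, τ)) i' σ' ?_ (Or.inl ⟨_, rfl⟩)
    intro a τ' e
    have h3 : c = a := congrArg Prod.fst (Sum.inr.inj e)
    rw [← h3]
    exact hc
  by_cases hz : ∃ z, u = .inl z ∧ (c : ℕ) < h
  · obtain ⟨z, rfl, hch⟩ := hz
    refine ((thr20_sq_le hp i').trans (hv (eps z c))).trans (pr_mono ?_)
    intro ω hω
    refine ⟨eps z c, ?_, hω⟩
    right
    change (if (c : ℕ) < h then eps z c = eps z c else
      pick m c (ω (.inl z, c)) = some (eps z c))
    rw [if_pos hch]
  · have h1 : (m i' : ℝ) / M ≤ pr {ω : Omr n h M | (rsG b m ω).Adj (.inr (c, false)) u} := by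
      refine thr20_adj_ge hp u c false i' (Fin.le_def.1 hc.le) ?_ ?_ huc
      · intro a τ e
        exact (Fin.lt_def.1 (hu a τ e)).le
      · rcases u with z | y
        · right
          by_contra hch
          exact hz ⟨z, rfl, by omega⟩
        · exact Or.inl ⟨y, rfl⟩
    refine (thr20_prod c false u (.inr (i', σ')) ?_ huc _ (by positivity) h1
      (hv false)).trans (pr_mono ?_)
    · rcases u with z | ⟨a, τ⟩
      · exact fun e => absurd e (by simp [sup])
      · intro e
        have h3 : a = i' := Sum.inr.inj e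
        exact absurd (hu a τ rfl) (by rw [h3]; exact lt_irrefl _)
    · intro ω hω
      exact ⟨false, hω⟩

/-- Job THR-20. The test of the second kind: for a direct pair of levels the probability is at least
`⌊M / 2⌋ / M ≥ (m i' / M) ^ 2`, otherwise two independent coordinates. -/
theorem pr_minus (hp : ParOk n b h M m lam) (c i' : Fin n) (σ' : Bool) (hc : c < i') :
    ((m i' : ℝ) / M) ^ 2 ≤ pr {ω : Omr n h M |
      ∀ τ, (rsG b m ω).Adj (.inr (c, τ)) (.inr (i', σ'))} := by
  by_cases hD : Dp b c i'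
  · refine ((thr20_sq_le hp i').trans (thr20_pr_coord hp (.inr (c, false), i')
      (fun v => bitM M v = σ') (m i') (thr20_card_bit hp i' σ'))).trans (pr_mono ?_)
    intro ω hω τ
    left
    refine ⟨hc, ?_⟩
    rw [if_pos hD]
    exact hω
  · have hτ : ∀ τ : Bool, (m i' : ℝ) / M ≤ pr {ω : Omr n h M |
        pick m i' (ω (.inr (c, τ), i')) = some σ'} := fun τ =>
      thr20_pr_coord hp (.inr (c, τ), i') (fun v => pick m i' v = some σ') (m i')
        (thr20_card_pick hp i' σ')
    have hdep : ∀ τ : Bool, DepOn {ω : Omr n h M |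
        pick m i' (ω (.inr (c, τ), i')) = some σ'} {(.inr (c, τ), i')} := by
      intro τ ω ω' he
      have h1 := he (.inr (c, τ), i') (Finset.mem_singleton_self _)
      simp only [Set.mem_ofPred_eq]
      rw [h1]
    have h3 := pr_inter_of_disjoint (hdep false) (hdep true) (by
      rw [Finset.disjoint_singleton]
      intro e
      have h5 := congrArg Prod.fst e
      simp at h5)
    have h4 : ((m i' : ℝ) / M) ^ 2 ≤ pr ({ω : Omr n h M |
        pick m i' (ω (.inr (c, false), i')) = some σ'} ∩ {ω : Omr n h M |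
        pick m i' (ω (.inr (c, true), i')) = some σ'}) := by
      rw [h3, sq]
      exact mul_le_mul (hτ false) (hτ true) (by positivity) (pr_nonneg _)
    refine h4.trans (pr_mono ?_)
    rintro ω ⟨hω, hω'⟩ τ
    left
    refine ⟨hc, ?_⟩
    rw [if_neg hD]
    cases τ
    · exact hω
    · exact hω'

/-- Job THR-20. The test of the third kind. -/
theorem pr_poor (hp : ParOk n b h M m lam) (w : Wt n h) (i₁ i₂ : Fin n) (σ₁ σ₂ : Bool) (L : ℕ)
    (h1 : h ≤ (i₁ : ℕ)) (h2 : h ≤ (i₂ : ℕ)) (hL1 : (i₁ : ℕ) ≤ L) (hL2 : (i₂ : ℕ) ≤ L)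
    (hne : i₁ ≠ i₂) (hw : Above w i₂) (hw1 : sup w ≠ .inr i₁) :
    ((m L : ℝ) / M) ^ 2 ≤ pr {ω : Omr n h M |
      (rsG b m ω).Adj (.inr (i₁, σ₁)) w ∧ (rsG b m ω).Adj (.inr (i₁, σ₁)) (.inr (i₂, σ₂))} := by
  have e1 : (m L : ℝ) / M ≤ pr {ω : Omr n h M | (rsG b m ω).Adj (.inr (i₁, σ₁)) w} := by
    refine thr20_adj_ge hp w i₁ σ₁ L hL1 ?_ (Or.inr h1) hw1
    intro a τ e
    exact (Fin.lt_def.1 (hw a τ e)).le.trans hL2
  have e2 : (m L : ℝ) / M ≤
      pr {ω : Omr n h M | (rsG b m ω).Adj (.inr (i₁, σ₁)) (.inr (i₂, σ₂))} := by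
    refine thr20_adj_ge hp (.inr (i₂, σ₂)) i₁ σ₁ L hL1 ?_ (Or.inr h1) ?_
    · intro a τ e
      have h3 : i₂ = a := congrArg Prod.fst (Sum.inr.inj e)
      rw [← h3]
      exact hL2
    · intro e
      exact hne (Sum.inr.inj e).symm
  refine thr20_prod i₁ σ₁ w (.inr (i₂, σ₂)) ?_ hw1 _ (by positivity) e1 e2
  rcases w with z | ⟨a, τ⟩
  · exact fun e => absurd e (by simp [sup])
  · intro e
    have h3 : a = i₂ := Sum.inr.inj e
    exact absurd (hw a τ rfl) (by rw [h3]; exact lt_irrefl _)

end Pool.Agent.H79.Thr
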