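import Pool.Agent.H79.Thr.RSH
import Pool.Agent.H79.Thr.RSF

/-!
# The random gadget for rs colourings: the tests of the first two kinds

Proof of `pr_rich` of `RSI.lean` (job THR-21).
-/

namespace Pool.Agent.H79.Thr

variable {n h M : ℕ} {b : ℕ} {m : ℕ → ℕ} {lam : ℝ}

namespace RSI1

theorem sup_inr (c : Fin n) (τ : Bool) : sup (n := n) (h := h) (.inr (c, τ)) = .inr c := rfl

theorem sup_inr' (x : Fin n × Bool) : sup (n := n) (h := h) (.inr x) = .inr x.1 := rfl

/-- a support that is a level belongs to `B` -/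
theorem mem_of_sup {s : ℕ} {B : Finset (Fin n)} {P : Fin s → Wt n h × (Fin n × Bool)}
    (hP : ProperR B P) {j : Fin s} {c : Fin n} (hc : sup (P j).1 = .inr c) : c ∈ B := by
  have h1 := (hP.2.2 j).2
  rcases hw : (P j).1 with z | ⟨a, τ⟩
  · rw [hw] at hc
    simp [sup] at hc
  · rw [hw, sup_inr] at hc
    have := h1 a τ hw
    rwa [Sum.inr.inj hc] at this

/-- the event that a test fails -/
def Ev (b : ℕ) (m : ℕ → ℕ) {s : ℕ} (P : Fin s → Wt n h × (Fin n × Bool))
    (θ : Fin s → Fin (n + 1)) (t : Fin s × Fin n) : Set (Omr n h M) :=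
  {ω | if (t.2 : ℕ) < (θ t.1 : ℕ) then
      ¬ ∃ τ, (rsG b m ω).Adj (.inr (t.2, τ)) (P t.1).1 ∧
        (rsG b m ω).Adj (.inr (t.2, τ)) (.inr (P t.1).2)
    else ¬ ∀ τ, (rsG b m ω).Adj (.inr (t.2, τ)) (.inr (P t.1).2)}

/-- the coordinates of a test -/
def Dt {s : ℕ} (P : Fin s → Wt n h × (Fin n × Bool)) (t : Fin s × Fin n) :
    Finset (Wt n h × Fin n) :=
  blk2 (.inr t.2) (.inr (P t.1).2.1) ∪ blk2 (.inr t.2) (sup (P t.1).1)

theorem depOn_Ev {s : ℕ} (P : Fin s → Wt n h × (Fin n × Bool)) (θ : Fin s → Fin (n + 1))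
    (t : Fin s × Fin n) : DepOn (Ev (M := M) b m P θ t) (Dt P t) := by
  intro ω ω' hω
  have h1 : ∀ τ, (rsG b m ω).Adj (.inr (t.2, τ)) (P t.1).1 ↔
      (rsG b m ω').Adj (.inr (t.2, τ)) (P t.1).1 := fun τ =>
    dep_adj (b := b) (m := m) (.inr (t.2, τ)) (P t.1).1 ω ω' fun i hi =>
      hω i (Finset.mem_union_right _ hi)
  have h2 : ∀ τ, (rsG b m ω).Adj (.inr (t.2, τ)) (.inr (P t.1).2) ↔
      (rsG b m ω').Adj (.inr (t.2, τ)) (.inr (P t.1).2) := fun τ =>
    dep_adj (b := b) (m := m) (.inr (t.2, τ)) (.inr (P t.1).2) ω ω' fun i hi =>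
      hω i (Finset.mem_union_left _ hi)
  unfold Ev
  simp only [Set.mem_ofPred_eq, h1, h2]

theorem disjoint_Dt {s : ℕ} {B : Finset (Fin n)} {P : Fin s → Wt n h × (Fin n × Bool)}
    (hP : ProperR B P) {t t' : Fin s × Fin n} (ht : t.2 ∉ B) (hne : t ≠ t') :
    Disjoint (Dt P t) (Dt P t') := by
  have hinj := hP.1.2
  -- the supports of a pair
  set f : Fin s × Bool → Zt h ⊕ Fin n := fun x =>
    if x.2 then (Sum.inr (P x.1).2.1 : Zt h ⊕ Fin n) else sup (P x.1).1 with hf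
  have hB : ∀ x : Fin s × Bool, ∀ c : Fin n, c ∉ B → Sum.inr c ≠ f x := by
    rintro ⟨j, τ⟩ c hc he
    cases τ with
    | true =>
      simp only [hf, if_true] at he
      rw [Sum.inr.inj he] at hc
      exact hc (hP.2.2 j).1
    | false =>
      simp only [hf, Bool.false_eq_true, if_false] at he
      exact hc (mem_of_sup hP he.symm)
  have key : ∀ τ τ' : Bool, Disjoint (blk2 (Sum.inr t.2) (f (t.1, τ)))
      (blk2 (Sum.inr t'.2) (f (t'.1, τ'))) := by
    intro τ τ'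
    refine blk2_disjoint ?_ ?_
    · rintro ⟨h1, h2⟩
      have h3 := hinj h2
      simp only [Prod.mk.injEq] at h3
      exact hne (Prod.ext h3.1 (Sum.inr.inj h1))
    · rintro ⟨h1, _⟩
      exact hB (t'.1, τ') t.2 ht h1
  have k11 := key true true
  have k10 := key true false
  have k01 := key false true
  have k00 := key false false
  simp only [hf, if_true, Bool.false_eq_true, if_false] at k11 k10 k01 k00
  unfold Dt
  rw [Finset.disjoint_union_left, Finset.disjoint_union_right, Finset.disjoint_union_right]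
  exact ⟨⟨k11, k10⟩, k01, k00⟩

theorem pr_Ev_le (hp : ParOk n b h M m lam) {s : ℕ} {B : Finset (Fin n)}
    {P : Fin s → Wt n h × (Fin n × Bool)} (hP : ProperR B P) (θ : Fin s → Fin (n + 1))
    {t : Fin s × Fin n} (ht : t.2 ∉ B) (hlt : t.2 < (P t.1).2.1) :
    pr (Ev (M := M) b m P θ t) ≤ Real.exp (-(lam / (((P t.1).2.1 : ℕ) + 1))) := by
  have hM := hp.hM
  have : Nonempty (Fin M) := ⟨⟨0, by omega⟩⟩
  obtain ⟨hi, hab⟩ := hP.1.1 t.1
  have hM0 : (0 : ℝ) < M := by
    have : 0 < M := by omega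
    exact_mod_cast this
  have hlam : lam / (((P t.1).2.1 : ℕ) + 1) ≤ ((m (P t.1).2.1 : ℝ) / M) ^ 2 := by
    have h1 := hp.lam1 (P t.1).2.1 hi (P t.1).2.1.2
    have h2 : (0 : ℝ) < ((P t.1).2.1 : ℕ) + 1 := by positivity
    rw [div_pow, div_le_div_iff₀ h2 (by positivity)]
    linarith
  have h3 : pr (Ev (M := M) b m P θ t) ≤ 1 - ((m (P t.1).2.1 : ℝ) / M) ^ 2 := by
    by_cases hc : (t.2 : ℕ) < (θ t.1 : ℕ)
    · have h4 := pr_plus hp (P t.1).1 t.2 (P t.1).2.1 (P t.1).2.2 hlt hi hab (by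
        intro he
        exact ht (mem_of_sup hP he))
      have h5 : Ev (M := M) b m P θ t = {ω : Omr n h M |
          ∃ τ, (rsG b m ω).Adj (.inr (t.2, τ)) (P t.1).1 ∧
            (rsG b m ω).Adj (.inr (t.2, τ)) (.inr ((P t.1).2.1, (P t.1).2.2))}ᶜ := by
        ext ω
        simp only [Ev, if_pos hc, Set.mem_compl_iff, Set.mem_ofPred_eq]
      rw [h5, pr_compl]
      linarith
    · have h4 := pr_minus (h := h) hp t.2 (P t.1).2.1 (P t.1).2.2 hlt
      have h5 : Ev (M := M) b m P θ t = {ω : Omr n h M |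
          ∀ τ, (rsG b m ω).Adj (.inr (t.2, τ)) (.inr ((P t.1).2.1, (P t.1).2.2))}ᶜ := by
        ext ω
        simp only [Ev, if_neg hc, Set.mem_compl_iff, Set.mem_ofPred_eq]
      rw [h5, pr_compl]
      linarith
  refine h3.trans ?_
  have h6 := Real.add_one_le_exp (-(lam / (((P t.1).2.1 : ℕ) + 1)))
  linarith

/-- the number of regular levels below `i` -/
theorem card_reg_lt (hb : 1 ≤ b) (B : Finset (Fin n)) (i : Fin n)
    (hi : 10 * B.card ≤ (i : ℕ)) :
    (i : ℕ) ≤ 2 * ((regL b B).filter fun c => c < i).card := by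
  classical
  have h1 := card_not_regL hb B
  have h2 : (Finset.univ.filter fun c : Fin n => c < i).card = (i : ℕ) := by
    have : (Finset.univ.filter fun c : Fin n => c < i) = Finset.Iio i := by
      ext c
      simp
    rw [this, Fin.card_Iio]
  have h3 : (Finset.univ.filter fun c : Fin n => c < i) ⊆
      ((regL b B).filter fun c => c < i) ∪ (Finset.univ.filter fun c : Fin n => c ∉ regL b B) := by
    intro c hc
    simp only [Finset.mem_filter, Finset.mem_univ, true_and, Finset.mem_union] at hc ⊢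
    by_cases hr : c ∈ regL b B
    · exact Or.inl ⟨hr, hc⟩
    · exact Or.inr hr
  have h4 := (Finset.card_le_card h3).trans (Finset.card_union_le _ _)
  rw [h2] at h4
  omega

end RSI1

open RSI1 in
/-- Job THR-21. -/
theorem pr_rich' (hp : ParOk n b h M m lam) {s : ℕ} {B : Finset (Fin n)}
    {P : Fin s → Wt n h × (Fin n × Bool)} (hP : ProperR B P) (θ : Fin s → Fin (n + 1))
    (J : Finset (Fin s)) (hJ : ∀ j ∈ J, 10 * B.card ≤ ((P j).2.1 : ℕ)) :
    pr {ω : Omr n h M | ∀ j ∈ J, ∀ c ∈ regL b B, c < (P j).2.1 →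
      if (c : ℕ) < (θ j : ℕ) then
        ¬ ∃ τ, (rsG b m ω).Adj (.inr (c, τ)) (P j).1 ∧
          (rsG b m ω).Adj (.inr (c, τ)) (.inr (P j).2)
      else ¬ ∀ τ, (rsG b m ω).Adj (.inr (c, τ)) (.inr (P j).2)} ≤
      Real.exp (-(lam * J.card / 4)) := by
  classical
  set T : Finset (Fin s × Fin n) := (J ×ˢ regL b B).filter fun t => t.2 < (P t.1).2.1 with hT
  have hset : {ω : Omr n h M | ∀ j ∈ J, ∀ c ∈ regL b B, c < (P j).2.1 →
      if (c : ℕ) < (θ j : ℕ) then
        ¬ ∃ τ, (rsG b m ω).Adj (.inr (c, τ)) (P j).1 ∧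
          (rsG b m ω).Adj (.inr (c, τ)) (.inr (P j).2)
      else ¬ ∀ τ, (rsG b m ω).Adj (.inr (c, τ)) (.inr (P j).2)} ⊆
      {ω : Omr n h M | ∀ t ∈ T, ω ∈ Ev b m P θ t} := by
    intro ω hω t ht
    rw [hT, Finset.mem_filter, Finset.mem_product] at ht
    exact hω t.1 ht.1.1 t.2 ht.1.2 ht.2
  have hreg : ∀ t ∈ T, t.2 ∉ B := by
    intro t ht
    rw [hT, Finset.mem_filter, Finset.mem_product, regL, Finset.mem_filter] at ht
    exact ht.1.2.2.1
  have h1 := pr_forall_le (A := Fin M) T (Dt P) (Ev b m P θ)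
    (fun t => Real.exp (-(lam / (((P t.1).2.1 : ℕ) + 1))))
    (fun t ht _ _ hne => disjoint_Dt hP (hreg t ht) hne)
    (fun t _ => depOn_Ev P θ t)
    (fun t ht => pr_Ev_le hp hP θ (hreg t ht) (by
      rw [hT, Finset.mem_filter] at ht
      exact ht.2))
  refine (pr_mono hset).trans (h1.trans ?_)
  rw [← Real.exp_sum, Real.exp_le_exp, Finset.sum_neg_distrib, neg_le_neg_iff]
  have h2 : ∑ t ∈ T, lam / (((P t.1).2.1 : ℕ) + 1 : ℝ) =
      ∑ j ∈ J, (((regL b B).filter fun c => c < (P j).2.1).card : ℝ) *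
        (lam / (((P j).2.1 : ℕ) + 1 : ℝ)) := by
    rw [hT, Finset.sum_filter, Finset.sum_product]
    refine Finset.sum_congr rfl fun j _ => ?_
    rw [← Finset.sum_filter]
    dsimp only
    rw [Finset.sum_const, nsmul_eq_mul]
  rw [h2]
  have h3 : ∀ j ∈ J, lam / 4 ≤ (((regL b B).filter fun c => c < (P j).2.1).card : ℝ) *
      (lam / (((P j).2.1 : ℕ) + 1 : ℝ)) := by
    intro j hj
    have h4 := card_reg_lt (le_trans (by norm_num) hp.hb) B (P j).2.1 (hJ j hj)
    have h5 : h ≤ ((P j).2.1 : ℕ) := (hP.1.1 j).1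
    have h6 := hp.hh
    have h7 : (((P j).2.1 : ℕ) : ℝ) ≤
        2 * (((regL b B).filter fun c => c < (P j).2.1).card : ℝ) := by exact_mod_cast h4
    have h8 : (1 : ℝ) ≤ (((P j).2.1 : ℕ) : ℝ) := by
      have : 1 ≤ ((P j).2.1 : ℕ) := by omega
      exact_mod_cast this
    have h9 := hp.lam0
    rw [← mul_div_assoc, le_div_iff₀ (by positivity)]
    nlinarith
  calc lam * J.card / 4 = ∑ _j ∈ J, lam / 4 := by
        rw [Finset.sum_const, nsmul_eq_mul]; ring
    _ ≤ _ := Finset.sum_le_sum h3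

end Pool.Agent.H79.Thr
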