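import Pool.Agent.H79.Thr.RSH
import Pool.Agent.H79.Thr.RSF

/-!
# The random gadget for rs colourings: the tests of the third kind
-/

namespace Pool.Agent.H79.Thr

variable {n h M : ℕ} {b : ℕ} {m : ℕ → ℕ} {lam : ℝ}

/-- The supports of the pattern. -/
private def thr22F {s : ℕ} (P : Fin s → Wt n h × (Fin n × Bool)) (x : Fin s × Bool) :
    Zt h ⊕ Fin n :=
  if x.2 then (Sum.inr (P x.1).2.1 : Zt h ⊕ Fin n) else sup (P x.1).1

/-- The blocks of a test of the third kind. -/
private def thr22D {s : ℕ} (P : Fin s → Wt n h × (Fin n × Bool)) (x : Fin s × Fin s) :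
    Finset (Wt n h × Fin n) :=
  blk2 (thr22F P (x.1, true)) (thr22F P (x.2, false)) ∪
    blk2 (thr22F P (x.1, true)) (thr22F P (x.2, true))

/-- Half of the ordered pairs of different indices are in the right order. -/
private theorem thr22_card {α : Type} [DecidableEq α] (J : Finset α) (r : α → α → Prop)
    [DecidableRel r] (h1 : ∀ i j, i ≠ j → (r i j ↔ ¬ r j i)) :
    2 * (J.offDiag.filter fun x => r x.1 x.2).card = J.card * J.card - J.card := by
  have h2 := Finset.card_filter_add_card_filter_not (s := J.offDiag) (fun x : α × α => r x.1 x.2)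
  have h3 : (J.offDiag.filter fun x => ¬ r x.1 x.2).card =
      (J.offDiag.filter fun x => r x.1 x.2).card := by
    refine Finset.card_nbij' Prod.swap Prod.swap ?_ ?_ ?_ ?_
    · intro x hx
      simp only [Finset.coe_filter, Set.mem_ofPred_eq, Finset.mem_offDiag, Prod.fst_swap,
        Prod.snd_swap] at hx ⊢
      exact ⟨⟨hx.1.2.1, hx.1.1, hx.1.2.2.symm⟩, (h1 _ _ hx.1.2.2.symm).2 hx.2⟩
    · intro x hx
      simp only [Finset.coe_filter, Set.mem_ofPred_eq, Finset.mem_offDiag, Prod.fst_swap,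
        Prod.snd_swap] at hx ⊢
      exact ⟨⟨hx.1.2.1, hx.1.1, hx.1.2.2.symm⟩, (h1 _ _ hx.1.2.2).1 hx.2⟩
    · intro x _
      exact Prod.swap_swap x
    · intro x _
      exact Prod.swap_swap x
  rw [Finset.offDiag_card] at h2
  omega

/-- The order of the indices. -/
private def thr22R {s : ℕ} (γ : Fin s → Fin (n + 1)) (i j : Fin s) : Prop :=
  γ j < γ i ∨ (γ j = γ i ∧ j < i)

private instance {s : ℕ} (γ : Fin s → Fin (n + 1)) : DecidableRel (thr22R γ) := by
  intro i j
  unfold thr22R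
  infer_instance

private theorem thr22_order {s : ℕ} (γ : Fin s → Fin (n + 1)) (i j : Fin s) (hij : i ≠ j) :
    thr22R γ i j ↔ ¬ thr22R γ j i := by
  unfold thr22R
  rcases lt_trichotomy (γ i) (γ j) with h1 | h1 | h1
  · simp only [h1, true_or, not_true_eq_false, iff_false, not_or, not_lt, not_and]
    exact ⟨h1.le, fun h2 => absurd h2 h1.ne'⟩
  · simp only [h1, lt_self_iff_false, true_and, false_or, not_lt]
    exact ⟨fun h2 => h2.le, fun h2 => lt_of_le_of_ne h2 hij.symm⟩
  · simp only [h1, true_or, true_iff, not_or, not_lt, not_and]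
    exact ⟨h1.le, fun h2 => absurd h2 h1.ne'⟩

private theorem thr22_disj {s : ℕ} {P : Fin s → Wt n h × (Fin n × Bool)} (hP : SpreadR P)
    (γ : Fin s → Fin (n + 1)) (x y : Fin s × Fin s) (hx1 : x.1 ≠ x.2)
    (hx : thr22R γ x.1 x.2) (hy : thr22R γ y.1 y.2) (hxy : x ≠ y) :
    Disjoint (thr22D P x) (thr22D P y) := by
  have hF : ∀ a c : Fin s × Bool, thr22F P a = thr22F P c → a = c := fun a c e => hP.2 e
  unfold thr22D
  rw [Finset.disjoint_union_left, Finset.disjoint_union_right, Finset.disjoint_union_right]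
  refine ⟨⟨?_, ?_⟩, ?_, ?_⟩
  · refine blk2_disjoint ?_ ?_
    · rintro ⟨e1, e2⟩
      have e1' := hF _ _ e1
      have e2' := hF _ _ e2
      simp only [Prod.mk.injEq, and_true] at e1' e2'
      exact hxy (Prod.ext e1' e2')
    · rintro ⟨e1, _⟩
      have e1' := hF _ _ e1
      simp at e1'
  · refine blk2_disjoint ?_ ?_
    · rintro ⟨_, e2⟩
      have e2' := hF _ _ e2
      simp at e2'
    · rintro ⟨_, e2⟩
      have e2' := hF _ _ e2
      simp at e2'
  · refine blk2_disjoint ?_ ?_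
    · rintro ⟨_, e2⟩
      have e2' := hF _ _ e2
      simp at e2'
    · rintro ⟨e1, _⟩
      have e1' := hF _ _ e1
      simp at e1'
  · refine blk2_disjoint ?_ ?_
    · rintro ⟨e1, e2⟩
      have e1' := hF _ _ e1
      have e2' := hF _ _ e2
      simp only [Prod.mk.injEq, and_true] at e1' e2'
      exact hxy (Prod.ext e1' e2')
    · rintro ⟨e1, e2⟩
      have e1' := hF _ _ e1
      have e2' := hF _ _ e2
      simp only [Prod.mk.injEq, and_true] at e1' e2'
      rw [← e1', ← e2'] at hy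
      exact (thr22_order γ _ _ hx1).1 hx hy

/-- Job THR-22. The tests of the third kind for a set `J` of indices with
`(level of P j) < 10 |B|`. -/
theorem pr_poorAll' (hp : ParOk n b h M m lam) {s : ℕ} {B : Finset (Fin n)}
    {P : Fin s → Wt n h × (Fin n × Bool)} (hP : ProperR B P) (γ : Fin s → Fin (n + 1))
    (J : Finset (Fin s)) (hJ : ∀ j ∈ J, ((P j).2.1 : ℕ) < 10 * B.card) (hB : 1 ≤ B.card) :
    pr {ω : Omr n h M | ∀ i ∈ J, ∀ j ∈ J, i ≠ j → γ j ≤ γ i →
      ¬ ((rsG b m ω).Adj (.inr (P i).2) (P j).1 ∧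
        (rsG b m ω).Adj (.inr (P i).2) (.inr (P j).2))} ≤
      Real.exp (-(lam * (J.card * ((J.card : ℝ) - 1) / 2) / (10 * B.card))) := by
  have hM2 := hp.hM
  have hM0 : (0 : ℝ) < M := by
    have : 0 < M := by omega
    exact_mod_cast this
  have : Nonempty (Fin M) := ⟨⟨0, by omega⟩⟩
  have hB0 : (0 : ℝ) < B.card := by exact_mod_cast hB
  obtain ⟨hS, _, _⟩ := hP
  set T : Finset (Fin s × Fin s) := J.offDiag.filter fun x => thr22R γ x.1 x.2 with hT
  set q : ℝ := lam / (10 * B.card) with hq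
  set E : Fin s × Fin s → Set (Omr n h M) := fun x =>
    {ω : Omr n h M | (rsG b m ω).Adj (.inr (P x.1).2) (P x.2).1 ∧
        (rsG b m ω).Adj (.inr (P x.1).2) (.inr (P x.2).2)} with hE
  have hF : ∀ a c : Fin s × Bool, thr22F P a = thr22F P c → a = c := fun a c e => hS.2 e
  have h1 : ({ω : Omr n h M | ∀ i ∈ J, ∀ j ∈ J, i ≠ j → γ j ≤ γ i →
      ¬ ((rsG b m ω).Adj (.inr (P i).2) (P j).1 ∧
        (rsG b m ω).Adj (.inr (P i).2) (.inr (P j).2))} : Set (Omr n h M)) ⊆
      {ω | ∀ x ∈ T, ω ∈ (E x)ᶜ} := by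
    intro ω hω x hx
    rw [hT, Finset.mem_filter, Finset.mem_offDiag] at hx
    have h2 : γ x.2 ≤ γ x.1 := by
      rcases hx.2 with h3 | h3
      · exact h3.le
      · exact h3.1.le
    exact hω x.1 hx.1.1 x.2 hx.1.2.1 hx.1.2.2 h2
  have h2 : pr ({ω | ∀ x ∈ T, ω ∈ (E x)ᶜ} : Set (Omr n h M)) ≤ ∏ _x ∈ T, (1 - q) := by
    refine pr_forall_le T (thr22D P) (fun x => (E x)ᶜ) (fun _ => 1 - q) ?_ ?_ ?_
    · intro x hx y hy hxy
      rw [hT, Finset.mem_filter, Finset.mem_offDiag] at hx hy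
      exact thr22_disj hS γ x y hx.1.2.2 hx.2 hy.2 hxy
    · intro x _
      refine DepOn.compl ?_
      exact DepOn.inter (dep_adj (.inr (P x.1).2) (P x.2).1)
        (dep_adj (.inr (P x.1).2) (.inr (P x.2).2))
    · intro x hx
      rw [hT, Finset.mem_filter, Finset.mem_offDiag] at hx
      rw [pr_compl]
      have h3 : ((m (max ((P x.1).2.1 : ℕ) ((P x.2).2.1 : ℕ)) : ℝ) / M) ^ 2 ≤ pr (E x) := by
        refine pr_poor hp (P x.2).1 (P x.1).2.1 (P x.2).2.1 (P x.1).2.2 (P x.2).2.2 _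
          (hS.1 x.1).1 (hS.1 x.2).1 (le_max_left _ _) (le_max_right _ _) ?_ (hS.1 x.2).2 ?_
        · intro e
          have e' := hF (x.1, true) (x.2, true) (by
            unfold thr22F
            simp [e])
          simp only [Prod.mk.injEq, and_true] at e'
          exact hx.1.2.2 e'
        · intro e
          have e' := hF (x.2, false) (x.1, true) (by
            unfold thr22F
            simp [e])
          simp at e'
      have hL1 : h ≤ max ((P x.1).2.1 : ℕ) ((P x.2).2.1 : ℕ) :=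
        (hS.1 x.1).1.trans (le_max_left _ _)
      have hL2 : max ((P x.1).2.1 : ℕ) ((P x.2).2.1 : ℕ) < n :=
        max_lt (P x.1).2.1.2 (P x.2).2.1.2
      have hL3 : max ((P x.1).2.1 : ℕ) ((P x.2).2.1 : ℕ) < 10 * B.card :=
        max_lt (hJ _ hx.1.1) (hJ _ hx.1.2.1)
      set L : ℕ := max ((P x.1).2.1 : ℕ) ((P x.2).2.1 : ℕ) with hL
      have h4 := hp.lam1 L hL1 hL2
      have h5 : ((L : ℝ) + 1) ≤ 10 * B.card := by exact_mod_cast hL3
      have h6 : lam * (M : ℝ) ^ 2 ≤ (10 * B.card) * (m L : ℝ) ^ 2 :=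
        h4.trans (mul_le_mul_of_nonneg_right h5 (by positivity))
      have h7 : q ≤ ((m L : ℝ) / M) ^ 2 := by
        rw [hq, div_pow, div_le_div_iff₀ (by positivity) (by positivity)]
        linarith
      linarith
  have hcard : (T.card : ℝ) = J.card * ((J.card : ℝ) - 1) / 2 := by
    have h3 := thr22_card J (thr22R γ) (fun i j hij => thr22_order γ i j hij)
    rw [← hT] at h3
    have h4 : J.card ≤ J.card * J.card := Nat.le_mul_self _
    have h5 : 2 * T.card + J.card = J.card * J.card := by omega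
    have h6 : (2 : ℝ) * T.card + J.card = J.card * J.card := by exact_mod_cast h5
    linarith
  refine (pr_mono h1).trans (h2.trans ?_)
  rw [Finset.prod_const]
  have h8 : (1 - q) ≤ Real.exp (-q) := by
    have := Real.add_one_le_exp (-q)
    linarith
  by_cases hT0 : T.card = 0
  · rw [hT0, pow_zero, ← hcard, hT0]
    simp
  · have h9 : 0 ≤ 1 - q := by
      obtain ⟨x, hx⟩ := Finset.card_pos.1 (Nat.pos_of_ne_zero hT0)
      -- the probability of a test is at most one
      rw [hT, Finset.mem_filter, Finset.mem_offDiag] at hx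
      have hL1 : h ≤ ((P x.1).2.1 : ℕ) := (hS.1 x.1).1
      have h4 := hp.lam1 ((P x.1).2.1 : ℕ) hL1 (P x.1).2.1.2
      have hL3 : ((P x.1).2.1 : ℕ) < 10 * B.card := hJ _ hx.1.1
      have h5 : ((((P x.1).2.1 : ℕ) : ℝ) + 1) ≤ 10 * B.card := by exact_mod_cast hL3
      have h6 : lam * (M : ℝ) ^ 2 ≤ (10 * B.card) * (m ((P x.1).2.1 : ℕ) : ℝ) ^ 2 :=
        h4.trans (mul_le_mul_of_nonneg_right h5 (by positivity))
      have h10 : (m ((P x.1).2.1 : ℕ) : ℝ) ≤ M := by
        have := hp.m4 ((P x.1).2.1 : ℕ)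
        have h11 : m ((P x.1).2.1 : ℕ) ≤ M := by omega
        exact_mod_cast h11
      have h12 : (m ((P x.1).2.1 : ℕ) : ℝ) ^ 2 ≤ (M : ℝ) ^ 2 := by
        gcongr
      have h13 : lam * (M : ℝ) ^ 2 ≤ (10 * B.card) * (M : ℝ) ^ 2 :=
        h6.trans (mul_le_mul_of_nonneg_left h12 (by positivity))
      have h14 : lam ≤ 10 * B.card := le_of_mul_le_mul_right h13 (by positivity)
      have h15 : q ≤ 1 := by
        rw [hq]
        exact div_le_one_of_le₀ h14 (by positivity)
      linarith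
    calc (1 - q) ^ T.card ≤ (Real.exp (-q)) ^ T.card := pow_le_pow_left₀ h9 h8 _
      _ = Real.exp (-(lam * (J.card * ((J.card : ℝ) - 1) / 2) / (10 * B.card))) := by
        rw [← Real.exp_nat_mul]
        congr 1
        rw [hcard, hq]
        ring

end Pool.Agent.H79.Thr
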