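import Pool.Agent.H79.Thr.RSH
import Pool.Agent.H79.Thr.RSF
import Pool.Agent.H79.Thr.RSI1
import Pool.Agent.H79.Thr.RSI2

/-!
# The random gadget for rs colourings: the probability of a pattern
-/

namespace Pool.Agent.H79.Thr

variable {n h M : ℕ} {b : ℕ} {m : ℕ → ℕ} {lam : ℝ}

/-- Job THR-21. The tests of the first two kinds for a set `J` of indices with
`10 |B| ≤ (level of P j)`: for every `j ∈ J` with `i' := (P j).2.1` there are at least
`i' - 5 |B| ≥ i' / 2` regular levels `c < i'` (`card_not_regL`), each test succeeds with probability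
at least `(m i' / M) ^ 2 ≥ lam / (i' + 1)` (`pr_plus`, `pr_minus`; the levels of the pairs are in
`B`, hence not regular), and the tests for different `(j, c)` depend on disjoint sets
`blk2 (.inr c) (.inr i') ∪ blk2 (.inr c) (sup (P j).1)`. So all of them fail with probability at
most `∏ (1 - lam / (i' + 1)) ^ (i' / 2) ≤ exp (- lam |J| / 4)`. -/
theorem pr_rich (hp : ParOk n b h M m lam) {s : ℕ} {B : Finset (Fin n)}
    {P : Fin s → Wt n h × (Fin n × Bool)} (hP : ProperR B P) (θ : Fin s → Fin (n + 1))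
    (J : Finset (Fin s)) (hJ : ∀ j ∈ J, 10 * B.card ≤ ((P j).2.1 : ℕ)) :
    pr {ω : Omr n h M | ∀ j ∈ J, ∀ c ∈ regL b B, c < (P j).2.1 →
      if (c : ℕ) < (θ j : ℕ) then
        ¬ ∃ τ, (rsG b m ω).Adj (.inr (c, τ)) (P j).1 ∧
          (rsG b m ω).Adj (.inr (c, τ)) (.inr (P j).2)
      else ¬ ∀ τ, (rsG b m ω).Adj (.inr (c, τ)) (.inr (P j).2)} ≤
      Real.exp (-(lam * J.card / 4)) := by
  exact pr_rich' hp hP θ J hJ

/-- Job THR-22. The tests of the third kind for a set `J` of indices with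
`(level of P j) < 10 |B|`: for every pair `{i, j}` of different indices in `J` choose the order
with `γ j < γ i`, or `γ j = γ i` and `j < i`; the test succeeds with probability at least
`(m L / M) ^ 2 ≥ lam / (10 |B|)` where `L` is the larger one of the two levels (`pr_poor`), and the
tests of different pairs depend on the disjoint sets
`blk2 (.inr i') (sup (P j).1) ∪ blk2 (.inr i') (.inr (P j).2.1)`, `i' = (P i).2.1`. -/
theorem pr_poorAll (hp : ParOk n b h M m lam) {s : ℕ} {B : Finset (Fin n)}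
    {P : Fin s → Wt n h × (Fin n × Bool)} (hP : ProperR B P) (γ : Fin s → Fin (n + 1))
    (J : Finset (Fin s)) (hJ : ∀ j ∈ J, ((P j).2.1 : ℕ) < 10 * B.card) (hB : 1 ≤ B.card) :
    pr {ω : Omr n h M | ∀ i ∈ J, ∀ j ∈ J, i ≠ j → γ j ≤ γ i →
      ¬ ((rsG b m ω).Adj (.inr (P i).2) (P j).1 ∧
        (rsG b m ω).Adj (.inr (P i).2) (.inr (P j).2))} ≤
      Real.exp (-(lam * (J.card * ((J.card : ℝ) - 1) / 2) / (10 * B.card))) :=
  pr_poorAll' hp hP γ J hJ hB

/-- Job THR-23. The probability that all tests of a proper pattern fail: let `J` be the set of the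
`j` with `10 |B| ≤ (level of P j)`. If `|J| ≥ s / 2` use `pr_rich`. Otherwise the complement `J'` of
`J` has `s₂ ≥ s / 2` elements; for `j ∈ J'`: `600 ≤ h ≤ (level of P j) < 10 |B| ≤ 200 s`, so `s > 3`,
`s₂ ≥ 2`, `s₂ - 1 ≥ s₂ / 2`, and `pr_poorAll` gives the exponent
`lam * s₂ * (s₂ - 1) / (20 |B|) ≥ lam * (s / 2) * (s / 4) / (400 s) = lam * s / 3200`. -/
theorem pr_allFailR (hp : ParOk n b h M m lam) {s : ℕ} (hs : 1 ≤ s) {B : Finset (Fin n)}
    {P : Fin s → Wt n h × (Fin n × Bool)} (hP : ProperR B P) (θ γ : Fin s → Fin (n + 1)) :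
    pr {ω : Omr n h M | AllFailR b m ω B P θ γ} ≤ Real.exp (-(lam * s / 3200)) := by
  classical
  have hlam := hp.lam0
  have hB1 : 1 ≤ B.card := Finset.card_pos.2 ⟨_, (hP.2.2 ⟨0, hs⟩).1⟩
  have hB2 := hP.2.1
  let J : Finset (Fin s) := Finset.univ.filter fun j => 10 * B.card ≤ ((P j).2.1 : ℕ)
  let J' : Finset (Fin s) := Finset.univ.filter fun j => ¬ 10 * B.card ≤ ((P j).2.1 : ℕ)
  have hJJ : J.card + J'.card = s := by
    have := Finset.card_filter_add_card_filter_not (s := (Finset.univ : Finset (Fin s)))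
      (fun j => 10 * B.card ≤ ((P j).2.1 : ℕ))
    rw [Finset.card_univ, Fintype.card_fin] at this
    exact this
  have hsR : (1 : ℝ) ≤ s := by exact_mod_cast hs
  by_cases hJ : s ≤ 2 * J.card
  · have h1 := pr_rich hp hP θ J (by intro j hj; simpa [J] using hj)
    refine (pr_mono ?_).trans (h1.trans ?_)
    · intro ω hω j _
      exact hω.1 j
    · rw [Real.exp_le_exp]
      have h2 : (s : ℝ) ≤ 2 * J.card := by exact_mod_cast hJ
      nlinarith
  · have h1 := pr_poorAll hp hP γ J' (by intro j hj; simpa [J'] using hj) hB1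
    refine (pr_mono ?_).trans (h1.trans ?_)
    · intro ω hω i _ j _
      exact hω.2 i j
    · rw [Real.exp_le_exp]
      have h3 : J'.Nonempty := by
        rw [← Finset.card_pos]
        omega
      obtain ⟨j, hj⟩ := h3
      have h4 : ((P j).2.1 : ℕ) < 10 * B.card := by simpa [J'] using hj
      have h5 := (hP.1.1 j).1
      have h6 := hp.hh
      have h7 : 4 ≤ s := by omega
      have h8 : s ≤ 2 * J'.card := by omega
      have h9 : 2 ≤ J'.card := by omega
      have a1 : (s : ℝ) ≤ 2 * J'.card := by exact_mod_cast h8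
      have a2 : (2 : ℝ) ≤ J'.card := by exact_mod_cast h9
      have a3 : (B.card : ℝ) ≤ 20 * s := by exact_mod_cast hB2
      have a4 : (1 : ℝ) ≤ B.card := by exact_mod_cast hB1
      have a5 : (s : ℝ) * s ≤ 16 * ((J'.card : ℝ) * ((J'.card : ℝ) - 1) / 2) := by nlinarith
      rw [neg_le_neg_iff, div_le_div_iff₀ (by norm_num) (by positivity)]
      have a6 : lam * s * (10 * B.card) ≤ lam * s * (10 * (20 * s)) := by
        apply mul_le_mul_of_nonneg_left _ (by positivity)
        linarith
      refine a6.trans ?_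
      have a7 : lam * s * (10 * (20 * s)) = lam * (s * s) * 200 := by ring
      rw [a7]
      have a8 : lam * (s * s) ≤ lam * (16 * ((J'.card : ℝ) * ((J'.card : ℝ) - 1) / 2)) :=
        mul_le_mul_of_nonneg_left a5 hlam
      nlinarith

end Pool.Agent.H79.Thr
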