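import Pool.Agent.H79.Thr.RSG
import Pool.Agent.H79.Thr.RSI

/-!
# The random gadget for rs colourings: the union bound
-/

namespace Pool.Agent.H79.Thr

variable {n h M : ℕ} {b : ℕ} {m : ℕ → ℕ} {lam : ℝ}

namespace RSJ1

/-- The patterns of size `s`. -/
abbrev QT (n h s : ℕ) := (Fin (20 * s) → Fin n) ×
  (Fin s → (Wt n h × (Fin n × Bool)) × (Fin (n + 1) × Fin (n + 1)))

open Classical in
/-- The event of a pattern. -/
def FT (M b : ℕ) (m : ℕ → ℕ) (s : ℕ) (q : QT n h s) : Set (Omr n h M) :=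
  {ω | ProperR (Finset.univ.image q.1) (fun j => (q.2 j).1) ∧
    AllFailR b m ω (Finset.univ.image q.1) (fun j => (q.2 j).1) (fun j => (q.2 j).2.1)
      (fun j => (q.2 j).2.2)}

theorem exists_cov {N : ℕ} {B : Finset (Fin n)} (hB : B.Nonempty) (hN : B.card ≤ N) :
    ∃ c : Fin N → Fin n, Finset.univ.image c = B := by
  classical
  obtain ⟨b0, hb0⟩ := hB
  let e := B.equivFin.symm
  refine ⟨fun i => if hi : (i : ℕ) < B.card then (e ⟨i, hi⟩ : Fin n) else b0, ?_⟩
  ext x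
  simp only [Finset.mem_image, Finset.mem_univ, true_and]
  constructor
  · rintro ⟨i, rfl⟩
    split_ifs with hi
    · exact (e ⟨i, hi⟩).2
    · exact hb0
  · intro hx
    refine ⟨⟨B.equivFin ⟨x, hx⟩, lt_of_lt_of_le (B.equivFin ⟨x, hx⟩).2 hN⟩, ?_⟩
    simp [e]

theorem card_QT (n h s : ℕ) : (Fintype.card (QT n h s) : ℝ) =
    ((n : ℝ) ^ 20 * ((4 * (h : ℝ) ^ 2 * (2 * h + 1) + 2 * n) * (2 * n)) * ((n : ℝ) + 1) ^ 2) ^ s := by
  have h1 : Fintype.card (Wt n h) = 4 * h ^ 2 * (2 * h + 1) + 2 * n := by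
    rw [Fintype.card_sum, card_Zt, Fintype.card_prod, Fintype.card_fin, Fintype.card_bool]
    ring
  rw [Fintype.card_prod, Fintype.card_fun, Fintype.card_fun, Fintype.card_prod, Fintype.card_prod,
    Fintype.card_prod, h1]
  simp only [Fintype.card_prod, Fintype.card_fin, Fintype.card_bool]
  push_cast
  rw [pow_mul, ← mul_pow]
  congr 1
  ring

end RSJ1

open RSJ1

/-- Job THR-24. Union bound over all patterns: the probability that some rs colouring differs from
`colF` is at most `1 / 3`. By `exists_patternR` such an `ω` satisfies `AllFailR b m ω B P θ γ` for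
some `1 ≤ s ≤ n` and a proper pattern; as `B` is not empty and `|B| ≤ 20 s`, `B` is the image of
some `cov : Fin (20 * s) → Fin n`. So there are at most
`(n ^ 20 * ((4 h² (2 h + 1) + 2 n) * (2 n)) * (n + 1) ^ 2) ^ s` patterns for every `s`
(`card_Zt`), each of probability at most `exp (- lam s / 3200)` (`pr_allFailR`), and
`∑ (1 / 4) ^ s ≤ 1 / 3`. -/
theorem pr_notUnique (hp : ParOk n b h M m lam)
    (hu : (n : ℝ) ^ 20 * ((4 * (h : ℝ) ^ 2 * (2 * h + 1) + 2 * n) * (2 * n)) * ((n : ℝ) + 1) ^ 2 *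
      Real.exp (-(lam / 3200)) ≤ 1 / 4) :
    pr {ω : Omr n h M | ∃ g : Wt n h → Fin (n + 1), IsRS (rsG b m ω) g ∧ g ≠ colF} ≤ 1 / 3 := by
  classical
  have hcov : {ω : Omr n h M | ∃ g : Wt n h → Fin (n + 1), IsRS (rsG b m ω) g ∧ g ≠ colF} ⊆
      {ω | ∃ i : Fin n, ω ∈ {ω : Omr n h M | ∃ q : QT n h ((i : ℕ) + 1),
        ω ∈ FT M b m ((i : ℕ) + 1) q}} := by
    rintro ω ⟨g, hg, hne⟩
    obtain ⟨s, B, P, θ, γ, hs1, hsn, hP, hA⟩ := exists_patternR hp hg hne
    obtain ⟨s, rfl⟩ : ∃ s', s = s' + 1 := ⟨s - 1, by omega⟩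
    have hB : B.Nonempty := ⟨_, (hP.2.2 ⟨0, by omega⟩).1⟩
    obtain ⟨c, hc⟩ := exists_cov hB hP.2.1
    refine ⟨⟨s, by omega⟩, ⟨c, fun j => (P j, (θ j, γ j))⟩, ?_⟩
    have e : (Finset.univ.image c : Finset (Fin n)) = B := hc
    unfold FT
    simp only [Set.mem_ofPred_eq]
    rw [e]
    exact ⟨hP, hA⟩
  have hF : ∀ (s : ℕ) (q : QT n h (s + 1)), pr (FT M b m (s + 1) q) ≤
      Real.exp (-(lam / 3200)) ^ (s + 1) := by
    intro s q
    by_cases hq : ProperR (Finset.univ.image q.1) (fun j => (q.2 j).1)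
    · refine (pr_mono ?_).trans ((pr_allFailR hp (Nat.succ_le_succ (Nat.zero_le _)) hq
        (fun j => (q.2 j).2.1) (fun j => (q.2 j).2.2)).trans ?_)
      · intro ω hω
        exact hω.2
      · rw [← Real.exp_nat_mul]
        refine le_of_eq ?_
        congr 1
        push_cast
        ring
    · have : FT M b m (s + 1) q = ∅ := by
        ext ω
        simp only [FT, Set.mem_ofPred_eq, Set.mem_empty_iff_false, iff_false, not_and]
        intro h1
        exact absurd h1 hq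
      rw [this]
      have h0 : pr (∅ : Set (Omr n h M)) = 0 := by simp [pr]
      rw [h0]
      positivity
  have hsum : ∀ s : ℕ, pr {ω : Omr n h M | ∃ q : QT n h (s + 1), ω ∈ FT M b m (s + 1) q} ≤
      (1 / 4) ^ (s + 1) := by
    intro s
    refine (pr_iUnion_le _).trans ?_
    refine (Finset.sum_le_sum fun q _ => hF s q).trans ?_
    rw [Finset.sum_const, Finset.card_univ, nsmul_eq_mul, card_QT, ← mul_pow]
    exact pow_le_pow_left₀ (by positivity) hu _
  refine (pr_mono hcov).trans ((pr_iUnion_le _).trans ?_)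
  refine (Finset.sum_le_sum fun (i : Fin n) _ => hsum i).trans ?_
  rw [Fin.sum_univ_eq_sum_range (fun i : ℕ => (1 / 4 : ℝ) ^ (i + 1)) n]
  have hg : ∀ k : ℕ, ∑ i ∈ Finset.range k, (1 / 4 : ℝ) ^ (i + 1) = 1 / 3 - 1 / 3 * (1 / 4) ^ k := by
    intro k
    induction k with
    | zero => simp
    | succ k ih => rw [Finset.sum_range_succ, ih]; ring
  rw [hg]
  have : (0 : ℝ) ≤ 1 / 3 * (1 / 4) ^ n := by positivity
  linarith

end Pool.Agent.H79.Thr
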