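import Pool.Agent.H79.Thr.RSB
import Pool.Agent.H79.Thr.Blocks2

/-!
# The random gadget for rs colourings: degrees, the lowest levels
-/

namespace Pool.Agent.H79.Thr

variable {n h M : ℕ} {b : ℕ} {m : ℕ → ℕ} {lam : ℝ}

/-- The numbers below `k`. -/
private def below (M k : ℕ) : Finset (Fin M) := Finset.univ.filter fun v : Fin M => (v : ℕ) < k

private theorem mem_below {k : ℕ} {v : Fin M} : v ∈ below M k ↔ (v : ℕ) < k := by
  simp [below]

private theorem card_below_le (M k : ℕ) : (below M k).card ≤ k := by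
  have h1 : (below M k).card ≤ (Finset.range k).card := by
    refine Finset.card_le_card_of_injOn (fun v : Fin M => (v : ℕ)) ?_ ?_
    · intro v hv
      have h2 := mem_below.1 (Finset.mem_coe.1 hv)
      simpa using h2
    · intro v _ v' _ hvv
      exact Fin.ext hvv
  simpa using h1

private theorem pr_dnN (hM : 2 ≤ M) {μ : ℝ} (t : ℕ)
    (h1 : ∑ l ∈ Finset.range n, 2 * (m l : ℝ) / M ≤ μ) (w : Wt n h) :
    pr {ω : Omr n h M | t ≤ dnN m ω w} ≤ Real.exp μ / 2 ^ t := by
  classical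
  have : Nonempty (Fin M) := ⟨⟨0, by omega⟩⟩
  set S : Finset (Wt n h × Fin n) :=
    (Finset.univ : Finset (Fin n)).map ⟨fun l => (w, l), fun a b hab => (Prod.mk.inj hab).2⟩ with hS
  set Z : Wt n h × Fin n → Finset (Fin M) := fun x => below M (2 * m x.2) with hZ
  have h2 := pr_many_le S Z t
  have h3 : ∀ ω : Omr n h M, dnN m ω w = (S.filter fun i => ω i ∈ Z i).card := by
    intro ω
    rw [hS, Finset.filter_map, Finset.card_map]
    unfold dnN
    congr 1
    ext l
    simp [hZ, mem_below]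
  have h4 : {ω : Omr n h M | t ≤ dnN m ω w} =
      {ω : Omr n h M | t ≤ (S.filter fun i => ω i ∈ Z i).card} := by
    ext ω
    simp only [Set.mem_ofPred_eq, h3 ω]
  have h5 : ∑ i ∈ S, ((Z i).card : ℝ) / (Fintype.card (Fin M) : ℝ) ≤ μ := by
    refine le_trans ?_ h1
    rw [hS, Finset.sum_map, ← Fin.sum_univ_eq_sum_range (fun l => 2 * (m l : ℝ) / M) n]
    refine Finset.sum_le_sum fun l _ => ?_
    rw [Fintype.card_fin]
    refine div_le_div_of_nonneg_right ?_ (by positivity)
    have := card_below_le M (2 * m l)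
    exact_mod_cast this
  have h6 := h2.trans (Real.exp_le_exp.2 h5)
  rw [h4, le_div_iff₀ (by positivity), mul_comm]
  convert h6

private theorem pr_upN (hp : ParOk n b h M m lam) {μ : ℝ} {t : ℕ} (ht : 1 ≤ t)
    (h2 : ∀ j : ℕ, h ≤ j → j < n → 2 * (j : ℝ) * (2 * (m j : ℝ)) / M ≤ μ) (j : Fin n) :
    pr {ω : Omr n h M | t ≤ upN b m ω j} ≤ Real.exp μ / 2 ^ t := by
  classical
  have : Nonempty (Fin M) := ⟨⟨0, by have := hp.hM; omega⟩⟩
  by_cases hj : h ≤ (j : ℕ)
  · set S0 : Finset (Fin n × Bool) :=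
      Finset.univ.filter fun x : Fin n × Bool => x.1 < j ∧ ¬ Dp b x.1 j with hS0
    set S : Finset (Wt n h × Fin n) :=
      S0.map ⟨fun x => (Sum.inr x, j), fun a b hab => Sum.inr.inj (Prod.mk.inj hab).1⟩ with hS
    set Z : Wt n h × Fin n → Finset (Fin M) := fun x => below M (2 * m x.2) with hZ
    have h3 := pr_many_le S Z t
    have h4 : ∀ ω : Omr n h M, upN b m ω j = (S.filter fun i => ω i ∈ Z i).card := by
      intro ω
      rw [hS, Finset.filter_map, Finset.card_map]
      unfold upN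
      congr 1
      ext x
      simp [hZ, hS0, mem_below]
    have h5 : {ω : Omr n h M | t ≤ upN b m ω j} =
        {ω : Omr n h M | t ≤ (S.filter fun i => ω i ∈ Z i).card} := by
      ext ω
      simp only [Set.mem_ofPred_eq, h4 ω]
    have hcard : S0.card ≤ 2 * (j : ℕ) := by
      have h6 : S0 ⊆ (Finset.univ.filter fun l : Fin n => l < j) ×ˢ (Finset.univ : Finset Bool) := by
        intro x hx
        rw [hS0, Finset.mem_filter] at hx
        exact Finset.mem_product.2 ⟨Finset.mem_filter.2 ⟨Finset.mem_univ _, hx.2.1⟩,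
          Finset.mem_univ _⟩
      have h7 := Finset.card_le_card h6
      rw [Finset.card_product, Finset.card_univ, Fintype.card_bool] at h7
      have h8 : (Finset.univ.filter fun l : Fin n => l < j).card ≤ (Finset.range (j : ℕ)).card := by
        refine Finset.card_le_card_of_injOn (fun l : Fin n => (l : ℕ)) ?_ ?_
        · intro l hl
          have h9 := (Finset.mem_filter.1 (Finset.mem_coe.1 hl)).2
          simpa using h9
        · intro v _ v' _ hvv
          exact Fin.ext hvv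
      rw [Finset.card_range] at h8
      omega
    have h6 : ∑ i ∈ S, ((Z i).card : ℝ) / (Fintype.card (Fin M) : ℝ) ≤ μ := by
      refine le_trans ?_ (h2 j hj j.isLt)
      rw [hS, Finset.sum_map]
      have h7 : ∀ x ∈ S0, ((Z ((⟨fun x => ((Sum.inr x : Wt n h), j), fun a b hab =>
          Sum.inr.inj (Prod.mk.inj hab).1⟩ : Fin n × Bool ↪ Wt n h × Fin n) x)).card : ℝ) /
          (Fintype.card (Fin M) : ℝ) ≤ 2 * (m j : ℝ) / M := by
        intro x _
        rw [Fintype.card_fin]
        refine div_le_div_of_nonneg_right ?_ (by positivity)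
        have := card_below_le M (2 * m j)
        exact_mod_cast this
      refine (Finset.sum_le_sum h7).trans ?_
      rw [Finset.sum_const, nsmul_eq_mul]
      have h8 : 2 * (j : ℝ) * (2 * (m j : ℝ)) / M = (2 * (j : ℝ)) * (2 * (m j : ℝ) / M) := by ring
      rw [h8]
      have h9 : (S0.card : ℝ) ≤ 2 * (j : ℝ) := by exact_mod_cast hcard
      have h10 : (0 : ℝ) ≤ 2 * (m j : ℝ) / M := by positivity
      exact mul_le_mul_of_nonneg_right h9 h10
    have h7 := h3.trans (Real.exp_le_exp.2 h6)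
    rw [h5, le_div_iff₀ (by positivity), mul_comm]
    convert h7
  · have h3 : {ω : Omr n h M | t ≤ upN b m ω j} = ∅ := by
      ext ω
      simp only [Set.mem_ofPred_eq, Set.mem_empty_iff_false, iff_false, not_le]
      have h4 : upN b m ω j = 0 := by
        unfold upN
        rw [Finset.card_eq_zero, Finset.filter_eq_empty_iff]
        rintro x _ ⟨⟨_, hD⟩, _⟩
        apply hD
        left
        have := hp.hhb
        omega
      omega
    rw [h3]
    have h4 : pr (∅ : Set (Wt n h × Fin n → Fin M)) = 0 := by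
      unfold pr
      simp
    rw [h4]
    positivity

/-- Job THR-27. Degrees: the probability that some vertex has large degree. For every `w`:
`2 ^ t * pr {t ≤ dnN m ω w} ≤ exp (∑_l 2 m l / M) ≤ exp μ` and for every level `j ≥ h`:
`2 ^ t * pr {t ≤ upN b m ω j} ≤ exp (2 j * 2 m j / M) ≤ exp μ` (`pr_many_le`), and `upN b m ω j = 0`
for `j < h ≤ 4 b` (all higher levels are in the relation `Dp` to `j`). There are
`4 h² (2 h + 1) + 2 n` vertices and at most `n` levels. -/
theorem pr_deg (hp : ParOk n b h M m lam) {μ : ℝ} {t : ℕ} (ht : 1 ≤ t)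
    (h1 : ∑ l ∈ Finset.range n, 2 * (m l : ℝ) / M ≤ μ)
    (h2 : ∀ j : ℕ, h ≤ j → j < n → 2 * (j : ℝ) * (2 * (m j : ℝ)) / M ≤ μ)
    (h3 : (4 * (h : ℝ) ^ 2 * (2 * h + 1) + 3 * n) * Real.exp μ ≤ 2 ^ t / 4) :
    pr {ω : Omr n h M | ∃ w, 4 * h ^ 2 * (2 * h + 1) + h + 3 * (4 * b + n / b) + 2 * t <
      ((rsG b m ω).neighborSet w).ncard} ≤ 1 / 4 := by
  classical
  have hsub : {ω : Omr n h M | ∃ w, 4 * h ^ 2 * (2 * h + 1) + h + 3 * (4 * b + n / b) + 2 * t <
      ((rsG b m ω).neighborSet w).ncard} ⊆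
      {ω | ∃ w, ω ∈ {ω : Omr n h M | t ≤ dnN m ω w}} ∪
        {ω | ∃ j, ω ∈ {ω : Omr n h M | t ≤ upN b m ω j}} := by
    rintro ω ⟨w, hw⟩
    rcases w with z | x
    · left
      refine ⟨.inl z, ?_⟩
      have h4 := rsG_deg_inl (b := b) (m := m) ω z
      simp only [Set.mem_ofPred_eq]
      generalize n / b = q at hw
      omega
    · have h4 := rsG_deg_inr (m := m) (by have := hp.hb; omega : 1 ≤ b) ω x
      by_cases h5 : t ≤ dnN m ω (.inr x)
      · exact Or.inl ⟨.inr x, h5⟩
      · refine Or.inr ⟨x.1, ?_⟩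
        simp only [Set.mem_ofPred_eq]
        generalize n / b = q at hw h4
        omega
  refine (pr_mono hsub).trans ((pr_union_le _ _).trans ?_)
  have h4 := pr_iUnion_le (fun w : Wt n h => {ω : Omr n h M | t ≤ dnN m ω w})
  have h5 := pr_iUnion_le (fun j : Fin n => {ω : Omr n h M | t ≤ upN b m ω j})
  have h6 : ∑ w : Wt n h, pr {ω : Omr n h M | t ≤ dnN m ω w} ≤
      ∑ _w : Wt n h, Real.exp μ / 2 ^ t :=
    Finset.sum_le_sum fun w _ => pr_dnN hp.hM t h1 w
  have h7 : ∑ j : Fin n, pr {ω : Omr n h M | t ≤ upN b m ω j} ≤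
      ∑ _j : Fin n, Real.exp μ / 2 ^ t :=
    Finset.sum_le_sum fun j _ => pr_upN hp ht h2 j
  rw [Finset.sum_const, Finset.card_univ, nsmul_eq_mul] at h6 h7
  have hc : Fintype.card (Wt n h) = 4 * h ^ 2 * (2 * h + 1) + 2 * n := by
    rw [Fintype.card_sum, card_Zt, Fintype.card_prod, Fintype.card_fin, Fintype.card_bool]
    ring
  rw [hc] at h6
  rw [Fintype.card_fin] at h7
  have h8 : ((4 * h ^ 2 * (2 * h + 1) + 2 * n : ℕ) : ℝ) * (Real.exp μ / 2 ^ t) +
      (n : ℝ) * (Real.exp μ / 2 ^ t) ≤ 1 / 4 := by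
    have h9 : ((4 * h ^ 2 * (2 * h + 1) + 2 * n : ℕ) : ℝ) * (Real.exp μ / 2 ^ t) +
      (n : ℝ) * (Real.exp μ / 2 ^ t) =
        (4 * (h : ℝ) ^ 2 * (2 * h + 1) + 3 * n) * Real.exp μ / 2 ^ t := by
      push_cast
      ring
    rw [h9, div_le_iff₀ (by positivity)]
    linarith
  linarith

/-- Job THR-27. The vertex `(n - 4 - 4 b, false)` has no neighbours in the three lowest levels with
probability at least `7 / 8`: these levels are not in the relation `Dp` to it, since `b ≥ 4`. -/
theorem pr_low (hp : ParOk n b h M m lam) (h4 : 48 * m (n - 3) ≤ M) (y : Fin n)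
    (hy : (y : ℕ) + 4 + 4 * b = n) :
    pr {ω : Omr n h M | ∃ (l : Fin n) (σ : Bool), n ≤ (l : ℕ) + 3 ∧
      (rsG b m ω).Adj (.inr (y, false)) (.inr (l, σ))} ≤ 1 / 8 := by
  classical
  have hM := hp.hM
  have hb := hp.hb
  have hn := hp.hn
  have : Nonempty (Fin M) := ⟨⟨0, by omega⟩⟩
  let lv : Fin 3 → Fin n := fun k => ⟨n - 3 + k, by have := k.isLt; omega⟩
  have hsub : {ω : Omr n h M | ∃ (l : Fin n) (σ : Bool), n ≤ (l : ℕ) + 3 ∧
      (rsG b m ω).Adj (.inr (y, false)) (.inr (l, σ))} ⊆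
      {ω | ∃ k : Fin 3, ω ∈ {ω : Omr n h M | ω (.inr (y, false), lv k) ∈ below M (2 * m (n - 3))}} := by
    rintro ω ⟨l, σ, hl, hadj⟩
    have hln := l.isLt
    refine ⟨⟨(l : ℕ) + 3 - n, by omega⟩, ?_⟩
    have hlv : lv ⟨(l : ℕ) + 3 - n, by omega⟩ = l := by
      apply Fin.ext
      change n - 3 + ((l : ℕ) + 3 - n) = l
      omega
    simp only [Set.mem_ofPred_eq]
    rw [hlv, mem_below]
    rcases hadj with hadj | hadj
    · obtain ⟨_, hadj⟩ := hadj
      have hD : ¬ Dp b y l := by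
        rintro (hD | hD)
        · omega
        · have h5 : (l : ℕ) - y = ((l : ℕ) + 4 - n) + 4 * b := by omega
          rw [h5, Nat.add_mul_mod_self_right, Nat.mod_eq_of_lt (by omega)] at hD
          omega
      rw [if_neg hD] at hadj
      have hm : m l ≤ m (n - 3) := hp.anti (by omega)
      unfold pick at hadj
      split_ifs at hadj <;> omega
    · have h5 : (l : ℕ) < y := hadj.1
      omega
  refine (pr_mono hsub).trans ((pr_iUnion_le _).trans ?_)
  have h5 : ∀ k : Fin 3, pr {ω : Omr n h M | ω (.inr (y, false), lv k) ∈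
      below M (2 * m (n - 3))} ≤ 1 / 24 := by
    intro k
    rw [pr_coord, Fintype.card_fin]
    have h6 := card_below_le M (2 * m (n - 3))
    rw [div_le_iff₀ (by positivity)]
    have h7 : ((below M (2 * m (n - 3))).card : ℝ) ≤ ((2 * m (n - 3) : ℕ) : ℝ) := by
      exact_mod_cast h6
    have h8 : ((48 * m (n - 3) : ℕ) : ℝ) ≤ (M : ℝ) := by exact_mod_cast h4
    push_cast at h7 h8
    linarith
  refine (Finset.sum_le_sum fun k _ => h5 k).trans ?_
  rw [Finset.sum_const, Finset.card_univ, Fintype.card_fin, nsmul_eq_mul]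
  norm_num

end Pool.Agent.H79.Thr
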