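import Pool.Agent.H79.Thr.RSB
import Pool.Agent.H79.Thr.RSG
import Pool.Agent.H79.Thr.RSI
import Pool.Agent.H79.Thr.RSRed
import Pool.Agent.H79.Thr.RSJ1
import Pool.Agent.H79.Thr.RSJ2

/-!
# The random gadget for rs colourings: existence
-/

namespace Pool.Agent.H79.Thr

variable {n h M : ℕ} {b : ℕ} {m : ℕ → ℕ} {lam : ℝ}

/-- An event of proportion less than one misses some function. -/
private theorem thr28_exists_not_mem {I A : Type} [Fintype I] [DecidableEq I] [Fintype A]
    [Nonempty A] (E : Set (I → A)) (h : pr E < 1) : ∃ ω, ω ∉ E := by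
  by_contra hcon
  have hall : ∀ ω, ω ∈ E := by
    intro ω
    by_contra hω
    exact hcon ⟨ω, hω⟩
  have hE : Eᶜ = (∅ : Set (I → A)) := by
    ext ω
    simp [hall ω]
  have h1 := pr_compl E
  rw [hE] at h1
  have h2 : pr (∅ : Set (I → A)) = 0 := by simp [pr]
  rw [h2] at h1
  linarith

/-- The properties of an rs gadget on an arbitrary type of vertices. -/
private structure ThrGad28 {V : Type} (k D : ℕ) (G : SimpleGraph V) (f : V → Fin k) (y : V) :
    Prop where
  deg : ∀ x, (G.neighborSet x).ncard ≤ D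
  rs : IsRS G f
  uniq : ∀ g : V → Fin k, IsRS G g → g = f
  y3 : 3 ≤ (f y : ℕ)
  low : ∀ w, G.Adj y w → f w < f y → 3 ≤ (f w : ℕ)
  all : ∀ c : Fin k, 3 ≤ (c : ℕ) → c < f y → ∃ w, G.Adj y w ∧ f w = c

/-- rs colourings are preserved by injective homomorphisms. -/
private theorem thr28_comap {V W : Type} {k : ℕ} {G : SimpleGraph V} {H : SimpleGraph W}
    (φ : W → V) (hφ : Function.Injective φ) (hadj : ∀ u v, H.Adj u v → G.Adj (φ u) (φ v))
    {f : V → Fin k} (hf : IsRS G f) : IsRS H (fun w => f (φ w)) :=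
  ⟨fun u v h => hf.1 _ _ (hadj u v h),
    fun u v w h h' hne => hf.2 _ _ _ (hadj u v h) (hadj v w h') (fun e => hne (hφ e))⟩

/-- Transport of a gadget to `Fin N`. -/
private theorem thr28_transport {V : Type} [Fintype V] {k D : ℕ} {G : SimpleGraph V}
    {f : V → Fin k} {y : V} (hG : ThrGad28 k D G f y) :
    ∃ (N : ℕ) (H : SimpleGraph (Fin N)) (f' : Fin N → Fin k) (y' : Fin N),
      RSGadget k D N H f' y' := by
  let e : V ≃ Fin (Fintype.card V) := Fintype.equivFin V
  refine ⟨Fintype.card V, G.comap e.symm, fun x => f (e.symm x), e y, ?_⟩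
  refine ⟨?_, ?_, ?_, ?_, ?_, ?_⟩
  · intro x
    have h1 : (G.comap e.symm).neighborSet x = e '' (G.neighborSet (e.symm x)) := by
      ext z
      constructor
      · intro hz
        exact ⟨e.symm z, hz, e.apply_symm_apply z⟩
      · rintro ⟨w, hw, rfl⟩
        show G.Adj (e.symm x) (e.symm (e w))
        rw [e.symm_apply_apply]
        exact hw
    rw [h1, Set.ncard_image_of_injective _ e.injective]
    exact hG.deg _
  · exact thr28_comap (fun x => e.symm x) e.symm.injective (fun u v h => h) hG.rs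
  · intro g hg
    have h1 : IsRS G (fun v => g (e v)) := by
      refine thr28_comap (fun v => e v) e.injective (fun u v h => ?_) hg
      show G.Adj (e.symm (e u)) (e.symm (e v))
      rw [e.symm_apply_apply, e.symm_apply_apply]
      exact h
    have h2 := hG.uniq _ h1
    funext x
    have h3 := congrFun h2 (e.symm x)
    simp only [e.apply_symm_apply] at h3
    exact h3
  · simpa using hG.y3
  · intro w hw hlt
    have hw' : G.Adj (e.symm (e y)) (e.symm w) := hw
    rw [e.symm_apply_apply] at hw'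
    refine hG.low _ hw' ?_
    simpa using hlt
  · intro c hc hlt
    obtain ⟨w, hw, hwc⟩ := hG.all c hc (by simpa using hlt)
    refine ⟨e w, ?_, ?_⟩
    · show G.Adj (e.symm (e y)) (e.symm (e w))
      rw [e.symm_apply_apply, e.symm_apply_apply]
      exact hw
    · simpa using hwc

/-- Job THR-28. The gadget exists: take `ω` outside the three events. The vertex
`y = (n - 4 - 4 b, false)` has the colour `4 b + 3`; it has no neighbours of the colours `0, 1, 2`
(the three lowest levels), and for every colour `c` with `3 ≤ c < 4 b + 3` a neighbour in the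
level `n - 1 - c`, as this level is in the relation `Dp` to its level. Transport everything
from `Wt n h` to `Fin N`, `N = 4 h² (2 h + 1) + 2 n`, by an equivalence. -/
theorem exists_rsGadget (hp : ParOk n b h M m lam)
    (hu : (n : ℝ) ^ 20 * ((4 * (h : ℝ) ^ 2 * (2 * h + 1) + 2 * n) * (2 * n)) * ((n : ℝ) + 1) ^ 2 *
      Real.exp (-(lam / 3200)) ≤ 1 / 4)
    {μ : ℝ} {t : ℕ} (ht : 1 ≤ t) (h1 : ∑ l ∈ Finset.range n, 2 * (m l : ℝ) / M ≤ μ)
    (h2 : ∀ j : ℕ, h ≤ j → j < n → 2 * (j : ℝ) * (2 * (m j : ℝ)) / M ≤ μ)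
    (h3 : (4 * (h : ℝ) ^ 2 * (2 * h + 1) + 3 * n) * Real.exp μ ≤ 2 ^ t / 4)
    (h4 : 48 * m (n - 3) ≤ M) :
    ∃ (N : ℕ) (H : SimpleGraph (Fin N)) (f : Fin N → Fin (n + 1)) (y : Fin N),
      RSGadget (n + 1) (4 * h ^ 2 * (2 * h + 1) + h + 3 * (4 * b + n / b) + 2 * t) N H f y := by
  have hM0 : 0 < M := by have := hp.hM; omega
  haveI : Nonempty (Fin M) := ⟨⟨0, hM0⟩⟩
  have hn := hp.hn
  have hb := hp.hb
  obtain ⟨y, hy⟩ : ∃ y : Fin n, (y : ℕ) + 4 + 4 * b = n := ⟨⟨n - 4 - 4 * b, by omega⟩, by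
    show n - 4 - 4 * b + 4 + 4 * b = n
    omega⟩
  have e1 := pr_notUnique hp hu
  have e2 := pr_deg hp ht h1 h2 h3
  have e3 := pr_low hp h4 y hy
  obtain ⟨ω, hω⟩ := thr28_exists_not_mem
    (({ω : Omr n h M | ∃ g : Wt n h → Fin (n + 1), IsRS (rsG b m ω) g ∧ g ≠ colF} ∪
      {ω : Omr n h M | ∃ w, 4 * h ^ 2 * (2 * h + 1) + h + 3 * (4 * b + n / b) + 2 * t <
        ((rsG b m ω).neighborSet w).ncard}) ∪
      {ω : Omr n h M | ∃ (l : Fin n) (σ : Bool), n ≤ (l : ℕ) + 3 ∧
        (rsG b m ω).Adj (.inr (y, false)) (.inr (l, σ))})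
    (lt_of_le_of_lt (pr_union_le _ _) (lt_of_le_of_lt (add_le_add (pr_union_le _ _) le_rfl)
      (by linarith)))
  rw [Set.mem_union, Set.mem_union, not_or, not_or] at hω
  obtain ⟨⟨u1, u2⟩, u3⟩ := hω
  simp only [Set.mem_setOf_eq, not_exists, not_and, not_not, not_lt] at u1 u2 u3
  have key : ThrGad28 (n + 1) (4 * h ^ 2 * (2 * h + 1) + h + 3 * (4 * b + n / b) + 2 * t)
      (rsG b m ω) colF (Sum.inr (y, false)) := by
    refine ⟨u2, rsG_colF ω, u1, ?_, ?_, ?_⟩
    · show 3 ≤ n - 1 - (y : ℕ)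
      omega
    · rintro (z | ⟨l, σ⟩) hadj hlt
      · exfalso
        have : (Fin.last n : Fin (n + 1)) < ⟨n - 1 - (y : ℕ), by omega⟩ := hlt
        have h' : n < n - 1 - (y : ℕ) := this
        omega
      · show 3 ≤ n - 1 - (l : ℕ)
        by_contra hcon
        exact u3 l σ (by omega) hadj
    · intro c hc3 hcy
      have hcy' : (c : ℕ) < n - 1 - (y : ℕ) := hcy
      have hj : n - 1 - (c : ℕ) < n := by omega
      refine ⟨Sum.inr (⟨n - 1 - (c : ℕ), hj⟩,
        bitM M (ω (Sum.inr (y, false), ⟨n - 1 - (c : ℕ), hj⟩))), Or.inl ?_, ?_⟩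
      · refine ⟨?_, ?_⟩
        · show (y : ℕ) < n - 1 - (c : ℕ)
          omega
        · have hD : Dp b (y : ℕ) ((⟨n - 1 - (c : ℕ), hj⟩ : Fin n) : ℕ) := by
            left
            show n - 1 - (c : ℕ) - (y : ℕ) ≤ 4 * b
            omega
          rw [if_pos hD]
      · apply Fin.ext
        show n - 1 - (n - 1 - (c : ℕ)) = (c : ℕ)
        omega
  exact thr28_transport key

end Pool.Agent.H79.Thr
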