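import Pool.Agent.H79.Thr.RSDef

/-!
# The parameters for rs colourings
-/

namespace Pool.Agent.H79.Thr

private theorem ev_log (K : ℝ) : ∀ᶠ n : ℕ in Filter.atTop,
    (K * Real.log ((n : ℝ) + 1)) ^ 6 ≤ (n : ℝ) := by
  have h1 : (fun x : ℝ => Real.log x ^ 6) =o[Filter.atTop] (fun x : ℝ => x) :=
    Real.isLittleO_pow_log_id_atTop
  have h2 : ∀ᶠ x : ℝ in Filter.atTop, (K * Real.log x) ^ 6 ≤ x - 1 := by
    have h3 : (0 : ℝ) < 1 / (2 * (K ^ 6 + 1)) := by positivity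
    have h4 := h1.bound h3
    filter_upwards [h4, Filter.eventually_ge_atTop (2 : ℝ)] with x hx hx2
    have h5 : ‖x‖ = x := by
      rw [Real.norm_eq_abs, abs_of_nonneg (by linarith)]
    have h6 : ‖Real.log x ^ 6‖ = Real.log x ^ 6 := by
      rw [Real.norm_eq_abs, abs_of_nonneg (by positivity)]
    rw [h5, h6] at hx
    have h7 : K ^ 6 * Real.log x ^ 6 ≤ K ^ 6 * (1 / (2 * (K ^ 6 + 1)) * x) :=
      mul_le_mul_of_nonneg_left hx (by positivity)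
    have h8 : K ^ 6 * (1 / (2 * (K ^ 6 + 1)) * x) ≤ x / 2 := by
      have h9 : K ^ 6 * (1 / (2 * (K ^ 6 + 1)) * x) = (K ^ 6 / (K ^ 6 + 1)) * (x / 2) := by
        field_simp
      rw [h9]
      have h10 : K ^ 6 / (K ^ 6 + 1) ≤ 1 := by
        rw [div_le_one (by positivity)]
        linarith
      have h11 : (0 : ℝ) ≤ x / 2 := by linarith
      nlinarith
    rw [mul_pow]
    linarith
  have h3 : Filter.Tendsto (fun n : ℕ => (n : ℝ) + 1) Filter.atTop Filter.atTop :=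
    Filter.tendsto_atTop_add_const_right _ _ tendsto_natCast_atTop_atTop
  filter_upwards [h3.eventually h2] with n hn
  linarith

private theorem sum_sqrt_le (n : ℕ) :
    ∑ l ∈ Finset.range n, (1 : ℝ) / √((l : ℝ) + 1) ≤ 2 * √(n : ℝ) := by
  induction n with
  | zero => simp
  | succ n ih =>
    rw [Finset.sum_range_succ]
    have h0 : (0 : ℝ) ≤ (n : ℝ) := Nat.cast_nonneg n
    have h1 : √(n : ℝ) * √(n : ℝ) = n := Real.mul_self_sqrt h0
    have h2 : √((n : ℝ) + 1) * √((n : ℝ) + 1) = n + 1 := Real.mul_self_sqrt (by linarith)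
    have h3 : 0 < √((n : ℝ) + 1) := Real.sqrt_pos.2 (by linarith)
    have h4 : 0 ≤ √(n : ℝ) := Real.sqrt_nonneg _
    have h5 : 1 / √((n : ℝ) + 1) ≤ 2 * √((n : ℝ) + 1) - 2 * √(n : ℝ) := by
      rw [div_le_iff₀ h3]
      nlinarith [sq_nonneg (√((n : ℝ) + 1) - √(n : ℝ))]
    push_cast
    linarith

/-- Job THR-29. For all large `n` there are parameters. Take `lam = 100000 * log (n + 1)`
(then `exp (- lam / 3200) = (n + 1) ^ (- 31.25)`), `h = ⌈64 * lam⌉`, `b = ⌈√n⌉`, `M = n ^ 2`,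
`m j = ⌈M * √(lam / (max j h + 1))⌉` (so `m j ≤ M / 8 + 1`), `μ = C₁ √(n log n)`,
`t = ⌈2 μ + 10 log n⌉` or so (`2 ^ t ≥ exp (t * log 2)`), and use
`∑_{l < n} √(lam / (l + 1)) ≤ 2 √(lam * n)`. The terms `4 h² (2 h + 1)` and `h` are `O ((log n)^3)`. -/
theorem rs_num : ∃ C : ℝ, 0 < C ∧ ∃ n₀ : ℕ, ∀ n : ℕ, n₀ ≤ n →
    ∃ (b h M : ℕ) (m : ℕ → ℕ) (lam μ : ℝ) (t : ℕ), ParOk n b h M m lam ∧
      (n : ℝ) ^ 20 * ((4 * (h : ℝ) ^ 2 * (2 * h + 1) + 2 * n) * (2 * n)) * ((n : ℝ) + 1) ^ 2 *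
        Real.exp (-(lam / 3200)) ≤ 1 / 4 ∧
      1 ≤ t ∧
      ∑ l ∈ Finset.range n, 2 * (m l : ℝ) / M ≤ μ ∧
      (∀ j : ℕ, h ≤ j → j < n → 2 * (j : ℝ) * (2 * (m j : ℝ)) / M ≤ μ) ∧
      (4 * (h : ℝ) ^ 2 * (2 * h + 1) + 3 * n) * Real.exp μ ≤ 2 ^ t / 4 ∧
      48 * m (n - 3) ≤ M ∧
      ((4 * h ^ 2 * (2 * h + 1) + h + 3 * (4 * b + n / b) + 2 * t : ℕ) : ℝ) + 2 ≤
        C * √((n + 1) * Real.log (n + 1)) := by
  obtain ⟨n₁, hn₁⟩ := Filter.eventually_atTop.1 (ev_log (10 ^ 8))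
  refine ⟨10000, by norm_num, max n₁ 3, fun n hn => ?_⟩
  have hev := hn₁ n (le_trans (le_max_left _ _) hn)
  have hn3 : 3 ≤ n := le_trans (le_max_right _ _) hn
  have hn3' : (3 : ℝ) ≤ (n : ℝ) := by exact_mod_cast hn3
  obtain ⟨L, hLdef⟩ : ∃ L, L = Real.log ((n : ℝ) + 1) := ⟨_, rfl⟩
  rw [← hLdef] at hev
  have he : Real.exp 1 < 2.7182818286 := Real.exp_one_lt_d9
  have hL1 : 1 ≤ L := by
    rw [hLdef, Real.le_log_iff_exp_le (by linarith)]
    linarith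
  have hL0 : 0 < L := by linarith
  obtain ⟨S, hSdef⟩ : ∃ S, S = √(n : ℝ) := ⟨_, rfl⟩
  have hn0 : (0 : ℝ) < n := by linarith
  have hS0 : 0 < S := by rw [hSdef]; exact Real.sqrt_pos.2 hn0
  have hSS : S * S = n := by rw [hSdef]; exact Real.mul_self_sqrt hn0.le
  have hSK : (10 ^ 8 * L) ^ 3 ≤ S := by
    rw [hSdef]
    apply Real.le_sqrt_of_sq_le
    calc ((10 ^ 8 * L) ^ 3) ^ 2 = (10 ^ 8 * L) ^ 6 := by ring
      _ ≤ (n : ℝ) := hev
  have hKL : (10 : ℝ) ^ 8 ≤ 10 ^ 8 * L := by nlinarith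
  have hKS : 10 ^ 8 * L ≤ S := by
    refine le_trans ?_ hSK
    calc 10 ^ 8 * L = (10 ^ 8 * L) ^ 1 := by ring
      _ ≤ (10 ^ 8 * L) ^ 3 := pow_le_pow_right₀ (by linarith) (by norm_num)
  have hS8 : (10 : ℝ) ^ 8 ≤ S := hKL.trans hKS
  have hSn : S * 10 ^ 8 ≤ n := by rw [← hSS]; exact mul_le_mul_of_nonneg_left hS8 hS0.le
  obtain ⟨lam, hlam⟩ : ∃ lam : ℝ, lam = 100000 * L := ⟨_, rfl⟩
  have hlam0 : 0 < lam := by rw [hlam]; positivity
  obtain ⟨h, hh⟩ : ∃ h : ℕ, h = ⌈64 * lam⌉₊ := ⟨_, rfl⟩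
  have hh1 : 64 * lam ≤ h := by rw [hh]; exact Nat.le_ceil _
  have hh2 : (h : ℝ) < 64 * lam + 1 := by rw [hh]; exact Nat.ceil_lt_add_one (by positivity)
  have hh3 : (h : ℝ) ≤ 7 * 10 ^ 6 * L := by rw [hlam] at hh2; linarith
  have hh4 : (6 : ℝ) * 10 ^ 6 ≤ h := by rw [hlam] at hh1; linarith
  have hh0 : (0 : ℝ) < h := by linarith
  have hh5 : 27 * (h : ℝ) ^ 3 ≤ S := by
    refine le_trans ?_ hSK
    calc 27 * (h : ℝ) ^ 3 = (3 * h) ^ 3 := by ring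
      _ ≤ (10 ^ 8 * L) ^ 3 := by
        apply pow_le_pow_left₀ (by positivity)
        linarith
  have hh6 : (h : ℝ) ≤ S := by
    refine le_trans hh3 (le_trans ?_ hKS)
    have : (0 : ℝ) ≤ L := hL0.le
    nlinarith
  have hSn1 : S ≤ n := by nlinarith
  have hh7 : (h : ℝ) ≤ n := hh6.trans hSn1
  obtain ⟨b, hb⟩ : ∃ b : ℕ, b = ⌈S⌉₊ := ⟨_, rfl⟩
  have hb1 : S ≤ b := by rw [hb]; exact Nat.le_ceil _
  have hb2 : (b : ℝ) < S + 1 := by rw [hb]; exact Nat.ceil_lt_add_one hS0.le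
  have hb0 : (0 : ℝ) < b := by linarith
  obtain ⟨M, hM⟩ : ∃ M : ℕ, M = n ^ 2 := ⟨_, rfl⟩
  have hMr : (M : ℝ) = (n : ℝ) ^ 2 := by rw [hM]; push_cast; ring
  have hM0 : (0 : ℝ) < M := by rw [hMr]; positivity
  have hMn : (10 : ℝ) ^ 8 * n ≤ M := by
    rw [hMr]
    have : (10 : ℝ) ^ 8 ≤ n := hS8.trans hSn1
    nlinarith
  have hM96 : (96 : ℝ) ≤ M := by nlinarith
  -- the numbers `m j`
  obtain ⟨q, hq⟩ : ∃ q : ℕ → ℝ, q = fun j => √(lam / (((max j h : ℕ) : ℝ) + 1)) := ⟨_, rfl⟩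
  have hq0 : ∀ j, 0 ≤ q j := fun j => by rw [hq]; exact Real.sqrt_nonneg _
  have hq8 : ∀ j, q j ≤ 1 / 8 := by
    intro j
    rw [hq]
    apply Real.sqrt_le_iff.2
    refine ⟨by norm_num, ?_⟩
    have h1 : (h : ℝ) ≤ ((max j h : ℕ) : ℝ) := by exact_mod_cast le_max_right j h
    rw [div_le_iff₀ (by positivity)]
    linarith
  have hqanti : Antitone q := by
    intro i j hij
    rw [hq]
    apply Real.sqrt_le_sqrt
    have h1 : ((max i h : ℕ) : ℝ) ≤ ((max j h : ℕ) : ℝ) := by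
      exact_mod_cast max_le_max hij le_rfl
    exact div_le_div_of_nonneg_left hlam0.le (by positivity) (by linarith)
  obtain ⟨m, hm⟩ : ∃ m : ℕ → ℕ, m = fun j => ⌈(M : ℝ) * q j⌉₊ := ⟨_, rfl⟩
  have hm1 : ∀ j, (M : ℝ) * q j ≤ m j := fun j => by rw [hm]; exact Nat.le_ceil _
  have hm2 : ∀ j, (m j : ℝ) < M * q j + 1 := fun j => by
    rw [hm]; exact Nat.ceil_lt_add_one (mul_nonneg hM0.le (hq0 j))
  have hmM : ∀ j, (m j : ℝ) / M ≤ q j + 1 / M := by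
    intro j
    rw [div_le_iff₀ hM0]
    have : (q j + 1 / M) * M = M * q j + 1 := by field_simp
    rw [this]
    exact (hm2 j).le
  have hqle : ∀ j, q j ≤ √lam * (1 / √((j : ℝ) + 1)) := by
    intro j
    rw [hq]
    have h1 : (j : ℝ) ≤ ((max j h : ℕ) : ℝ) := by exact_mod_cast le_max_left j h
    calc √(lam / (((max j h : ℕ) : ℝ) + 1)) ≤ √(lam / ((j : ℝ) + 1)) := by
          apply Real.sqrt_le_sqrt
          exact div_le_div_of_nonneg_left hlam0.le (by positivity) (by linarith)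
      _ = √lam * (1 / √((j : ℝ) + 1)) := by
          rw [Real.sqrt_div hlam0.le]
          ring
  obtain ⟨μ, hμ⟩ : ∃ μ : ℝ, μ = 4 * (√lam * S) + 4 := ⟨_, rfl⟩
  have hsl0 : 0 ≤ √lam := Real.sqrt_nonneg _
  have hμ0 : 4 ≤ μ := by
    rw [hμ]
    have : 0 ≤ √lam * S := mul_nonneg hsl0 hS0.le
    linarith
  obtain ⟨t, ht⟩ : ∃ t : ℕ, t = ⌈2 * μ + 10 * L⌉₊ := ⟨_, rfl⟩
  have ht1 : 2 * μ + 10 * L ≤ t := by rw [ht]; exact Nat.le_ceil _
  have ht2 : (t : ℝ) < 2 * μ + 10 * L + 1 := by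
    rw [ht]; exact Nat.ceil_lt_add_one (by positivity)
  have hx0 : (0 : ℝ) < (n : ℝ) + 1 := by linarith
  have hexpL : ∀ k : ℕ, Real.exp ((k : ℝ) * L) = ((n : ℝ) + 1) ^ k := by
    intro k
    rw [hLdef, Real.exp_nat_mul, Real.exp_log hx0]
  have hnbig : (10 : ℝ) ^ 8 ≤ n := hS8.trans hSn1
  refine ⟨b, h, M, m, lam, μ, t, ⟨?_, ?_, ?_, ?_, ?_, ?_, ?_, ?_, ?_⟩, ?_, ?_, ?_, ?_, ?_, ?_, ?_⟩
  · have : (4 : ℝ) ≤ b := by linarith
    exact_mod_cast this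
  · have : (600 : ℝ) ≤ h := by linarith
    exact_mod_cast this
  · have : (h : ℝ) ≤ 4 * b := by linarith
    exact_mod_cast this
  · have : (4 : ℝ) * b + 4 ≤ n := by linarith
    exact_mod_cast this
  · have : (2 : ℝ) ≤ M := by linarith
    exact_mod_cast this
  · intro i j hij
    rw [hm]
    exact Nat.ceil_le_ceil (mul_le_mul_of_nonneg_left (hqanti hij) hM0.le)
  · intro j
    have h1 := hm2 j
    have h2 : (M : ℝ) * q j ≤ M * (1 / 8) := mul_le_mul_of_nonneg_left (hq8 j) hM0.le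
    have : (4 : ℝ) * m j ≤ M := by linarith
    exact_mod_cast this
  · exact hlam0.le
  · intro j hj hjn
    have h1 : max j h = j := max_eq_left hj
    have h2 : q j ^ 2 = lam / ((j : ℝ) + 1) := by
      rw [hq]
      simp only [h1]
      exact Real.sq_sqrt (by positivity)
    have h3 : ((M : ℝ) * q j) ^ 2 ≤ (m j : ℝ) ^ 2 :=
      pow_le_pow_left₀ (mul_nonneg hM0.le (hq0 j)) (hm1 j) 2
    have hj0 : (0 : ℝ) < (j : ℝ) + 1 := by positivity
    calc lam * (M : ℝ) ^ 2 = ((j : ℝ) + 1) * ((M : ℝ) * q j) ^ 2 := by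
          rw [mul_pow, h2]
          field_simp
      _ ≤ ((j : ℝ) + 1) * (m j : ℝ) ^ 2 := mul_le_mul_of_nonneg_left h3 hj0.le
  · -- the union bound
    have h1 : Real.exp (-(lam / 3200)) ≤ (((n : ℝ) + 1) ^ 31)⁻¹ := by
      rw [← hexpL 31, ← Real.exp_neg]
      apply Real.exp_le_exp.2
      rw [hlam]
      push_cast
      linarith
    have h2 : (h : ℝ) ^ 2 ≤ (n : ℝ) ^ 2 := pow_le_pow_left₀ hh0.le hh7 2
    have h3 : 4 * (h : ℝ) ^ 2 * (2 * h + 1) ≤ 4 * (n : ℝ) ^ 2 * (2 * n + 1) := by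
      apply mul_le_mul (by linarith) (by linarith) (by positivity) (by positivity)
    have h4 : (4 * (h : ℝ) ^ 2 * (2 * h + 1) + 2 * n) * (2 * n) ≤ ((n : ℝ) + 1) ^ 5 := by
      calc (4 * (h : ℝ) ^ 2 * (2 * h + 1) + 2 * n) * (2 * n)
          ≤ (4 * (n : ℝ) ^ 2 * (2 * n + 1) + 2 * n) * (2 * n) :=
            mul_le_mul_of_nonneg_right (by linarith) (by linarith)
        _ = 16 * (n : ℝ) ^ 4 + 8 * (n : ℝ) ^ 3 + 4 * (n : ℝ) ^ 2 := by ring
        _ ≤ ((n : ℝ) + 1) ^ 5 := by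
            have e : ((n : ℝ) + 1) ^ 5 = (n : ℝ) * (n : ℝ) ^ 4 + 5 * (n : ℝ) ^ 4 +
              10 * (n : ℝ) ^ 3 + 10 * (n : ℝ) ^ 2 + 5 * n + 1 := by ring
            rw [e]
            have h5 : 16 * (n : ℝ) ^ 4 ≤ (n : ℝ) * (n : ℝ) ^ 4 :=
              mul_le_mul_of_nonneg_right (by linarith) (by positivity)
            have h6 : (0 : ℝ) ≤ (n : ℝ) ^ 4 := by positivity
            have h7 : (0 : ℝ) ≤ (n : ℝ) ^ 3 := by positivity
            have h8 : (0 : ℝ) ≤ (n : ℝ) ^ 2 := by positivity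
            linarith
    have h5 : (n : ℝ) ^ 20 ≤ ((n : ℝ) + 1) ^ 20 := pow_le_pow_left₀ hn0.le (by linarith) 20
    calc (n : ℝ) ^ 20 * ((4 * (h : ℝ) ^ 2 * (2 * h + 1) + 2 * n) * (2 * n)) * ((n : ℝ) + 1) ^ 2 *
          Real.exp (-(lam / 3200))
        ≤ ((n : ℝ) + 1) ^ 20 * ((n : ℝ) + 1) ^ 5 * ((n : ℝ) + 1) ^ 2 *
          (((n : ℝ) + 1) ^ 31)⁻¹ := by
          apply mul_le_mul _ h1 (Real.exp_pos _).le (by positivity)
          apply mul_le_mul_of_nonneg_right _ (by positivity)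
          exact mul_le_mul h5 h4 (by positivity) (by positivity)
      _ = (((n : ℝ) + 1) ^ 4)⁻¹ := by
          field_simp
      _ ≤ 1 / 4 := by
          rw [one_div]
          apply inv_anti₀ (by norm_num)
          calc (4 : ℝ) ≤ (n : ℝ) + 1 := by linarith
            _ = ((n : ℝ) + 1) ^ 1 := by ring
            _ ≤ ((n : ℝ) + 1) ^ 4 := pow_le_pow_right₀ (by linarith) (by norm_num)
  · have : (1 : ℝ) ≤ t := by linarith
    exact_mod_cast this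
  · -- the sum
    have h1 : ∀ l ∈ Finset.range n, 2 * (m l : ℝ) / M ≤
        2 * √lam * (1 / √((l : ℝ) + 1)) + 2 / M := by
      intro l _
      have h2 := hmM l
      have h3 := hqle l
      calc 2 * (m l : ℝ) / M = 2 * ((m l : ℝ) / M) := by ring
        _ ≤ 2 * (√lam * (1 / √((l : ℝ) + 1)) + 1 / M) := by linarith
        _ = _ := by ring
    refine (Finset.sum_le_sum h1).trans ?_
    rw [Finset.sum_add_distrib, ← Finset.mul_sum]
    simp only [Finset.sum_const, Finset.card_range, nsmul_eq_mul]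
    have h2 : 2 * √lam * ∑ l ∈ Finset.range n, 1 / √((l : ℝ) + 1) ≤ 2 * √lam * (2 * √(n : ℝ)) :=
      mul_le_mul_of_nonneg_left (sum_sqrt_le n) (by positivity)
    have h3 : (n : ℝ) * (2 / M) ≤ 4 := by
      rw [← mul_div_assoc, div_le_iff₀ hM0]
      nlinarith
    rw [← hSdef] at h2
    rw [hμ]
    linarith
  · intro j hj hjn
    have h2 := hmM j
    have h3 := hqle j
    have hjn' : (j : ℝ) ≤ n := by exact_mod_cast hjn.le
    have hj0 : (0 : ℝ) ≤ j := Nat.cast_nonneg j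
    have h4 : (j : ℝ) * (1 / √((j : ℝ) + 1)) ≤ S := by
      have h5 : 0 < √((j : ℝ) + 1) := Real.sqrt_pos.2 (by linarith)
      rw [mul_one_div, div_le_iff₀ h5]
      have h6 : (j : ℝ) = √(j : ℝ) * √(j : ℝ) := (Real.mul_self_sqrt hj0).symm
      have h7 : √(j : ℝ) ≤ S := by rw [hSdef]; exact Real.sqrt_le_sqrt hjn'
      have h8 : √(j : ℝ) ≤ √((j : ℝ) + 1) := Real.sqrt_le_sqrt (by linarith)
      have h9 := mul_le_mul h7 h8 (Real.sqrt_nonneg _) hS0.le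
      rwa [← h6] at h9
    have h9 : (j : ℝ) / M ≤ 1 := by
      rw [div_le_one hM0]
      nlinarith
    have h10 : 2 * (j : ℝ) * (2 * (m j : ℝ)) / M = 4 * (j : ℝ) * ((m j : ℝ) / M) := by ring
    have h11 : 4 * (j : ℝ) * ((m j : ℝ) / M) ≤
        4 * (j : ℝ) * (√lam * (1 / √((j : ℝ) + 1)) + 1 / M) :=
      mul_le_mul_of_nonneg_left (by linarith) (by positivity)
    have h12 : 4 * (j : ℝ) * (√lam * (1 / √((j : ℝ) + 1)) + 1 / M) =
        4 * (√lam * ((j : ℝ) * (1 / √((j : ℝ) + 1)))) + 4 * ((j : ℝ) / M) := by ring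
    have h13 := mul_le_mul_of_nonneg_left h4 hsl0
    rw [h10, hμ]
    refine h11.trans ?_
    rw [h12]
    linarith
  · -- degrees
    have hlog2 : (0.6931471803 : ℝ) < Real.log 2 := Real.log_two_gt_d9
    have h1 : Real.exp (μ + 6 * L) ≤ 2 ^ t := by
      have h2 : (2 : ℝ) ^ t = Real.exp (t * Real.log 2) := by
        rw [Real.exp_nat_mul, Real.exp_log (by norm_num)]
      rw [h2]
      apply Real.exp_le_exp.2
      have h3 : (2 * μ + 10 * L) * 0.69 ≤ t * Real.log 2 :=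
        mul_le_mul ht1 (by linarith) (by norm_num) (by positivity)
      linarith
    have h2 : (h : ℝ) ^ 2 ≤ (n : ℝ) ^ 2 := pow_le_pow_left₀ hh0.le hh7 2
    have h3 : 4 * (h : ℝ) ^ 2 * (2 * h + 1) ≤ 4 * (n : ℝ) ^ 2 * (2 * n + 1) := by
      apply mul_le_mul (by linarith) (by linarith) (by positivity) (by positivity)
    have h4 : (4 * (h : ℝ) ^ 2 * (2 * h + 1) + 3 * n) * 4 ≤ ((n : ℝ) + 1) ^ 6 := by
      calc (4 * (h : ℝ) ^ 2 * (2 * h + 1) + 3 * n) * 4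
          ≤ (4 * (n : ℝ) ^ 2 * (2 * n + 1) + 3 * n) * 4 := by linarith
        _ = 32 * (n : ℝ) ^ 3 + 16 * (n : ℝ) ^ 2 + 12 * n := by ring
        _ ≤ ((n : ℝ) + 1) ^ 4 := by
            have e : ((n : ℝ) + 1) ^ 4 = (n : ℝ) * (n : ℝ) ^ 3 + 4 * (n : ℝ) ^ 3 +
              6 * (n : ℝ) ^ 2 + 4 * n + 1 := by ring
            rw [e]
            have h5 : 64 * (n : ℝ) ^ 3 ≤ (n : ℝ) * (n : ℝ) ^ 3 :=
              mul_le_mul_of_nonneg_right (by linarith) (by positivity)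
            have h6 : (n : ℝ) ^ 2 ≤ (n : ℝ) ^ 3 := pow_le_pow_right₀ (by linarith) (by norm_num)
            have h7 : (n : ℝ) ≤ (n : ℝ) ^ 3 := by
              calc (n : ℝ) = (n : ℝ) ^ 1 := by ring
                _ ≤ (n : ℝ) ^ 3 := pow_le_pow_right₀ (by linarith) (by norm_num)
            have h8 : (0 : ℝ) ≤ (n : ℝ) ^ 3 := by positivity
            have h9 : (0 : ℝ) ≤ (n : ℝ) ^ 2 := by positivity
            linarith
        _ ≤ ((n : ℝ) + 1) ^ 6 := pow_le_pow_right₀ (by linarith) (by norm_num)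
    have h5 : Real.exp (μ + 6 * L) = Real.exp μ * ((n : ℝ) + 1) ^ 6 := by
      rw [Real.exp_add, ← hexpL 6]
      norm_num
    have h6 : 0 < Real.exp μ := Real.exp_pos _
    rw [h5] at h1
    rw [le_div_iff₀ (by norm_num : (0 : ℝ) < 4)]
    calc (4 * (h : ℝ) ^ 2 * (2 * h + 1) + 3 * n) * Real.exp μ * 4
        = Real.exp μ * ((4 * (h : ℝ) ^ 2 * (2 * h + 1) + 3 * n) * 4) := by ring
      _ ≤ Real.exp μ * ((n : ℝ) + 1) ^ 6 := mul_le_mul_of_nonneg_left h4 h6.le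
      _ ≤ 2 ^ t := h1
  · -- `48 m (n - 3) ≤ M`
    have h1 : q (n - 3) ≤ 1 / 96 := by
      rw [hq]
      apply Real.sqrt_le_iff.2
      refine ⟨by norm_num, ?_⟩
      have h2 : ((n - 3 : ℕ) : ℝ) ≤ ((max (n - 3) h : ℕ) : ℝ) := by
        exact_mod_cast le_max_left (n - 3) h
      have h3 : ((n - 3 : ℕ) : ℝ) = (n : ℝ) - 3 := by
        rw [Nat.cast_sub hn3]
        norm_num
      rw [h3] at h2
      rw [div_le_iff₀ (by positivity)]
      have h4 : lam * (10 ^ 3) ≤ S := by rw [hlam]; linarith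
      have h5 : lam * 10 ^ 5 ≤ n := by nlinarith
      linarith
    have h2 := hm2 (n - 3)
    have h3 : (M : ℝ) * q (n - 3) ≤ M * (1 / 96) := mul_le_mul_of_nonneg_left h1 hM0.le
    have : (48 : ℝ) * m (n - 3) ≤ M := by linarith
    exact_mod_cast this
  · -- the degree bound
    have h1 : ((n / b : ℕ) : ℝ) ≤ S := by
      refine (Nat.cast_div_le).trans ?_
      rw [div_le_iff₀ hb0, ← hSS]
      exact mul_le_mul_of_nonneg_left hb1 hS0.le
    have h2 : 4 * (h : ℝ) ^ 2 * (2 * h + 1) ≤ S := by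
      refine le_trans ?_ hh5
      have h3 : (1 : ℝ) ≤ h := by linarith
      have h4 : (h : ℝ) ^ 2 ≤ (h : ℝ) ^ 3 := pow_le_pow_right₀ h3 (by norm_num)
      have h5 : (0 : ℝ) ≤ (h : ℝ) ^ 3 := by positivity
      calc 4 * (h : ℝ) ^ 2 * (2 * h + 1) = 8 * (h : ℝ) ^ 3 + 4 * (h : ℝ) ^ 2 := by ring
        _ ≤ 27 * (h : ℝ) ^ 3 := by linarith
    have h3 : √lam ≤ 317 * √L := by
      rw [hlam, Real.sqrt_mul (by norm_num)]
      apply mul_le_mul_of_nonneg_right _ (Real.sqrt_nonneg _)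
      apply Real.sqrt_le_iff.2
      norm_num
    obtain ⟨R, hR⟩ : ∃ R, R = √(((n : ℝ) + 1) * L) := ⟨_, rfl⟩
    have hRS : √L * S ≤ R := by
      rw [hR, hSdef, ← Real.sqrt_mul hL0.le]
      apply Real.sqrt_le_sqrt
      nlinarith
    have hL1' : 1 ≤ √L := by
      rw [Real.one_le_sqrt]
      exact hL1
    have hSR : S ≤ R := by
      refine le_trans ?_ hRS
      nlinarith
    have hμR : μ ≤ 1268 * R + 4 := by
      rw [hμ]
      have h4 : √lam * S ≤ 317 * √L * S := mul_le_mul_of_nonneg_right h3 hS0.le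
      have h5 : 317 * √L * S = 317 * (√L * S) := by ring
      rw [h5] at h4
      linarith
    have hLS : L ≤ S := by nlinarith
    rw [← hLdef, ← hR]
    push_cast
    linarith

end Pool.Agent.H79.Thr
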