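import Mathlib

/-!
# The parameters for star colourings
-/

namespace Pool.Agent.H79.Thr

/-- Job THR-12. Take `M = ⌊(k / (c log k)) ^ (1/3)⌋` with `c = 24576`, `T = (2 k - 16) / 32` and
`D + 1 = ⌈22 k / M⌉`. Then `(1 - 1 / (4 M) ^ 3) ^ T ≤ exp (- T / (64 M ^ 3)) ≤ k ^ (-12)`, and
`(4 k) ^ n / n! * M ^ (-n) ≤ (4 e k / (n M)) ^ n ≤ 2 ^ (-n)` for `n = D + 1`.
(In the proof `c = 27000`.) -/
theorem star_num : ∃ C : ℝ, 0 < C ∧ ∃ k₀ : ℕ, ∀ k : ℕ, k₀ ≤ k → ∃ M D T : ℕ,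
    1 ≤ M ∧ 32 * T ≤ 2 * k - 16 ∧
    (k : ℝ) ^ 8 * (2 * (k : ℝ)) ^ 2 * (1 - 1 / (4 * (M : ℝ)) ^ 3) ^ T ≤ 1 / 4 ∧
    (k : ℝ) * ((4 * (k : ℝ)) ^ (D + 1) / ((D + 1).factorial : ℝ) *
      (1 / (M : ℝ)) ^ (D + 1)) ≤ 1 / 2 ∧
    4 * D + 5 ≤ k ∧
    2 * (D : ℝ) + 1 ≤ C * ((k : ℝ) ^ (2 / 3 : ℝ) * (Real.log k) ^ (1 / 3 : ℝ)) := by
  refine ⟨3000, by norm_num, 10 ^ 22, fun k hk => ?_⟩
  have hk' : (10 : ℝ) ^ 22 ≤ (k : ℝ) := by exact_mod_cast hk
  have hk0 : (0 : ℝ) < (k : ℝ) := lt_of_lt_of_le (by norm_num) hk'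
  have he : Real.exp 1 < 2.7182818286 := Real.exp_one_lt_d9
  have hL1 : 1 ≤ Real.log k := by
    rw [Real.le_log_iff_exp_le hk0]
    refine he.le.trans (le_trans ?_ hk')
    norm_num
  have hsq : Real.sqrt k * Real.sqrt k = k := Real.mul_self_sqrt hk0.le
  have hsq0 : 0 < Real.sqrt k := Real.sqrt_pos.2 hk0
  have hsq1 : (10 : ℝ) ^ 11 ≤ Real.sqrt k := by
    apply Real.le_sqrt_of_sq_le
    refine le_trans (le_of_eq ?_) hk'
    norm_num
  have hL2 : Real.log k ≤ 2 * Real.sqrt k := by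
    have h1 : Real.log k = Real.log (Real.sqrt k) + Real.log (Real.sqrt k) := by
      rw [← Real.log_mul hsq0.ne' hsq0.ne', hsq]
    have h2 := Real.log_le_sub_one_of_pos hsq0
    linarith
  obtain ⟨L, hLdef⟩ : ∃ L, L = Real.log k := ⟨_, rfl⟩
  rw [← hLdef] at hL1 hL2 ⊢
  have hL0 : 0 < L := by linarith
  obtain ⟨y, hydef⟩ : ∃ y : ℝ, y = ((k : ℝ) / L) ^ (1 / 3 : ℝ) := ⟨_, rfl⟩
  have hkL : 0 < (k : ℝ) / L := by positivity
  have hy0 : 0 < y := by rw [hydef]; positivity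
  have hy3 : y ^ 3 = (k : ℝ) / L := by
    rw [hydef, ← Real.rpow_natCast, ← Real.rpow_mul hkL.le]
    norm_num
  have hy3' : y ^ 3 * L = k := by
    rw [hy3]
    field_simp
  have hyge : 2700 ≤ y := by
    by_contra hcon
    push Not at hcon
    have h1 : y ^ 3 ≤ 2700 ^ 3 := pow_le_pow_left₀ hy0.le hcon.le 3
    have h2 : y ^ 3 * L ≤ 2700 ^ 3 * (2 * Real.sqrt k) :=
      mul_le_mul h1 hL2 hL0.le (by norm_num)
    rw [hy3', ← hsq] at h2
    have h3 : Real.sqrt k ≤ 2700 ^ 3 * 2 := by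
      have h4 : Real.sqrt k * Real.sqrt k ≤ (2700 ^ 3 * 2) * Real.sqrt k := by
        calc Real.sqrt k * Real.sqrt k ≤ 2700 ^ 3 * (2 * Real.sqrt k) := by
              rw [hsq] at h2 ⊢
              exact h2
          _ = _ := by ring
      exact le_of_mul_le_mul_right h4 hsq0
    have h5 := hsq1.trans h3
    norm_num at h5
  have hP : (k : ℝ) ^ (2 / 3 : ℝ) * L ^ (1 / 3 : ℝ) * y = k := by
    rw [hydef, Real.div_rpow hk0.le hL0.le]
    have h1 : L ^ (1 / 3 : ℝ) ≠ 0 := by positivity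
    have h2 : (k : ℝ) ^ (2 / 3 : ℝ) * (k : ℝ) ^ (1 / 3 : ℝ) = k := by
      rw [← Real.rpow_add hk0]
      norm_num
    calc (k : ℝ) ^ (2 / 3 : ℝ) * L ^ (1 / 3 : ℝ) * ((k : ℝ) ^ (1 / 3 : ℝ) / L ^ (1 / 3 : ℝ))
        = (k : ℝ) ^ (2 / 3 : ℝ) * (k : ℝ) ^ (1 / 3 : ℝ) := by
          field_simp
      _ = k := h2
  obtain ⟨P, hPdef⟩ : ∃ P : ℝ, P = (k : ℝ) ^ (2 / 3 : ℝ) * L ^ (1 / 3 : ℝ) := ⟨_, rfl⟩
  rw [← hPdef] at hP ⊢
  have hP0 : 0 < P := by rw [hPdef]; positivity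
  -- the number M
  obtain ⟨M, hMdef⟩ : ∃ M : ℕ, M = ⌊y / 30⌋₊ := ⟨_, rfl⟩
  have hM1 : (M : ℝ) ≤ y / 30 := by
    rw [hMdef]
    exact Nat.floor_le (by positivity)
  have hM2 : y / 30 < (M : ℝ) + 1 := by
    rw [hMdef]
    exact Nat.lt_floor_add_one _
  have hM3 : (89 : ℝ) < M := by linarith
  have hM4 : y / 60 ≤ (M : ℝ) := by linarith
  have hM0 : (0 : ℝ) < M := by linarith
  have hMk : (M : ℝ) ^ 3 * (27000 * L) ≤ k := by
    have h1 : (M : ℝ) ^ 3 ≤ (y / 30) ^ 3 := pow_le_pow_left₀ hM0.le hM1 3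
    have h2 : (M : ℝ) ^ 3 * (27000 * L) ≤ (y / 30) ^ 3 * (27000 * L) :=
      mul_le_mul_of_nonneg_right h1 (by positivity)
    refine h2.trans (le_of_eq ?_)
    rw [← hy3']
    ring
  have hMk1 : (M : ℝ) ^ 3 ≤ k := by
    refine le_trans ?_ hMk
    have h1 : (1 : ℝ) ≤ 27000 * L := by linarith
    have h2 : (0 : ℝ) ≤ (M : ℝ) ^ 3 := by positivity
    nlinarith
  -- the number n
  obtain ⟨n, hndef⟩ : ∃ n : ℕ, n = ⌈22 * (k : ℝ) / M⌉₊ := ⟨_, rfl⟩
  have hn1 : 22 * (k : ℝ) / M ≤ n := by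
    rw [hndef]
    exact Nat.le_ceil _
  have hn2 : (n : ℝ) < 22 * (k : ℝ) / M + 1 := by
    rw [hndef]
    exact Nat.ceil_lt_add_one (by positivity)
  have hn3 : 22 * (k : ℝ) ≤ n * M := by
    rwa [div_le_iff₀ hM0] at hn1
  have hMle : (M : ℝ) ≤ k := by
    refine le_trans ?_ hMk1
    have h1 : (1 : ℝ) ≤ M := by linarith
    calc (M : ℝ) = (M : ℝ) ^ 1 := by ring
      _ ≤ (M : ℝ) ^ 3 := pow_le_pow_right₀ h1 (by norm_num)
  have hn4 : (22 : ℝ) ≤ n := by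
    refine le_trans ?_ hn1
    rw [le_div_iff₀ hM0]
    linarith
  have hn5 : 22 ≤ n := by exact_mod_cast hn4
  obtain ⟨D, hD⟩ : ∃ D : ℕ, n = D + 1 := ⟨n - 1, by omega⟩
  have hDr : (n : ℝ) = (D : ℝ) + 1 := by rw [hD]; push_cast; ring
  have hD1 : (D : ℝ) < 22 * (k : ℝ) / M := by linarith
  refine ⟨M, D, (2 * k - 16) / 32, ?_, ?_, ?_, ?_, ?_, ?_⟩
  · have h1 : (1 : ℝ) ≤ M := by linarith
    exact_mod_cast h1
  · exact Nat.mul_div_le _ _
  · -- the union bound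
    obtain ⟨T, hT⟩ : ∃ T : ℕ, T = (2 * k - 16) / 32 := ⟨_, rfl⟩
    rw [← hT]
    have hk47 : 47 ≤ k := le_trans (by norm_num) hk
    have hT1 : k ≤ 32 * T := by omega
    have hT2 : (k : ℝ) ≤ 32 * T := by exact_mod_cast hT1
    have h64 : (0 : ℝ) < (4 * (M : ℝ)) ^ 3 := by positivity
    have h0 : 0 ≤ 1 - 1 / (4 * (M : ℝ)) ^ 3 := by
      have h1 : (1 : ℝ) ≤ (4 * (M : ℝ)) ^ 3 := by
        apply one_le_pow₀
        linarith
      have : 1 / (4 * (M : ℝ)) ^ 3 ≤ 1 := by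
        rw [div_le_one h64]
        exact h1
      linarith
    have h1 : (1 - 1 / (4 * (M : ℝ)) ^ 3) ^ T ≤ (Real.exp (-(1 / (4 * (M : ℝ)) ^ 3))) ^ T :=
      pow_le_pow_left₀ h0 (Real.one_sub_le_exp_neg _) T
    have h2 : (Real.exp (-(1 / (4 * (M : ℝ)) ^ 3))) ^ T =
        Real.exp (-((T : ℝ) / (4 * (M : ℝ)) ^ 3)) := by
      rw [← Real.exp_nat_mul]
      congr 1
      ring
    have h3 : 13 * L ≤ (T : ℝ) / (4 * (M : ℝ)) ^ 3 := by
      rw [le_div_iff₀ h64]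
      have h4 : 13 * L * (4 * (M : ℝ)) ^ 3 = (832 / 27000) * ((M : ℝ) ^ 3 * (27000 * L)) := by
        ring
      rw [h4]
      have h5 : (832 / 27000 : ℝ) * ((M : ℝ) ^ 3 * (27000 * L)) ≤ (832 / 27000 : ℝ) * k :=
        mul_le_mul_of_nonneg_left hMk (by norm_num)
      refine h5.trans ?_
      linarith
    have h4 : Real.exp (-((T : ℝ) / (4 * (M : ℝ)) ^ 3)) ≤ ((k : ℝ) ^ 13)⁻¹ := by
      have h5 : Real.exp (13 * L) = (k : ℝ) ^ 13 := by
        have h6 : (13 : ℝ) * L = ((13 : ℕ) : ℝ) * Real.log k := by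
          rw [hLdef]
          norm_num
        rw [h6, Real.exp_nat_mul, Real.exp_log hk0]
      rw [← h5, ← Real.exp_neg]
      apply Real.exp_le_exp.2
      linarith
    have h5 : (1 - 1 / (4 * (M : ℝ)) ^ 3) ^ T ≤ ((k : ℝ) ^ 13)⁻¹ := by
      refine h1.trans ?_
      rw [h2]
      exact h4
    calc (k : ℝ) ^ 8 * (2 * (k : ℝ)) ^ 2 * (1 - 1 / (4 * (M : ℝ)) ^ 3) ^ T
        ≤ (k : ℝ) ^ 8 * (2 * (k : ℝ)) ^ 2 * ((k : ℝ) ^ 13)⁻¹ :=
          mul_le_mul_of_nonneg_left h5 (by positivity)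
      _ = 4 / (k : ℝ) ^ 3 := by
          field_simp
          ring
      _ ≤ 1 / 4 := by
          rw [div_le_div_iff₀ (by positivity) (by norm_num)]
          have h6 : (10 : ℝ) ^ 3 ≤ (k : ℝ) ^ 3 := by
            apply pow_le_pow_left₀ (by norm_num)
            refine le_trans ?_ hk'
            norm_num
          linarith
  · -- the second union bound
    rw [← hD]
    have h1 : (4 * (k : ℝ)) ^ n / (n.factorial : ℝ) * (1 / (M : ℝ)) ^ n =
        (4 * (k : ℝ) / M) ^ n / (n.factorial : ℝ) := by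
      rw [div_pow, div_pow, one_pow]
      field_simp
    have h2 : 4 * (k : ℝ) / M ≤ (2 / 11) * n := by
      rw [div_le_iff₀ hM0]
      linarith
    have h3 : (4 * (k : ℝ) / M) ^ n ≤ ((2 / 11) * (n : ℝ)) ^ n :=
      pow_le_pow_left₀ (by positivity) h2 n
    have hfac : (0 : ℝ) < (n.factorial : ℝ) := by exact_mod_cast Nat.factorial_pos n
    have h4 : ((n : ℝ)) ^ n / (n.factorial : ℝ) ≤ (Real.exp 1) ^ n := by
      have h5 := Real.pow_div_factorial_le_exp (n : ℝ) (Nat.cast_nonneg n) n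
      rw [← Real.exp_nat_mul, mul_one]
      exact h5
    have h5 : (4 * (k : ℝ) / M) ^ n / (n.factorial : ℝ) ≤ (1 / 2) ^ n := by
      calc (4 * (k : ℝ) / M) ^ n / (n.factorial : ℝ)
          ≤ ((2 / 11) * (n : ℝ)) ^ n / (n.factorial : ℝ) :=
            div_le_div_of_nonneg_right h3 hfac.le
        _ = (2 / 11) ^ n * ((n : ℝ) ^ n / (n.factorial : ℝ)) := by
            rw [mul_pow]
            ring
        _ ≤ (2 / 11) ^ n * (Real.exp 1) ^ n :=
            mul_le_mul_of_nonneg_left h4 (by positivity)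
        _ = ((2 / 11) * Real.exp 1) ^ n := by rw [mul_pow]
        _ ≤ (1 / 2) ^ n := by
            apply pow_le_pow_left₀ (by positivity)
            linarith
    rw [h1]
    -- `2 k ≤ n ^ 2 ≤ 2 ^ n`
    have h6 : (2 : ℝ) * k ≤ (n : ℝ) ^ 2 := by
      have h7 : (22 * (k : ℝ)) ^ 2 ≤ ((n : ℝ) * M) ^ 2 := pow_le_pow_left₀ (by positivity) hn3 2
      have h8 : (M : ℝ) ^ 2 ≤ k := by
        refine le_trans ?_ hMk1
        exact pow_le_pow_right₀ (by linarith) (by norm_num)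
      have h9 : ((n : ℝ) * M) ^ 2 ≤ (n : ℝ) ^ 2 * k := by
        rw [mul_pow]
        exact mul_le_mul_of_nonneg_left h8 (by positivity)
      have h10 : (484 * (k : ℝ)) * k ≤ (n : ℝ) ^ 2 * k := by
        refine le_trans (le_of_eq ?_) (h7.trans h9)
        ring
      have h11 := le_of_mul_le_mul_right h10 hk0
      linarith
    have h7 : n ^ 2 ≤ 2 ^ n := by
      have key : ∀ m : ℕ, 4 ≤ m → m ^ 2 ≤ 2 ^ m := by
        intro m hm
        induction m, hm using Nat.le_induction with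
        | base => norm_num
        | succ m hm ih =>
          calc (m + 1) ^ 2 = m ^ 2 + 2 * m + 1 := by ring
            _ ≤ m ^ 2 + m ^ 2 := by nlinarith
            _ ≤ 2 ^ m + 2 ^ m := by omega
            _ = 2 ^ (m + 1) := by ring
      exact key n (by omega)
    have h8 : ((n : ℝ)) ^ 2 ≤ 2 ^ n := by exact_mod_cast h7
    have h9 : (2 : ℝ) * k ≤ 2 ^ n := h6.trans h8
    calc (k : ℝ) * ((4 * (k : ℝ) / M) ^ n / (n.factorial : ℝ))
        ≤ (k : ℝ) * (1 / 2) ^ n := mul_le_mul_of_nonneg_left h5 hk0.le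
      _ = (k : ℝ) / 2 ^ n := by
          rw [div_pow, one_pow]
          ring
      _ ≤ 1 / 2 := by
          rw [div_le_div_iff₀ (by positivity) (by norm_num)]
          linarith
  · -- `4 D + 5 ≤ k`
    have h1 : (D : ℝ) * M < 22 * k := by
      rwa [lt_div_iff₀ hM0] at hD1
    have h2 : (D : ℝ) * 89 ≤ 22 * k := by
      have : (D : ℝ) * 89 ≤ D * M := mul_le_mul_of_nonneg_left hM3.le (Nat.cast_nonneg D)
      linarith
    have h3 : (4 : ℝ) * D + 5 ≤ k := by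
      have h4 : (1000 : ℝ) ≤ k := le_trans (by norm_num) hk'
      linarith
    exact_mod_cast h3
  · -- the final bound
    have h1 : 22 * (k : ℝ) / M ≤ 1320 * P := by
      rw [div_le_iff₀ hM0]
      have h2 : 1320 * P * (y / 60) ≤ 1320 * P * M :=
        mul_le_mul_of_nonneg_left hM4 (by positivity)
      refine le_trans (le_of_eq ?_) h2
      rw [← hP]
      ring
    have h2 : 1 ≤ P := by
      have h3 : y ≤ k := by
        calc y ≤ y ^ 3 * L := by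
              have h4 : y ^ 1 ≤ y ^ 3 := pow_le_pow_right₀ (by linarith) (by norm_num)
              have h5 : y ^ 3 * 1 ≤ y ^ 3 * L := mul_le_mul_of_nonneg_left hL1 (by positivity)
              linarith
          _ = k := hy3'
      by_contra hcon
      push Not at hcon
      have h4 : P * y < 1 * y := mul_lt_mul_of_pos_right hcon hy0
      rw [hP] at h4
      linarith
    linarith

end Pool.Agent.H79.Thr
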