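import Pool.Agent.H79.Thr.StarRed

/-!
# The reduction of `k`-colourability to star `k`-colourability: completeness
-/

namespace Pool.Agent.H79.Thr

variable {α : Type} {k : ℕ} [Inhabited α] {gl : List ((Fin k × Bool) × (Fin k × Bool))} {c₀ : Fin k}
  {E : List (α × α)} {H : SimpleGraph (Fin k × Bool)} {D : ℕ}

/-- the edge `a b` lies in the block `(v, i)` -/
private def CBlk {α : Type} {k : ℕ} (H : SimpleGraph (Fin k × Bool)) (c₀ : Fin k) (v : α) (i : ℕ)
    (a b : FS α k) : Prop :=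
  ∃ x y, H.Adj x y ∧ a = nf c₀ v i x ∧ b = nf c₀ v i y

/-- `a b` is the terminal edge number `i` -/
private def CTrm {α : Type} {k : ℕ} [Inhabited α] (c₀ : Fin k) (E : List (α × α)) (i : ℕ)
    (a b : FS α k) : Prop :=
  i < E.length ∧ a = ((E.getD i default).1, i, (c₀, false)) ∧
    b = ((E.getD i default).2, i, (c₀, false))

private lemma c_mem_cases (hgl : ∀ x y, H.Adj x y ↔ (x, y) ∈ gl) {a b : FS α k}
    (h : (a, b) ∈ starE gl c₀ E) :
    (∃ v i, CBlk H c₀ v i a b) ∨ ∃ i, CTrm c₀ E i a b := by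
  unfold starE at h
  rw [List.mem_append] at h
  rcases h with h | h
  · left
    simp only [List.mem_flatMap, List.mem_map, List.mem_range, Prod.mk.injEq] at h
    obtain ⟨v, _, i, _, z, hz, h1, h2⟩ := h
    exact ⟨v, i, z.1, z.2, (hgl _ _).2 hz, h1.symm, h2.symm⟩
  · right
    rw [List.mem_map] at h
    obtain ⟨i, hi, h1⟩ := h
    rw [List.mem_range] at hi
    rw [Prod.mk.injEq] at h1
    exact ⟨i, hi, h1.1.symm, h1.2.symm⟩

private lemma c_adj_cases (hgl : ∀ x y, H.Adj x y ↔ (x, y) ∈ gl) {a b : FS α k}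
    (h : (relG (starE gl c₀ E)).Adj a b) :
    (∃ v i, CBlk H c₀ v i a b) ∨ ∃ i, CTrm c₀ E i a b ∨ CTrm c₀ E i b a := by
  obtain ⟨_, h | h⟩ := h
  · rcases c_mem_cases hgl h with h | ⟨i, h⟩
    · exact Or.inl h
    · exact Or.inr ⟨i, Or.inl h⟩
  · rcases c_mem_cases hgl h with ⟨v, i, x, y, hxy, h1, h2⟩ | ⟨i, h⟩
    · exact Or.inl ⟨v, i, y, x, hxy.symm, h2, h1⟩
    · exact Or.inr ⟨i, Or.inr h⟩

omit [Inhabited α] in
private lemma c_nf_eq {v v' : α} {i i' : ℕ} {x x' : Fin k × Bool}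
    (h : nf c₀ v i x = nf c₀ v' i' x') :
    v = v' ∧ ((i = i' ∧ x = x') ∨ (i' = i + 1 ∧ x = (c₀, true) ∧ x' = (c₀, false)) ∨
      (i = i' + 1 ∧ x = (c₀, false) ∧ x' = (c₀, true))) := by
  unfold nf at h
  split_ifs at h with h1 h2 h2
  · rw [Prod.mk.injEq, Prod.mk.injEq] at h
    exact ⟨h.1, Or.inl ⟨by omega, by rw [h1, h2]⟩⟩
  · rw [Prod.mk.injEq, Prod.mk.injEq] at h
    exact ⟨h.1, Or.inr (Or.inl ⟨h.2.1.symm, h1, h.2.2.symm⟩)⟩
  · rw [Prod.mk.injEq, Prod.mk.injEq] at h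
    exact ⟨h.1, Or.inr (Or.inr ⟨h.2.1, h.2.2, h2⟩)⟩
  · rw [Prod.mk.injEq, Prod.mk.injEq] at h
    exact ⟨h.1, Or.inl ⟨h.2.1, h.2.2⟩⟩

omit [Inhabited α] in
private lemma c_nf_term {v w : α} {i j : ℕ} {x : Fin k × Bool}
    (h : nf c₀ v i x = (w, j, (c₀, false))) :
    v = w ∧ ((i = j ∧ x = (c₀, false)) ∨ (j = i + 1 ∧ x = (c₀, true))) := by
  have h1 : nf c₀ w j (c₀, false) = (w, j, (c₀, false)) := by
    unfold nf
    rw [if_neg (by simp)]
  rw [← h1] at h
  obtain ⟨h2, h3 | h3 | h3⟩ := c_nf_eq h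
  · exact ⟨h2, Or.inl h3⟩
  · exact ⟨h2, Or.inr ⟨h3.1, h3.2.1⟩⟩
  · exact absurd h3.2.2 (by simp)

/-- an injective map with a given value at `c₀` that maps `N` outside `F` -/
private lemma c_inj_ext (N F : Finset (Fin k)) (c₀ a : Fin k) (hc : c₀ ∉ N)
    (hk : F.card + N.card + 1 ≤ k) :
    ∃ π : Fin k → Fin k, Function.Injective π ∧ π c₀ = a ∧ ∀ n ∈ N, π n ∉ F := by
  classical
  have h1 : N.card ≤ (Finset.univ \ insert a F).card := by
    have h2 := Finset.le_card_sdiff (insert a F) (Finset.univ : Finset (Fin k))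
    have h3 := Finset.card_insert_le a F
    rw [Finset.card_univ, Fintype.card_fin] at h2
    omega
  obtain ⟨M, hM, hMc⟩ := Finset.exists_subset_card_eq h1
  let e := Finset.equivOfCardEq hMc.symm
  let f : Fin k → Fin k := fun x => if hx : x ∈ N then (e ⟨x, hx⟩ : Fin k) else a
  have hf1 : ∀ x (hx : x ∈ N), f x = e ⟨x, hx⟩ := fun x hx => by simp only [f, hx, dif_pos]
  have hf2 : ∀ x ∉ N, f x = a := fun x hx => by simp only [f, hx, dif_neg, not_false_eq_true]
  have hfM : ∀ x ∈ N, f x ∈ M := fun x hx => by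
    rw [hf1 x hx]
    exact (e ⟨x, hx⟩).2
  have hMa : ∀ y ∈ M, y ≠ a ∧ y ∉ F := by
    intro y hy
    have := hM hy
    rw [Finset.mem_sdiff, Finset.mem_insert, not_or] at this
    exact this.2
  have hinj : Set.InjOn f (insert c₀ N : Finset (Fin k)) := by
    intro x hx y hy hxy
    rw [Finset.mem_coe, Finset.mem_insert] at hx hy
    rcases hx with rfl | hx
    · rcases hy with rfl | hy
      · rfl
      · exfalso
        rw [hf2 _ hc] at hxy
        exact (hMa _ (hfM y hy)).1 hxy.symm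
    · rcases hy with rfl | hy
      · exfalso
        rw [hf2 _ hc] at hxy
        exact (hMa _ (hfM x hx)).1 hxy
      · rw [hf1 x hx, hf1 y hy] at hxy
        have := e.injective (Subtype.ext hxy)
        exact congrArg Subtype.val this
  obtain ⟨g, hg⟩ := Finset.exists_equiv_extend_of_card_eq (α := Fin k)
    (t := (Finset.univ : Finset (Fin k))) (by rw [Finset.card_univ]) (s := insert c₀ N)
    (Finset.subset_univ _) hinj
  refine ⟨fun x => (g x : Fin k), ?_, ?_, ?_⟩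
  · intro x y hxy
    exact g.injective (Subtype.ext hxy)
  · change (g c₀ : Fin k) = a
    rw [hg c₀ (Finset.mem_insert_self _ _), hf2 _ hc]
  · intro n hn
    change (g n : Fin k) ∉ F
    rw [hg n (Finset.mem_insert_of_mem hn)]
    exact (hMa _ (hfM n hn)).2

/-- the sequences of permutations -/
private lemma c_seq (N : Finset (Fin k)) (F : ℕ → Finset (Fin k)) (c₀ a : Fin k) (hc : c₀ ∉ N)
    (hF : ∀ i, (F i).card ≤ 4) (hk : 4 + 2 * N.card + 1 ≤ k) :
    ∃ p : ℕ → Fin k → Fin k, (∀ i, Function.Injective (p i)) ∧ (∀ i, p i c₀ = a) ∧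
      (∀ i, ∀ n ∈ N, p i n ∉ F i) ∧ (∀ i, ∀ n ∈ N, ∀ n' ∈ N, p (i + 1) n ≠ p i n') := by
  classical
  have step : ∀ (i : ℕ) (p : Fin k → Fin k), ∃ q : Fin k → Fin k, Function.Injective q ∧
      q c₀ = a ∧ (∀ n ∈ N, q n ∉ F i) ∧ (∀ n ∈ N, ∀ n' ∈ N, q n ≠ p n') := by
    intro i p
    obtain ⟨q, h1, h2, h3⟩ := c_inj_ext N (F i ∪ N.image p) c₀ a hc (by
      have h4 := Finset.card_union_le (F i) (N.image p)
      have h5 : (N.image p).card ≤ N.card := Finset.card_image_le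
      have h6 := hF i
      omega)
    refine ⟨q, h1, h2, fun n hn h4 => h3 n hn (Finset.mem_union_left _ h4), ?_⟩
    intro n hn n' hn' h4
    exact h3 n hn (Finset.mem_union_right _ (Finset.mem_image.2 ⟨n', hn', h4.symm⟩))
  choose nxt hnxt using step
  let p : ℕ → Fin k → Fin k := fun i => Nat.rec (nxt 0 (fun _ => a)) (fun i q => nxt (i + 1) q) i
  have hp : ∀ i, ∃ q, p i = nxt i q := by
    intro i
    cases i with
    | zero => exact ⟨_, rfl⟩
    | succ i => exact ⟨p i, rfl⟩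
  refine ⟨p, ?_, ?_, ?_, ?_⟩
  · intro i
    obtain ⟨q, hq⟩ := hp i
    rw [hq]
    exact (hnxt i q).1
  · intro i
    obtain ⟨q, hq⟩ := hp i
    rw [hq]
    exact (hnxt i q).2.1
  · intro i
    obtain ⟨q, hq⟩ := hp i
    rw [hq]
    exact (hnxt i q).2.2.1
  · intro i
    exact (hnxt (i + 1) (p i)).2.2.2

/-- Job THR-6. Completeness. -/
theorem starE_complete (hH : StarGadget k D H) (hgl : ∀ x y, H.Adj x y ↔ (x, y) ∈ gl)
    (hE : ∀ e ∈ E, e.1 ≠ e.2) (hk : 4 * D + 5 ≤ k) (h : EColourable k E) :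
    StarColourable k (relG (starE gl c₀ E)) := by
  classical
  obtain ⟨h, hh⟩ := h
  -- classes
  have hcl : ∀ x y, H.Adj x y → x.1 ≠ y.1 := fun x y hxy =>
    (hH.cls id Function.injective_id).1 x y hxy
  let N : Finset (Fin k) := Finset.univ.filter fun c => ∃ b b', H.Adj (c₀, b) (c, b')
  have hN : ∀ b y, H.Adj (c₀, b) y → y.1 ∈ N := by
    intro b y hy
    rw [Finset.mem_filter]
    exact ⟨Finset.mem_univ _, b, y.2, hy⟩
  have hcN : c₀ ∉ N := by
    intro h1
    rw [Finset.mem_filter] at h1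
    obtain ⟨_, b, b', h2⟩ := h1
    exact hcl _ _ h2 rfl
  have hNc : N.card ≤ 2 * D := by
    have h1 : (N : Set (Fin k)) ⊆
        Prod.fst '' (H.neighborSet (c₀, false) ∪ H.neighborSet (c₀, true)) := by
      intro c hc
      rw [Finset.mem_coe, Finset.mem_filter] at hc
      obtain ⟨_, b, b', h2⟩ := hc
      refine ⟨(c, b'), ?_, rfl⟩
      cases b
      · exact Or.inl h2
      · exact Or.inr h2
    have h2 := Set.ncard_le_ncard h1 (Set.toFinite _)
    rw [Set.ncard_coe_finset] at h2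
    have h3 := Set.ncard_image_le (f := Prod.fst)
      (Set.toFinite (H.neighborSet (c₀, false) ∪ H.neighborSet (c₀, true)))
    have h4 := Set.ncard_union_le (H.neighborSet (c₀, false)) (H.neighborSet (c₀, true))
    have h5 := hH.deg (c₀, false)
    have h6 := hH.deg (c₀, true)
    omega
  -- forbidden colours
  let F : ℕ → Finset (Fin k) := fun i =>
    {h (E.getD i default).1, h (E.getD i default).2,
      h (E.getD (i + 1) default).1, h (E.getD (i + 1) default).2}
  have hF : ∀ i, (F i).card ≤ 4 := fun i => Finset.card_le_four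
  have hseq : ∀ v : α, ∃ p : ℕ → Fin k → Fin k, (∀ i, Function.Injective (p i)) ∧
      (∀ i, p i c₀ = h v) ∧ (∀ i, ∀ n ∈ N, p i n ∉ F i) ∧
      (∀ i, ∀ n ∈ N, ∀ n' ∈ N, p (i + 1) n ≠ p i n') := fun v =>
    c_seq N F c₀ (h v) hcN hF (by omega)
  choose p hp1 hp2 hp3 hp4 using hseq
  let col : FS α k → Fin k := fun t => p t.1 t.2.1 t.2.2.1
  have hcol : ∀ v i x, col (nf c₀ v i x) = p v i x.1 := by
    intro v i x
    unfold nf
    split_ifs with h1
    · simp only [col, h1, hp2]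
    · rfl
  have hcolT : ∀ (w : α) (j : ℕ) (b : Bool), col (w, j, (c₀, b)) = h w := by
    intro w j b
    simp only [col, hp2]
  have hmem : ∀ i, i < E.length → E.getD i default ∈ E := by
    intro i hi
    rw [List.getD_eq_getElem _ _ hi]
    exact List.getElem_mem hi
  -- two edges at `t` whose other ends have the same colour are in the same block
  have claimA : ∀ t y1 y2, (relG (starE gl c₀ E)).Adj t y1 → (relG (starE gl c₀ E)).Adj t y2 →
      y1 ≠ y2 → col y1 = col y2 → ∃ v i, CBlk H c₀ v i t y1 ∧ CBlk H c₀ v i t y2 := by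
    -- block edge against terminal edge
    have key : ∀ t y1 y2, (∃ v i, CBlk H c₀ v i t y1) →
        (∃ i, CTrm c₀ E i t y2 ∨ CTrm c₀ E i y2 t) → col y1 ≠ col y2 := by
      rintro t y1 y2 ⟨v, i, x, y, hxy, ht, hy⟩ ⟨j, hj⟩ hc
      rw [hy, hcol] at hc
      have hF' : ∀ w, (w = (E.getD j default).1 ∨ w = (E.getD j default).2) →
          (i = j ∨ j = i + 1) → h w ∈ F i := by
        rintro w (rfl | rfl) (rfl | rfl) <;> simp [F]
      have hb : ∃ w w', t = (w, j, (c₀, false)) ∧ y2 = (w', j, (c₀, false)) ∧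
          (w' = (E.getD j default).1 ∨ w' = (E.getD j default).2) := by
        rcases hj with ⟨_, h1, h2⟩ | ⟨_, h1, h2⟩
        · exact ⟨_, _, h1, h2, Or.inr rfl⟩
        · exact ⟨_, _, h2, h1, Or.inl rfl⟩
      obtain ⟨w, w', h1, h2, h3⟩ := hb
      rw [h2, hcolT] at hc
      rw [ht] at h1
      obtain ⟨_, h5⟩ := c_nf_term h1
      have h6 : ∃ b, x = (c₀, b) := by
        rcases h5 with h5 | h5
        · exact ⟨_, h5.2⟩
        · exact ⟨_, h5.2⟩
      obtain ⟨b, rfl⟩ := h6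
      refine hp3 v i y.1 (hN b y hxy) ?_
      rw [hc]
      refine hF' w' h3 ?_
      rcases h5 with h5 | h5
      · exact Or.inl h5.1
      · exact Or.inr h5.1
    intro t y1 y2 h1 h2 hne hc
    rcases c_adj_cases hgl h1 with h3 | h3 <;> rcases c_adj_cases hgl h2 with h4 | h4
    · obtain ⟨v, i, x, y, hxy, ht, hy⟩ := h3
      obtain ⟨v', i', x', y', hxy', ht', hy'⟩ := h4
      obtain ⟨rfl, h5 | h5 | h5⟩ := c_nf_eq (ht.symm.trans ht')
      · obtain ⟨rfl, rfl⟩ := h5
        exact ⟨v, i, ⟨x, y, hxy, ht, hy⟩, ⟨x, y', hxy', ht', hy'⟩⟩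
      · exfalso
        obtain ⟨rfl, rfl, rfl⟩ := h5
        rw [hy, hy', hcol, hcol] at hc
        exact hp4 v i _ (hN _ _ hxy') _ (hN _ _ hxy) hc.symm
      · exfalso
        obtain ⟨rfl, rfl, rfl⟩ := h5
        rw [hy, hy', hcol, hcol] at hc
        exact hp4 v i' _ (hN _ _ hxy) _ (hN _ _ hxy') hc
    · exact absurd hc (key t y1 y2 h3 h4)
    · exact absurd hc.symm (key t y2 y1 h4 h3)
    · exfalso
      obtain ⟨i, h3⟩ := h3
      obtain ⟨j, h4⟩ := h4
      rcases h3 with ⟨hi, h5, h6⟩ | ⟨hi, h5, h6⟩ <;> rcases h4 with ⟨hj, h7, h8⟩ | ⟨hj, h7, h8⟩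
      · rw [h5, Prod.mk.injEq, Prod.mk.injEq] at h7
        obtain ⟨_, rfl, _⟩ := h7
        exact hne (h6.trans h8.symm)
      · rw [h5, Prod.mk.injEq, Prod.mk.injEq] at h8
        obtain ⟨h9, rfl, _⟩ := h8
        exact hE _ (hmem _ hi) h9
      · rw [h6, Prod.mk.injEq, Prod.mk.injEq] at h7
        obtain ⟨h9, rfl, _⟩ := h7
        exact hE _ (hmem _ hi) h9.symm
      · rw [h6, Prod.mk.injEq, Prod.mk.injEq] at h8
        obtain ⟨_, rfl, _⟩ := h8
        exact hne (h5.trans h7.symm)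
  have hprop : IsCol (relG (starE gl c₀ E)) col := by
    intro a b hab
    rcases c_adj_cases hgl hab with ⟨v, i, x, y, hxy, ha, hb⟩ | ⟨i, h1⟩
    · rw [ha, hb, hcol, hcol]
      exact fun h2 => hcl x y hxy (hp1 v i h2)
    · rcases h1 with ⟨hi, h2, h3⟩ | ⟨hi, h2, h3⟩
      · rw [h2, h3, hcolT, hcolT]
        exact hh _ (hmem i hi)
      · rw [h2, h3, hcolT, hcolT]
        exact (hh _ (hmem i hi)).symm
  refine ⟨col, hprop, ?_⟩
  intro a b c d hab hbc hcd hac had hbd
  by_contra hcard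
  -- the two colours alternate
  have n1 := hprop a b hab
  have n2 := hprop b c hbc
  have n3 := hprop c d hcd
  have e1 : col a = col c := by
    by_contra h1
    apply hcard
    have h2 : ({col a, col b, col c} : Finset (Fin k)).card = 3 := by
      rw [Finset.card_eq_three]
      exact ⟨_, _, _, n1, h1, n2, rfl⟩
    have h3 : ({col a, col b, col c} : Finset (Fin k)) ⊆ {col a, col b, col c, col d} := by
      intro z hz
      simp only [Finset.mem_insert, Finset.mem_singleton] at hz ⊢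
      tauto
    have := Finset.card_le_card h3
    omega
  have e2 : col b = col d := by
    by_contra h1
    apply hcard
    have h2 : ({col b, col c, col d} : Finset (Fin k)).card = 3 := by
      rw [Finset.card_eq_three]
      exact ⟨_, _, _, n2, h1, n3, rfl⟩
    have h3 : ({col b, col c, col d} : Finset (Fin k)) ⊆ {col a, col b, col c, col d} := by
      intro z hz
      simp only [Finset.mem_insert, Finset.mem_singleton] at hz ⊢
      tauto
    have := Finset.card_le_card h3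
    omega
  obtain ⟨v, i, ⟨x2, x1, h21, hb1, ha1⟩, ⟨x2', x3, h23, hb2, hc2⟩⟩ :=
    claimA b a c hab.symm hbc hac e1
  obtain ⟨v', i', ⟨y3, y2, h32, hc3, hb3⟩, ⟨y3', y4, h34, hc4, hd4⟩⟩ :=
    claimA c b d hbc.symm hcd hbd e2
  -- `x2 = x2'` and `y3 = y3'`
  have ninj : ∀ (v : α) (i : ℕ) (x y : Fin k × Bool), nf c₀ v i x = nf c₀ v i y → x = y := by
    intro v i x y hxy
    rcases (c_nf_eq hxy).2 with h1 | h1 | h1
    · exact h1.2
    · omega
    · omega
  have hx2 : x2 = x2' := ninj v i _ _ (hb1.symm.trans hb2)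
  have hy3 : y3 = y3' := ninj v' i' _ _ (hc3.symm.trans hc4)
  subst hx2 hy3
  -- same block
  have hsame : v = v' ∧ i = i' ∧ x3 = y3 := by
    obtain ⟨h1, h2⟩ := c_nf_eq (hc2.symm.trans hc3)
    obtain ⟨_, h3⟩ := c_nf_eq (hb1.symm.trans hb3)
    refine ⟨h1, ?_⟩
    rcases h2 with h2 | h2 | h2
    · exact h2
    · exfalso
      obtain ⟨h4, h5, h6⟩ := h2
      rcases h3 with h3 | h3 | h3
      · omega
      · exact hcl _ _ h23 (by rw [h3.2.1, h5])
      · omega
    · exfalso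
      obtain ⟨h4, h5, h6⟩ := h2
      rcases h3 with h3 | h3 | h3
      · omega
      · omega
      · exact hcl _ _ h23 (by rw [h3.2.1, h5])
  obtain ⟨rfl, rfl, rfl⟩ := hsame
  have hfin := (hH.cls (p v i) (hp1 v i)).2 x1 x2 x3 y4 h21.symm h23 h34 ?_ ?_ ?_
  · apply hcard
    rw [ha1, hb1, hc2, hd4, hcol, hcol, hcol, hcol]
    exact hfin
  · rintro rfl
    exact hac (ha1.trans hc2.symm)
  · rintro rfl
    exact had (ha1.trans hd4.symm)
  · rintro rfl
    exact hbd (hb1.trans hd4.symm)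

end Pool.Agent.H79.Thr
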