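import Pool.Agent.H79.Thr.StarR4
import Pool.Agent.H79.Thr.StarRedC
import Pool.Agent.H79.Thr.StarNum
import Pool.Agent.H79.Thr.Member
import Pool.Agent.H79.Thr.ColK

/-!
# Star colourings: the hardness threshold
-/

namespace Pool.Agent.H79.Thr

open Pool.Agent.PPS Pool.Agent.H64.Cook

theorem MaxDegLE.mono {V : Type} {G : SimpleGraph V} {d d' : ℕ} (h : MaxDegLE G d) (hd : d ≤ d') :
    MaxDegLE G d' := fun v => ⟨(h v).1, (h v).2.trans hd⟩

open Classical in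
theorem star_npc_of_gadget {k D : ℕ} (hk : 4 * D + 5 ≤ k) {H : SimpleGraph (Fin k × Bool)}
    (hH : StarGadget k D H) {d : ℕ} (hd : 2 * D + 1 ≤ d) :
    NPCompleteOn d (fun _ G => StarColourable k G) := by
  refine ⟨mem_star k d, fun L hL => ?_⟩
  obtain ⟨φ, hφ, h⟩ := hardk (k := k) (by omega) hL
  let c₀ : Fin k := ⟨0, by omega⟩
  let gl : List ((Fin k × Bool) × (Fin k × Bool)) :=
    (Finset.univ.filter fun z : (Fin k × Bool) × (Fin k × Bool) => H.Adj z.1 z.2).toList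
  have hgl : ∀ x y, H.Adj x y ↔ (x, y) ∈ gl := by
    intro x y; simp [gl]
  refine ⟨fun x => mat (starE gl c₀ (φ x)), ?_, fun x => ?_⟩
  · rw [mem_FP_iff]
    exact PT.mat' (PT.starE' gl c₀ hφ)
  · obtain ⟨n, G, h1, h2, h3, -⟩ := mat_spec (starE gl c₀ (φ x))
    refine ⟨n, G, h1, (h2 _ (starE_deg hH hgl (h x).1)).mono hd, ?_⟩
    rw [(h x).2]
    change EColourable k (φ x) ↔ StarColourable k G
    rw [h3 k (by omega)]
    exact ⟨starE_complete hH hgl (h x).1 hk, starE_sound hH hgl (h x).1⟩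

/-- **Star colourings.** -/
theorem star_threshold : ∃ C : ℝ, 0 < C ∧ ∃ k₀ : ℕ, ∀ k : ℕ, k₀ ≤ k → ∀ d : ℕ,
    C * ((k : ℝ) ^ (2 / 3 : ℝ) * (Real.log k) ^ (1 / 3 : ℝ)) ≤ d →
    NPCompleteOn d (fun _ G => StarColourable k G) := by
  obtain ⟨C, hC, k₀, h⟩ := star_num
  refine ⟨C, hC, k₀, fun k hk d hd => ?_⟩
  obtain ⟨M, D, T, h1, h2, h3, h4, h5, h6⟩ := h k hk
  obtain ⟨H, hH⟩ := exists_starGadget (k := k) (M := M) (D := D) (by omega) h1 h2 h3 h4
  refine star_npc_of_gadget h5 hH ?_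
  have : 2 * (D : ℝ) + 1 ≤ d := h6.trans hd
  exact_mod_cast this

end Pool.Agent.H79.Thr
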