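import Pool.Agent.H79.Thr.RSJ
import Pool.Agent.H79.Thr.RSNum
import Pool.Agent.H79.Thr.Col3B
import Pool.Agent.H79.Thr.StarMain

/-!
# rs colourings: the hardness threshold
-/

namespace Pool.Agent.H79.Thr

open Pool.Agent.PPS Pool.Agent.H64.Cook

open Classical in
theorem rs_npc_of_gadget {k D N : ℕ} (hk : 1 ≤ k) (hD : 8 ≤ D) {H : SimpleGraph (Fin N)}
    {f : Fin N → Fin k} {y : Fin N} (hH : RSGadget k D N H f y) {d : ℕ} (hd : D + 2 ≤ d) :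
    NPCompleteOn d (fun _ G => RSColourable k G) := by
  refine ⟨mem_rs k d, fun L hL => ?_⟩
  obtain ⟨φ, hφ, h⟩ := hard3B hL
  let gl : List (Fin N × Fin N) :=
    (Finset.univ.filter fun z : Fin N × Fin N => H.Adj z.1 z.2).toList
  have hgl : ∀ x x', H.Adj x x' ↔ (x, x') ∈ gl := by
    intro x x'; simp [gl]
  refine ⟨fun x => mat (rsE gl y (φ x)), ?_, fun x => ?_⟩
  · rw [mem_FP_iff]
    exact PT.mat' (PT.rsE' gl y hφ)
  · obtain ⟨n, G, h1, h2, -, h3⟩ := mat_spec (rsE gl y (φ x))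
    refine ⟨n, G, h1, (h2 _ (rsE_deg hH hgl (h x).1 (h x).2.1 hD)).mono hd, ?_⟩
    rw [(h x).2.2]
    change EColourable 3 (φ x) ↔ RSColourable k G
    rw [h3 k hk]
    exact ⟨rsE_complete hH hgl (h x).1, rsE_sound hH hgl (h x).1⟩

/-- **rs colourings.** -/
theorem rs_threshold : ∃ C : ℝ, 0 < C ∧ ∃ k₀ : ℕ, ∀ k : ℕ, k₀ ≤ k → ∀ d : ℕ,
    C * √(k * Real.log k) ≤ d → NPCompleteOn d (fun _ G => RSColourable k G) := by
  obtain ⟨C, hC, n₀, h⟩ := rs_num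
  refine ⟨C, hC, n₀ + 1, fun k hk d hd => ?_⟩
  obtain ⟨n, rfl⟩ : ∃ n, k = n + 1 := ⟨k - 1, by omega⟩
  obtain ⟨b, h', M, m, lam, μ, t, hp, h1, h2, h3, h4, h5, h6, h7⟩ := h n (by omega)
  obtain ⟨N, H, f, y, hH⟩ := exists_rsGadget hp h1 h2 h3 h4 h5 h6
  have hb := hp.hb
  have h8 : 8 ≤ 4 * h' ^ 2 * (2 * h' + 1) + h' + 3 * (4 * b + n / b) + 2 * t := by
    generalize 4 * h' ^ 2 * (2 * h' + 1) = q
    generalize n / b = r
    omega
  refine rs_npc_of_gadget (by omega) h8 hH ?_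
  have e : ((n + 1 : ℕ) : ℝ) = (n : ℝ) + 1 := by push_cast; ring
  rw [e] at hd
  have := h7.trans hd
  exact_mod_cast this

end Pool.Agent.H79.Thr
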