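import Pool.Agent.H79.Thr.StarRand

/-!
# The random gadget: basic properties
-/

namespace Pool.Agent.H79.Thr

variable {k M : ℕ}

/-- Job THR-8. Every colouring by classes is a star colouring, since there are at most two edges
between two classes. -/
theorem randG_cls (ω : Om k M) (π : Fin k → Fin k) (hπ : Function.Injective π) :
    IsStar (randG ω) (fun x => π x.1) := by
  refine ⟨fun u v h e => h.1 (hπ e), ?_⟩
  rintro ⟨a1, a2⟩ ⟨b1, b2⟩ ⟨c1, c2⟩ ⟨d1, d2⟩ ⟨hab, τ1, h1, -⟩ ⟨hbc, τ2, h2, -⟩
    ⟨hcd, τ3, h3, -⟩ hac had hbd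
  by_contra hle
  simp only [not_lt] at hle hab hbc hcd h1 h2 h3
  have pab : π a1 ≠ π b1 := fun e => hab (hπ e)
  have pbc : π b1 ≠ π c1 := fun e => hbc (hπ e)
  have pcd : π c1 ≠ π d1 := fun e => hcd (hπ e)
  have key1 : ∀ p q r : Fin k, p ≠ q → p ≠ r → q ≠ r →
      p ∈ ({π a1, π b1, π c1, π d1} : Finset (Fin k)) →
      q ∈ ({π a1, π b1, π c1, π d1} : Finset (Fin k)) →
      r ∈ ({π a1, π b1, π c1, π d1} : Finset (Fin k)) → False := by
    intro p q r hpq hpr hqr hp hq hr
    have h3 : ({p, q, r} : Finset (Fin k)).card = 3 := Finset.card_eq_three.2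
      ⟨p, q, r, hpq, hpr, hqr, rfl⟩
    have h4 : ({p, q, r} : Finset (Fin k)) ⊆ ({π a1, π b1, π c1, π d1} : Finset (Fin k)) := by
      intro z hz
      rw [Finset.mem_insert, Finset.mem_insert, Finset.mem_singleton] at hz
      rcases hz with rfl | rfl | rfl
      · exact hp
      · exact hq
      · exact hr
    have h5 := Finset.card_le_card h4
    omega
  have eac : a1 = c1 := by
    by_contra hne
    exact key1 _ _ _ pab (fun e => hne (hπ e)) pbc (by simp) (by simp) (by simp)
  subst eac
  have ebd : b1 = d1 := by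
    by_contra hne
    exact key1 (π a1) (π b1) (π d1) pab pcd (fun e => hne (hπ e)) (by simp) (by simp) (by simp)
  subst ebd
  have ac : a2 ≠ c2 := fun e => hac (by rw [e])
  have bd : b2 ≠ d2 := fun e => hbd (by rw [e])
  have ek : ∀ τ, key b1 a1 τ = key a1 b1 τ := fun τ => by simp [key, min_comm, max_comm]
  rw [ek] at h2
  have e1 : slot (b1, b2) (a1, c2) = slot (a1, c2) (b1, b2) := by
    unfold slot
    rcases lt_trichotomy a1 b1 with h' | h' | h'
    · rw [if_neg (not_lt.2 h'.le), if_pos h']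
    · exact absurd h' hab
    · rw [if_pos h', if_neg (not_lt.2 h'.le)]
  rw [e1] at h2
  have n12 : slot (a1, a2) (b1, b2) ≠ slot (a1, c2) (b1, b2) := by
    unfold slot
    split_ifs
    · intro e; exact ac (congrArg Prod.fst e)
    · intro e; exact ac (congrArg Prod.snd e)
  have n13 : slot (a1, a2) (b1, b2) ≠ slot (a1, c2) (b1, d2) := by
    unfold slot
    split_ifs
    · intro e; exact ac (congrArg Prod.fst e)
    · intro e; exact ac (congrArg Prod.snd e)
  have n23 : slot (a1, c2) (b1, b2) ≠ slot (a1, c2) (b1, d2) := by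
    unfold slot
    split_ifs
    · intro e; exact bd (congrArg Prod.snd e)
    · intro e; exact bd (congrArg Prod.fst e)
  have t12 : τ1 ≠ τ2 := by rintro rfl; exact n12 (h1.symm.trans h2)
  have t13 : τ1 ≠ τ3 := by rintro rfl; exact n13 (h1.symm.trans h3)
  have t23 : τ2 ≠ τ3 := by rintro rfl; exact n23 (h2.symm.trans h3)
  revert t12 t13 t23
  cases τ1 <;> cases τ2 <;> cases τ3 <;> simp

/-- Job THR-8. The degree of a vertex is at most the number of the coordinates at its class whose
second component is `0`. -/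
theorem randG_deg (ω : Om k M) (x : Fin k × Bool) :
    ((randG ω).neighborSet x).ncard ≤
      ((Finset.univ.filter fun i : Fin k × Fin k × Bool => i.1 = x.1 ∨ i.2.1 = x.1).filter
        fun i => ((ω i).2 : ℕ) = 0).card := by
  classical
  have hex : ∀ y ∈ (randG ω).neighborSet x, ∃ τ, (ω (key x.1 y.1 τ)).1 = slot x y ∧
      ((ω (key x.1 y.1 τ)).2 : ℕ) = 0 := fun y hy => hy.2
  choose! τ hτ1 hτ2 using hex
  rw [← Set.ncard_coe_finset]
  refine Set.ncard_le_ncard_of_injOn (fun y => key x.1 y.1 (τ y)) ?_ ?_ (Finset.finite_toSet _)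
  · intro y hy
    simp only [Finset.coe_filter, Finset.mem_filter, Finset.mem_univ, true_and,
      Set.mem_ofPred_eq]
    refine ⟨?_, hτ2 y hy⟩
    simp only [key]
    rcases le_total x.1 y.1 with h | h
    · left; exact min_eq_left h
    · right; exact max_eq_left h
  · intro y hy y' hy' e
    have n1 : x.1 ≠ y.1 := hy.1
    have n2 : x.1 ≠ y'.1 := hy'.1
    simp only at e
    have e2 := hτ1 y hy
    have e3 := hτ1 y' hy'
    rw [e, e3] at e2
    simp only [key, Prod.mk.injEq] at e
    obtain ⟨ea, eb, -⟩ := e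
    have ec : y.1 = y'.1 := by
      rcases lt_or_gt_of_ne n1 with h | h <;> rcases lt_or_gt_of_ne n2 with h' | h'
      · rwa [max_eq_right h.le, max_eq_right h'.le] at eb
      · rw [min_eq_left h.le, min_eq_right h'.le] at ea
        exact absurd ea n2
      · rw [min_eq_right h.le, min_eq_left h'.le] at ea
        exact absurd ea.symm n1
      · rwa [min_eq_right h.le, min_eq_right h'.le] at ea
    unfold slot at e2
    rw [ec] at e2
    split_ifs at e2 with h
    · exact Prod.ext ec (congrArg Prod.snd e2).symm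
    · exact Prod.ext ec (congrArg Prod.fst e2).symm

/-- Job THR-8. -/
theorem fails_of_star {ω : Om k M} {g : Fin k × Bool → Fin k} (hg : IsStar (randG ω) g)
    {u u' v v' : Fin k × Bool} (hu : g u = g u') (hv : g v = g v') (h1 : u ≠ u') (h2 : v ≠ v')
    (h3 : u.1 ≠ v.1) (h4 : u.1 ≠ v'.1) (h5 : u'.1 ≠ v.1) : Fails ω u u' v v' := by
  rintro ⟨⟨a1, a2⟩, ⟨b1, b2⟩, c1, c2⟩
  have auv : (randG ω).Adj u v := ⟨h3, false, a1, a2⟩
  have auv' : (randG ω).Adj u v' := ⟨h4, true, b1, b2⟩
  have au'v : (randG ω).Adj u' v := ⟨h5, false, c1, c2⟩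
  have hne : u' ≠ v' := by
    intro e
    apply hg.1 u v auv
    rw [hu, hv, e]
  have h := hg.2 u' v u v' au'v auv.symm auv' h1.symm hne h2
  rw [← hu, ← hv] at h
  have h6 : ({g u, g v, g u, g v} : Finset (Fin k)) ⊆ {g u, g v} := by
    intro z hz
    simp only [Finset.mem_insert, Finset.mem_singleton] at hz ⊢
    tauto
  have h7 := Finset.card_le_card h6
  have h8 := Finset.card_le_two (a := g u) (b := g v)
  omega

end Pool.Agent.H79.Thr
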