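import Pool.Agent.H79.Thr.StarR1

/-!
# The random gadget: patterns
-/

namespace Pool.Agent.H79.Thr

variable {k M : ℕ}

/-- A family of `s` pairs of vertices of the same colour, all in different classes. -/
private def FamP (g : Fin k × Bool → Fin k) (s : ℕ) : Prop :=
  ∃ P : Fin s → (Fin k × Bool) × (Fin k × Bool), (∀ j, g (P j).1 = g (P j).2) ∧ Spread P

private theorem famP_le {g : Fin k × Bool → Fin k} {s : ℕ} (h : FamP g s) : s ≤ k := by
  obtain ⟨P, -, hP⟩ := h
  have hinj : Function.Injective fun j => (P j).1.1 := by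
    intro i j hij
    by_contra hne
    exact (hP.2 i j hne).1 hij
  simpa using Fintype.card_le_of_injective _ hinj

private theorem famP_zero (g : Fin k × Bool → Fin k) : FamP g 0 :=
  ⟨fun j => j.elim0, fun j => j.elim0, fun j => j.elim0, fun j => j.elim0⟩

/-- One more pair in two new classes. -/
private theorem famP_succ {g : Fin k × Bool → Fin k} {s : ℕ}
    {P : Fin s → (Fin k × Bool) × (Fin k × Bool)} (hg : ∀ j, g (P j).1 = g (P j).2)
    (hP : Spread P) {x y : Fin k × Bool} (hxy : g x = g y) (hne : x.1 ≠ y.1)
    (hx : ∀ j, (P j).1.1 ≠ x.1 ∧ (P j).2.1 ≠ x.1) (hy : ∀ j, (P j).1.1 ≠ y.1 ∧ (P j).2.1 ≠ y.1) :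
    FamP g (s + 1) := by
  refine ⟨Fin.cons (x, y) P, ?_, ?_, ?_⟩
  · intro j
    refine Fin.cases ?_ (fun i => ?_) j
    · simpa using hxy
    · simpa using hg i
  · intro j
    refine Fin.cases ?_ (fun i => ?_) j
    · simpa using hne
    · simpa using hP.1 i
  · intro i j
    refine Fin.cases ?_ (fun i => ?_) i
    · refine Fin.cases ?_ (fun j => ?_) j
      · intro h
        exact absurd rfl h
      · intro _
        simp only [Fin.cons_zero, Fin.cons_succ]
        exact ⟨(hx j).1.symm, (hx j).2.symm, (hy j).1.symm, (hy j).2.symm⟩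
    · refine Fin.cases ?_ (fun j => ?_) j
      · intro _
        simp only [Fin.cons_zero, Fin.cons_succ]
        exact ⟨(hx i).1, (hy i).1, (hx i).2, (hy i).2⟩
      · intro h
        simp only [Fin.cons_succ]
        exact hP.2 i j (fun e => h (by rw [e]))

open Classical in
/-- Job THR-9. Among the classes that are not good (say there are `m ≥ 1`) one finds at least
`m / 8` pairs of vertices of the same colour, all in different classes.

Proof: take a family `P` of pairs (as a `Finset` or list) as in the statement of maximum size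
`s`; let `X` be the set of the `2 s` classes that it meets and `Y` the set of the other classes
that are not good. By maximality two vertices of the same colour in different classes are never
both in `Y`. The `k - m` good classes use `k - m` colours that occur nowhere else, so the other
`m` classes use at most `m` colours. Let `Y₁`, `Y₂` be the sets of the classes in `Y` with one,
two colours. The colours of different classes of `Y` are different, so `|Y₁| + 2 |Y₂| ≤ m`, and
`|Y₁| + |Y₂| = m - 2 s` gives `|Y₂| ≤ 2 s`. The colour of a class in `Y₁` occurs at another vertex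
(the class is not good), and this vertex must be in a class in `X`; so `|Y₁| ≤ 4 s`. Hence
`m ≤ 8 s`. -/
theorem exists_spread (g : Fin k × Bool → Fin k) (hB : ∃ c, ¬ Good g c) :
    ∃ (s : ℕ) (P : Fin s → (Fin k × Bool) × (Fin k × Bool)), 1 ≤ s ∧ s ≤ k ∧
      (Finset.univ.filter fun c => ¬ Good g c).card ≤ 8 * s ∧
      (∀ j, g (P j).1 = g (P j).2) ∧ Spread P := by
  set s := Nat.findGreatest (FamP g) k with hs
  have hfam : FamP g s := Nat.findGreatest_spec (P := FamP g) (Nat.zero_le k) (famP_zero g)
  have hmax : ¬ FamP g (s + 1) := by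
    intro h
    have h1 := famP_le h
    have h2 : s + 1 ≤ s := Nat.le_findGreatest h1 h
    omega
  have hsk : s ≤ k := famP_le hfam
  obtain ⟨P, hg, hP⟩ := hfam
  -- the classes met by the family
  set X : Finset (Fin k) := (Finset.univ.image fun j => (P j).1.1) ∪
    (Finset.univ.image fun j => (P j).2.1) with hX
  have hXc : X.card ≤ 2 * s := by
    have h1 : (Finset.univ.image fun j => (P j).1.1).card ≤ s := by
      simpa using Finset.card_image_le (s := (Finset.univ : Finset (Fin s)))
        (f := fun j => (P j).1.1)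
    have h2 : (Finset.univ.image fun j => (P j).2.1).card ≤ s := by
      simpa using Finset.card_image_le (s := (Finset.univ : Finset (Fin s)))
        (f := fun j => (P j).2.1)
    have h3 := Finset.card_union_le (Finset.univ.image fun j => (P j).1.1)
      (Finset.univ.image fun j => (P j).2.1)
    rw [← hX] at h3
    omega
  have hXm : ∀ c, c ∉ X → ∀ j, (P j).1.1 ≠ c ∧ (P j).2.1 ≠ c := by
    intro c hc j
    constructor
    · intro h
      exact hc (Finset.mem_union_left _ (Finset.mem_image.2 ⟨j, Finset.mem_univ _, h⟩))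
    · intro h
      exact hc (Finset.mem_union_right _ (Finset.mem_image.2 ⟨j, Finset.mem_univ _, h⟩))
  have key1 : ∀ x y : Fin k × Bool, x.1 ∉ X → y.1 ∉ X → x.1 ≠ y.1 → g x ≠ g y := by
    intro x y hx hy hne he
    exact hmax (famP_succ hg hP he hne (hXm _ hx) (hXm _ hy))
  set B : Finset (Fin k) := Finset.univ.filter fun c => ¬ Good g c with hBdef
  set Gd : Finset (Fin k) := Finset.univ.filter fun c => Good g c with hGd
  have hcount : Gd.card + B.card = k := by
    have := Finset.card_filter_add_card_filter_not (s := (Finset.univ : Finset (Fin k)))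
      (p := fun c => Good g c)
    simpa using this
  set Y : Finset (Fin k) := B \ X with hY
  set Y1 : Finset (Fin k) := Y.filter fun c => g (c, false) = g (c, true) with hY1
  set Y2 : Finset (Fin k) := Y.filter fun c => ¬ g (c, false) = g (c, true) with hY2
  have hYc : Y1.card + Y2.card = Y.card :=
    Finset.card_filter_add_card_filter_not (s := Y) (p := fun c => g (c, false) = g (c, true))
  have hBY : B.card ≤ Y.card + 2 * s := by
    have h1 : B.card ≤ Y.card + X.card :=
      Finset.card_le_card_sdiff_add_card
    omega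
  -- injectivity on a set of vertices
  set U : Finset (Fin k × Bool) :=
    ((Gd ∪ Y).image fun c => (c, false)) ∪ (Y2.image fun c => (c, true)) with hU
  have hmY : ∀ c, c ∈ Y → ¬ Good g c ∧ c ∉ X := by
    intro c hc
    rw [hY, Finset.mem_sdiff, hBdef, Finset.mem_filter] at hc
    exact ⟨hc.1.2, hc.2⟩
  have hmU : ∀ x, x ∈ U → (Good g x.1 ∧ x.2 = false) ∨ (x.1 ∈ Y ∧ (x.2 = true → x.1 ∈ Y2)) := by
    intro x hx
    rw [hU, Finset.mem_union, Finset.mem_image, Finset.mem_image] at hx
    rcases hx with ⟨c, hc, rfl⟩ | ⟨c, hc, rfl⟩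
    · rcases Finset.mem_union.1 hc with h | h
      · left
        exact ⟨(Finset.mem_filter.1 h).2, rfl⟩
      · right
        exact ⟨h, fun h' => absurd h' (by simp)⟩
    · right
      exact ⟨(Finset.mem_filter.1 hc).1, fun _ => hc⟩
  have hgood : ∀ x y : Fin k × Bool, Good g x.1 → g x = g y → y.1 = x.1 := by
    intro x y hx he
    obtain ⟨c, b⟩ := x
    cases b
    · exact hx.2 y he.symm
    · refine hx.2 y ?_
      rw [← he]
      exact hx.1.symm
  have hinjU : Set.InjOn g (U : Set (Fin k × Bool)) := by
    intro x hx y hy he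
    have hx' := hmU x hx
    have hy' := hmU y hy
    by_cases hc : x.1 = y.1
    · -- the same class
      obtain ⟨c, b⟩ := x
      obtain ⟨c', b'⟩ := y
      obtain rfl : c = c' := hc
      have aux : ∀ b b' : Bool, b ≠ b' → g (c, b) = g (c, b') → c ∈ Y2 → False := by
        intro b b' hb he hcY
        have h := (Finset.mem_filter.1 hcY).2
        cases b <;> cases b'
        · exact hb rfl
        · exact h he
        · exact h he.symm
        · exact hb rfl
      by_cases hb : b = b'
      · rw [hb]
      · exfalso
        have htrue : b = true ∨ b' = true := by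
          cases b
          · cases b'
            · exact absurd rfl hb
            · exact Or.inr rfl
          · exact Or.inl rfl
        rcases htrue with h | h
        · rcases hx' with h1 | h1
          · have h2 := h1.2.symm.trans h
            exact absurd h2 (by simp)
          · exact aux b b' hb he (h1.2 h)
        · rcases hy' with h1 | h1
          · have h2 := h1.2.symm.trans h
            exact absurd h2 (by simp)
          · exact aux b b' hb he (h1.2 h)
    · exfalso
      rcases hx' with h1 | h1
      · exact hc (hgood x y h1.1 he).symm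
      · rcases hy' with h2 | h2
        · exact hc (hgood y x h2.1 he.symm)
        · exact key1 x y (hmY _ h1.1).2 (hmY _ h2.1).2 hc he
  have hUk : U.card ≤ k := by
    have h1 := Finset.card_image_of_injOn hinjU
    have h2 := Finset.card_le_univ (U.image g)
    rw [h1] at h2
    simpa using h2
  have hUc : U.card = Gd.card + Y.card + Y2.card := by
    rw [hU, Finset.card_union_of_disjoint, Finset.card_image_of_injective,
      Finset.card_image_of_injective, Finset.card_union_of_disjoint]
    · rw [Finset.disjoint_left]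
      intro c hc hc'
      exact (hmY c hc').1 (Finset.mem_filter.1 hc).2
    · intro a b h
      exact (Prod.mk.inj h).1
    · intro a b h
      exact (Prod.mk.inj h).1
    · rw [Finset.disjoint_left]
      intro x hx hx'
      obtain ⟨c, -, rfl⟩ := Finset.mem_image.1 hx
      obtain ⟨c', -, h⟩ := Finset.mem_image.1 hx'
      have := (Prod.mk.inj h).2
      exact absurd this (by simp)
  have hY2s : Y2.card ≤ 2 * s := by omega
  -- the classes with one colour
  have hex : ∀ c : Fin k, c ∈ Y1 → ∃ x : Fin k × Bool, x.1 ∈ X ∧ g x = g (c, false) := by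
    intro c hc
    have h1 := Finset.mem_filter.1 hc
    have h2 := hmY c h1.1
    by_contra hno
    push Not at hno
    apply h2.1
    refine ⟨h1.2, fun x hx => ?_⟩
    by_contra hne
    have hxX : x.1 ∉ X := fun h => hno x h hx
    exact key1 x (c, false) hxX h2.2 hne hx
  have hY1s : Y1.card ≤ 4 * s := by
    choose! f hf1 hf2 using hex
    have hmaps : ∀ c ∈ Y1, f c ∈ X ×ˢ (Finset.univ : Finset Bool) := by
      intro c hc
      rw [Finset.mem_product]
      exact ⟨hf1 c hc, Finset.mem_univ _⟩
    have hinj : Set.InjOn f (Y1 : Set (Fin k)) := by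
      intro c hc c' hc' he
      by_contra hne
      have h1 := (hmY c (Finset.mem_filter.1 hc).1).2
      have h2 := (hmY c' (Finset.mem_filter.1 hc').1).2
      refine key1 (c, false) (c', false) h1 h2 hne ?_
      rw [← hf2 c hc, ← hf2 c' hc', he]
    have h1 := Finset.card_le_card_of_injOn f hmaps hinj
    rw [Finset.card_product] at h1
    have h2 : (Finset.univ : Finset Bool).card = 2 := by simp
    rw [h2] at h1
    omega
  have hB8 : B.card ≤ 8 * s := by omega
  have hBpos : 1 ≤ B.card := by
    obtain ⟨c, hc⟩ := hB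
    exact Finset.card_pos.2 ⟨c, Finset.mem_filter.2 ⟨Finset.mem_univ _, hc⟩⟩
  exact ⟨s, P, by omega, hsk, hB8, hg, hP⟩

/-- The class of a vertex whose colour occurs in another class is not good. -/
private theorem not_good_of_ne {g : Fin k × Bool → Fin k} {x y : Fin k × Bool} (he : g x = g y)
    (hne : x.1 ≠ y.1) : ¬ Good g x.1 := by
  intro hx
  apply hne
  obtain ⟨c, b⟩ := x
  cases b
  · exact (hx.2 y he.symm).symm
  · refine (hx.2 y ?_).symm
    rw [← he]
    exact hx.1.symm

/-- Job THR-9. If some star colouring has a class that is not good then all tests of some proper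
pattern fail. -/
theorem exists_pattern {ω : Om k M} {g : Fin k × Bool → Fin k} (hg : IsStar (randG ω) g)
    (hB : ∃ c, ¬ Good g c) :
    ∃ (s : ℕ) (c : Fin (8 * s) → Fin k) (P : Fin s → (Fin k × Bool) × (Fin k × Bool)),
      1 ≤ s ∧ s ≤ k ∧ Proper c P ∧ AllFail ω c P := by
  classical
  obtain ⟨s, P, hs1, hsk, hm, hgP, hP⟩ := exists_spread g hB
  set B : Finset (Fin k) := Finset.univ.filter fun c => ¬ Good g c with hBdef
  obtain ⟨c0, hc0⟩ := hB
  let e := B.equivFin
  let c : Fin (8 * s) → Fin k := fun i =>
    if h : (i : ℕ) < B.card then (e.symm ⟨i, h⟩ : Fin k) else c0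
  have hmem : ∀ i, c i ∈ B := by
    intro i
    by_cases h : (i : ℕ) < B.card
    · have : c i = (e.symm ⟨i, h⟩ : Fin k) := dif_pos h
      rw [this]
      exact (e.symm ⟨i, h⟩).2
    · have : c i = c0 := dif_neg h
      rw [this]
      exact Finset.mem_filter.2 ⟨Finset.mem_univ _, hc0⟩
  have hsurj : ∀ q, ¬ Good g q → ∃ i, c i = q := by
    intro q hq
    have hqB : q ∈ B := Finset.mem_filter.2 ⟨Finset.mem_univ _, hq⟩
    have hlt : (e ⟨q, hqB⟩ : ℕ) < B.card := (e ⟨q, hqB⟩).2
    refine ⟨⟨(e ⟨q, hqB⟩ : ℕ), by omega⟩, ?_⟩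
    have : c ⟨(e ⟨q, hqB⟩ : ℕ), by omega⟩ = (e.symm ⟨(e ⟨q, hqB⟩ : ℕ), hlt⟩ : Fin k) :=
      dif_pos hlt
    rw [this]
    simp
  have hng1 : ∀ j, ¬ Good g (P j).1.1 := fun j => not_good_of_ne (hgP j) (hP.1 j)
  have hng2 : ∀ j, ¬ Good g (P j).2.1 := fun j => not_good_of_ne (hgP j).symm (hP.1 j).symm
  have hne : ∀ j, (P j).1 ≠ (P j).2 := fun j h => hP.1 j (by rw [h])
  refine ⟨s, c, P, hs1, hsk, ⟨hP, fun j => ⟨hsurj _ (hng1 j), hsurj _ (hng2 j)⟩⟩, ?_, ?_⟩
  · intro j q hq
    have hgq : Good g q := by
      by_contra h
      obtain ⟨i, hi⟩ := hsurj q h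
      exact hq i hi
    have h1 : (P j).1.1 ≠ q := fun h => hng1 j (h ▸ hgq)
    have h2 : (P j).2.1 ≠ q := fun h => hng2 j (h ▸ hgq)
    exact fails_of_star hg (hgP j) hgq.1 (hne j) (by simp) h1 h1 h2
  · intro i j hij
    have h := hP.2 i j (ne_of_lt hij)
    exact fails_of_star hg (hgP i) (hgP j) (hne i) (hne j) h.1 h.2.1 h.2.2.1

end Pool.Agent.H79.Thr
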