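import Pool.Agent.H79.Thr.StarRand

/-!
# The random gadget: the probability of a pattern
-/

namespace Pool.Agent.H79.Thr

variable {k M : ℕ}

/-- Two equal keys come from the same unordered pair of classes. -/
private theorem key_eq_imp {a b a' b' : Fin k} {τ τ' : Bool} (h : key a b τ = key a' b' τ') :
    (a = a' ∧ b = b' ∨ a = b' ∧ b = a') ∧ τ = τ' := by
  simp only [key, Prod.mk.injEq] at h
  obtain ⟨h1, h2, h3⟩ := h
  refine ⟨?_, h3⟩
  rcases le_total a b with h4 | h4 <;> rcases le_total a' b' with h5 | h5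
  · rw [min_eq_left h4, min_eq_left h5] at h1
    rw [max_eq_right h4, max_eq_right h5] at h2
    exact Or.inl ⟨h1, h2⟩
  · rw [min_eq_left h4, min_eq_right h5] at h1
    rw [max_eq_right h4, max_eq_left h5] at h2
    exact Or.inr ⟨h1, h2⟩
  · rw [min_eq_right h4, min_eq_left h5] at h1
    rw [max_eq_left h4, max_eq_right h5] at h2
    exact Or.inr ⟨h2, h1⟩
  · rw [min_eq_right h4, min_eq_right h5] at h1
    rw [max_eq_left h4, max_eq_left h5] at h2
    exact Or.inl ⟨h2, h1⟩

/-- The four vertices of a test. -/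
private def quad {s : ℕ} (P : Fin s → (Fin k × Bool) × (Fin k × Bool)) :
    (Fin s × Fin k) ⊕ (Fin s × Fin s) →
      (Fin k × Bool) × (Fin k × Bool) × (Fin k × Bool) × (Fin k × Bool)
  | Sum.inl (j, q) => ((P j).1, (P j).2, (q, false), (q, true))
  | Sum.inr (i, j) => ((P i).1, (P i).2, (P j).1, (P j).2)

/-- The three coordinates of a test. -/
private def coords (w : (Fin k × Bool) × (Fin k × Bool) × (Fin k × Bool) × (Fin k × Bool)) :
    Finset (Fin k × Fin k × Bool) :=
  {key w.1.1 w.2.2.1.1 false, key w.1.1 w.2.2.2.1 true, key w.2.1.1 w.2.2.1.1 false}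

/-- The three values of a test. -/
private def vals (hM : 1 ≤ M)
    (w : (Fin k × Bool) × (Fin k × Bool) × (Fin k × Bool) × (Fin k × Bool))
    (i : Fin k × Fin k × Bool) : Val M :=
  if i = key w.1.1 w.2.2.1.1 false then (slot w.1 w.2.2.1, ⟨0, hM⟩)
  else if i = key w.1.1 w.2.2.2.1 true then (slot w.1 w.2.2.2, ⟨0, hM⟩)
  else (slot w.2.1 w.2.2.1, ⟨0, hM⟩)

private theorem not_forall_of_fails (hM : 1 ≤ M) {ω : Om k M}
    {w : (Fin k × Bool) × (Fin k × Bool) × (Fin k × Bool) × (Fin k × Bool)}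
    (h : Fails ω w.1 w.2.1 w.2.2.1 w.2.2.2) (hne : w.1.1 ≠ w.2.1.1) :
    ¬ ∀ i ∈ coords w, ω i = vals hM w i := by
  intro hall
  apply h
  have e1 := hall (key w.1.1 w.2.2.1.1 false) (by simp [coords])
  have e2 := hall (key w.1.1 w.2.2.2.1 true) (by simp [coords])
  have e3 := hall (key w.2.1.1 w.2.2.1.1 false) (by simp [coords])
  have n21 : key w.1.1 w.2.2.2.1 true ≠ key w.1.1 w.2.2.1.1 false := by
    intro h'
    exact absurd (key_eq_imp h').2 (by simp)
  have n32 : key w.2.1.1 w.2.2.1.1 false ≠ key w.1.1 w.2.2.2.1 true := by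
    intro h'
    exact absurd (key_eq_imp h').2 (by simp)
  have n31 : key w.2.1.1 w.2.2.1.1 false ≠ key w.1.1 w.2.2.1.1 false := by
    intro h'
    rcases (key_eq_imp h').1 with ⟨h1, _⟩ | ⟨h1, h2⟩
    · exact hne h1.symm
    · exact hne (h2.symm.trans h1.symm)
  unfold vals at e1 e2 e3
  rw [if_pos rfl] at e1
  rw [if_neg n21, if_pos rfl] at e2
  rw [if_neg n31, if_neg n32] at e3
  rw [e1, e2, e3]
  simp

private theorem coords_card
    (w : (Fin k × Bool) × (Fin k × Bool) × (Fin k × Bool) × (Fin k × Bool)) :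
    (coords w).card ≤ 3 := Finset.card_le_three

open Classical in
/-- The owner of a class: the pair that contains it, or the class itself. -/
private noncomputable def owner {s : ℕ} (P : Fin s → (Fin k × Bool) × (Fin k × Bool))
    (a : Fin k) : Fin s ⊕ Fin k :=
  if h : ∃ j, (P j).1.1 = a ∨ (P j).2.1 = a then Sum.inl h.choose else Sum.inr a

private theorem owner_eq {s : ℕ} {P : Fin s → (Fin k × Bool) × (Fin k × Bool)} (hP : Spread P)
    {j : Fin s} {a : Fin k} (h : (P j).1.1 = a ∨ (P j).2.1 = a) : owner P a = Sum.inl j := by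
  have hex : ∃ j, (P j).1.1 = a ∨ (P j).2.1 = a := ⟨j, h⟩
  unfold owner
  rw [dif_pos hex]
  congr 1
  by_contra hne
  obtain ⟨h1, h2, h3, h4⟩ := hP.2 _ _ hne
  rcases hex.choose_spec with h5 | h5 <;> rcases h with h6 | h6
  · exact h1 (h5.trans h6.symm)
  · exact h2 (h5.trans h6.symm)
  · exact h3 (h5.trans h6.symm)
  · exact h4 (h5.trans h6.symm)

private theorem owner_eq' {s : ℕ} {c : Fin (8 * s) → Fin k}
    {P : Fin s → (Fin k × Bool) × (Fin k × Bool)}
    (h : Proper c P) {q : Fin k} (hq : ∀ i, c i ≠ q) : owner P q = Sum.inr q := by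
  have hex : ¬ ∃ j, (P j).1.1 = q ∨ (P j).2.1 = q := by
    rintro ⟨j, h1 | h1⟩
    · obtain ⟨i, hi⟩ := (h.2 j).1
      exact hq i (hi.trans h1)
    · obtain ⟨i, hi⟩ := (h.2 j).2
      exact hq i (hi.trans h1)
  unfold owner
  rw [dif_neg hex]

/-- The owners of the classes of a test. -/
private def own {s : ℕ} : (Fin s × Fin k) ⊕ (Fin s × Fin s) →
    (Fin s ⊕ Fin k) × (Fin s ⊕ Fin k)
  | Sum.inl (j, q) => (Sum.inl j, Sum.inr q)
  | Sum.inr (i, j) => (Sum.inl i, Sum.inl j)

open Classical in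
/-- The tests. -/
private noncomputable def tests {s : ℕ} (c : Fin (8 * s) → Fin k) :
    Finset ((Fin s × Fin k) ⊕ (Fin s × Fin s)) :=
  ((Finset.univ : Finset (Fin s)) ×ˢ (Finset.univ.filter fun q : Fin k => ∀ i, c i ≠ q)).disjSum
    (Finset.univ.filter fun p : Fin s × Fin s => p.1 < p.2)

private theorem exists_of_mem_coords {s : ℕ} {c : Fin (8 * s) → Fin k}
    {P : Fin s → (Fin k × Bool) × (Fin k × Bool)} (h : Proper c P)
    {t : (Fin s × Fin k) ⊕ (Fin s × Fin s)} (ht : t ∈ tests c) {x : Fin k × Fin k × Bool}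
    (hx : x ∈ coords (quad P t)) :
    ∃ a b τ, x = key a b τ ∧ owner P a = (own (k := k) t).1 ∧ owner P b = (own (k := k) t).2 := by
  rcases t with ⟨j, q⟩ | ⟨i, j⟩
  · have hq : ∀ i, c i ≠ q := by
      simpa [tests] using ht
    have o1 := owner_eq h.1 (j := j) (Or.inl rfl)
    have o2 := owner_eq h.1 (j := j) (Or.inr rfl)
    have o3 := owner_eq' h hq
    simp only [coords, quad, Finset.mem_insert, Finset.mem_singleton] at hx
    rcases hx with rfl | rfl | rfl
    · exact ⟨_, _, _, rfl, o1, o3⟩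
    · exact ⟨_, _, _, rfl, o1, o3⟩
    · exact ⟨_, _, _, rfl, o2, o3⟩
  · have o1 := owner_eq h.1 (j := i) (Or.inl rfl)
    have o2 := owner_eq h.1 (j := i) (Or.inr rfl)
    have o3 := owner_eq h.1 (j := j) (Or.inl rfl)
    have o4 := owner_eq h.1 (j := j) (Or.inr rfl)
    simp only [coords, quad, Finset.mem_insert, Finset.mem_singleton] at hx
    rcases hx with rfl | rfl | rfl
    · exact ⟨_, _, _, rfl, o1, o3⟩
    · exact ⟨_, _, _, rfl, o1, o4⟩
    · exact ⟨_, _, _, rfl, o2, o3⟩

private theorem own_inj {s : ℕ} {c : Fin (8 * s) → Fin k}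
    {t t' : (Fin s × Fin k) ⊕ (Fin s × Fin s)} (ht : t ∈ tests c) (ht' : t' ∈ tests c)
    (h : (own (k := k) t).1 = (own t').1 ∧ (own (k := k) t).2 = (own t').2 ∨
      (own (k := k) t).1 = (own t').2 ∧ (own (k := k) t).2 = (own t').1) : t = t' := by
  rcases t with ⟨j, q⟩ | ⟨i, j⟩ <;> rcases t' with ⟨j', q'⟩ | ⟨i', j'⟩
  · rcases h with ⟨h1, h2⟩ | ⟨h1, h2⟩
    · simp only [own, Sum.inl.injEq, Sum.inr.injEq] at h1 h2
      rw [h1, h2]
    · simp [own] at h1
  · rcases h with ⟨h1, h2⟩ | ⟨h1, h2⟩ <;> simp [own] at h2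
  · rcases h with ⟨h1, h2⟩ | ⟨h1, h2⟩
    · simp [own] at h2
    · simp [own] at h1
  · have h3 : i < j := by simpa [tests] using ht
    have h4 : i' < j' := by simpa [tests] using ht'
    rcases h with ⟨h1, h2⟩ | ⟨h1, h2⟩
    · simp only [own, Sum.inl.injEq] at h1 h2
      rw [h1, h2]
    · simp only [own, Sum.inl.injEq] at h1 h2
      rw [h1, h2] at h3
      exact absurd h3 (not_lt.2 h4.le)

private theorem coords_disjoint {s : ℕ} {c : Fin (8 * s) → Fin k}
    {P : Fin s → (Fin k × Bool) × (Fin k × Bool)} (h : Proper c P)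
    {t t' : (Fin s × Fin k) ⊕ (Fin s × Fin s)} (ht : t ∈ tests c) (ht' : t' ∈ tests c)
    (hne : t ≠ t') : Disjoint (coords (quad P t)) (coords (quad P t')) := by
  rw [Finset.disjoint_left]
  intro x hx hx'
  obtain ⟨a, b, τ, rfl, o1, o2⟩ := exists_of_mem_coords h ht hx
  obtain ⟨a', b', τ', e, o3, o4⟩ := exists_of_mem_coords h ht' hx'
  apply hne
  apply own_inj ht ht'
  rcases (key_eq_imp e).1 with ⟨rfl, rfl⟩ | ⟨rfl, rfl⟩
  · exact Or.inl ⟨o1.symm.trans o3, o2.symm.trans o4⟩
  · exact Or.inr ⟨o1.symm.trans o4, o2.symm.trans o3⟩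

private theorem quad_ne {s : ℕ} {P : Fin s → (Fin k × Bool) × (Fin k × Bool)} (h : Spread P)
    (t : (Fin s × Fin k) ⊕ (Fin s × Fin s)) : (quad P t).1.1 ≠ (quad P t).2.1.1 := by
  rcases t with ⟨j, q⟩ | ⟨i, j⟩
  · exact h.1 j
  · exact h.1 i

private theorem allFail_test {s : ℕ} {c : Fin (8 * s) → Fin k}
    {P : Fin s → (Fin k × Bool) × (Fin k × Bool)} {ω : Om k M} (h : AllFail ω c P)
    {t : (Fin s × Fin k) ⊕ (Fin s × Fin s)} (ht : t ∈ tests c) :
    Fails ω (quad P t).1 (quad P t).2.1 (quad P t).2.2.1 (quad P t).2.2.2 := by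
  rcases t with ⟨j, q⟩ | ⟨i, j⟩
  · have hq : ∀ i, c i ≠ q := by
      simpa [tests] using ht
    exact h.1 j q hq
  · have h3 : i < j := by simpa [tests] using ht
    exact h.2 i j h3

private theorem card_lt_pairs (s : ℕ) :
    2 * (Finset.univ.filter fun p : Fin s × Fin s => p.1 < p.2).card + s = s * s := by
  have h1 : (Finset.univ.filter fun p : Fin s × Fin s => p.1 < p.2).card =
      (Finset.univ.filter fun p : Fin s × Fin s => p.2 < p.1).card := by
    apply Finset.card_bij (fun p _ => (p.2, p.1))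
    · intro p hp
      simpa using hp
    · rintro ⟨a, b⟩ _ ⟨a', b'⟩ _ hh
      simp only [Prod.mk.injEq] at hh
      simp [hh.1, hh.2]
    · rintro ⟨a, b⟩ hb
      exact ⟨(b, a), by simpa using hb, rfl⟩
  have h2 : (Finset.univ.filter fun p : Fin s × Fin s => p.1 = p.2).card = s := by
    have : (Finset.univ.filter fun p : Fin s × Fin s => p.1 = p.2) =
        Finset.univ.image (fun a : Fin s => (a, a)) := by
      ext ⟨a, b⟩
      simp only [Finset.mem_filter, Finset.mem_univ, true_and, Finset.mem_image, Prod.mk.injEq]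
      constructor
      · rintro rfl
        exact ⟨a, rfl, rfl⟩
      · rintro ⟨x, rfl, rfl⟩
        rfl
    rw [this, Finset.card_image_of_injective _ (fun a b hab => (Prod.mk.inj hab).1)]
    simp
  have h3 : (Finset.univ : Finset (Fin s × Fin s)).card =
      (Finset.univ.filter fun p : Fin s × Fin s => p.1 < p.2).card +
      (Finset.univ.filter fun p : Fin s × Fin s => p.2 < p.1).card +
      (Finset.univ.filter fun p : Fin s × Fin s => p.1 = p.2).card := by
    rw [← Finset.card_union_of_disjoint, ← Finset.card_union_of_disjoint]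
    · congr 1
      ext ⟨a, b⟩
      simp only [Finset.mem_univ, Finset.mem_union, Finset.mem_filter, true_and, true_iff]
      rcases lt_trichotomy a b with h | h | h
      · exact Or.inl (Or.inl h)
      · exact Or.inr h
      · exact Or.inl (Or.inr h)
    · rw [Finset.disjoint_left]
      rintro ⟨a, b⟩ h h'
      simp only [Finset.mem_union, Finset.mem_filter, Finset.mem_univ, true_and] at h h'
      subst h'
      simp at h
    · rw [Finset.disjoint_left]
      rintro ⟨a, b⟩ h h'
      simp only [Finset.mem_filter, Finset.mem_univ, true_and] at h h'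
      exact absurd h (not_lt.2 h'.le)
  rw [← h1, h2] at h3
  simp only [Finset.card_univ, Fintype.card_prod, Fintype.card_fin] at h3
  omega

open Classical in
private theorem card_tests {s : ℕ} (hs : 1 ≤ s) (c : Fin (8 * s) → Fin k) {T : ℕ}
    (hT : 32 * T ≤ s * (2 * k - 16)) : T ≤ (tests c).card := by
  have h1 : (tests c).card = s * (Finset.univ.filter fun q : Fin k => ∀ i, c i ≠ q).card +
      (Finset.univ.filter fun p : Fin s × Fin s => p.1 < p.2).card := by
    unfold tests
    rw [Finset.card_disjSum, Finset.card_product]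
    simp
  have h2 := card_lt_pairs s
  have h3 : k ≤ (Finset.univ.filter fun q : Fin k => ∀ i, c i ≠ q).card + 8 * s := by
    have h4 : (Finset.univ.filter fun q : Fin k => ¬ ∀ i, c i ≠ q).card ≤ 8 * s := by
      have : (Finset.univ.filter fun q : Fin k => ¬ ∀ i, c i ≠ q) ⊆ Finset.univ.image c := by
        intro q hq
        simp only [Finset.mem_filter, Finset.mem_univ, true_and, not_forall, not_not] at hq
        obtain ⟨i, hi⟩ := hq
        exact Finset.mem_image.2 ⟨i, Finset.mem_univ _, hi⟩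
      refine (Finset.card_le_card this).trans (Finset.card_image_le.trans ?_)
      simp
    have h5 := Finset.card_filter_add_card_filter_not (s := (Finset.univ : Finset (Fin k)))
      (p := fun q => ∀ i, c i ≠ q)
    simp only [Finset.card_univ, Fintype.card_fin] at h5
    omega
  rw [h1]
  set x := (Finset.univ.filter fun q : Fin k => ∀ i, c i ≠ q).card
  set y := (Finset.univ.filter fun p : Fin s × Fin s => p.1 < p.2).card
  -- `2 y + s = s * s`, `k ≤ x + 8 s`, `32 T ≤ s (2 k - 16)`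
  have h6 : s * (2 * k - 16) ≤ s * (2 * x + 16 * s - 16) :=
    Nat.mul_le_mul_left _ (by omega)
  have h7 : s * (2 * x + 16 * s - 16) = 2 * (s * x) + 16 * (s * s) - 16 * s := by
    rw [Nat.mul_sub]
    ring_nf
  have h8 : 32 * T ≤ 32 * (s * x + y) := by
    have : 32 * T ≤ 2 * (s * x) + 16 * (s * s) - 16 * s := by
      rw [← h7]
      exact hT.trans h6
    omega
  omega

/-- Job THR-10. The number of `ω` for which all tests of a proper pattern fail. The number `T` of
the tests is `s (k - m) + s (s - 1) / 2`, `m` the size of the range of `c`; as `m ≤ 8 s` and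
`m ≤ k`, `32 T ≥ s (2 k - 16)`. The tests use pairwise disjoint sets of at most 3 coordinates,
with one value of `4 M` each. -/
theorem card_allFail (hM : 1 ≤ M) {s : ℕ} (hs : 1 ≤ s) (c : Fin (8 * s) → Fin k)
    (P : Fin s → (Fin k × Bool) × (Fin k × Bool)) (h : Proper c P) {T : ℕ}
    (hT : 32 * T ≤ s * (2 * k - 16)) :
    (({ω | AllFail ω c P} : Set (Om k M)).ncard : ℝ) ≤
      (1 - 1 / (4 * (M : ℝ)) ^ 3) ^ T * (4 * (M : ℝ)) ^ (2 * k ^ 2) := by
  classical
  have : Nonempty (Val M) := ⟨((false, false), ⟨0, hM⟩)⟩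
  have hcA : (Fintype.card (Val M) : ℝ) = 4 * (M : ℝ) := by
    have : Fintype.card (Val M) = 4 * M := by
      simp [Val, Fintype.card_prod, Fintype.card_bool, Fintype.card_fin]
    rw [this]
    push_cast
    ring
  have hcI : Fintype.card (Fin k × Fin k × Bool) = 2 * k ^ 2 := by
    simp only [Fintype.card_prod, Fintype.card_fin, Fintype.card_bool]
    ring
  have hmiss := card_miss_le (I := Fin k × Fin k × Bool) (A := Val M) (tests c)
    (fun t => coords (quad P t)) (fun t => vals hM (quad P t)) 3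
    (fun t ht t' ht' hne => coords_disjoint h ht ht' hne)
    (fun t _ => coords_card _)
  rw [hcA, hcI] at hmiss
  have hsub : ({ω | AllFail ω c P} : Set (Om k M)) ⊆
      {ω | ∀ t ∈ tests c, ¬ ∀ i ∈ coords (quad P t), ω i = vals hM (quad P t) i} := by
    intro ω hω t ht
    exact not_forall_of_fails hM (allFail_test hω ht) (quad_ne h.1 t)
  have hM' : (1 : ℝ) ≤ 4 * (M : ℝ) := by
    have : (1 : ℝ) ≤ M := by exact_mod_cast hM
    linarith
  have hq0 : 0 ≤ 1 - 1 / (4 * (M : ℝ)) ^ 3 := by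
    have h1 : (1 : ℝ) ≤ (4 * (M : ℝ)) ^ 3 := one_le_pow₀ hM'
    have h2 : 1 / (4 * (M : ℝ)) ^ 3 ≤ 1 := by
      rw [div_le_one (by linarith)]
      exact h1
    linarith
  have hq1 : 1 - 1 / (4 * (M : ℝ)) ^ 3 ≤ 1 := by
    have : (0 : ℝ) ≤ 1 / (4 * (M : ℝ)) ^ 3 := by positivity
    linarith
  have hfin : ({ω | ∀ t ∈ tests c, ¬ ∀ i ∈ coords (quad P t), ω i = vals hM (quad P t) i} :
      Set (Om k M)).Finite := Set.toFinite _
  calc (({ω | AllFail ω c P} : Set (Om k M)).ncard : ℝ)
      ≤ (({ω | ∀ t ∈ tests c, ¬ ∀ i ∈ coords (quad P t), ω i = vals hM (quad P t) i} :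
          Set (Om k M)).ncard : ℝ) := by
        exact_mod_cast Set.ncard_le_ncard hsub hfin
    _ ≤ (1 - 1 / (4 * (M : ℝ)) ^ 3) ^ (tests c).card * (4 * (M : ℝ)) ^ (2 * k ^ 2) := hmiss
    _ ≤ (1 - 1 / (4 * (M : ℝ)) ^ 3) ^ T * (4 * (M : ℝ)) ^ (2 * k ^ 2) := by
        apply mul_le_mul_of_nonneg_right _ (by positivity)
        exact pow_le_pow_of_le_one hq0 hq1 (card_tests hs c hT)

end Pool.Agent.H79.Thr
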