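import Pool.Agent.H79.Thr.StarR2
import Pool.Agent.H79.Thr.StarR3

/-!
# The random gadget: existence
-/

namespace Pool.Agent.H79.Thr

variable {k M : ℕ}

namespace StarR4Aux

/-- the coordinates at the class `a` -/
def crd (a : Fin k) : Finset (Fin k × Fin k × Bool) :=
  Finset.univ.filter fun i : Fin k × Fin k × Bool => i.1 = a ∨ i.2.1 = a

lemma crd_card (a : Fin k) : (crd a).card ≤ 4 * k := by
  have h1 : crd a ⊆ (({a} : Finset (Fin k)) ×ˢ (Finset.univ : Finset (Fin k × Bool))) ∪
      ((Finset.univ : Finset (Fin k)) ×ˢ (({a} : Finset (Fin k)) ×ˢ (Finset.univ : Finset Bool))) := by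
    intro i hi
    simp only [crd, Finset.mem_filter, Finset.mem_univ, true_and] at hi
    simp only [Finset.mem_union, Finset.mem_product, Finset.mem_singleton, Finset.mem_univ,
      and_true, true_and]
    exact hi
  refine (Finset.card_le_card h1).trans ((Finset.card_union_le _ _).trans ?_)
  simp only [Finset.card_product, Finset.card_singleton, Finset.card_univ, Fintype.card_prod,
    Fintype.card_fin, Fintype.card_bool]
  omega

/-- the values with second component zero -/
def zv (M : ℕ) : Finset (Val M) := Finset.univ.filter fun v : Val M => (v.2 : ℕ) = 0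

lemma zv_card (hM : 1 ≤ M) : (zv M).card = 4 := by
  have h1 : zv M = (Finset.univ : Finset (Bool × Bool)) ×ˢ ({⟨0, hM⟩} : Finset (Fin M)) := by
    ext v
    simp only [zv, Finset.mem_filter, Finset.mem_univ, true_and, Finset.mem_product,
      Finset.mem_singleton]
    constructor
    · intro h
      exact Fin.ext h
    · intro h
      rw [h]
  rw [h1]
  simp [Fintype.card_prod]

lemma card_val (M : ℕ) : Fintype.card (Val M) = 4 * M := by
  simp [Val, Fintype.card_prod]

lemma card_idx (k : ℕ) : Fintype.card (Fin k × Fin k × Bool) = 2 * k ^ 2 := by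
  simp only [Fintype.card_prod, Fintype.card_fin, Fintype.card_bool]
  ring

lemma card_eq {X : Type} [Fintype X] (p : X → Prop) [DecidablePred p] :
    (Finset.univ.filter p).card = ({x | p x} : Set X).ncard := by
  rw [Set.ncard_eq_toFinset_card']
  congr 1
  ext x
  simp

end StarR4Aux

open StarR4Aux

/-- Job THR-11. The gadget exists if `k` and `M` satisfy some inequalities. Union bound: if there
were no gadget among the graphs `randG ω`, every `ω` would have at least `D + 1` zeros at some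
class (`card_many_le` with `|S| ≤ 4 k`, `|Z| / |A| = 1 / M`) or would satisfy `AllFail ω c P` for
some proper pattern with `1 ≤ s ≤ k` (`k ^ (8 s) * (2 k) ^ (2 s)` patterns for every `s`). -/
theorem exists_starGadget (hk : 1 ≤ k) (hM : 1 ≤ M) {D T : ℕ} (hT : 32 * T ≤ 2 * k - 16)
    (h1 : (k : ℝ) ^ 8 * (2 * (k : ℝ)) ^ 2 * (1 - 1 / (4 * (M : ℝ)) ^ 3) ^ T ≤ 1 / 4)
    (h2 : (k : ℝ) * ((4 * (k : ℝ)) ^ (D + 1) / ((D + 1).factorial : ℝ) *
      (1 / (M : ℝ)) ^ (D + 1)) ≤ 1 / 2) :
    ∃ H : SimpleGraph (Fin k × Bool), StarGadget k D H := by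
  classical
  have hM' : (1 : ℝ) ≤ M := by exact_mod_cast hM
  set W : ℝ := (4 * (M : ℝ)) ^ (2 * k ^ 2) with hW
  have hWpos : 0 < W := by positivity
  set x : ℝ := 1 - 1 / (4 * (M : ℝ)) ^ 3 with hx
  have hx0 : 0 ≤ x := by
    have h3 : (1 : ℝ) ≤ (4 * (M : ℝ)) ^ 3 := one_le_pow₀ (by linarith)
    have h4 : 1 / (4 * (M : ℝ)) ^ 3 ≤ 1 := by
      rw [div_le_one (by positivity)]
      exact h3
    rw [hx]
    linarith
  have hne : Nonempty (Val M) := ⟨((true, true), ⟨0, hM⟩)⟩
  by_contra hno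
  -- the bad sets
  let B : Fin k → Finset (Om k M) := fun a => Finset.univ.filter fun ω =>
    D + 1 ≤ ((crd a).filter fun i => ω i ∈ zv M).card
  let F : (s : ℕ) → (Fin (8 * s) → Fin k) × (Fin s → (Fin k × Bool) × (Fin k × Bool)) →
      Finset (Om k M) := fun s q => Finset.univ.filter fun ω => AllFail ω q.1 q.2
  let Q : (s : ℕ) → Finset ((Fin (8 * s) → Fin k) × (Fin s → (Fin k × Bool) × (Fin k × Bool))) :=
    fun s => Finset.univ.filter fun q => Proper q.1 q.2
  have hcov : (Finset.univ : Finset (Om k M)) ⊆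
      (Finset.univ.biUnion B) ∪ ((Finset.Icc 1 k).biUnion fun s => (Q s).biUnion (F s)) := by
    intro ω _
    by_contra hω
    rw [Finset.mem_union, not_or] at hω
    obtain ⟨hω1, hω2⟩ := hω
    apply hno
    refine ⟨randG ω, ?_, fun π hπ => randG_cls ω π hπ, ?_⟩
    · intro y
      refine (randG_deg ω y).trans ?_
      by_contra hcon
      apply hω1
      refine Finset.mem_biUnion.2 ⟨y.1, Finset.mem_univ _, Finset.mem_filter.2
        ⟨Finset.mem_univ _, ?_⟩⟩
      have h5 : ((crd y.1).filter fun i => ω i ∈ zv M) =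
          ((Finset.univ.filter fun i : Fin k × Fin k × Bool => i.1 = y.1 ∨ i.2.1 = y.1).filter
            fun i => ((ω i).2 : ℕ) = 0) := by
        ext i
        simp only [crd, zv, Finset.mem_filter, Finset.mem_univ, true_and]
      rw [h5]
      omega
    · intro g hg c
      by_contra hgc
      obtain ⟨s, c', P, hs1, hs2, hP, hA⟩ := exists_pattern hg ⟨c, fun h => hgc h.1⟩
      apply hω2
      refine Finset.mem_biUnion.2 ⟨s, Finset.mem_Icc.2 ⟨hs1, hs2⟩, Finset.mem_biUnion.2
        ⟨(c', P), Finset.mem_filter.2 ⟨Finset.mem_univ _, hP⟩, Finset.mem_filter.2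
          ⟨Finset.mem_univ _, hA⟩⟩⟩
  -- part (a)
  have hB : ∀ a, ((B a).card : ℝ) ≤ (4 * (k : ℝ)) ^ (D + 1) / ((D + 1).factorial : ℝ) *
      (1 / (M : ℝ)) ^ (D + 1) * W := by
    intro a
    have h3 := card_many_le (A := Val M) (crd a) (zv M) (D + 1)
    rw [card_val, zv_card hM, card_idx] at h3
    have h4 : ((B a).card : ℝ) = (({ω : Om k M | D + 1 ≤ ((crd a).filter fun i => ω i ∈ zv M).card} :
        Set (Om k M)).ncard : ℝ) := congrArg _ (card_eq _)
    rw [h4]
    refine h3.trans ?_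
    have h5 : ((4 : ℕ) : ℝ) / ((4 * M : ℕ) : ℝ) = 1 / (M : ℝ) := by
      push_cast
      field_simp
    rw [h5]
    have h6 : ((4 * M : ℕ) : ℝ) ^ (2 * k ^ 2) = W := by
      rw [hW]
      push_cast
      rfl
    rw [h6]
    have h7 : ((crd a).card : ℝ) ^ (D + 1) ≤ (4 * (k : ℝ)) ^ (D + 1) := by
      refine pow_le_pow_left₀ (by positivity) ?_ _
      exact_mod_cast crd_card a
    gcongr
  have hBs : (((Finset.univ.biUnion B).card : ℕ) : ℝ) ≤ 1 / 2 * W := by
    have h3 : (((Finset.univ.biUnion B).card : ℕ) : ℝ) ≤ ∑ a : Fin k, ((B a).card : ℝ) := by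
      exact_mod_cast Finset.card_biUnion_le
    refine h3.trans ?_
    refine (Finset.sum_le_sum fun a _ => hB a).trans ?_
    rw [Finset.sum_const, Finset.card_univ, Fintype.card_fin, nsmul_eq_mul, ← mul_assoc]
    exact mul_le_mul_of_nonneg_right h2 hWpos.le
  -- part (b)
  have hF : ∀ s ∈ Finset.Icc 1 k, (((Q s).biUnion (F s)).card : ℝ) ≤ (1 / 4 : ℝ) ^ s * W := by
    intro s hs
    rw [Finset.mem_Icc] at hs
    have h3 : (((Q s).biUnion (F s)).card : ℝ) ≤ ∑ q ∈ Q s, ((F s q).card : ℝ) := by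
      exact_mod_cast Finset.card_biUnion_le
    have h4 : ∀ q ∈ Q s, ((F s q).card : ℝ) ≤ x ^ (s * T) * W := by
      intro q hq
      have h5 := card_allFail (M := M) hM hs.1 q.1 q.2 (Finset.mem_filter.1 hq).2 (T := s * T)
        (by
          have := Nat.mul_le_mul_left s hT
          calc 32 * (s * T) = s * (32 * T) := by ring
            _ ≤ s * (2 * k - 16) := this)
      have h6 : ((F s q).card : ℝ) = (({ω | AllFail ω q.1 q.2} : Set (Om k M)).ncard : ℝ) :=
        congrArg _ (card_eq _)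
      rw [h6]
      exact h5
    have h5 : ((Q s).card : ℝ) ≤ (k : ℝ) ^ (8 * s) * (2 * (k : ℝ)) ^ (2 * s) := by
      have h6 : (Q s).card ≤ k ^ (8 * s) * (2 * k) ^ (2 * s) := by
        refine (Finset.card_filter_le _ _).trans ?_
        rw [Finset.card_univ, Fintype.card_prod, Fintype.card_fun, Fintype.card_fun,
          Fintype.card_prod, Fintype.card_prod, Fintype.card_fin, Fintype.card_fin,
          Fintype.card_fin, Fintype.card_bool]
        refine le_of_eq ?_
        rw [pow_mul (2 * k) 2 s]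
        congr 2
        ring
      exact_mod_cast h6
    refine h3.trans ((Finset.sum_le_sum h4).trans ?_)
    rw [Finset.sum_const, nsmul_eq_mul]
    have h6 : ((Q s).card : ℝ) * (x ^ (s * T) * W) ≤
        ((k : ℝ) ^ (8 * s) * (2 * (k : ℝ)) ^ (2 * s)) * (x ^ (s * T) * W) :=
      mul_le_mul_of_nonneg_right h5 (by positivity)
    refine h6.trans ?_
    have h7 : ((k : ℝ) ^ (8 * s) * (2 * (k : ℝ)) ^ (2 * s)) * (x ^ (s * T) * W) =
        ((k : ℝ) ^ 8 * (2 * (k : ℝ)) ^ 2 * x ^ T) ^ s * W := by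
      rw [mul_pow ((k : ℝ) ^ 8 * (2 * (k : ℝ)) ^ 2) (x ^ T) s,
        mul_pow ((k : ℝ) ^ 8) ((2 * (k : ℝ)) ^ 2) s, ← pow_mul, ← pow_mul, ← pow_mul, mul_comm T s]
      ring
    rw [h7]
    refine mul_le_mul_of_nonneg_right ?_ hWpos.le
    exact pow_le_pow_left₀ (by positivity) h1 s
  have hFs : ((((Finset.Icc 1 k).biUnion fun s => (Q s).biUnion (F s)).card : ℕ) : ℝ) ≤
      1 / 3 * W := by
    have h3 : ((((Finset.Icc 1 k).biUnion fun s => (Q s).biUnion (F s)).card : ℕ) : ℝ) ≤
        ∑ s ∈ Finset.Icc 1 k, (((Q s).biUnion (F s)).card : ℝ) := by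
      exact_mod_cast Finset.card_biUnion_le
    refine h3.trans ((Finset.sum_le_sum hF).trans ?_)
    rw [← Finset.sum_mul]
    refine mul_le_mul_of_nonneg_right ?_ hWpos.le
    have h4 : ∀ m : ℕ, ∑ s ∈ Finset.Icc 1 m, (1 / 4 : ℝ) ^ s = 1 / 3 - 1 / 3 * (1 / 4) ^ m := by
      intro m
      induction m with
      | zero => simp
      | succ m ih =>
        rw [Finset.sum_Icc_succ_top (by omega), ih, pow_succ]
        ring
    rw [h4]
    have : (0 : ℝ) ≤ 1 / 3 * (1 / 4) ^ k := by positivity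
    linarith
  -- conclusion
  have hcard : (Fintype.card (Om k M) : ℝ) = W := by
    rw [Fintype.card_fun, card_val, card_idx, hW]
    push_cast
    rfl
  have h3 := Finset.card_le_card hcov
  have h4 := h3.trans (Finset.card_union_le _ _)
  rw [Finset.card_univ] at h4
  have h5 : (Fintype.card (Om k M) : ℝ) ≤ ((Finset.univ.biUnion B).card : ℝ) +
      (((Finset.Icc 1 k).biUnion fun s => (Q s).biUnion (F s)).card : ℝ) := by
    exact_mod_cast h4
  rw [hcard] at h5
  linarith

end Pool.Agent.H79.Thr
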