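import Pool.Agent.H79.Thr.StarRed
import Pool.Agent.H79.Thr.Blocks

/-!
# The random gadget for star colourings
-/

namespace Pool.Agent.H79.Thr

variable {k M : ℕ}

/-- The values of the coordinates of the random object: a slot and a number in `Fin M`. -/
abbrev Val (M : ℕ) := (Bool × Bool) × Fin M

/-- The random object: two values for every pair of classes (only the pairs `(a, b)` with `a < b`
are used). -/
abbrev Om (k M : ℕ) := (Fin k × Fin k × Bool) → Val M

/-- The coordinates of the pair of classes of `x` and `y`. -/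
def key (a b : Fin k) (τ : Bool) : Fin k × Fin k × Bool := (min a b, max a b, τ)

/-- The slot of the pair `x`, `y` of vertices in different classes. -/
def slot (x y : Fin k × Bool) : Bool × Bool := if x.1 < y.1 then (x.2, y.2) else (y.2, x.2)

/-- The random graph: the pair of classes `a < b` gets the edge in the slot `s` if one of its two
values is `(s, 0)`. -/
def randG (ω : Om k M) : SimpleGraph (Fin k × Bool) where
  Adj x y := x.1 ≠ y.1 ∧ ∃ τ, (ω (key x.1 y.1 τ)).1 = slot x y ∧ ((ω (key x.1 y.1 τ)).2 : ℕ) = 0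
  symm := ⟨by
    rintro x y ⟨h, τ, h1, h2⟩
    refine ⟨h.symm, τ, ?_⟩
    have e1 : key y.1 x.1 τ = key x.1 y.1 τ := by simp [key, min_comm, max_comm]
    have e2 : slot y x = slot x y := by
      unfold slot
      rcases lt_trichotomy x.1 y.1 with h' | h' | h'
      · rw [if_neg (not_lt.2 h'.le), if_pos h']
      · exact absurd h' h
      · rw [if_pos h', if_neg (not_lt.2 h'.le)]
    rw [e1, e2]
    exact ⟨h1, h2⟩⟩
  loopless := ⟨fun _ h => h.1 rfl⟩

/-- The class `c` is good for `g`: it is one of the sets of vertices of the same colour. -/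
def Good (g : Fin k × Bool → Fin k) (c : Fin k) : Prop :=
  g (c, false) = g (c, true) ∧ ∀ x, g x = g (c, false) → x.1 = c

/-- The pairs `P j` of vertices are in pairwise different classes. -/
def Spread {s : ℕ} (P : Fin s → (Fin k × Bool) × (Fin k × Bool)) : Prop :=
  (∀ j, (P j).1.1 ≠ (P j).2.1) ∧ ∀ i j, i ≠ j → (P i).1.1 ≠ (P j).1.1 ∧ (P i).1.1 ≠ (P j).2.1 ∧
    (P i).2.1 ≠ (P j).1.1 ∧ (P i).2.1 ≠ (P j).2.1

/-- The test of the four vertices `u`, `u'`, `v`, `v'` fails: one of the values that would give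
the edges `u v`, `u v'`, `u' v` is missing. -/
def Fails (ω : Om k M) (u u' v v' : Fin k × Bool) : Prop :=
  ¬ (((ω (key u.1 v.1 false)).1 = slot u v ∧ ((ω (key u.1 v.1 false)).2 : ℕ) = 0) ∧
    ((ω (key u.1 v'.1 true)).1 = slot u v' ∧ ((ω (key u.1 v'.1 true)).2 : ℕ) = 0) ∧
    ((ω (key u'.1 v.1 false)).1 = slot u' v ∧ ((ω (key u'.1 v.1 false)).2 : ℕ) = 0))

/-- All tests of the pattern `(c, P)` fail: those of the pairs `P j` with the classes that are not
in the range of `c`, and those of two of the pairs. -/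
def AllFail {s : ℕ} (ω : Om k M) (c : Fin (8 * s) → Fin k)
    (P : Fin s → (Fin k × Bool) × (Fin k × Bool)) : Prop :=
  (∀ j, ∀ q, (∀ i, c i ≠ q) → Fails ω (P j).1 (P j).2 (q, false) (q, true)) ∧
  ∀ i j, i < j → Fails ω (P i).1 (P i).2 (P j).1 (P j).2

/-- The pattern is proper: the pairs are spread and inside the range of `c`. -/
def Proper {s : ℕ} (c : Fin (8 * s) → Fin k)
    (P : Fin s → (Fin k × Bool) × (Fin k × Bool)) : Prop :=
  Spread P ∧ ∀ j, (∃ i, c i = (P j).1.1) ∧ (∃ i, c i = (P j).2.1)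

end Pool.Agent.H79.Thr
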