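import Pool.Agent.H79.Thr.Conv
import Pool.Agent.H79.Thr.Col

/-!
# The reduction of `k`-colourability to star `k`-colourability
-/

namespace Pool.Agent.H79.Thr

open Pool.Agent.PPS Pool.Agent.H64.Cook

/-- A gadget for star `k`-colourings: a graph on the vertices `(c, b)`, `c : Fin k`, `b : Bool`
(two vertices in every class `c`), of maximum degree at most `D`, for which every colouring by
classes is a star colouring, and in every star `k`-colouring of which the two vertices of
every class have the same colour. -/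
structure StarGadget (k D : ℕ) (H : SimpleGraph (Fin k × Bool)) : Prop where
  deg : ∀ x, (H.neighborSet x).ncard ≤ D
  cls : ∀ π : Fin k → Fin k, Function.Injective π → IsStar H (fun x => π x.1)
  uniq : ∀ g : Fin k × Bool → Fin k, IsStar H g → ∀ c, g (c, false) = g (c, true)

section

variable {α : Type} {k : ℕ}

/-- The vertices of the big graph. `(v, i, (c, b))` is the vertex `(c, b)` of the copy number `i`
of the gadget at `v`. -/
abbrev FS (α : Type) (k : ℕ) := α × (ℕ × (Fin k × Bool))

/-- The vertex `(c₀, true)` of the copy number `i` is identified with the vertex `(c₀, false)` of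
the copy number `i + 1`. -/
def nf (c₀ : Fin k) (v : α) (i : ℕ) (x : Fin k × Bool) : FS α k :=
  if x = (c₀, true) then (v, i + 1, (c₀, false)) else (v, i, x)

/-- The list of the edges of the big graph, for the list `gl` of the edges of the gadget, its
class `c₀`, and the list `E` of the edges of the given graph. -/
def starE [Inhabited α] (gl : List ((Fin k × Bool) × (Fin k × Bool))) (c₀ : Fin k)
    (E : List (α × α)) : List (FS α k × FS α k) :=
  (E.flatMap fun e => [e.1, e.2]).flatMap (fun v =>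
    (List.range E.length).flatMap fun i => gl.map fun z => (nf c₀ v i z.1, nf c₀ v i z.2)) ++
  (List.range E.length).map fun i =>
    (((E.getD i default).1, i, (c₀, false)), ((E.getD i default).2, i, (c₀, false)))

variable [Inhabited α] {gl : List ((Fin k × Bool) × (Fin k × Bool))} {c₀ : Fin k}
  {E : List (α × α)} {H : SimpleGraph (Fin k × Bool)} {D : ℕ}

omit [Inhabited α] in
theorem PT.nf' [Rep α] {m : Bool} {β : Type} [Rep β] (c₀ : Fin k) (x : Fin k × Bool)
    {v : β → α} {i : β → ℕ} (hv : PT m v) (hi : PT m i) :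
    PT m (fun b => nf c₀ (v b) (i b) x) := by
  unfold nf
  split_ifs <;> fun_prop

/-- Job THR-5. -/
theorem PT.starE' [Rep α] {m : Bool} {β : Type} [Rep β]
    (gl : List ((Fin k × Bool) × (Fin k × Bool))) (c₀ : Fin k) {E : β → List (α × α)}
    (h : PT m E) : PT m (fun a => starE gl c₀ (E a)) := by
  unfold starE
  refine PT.append' ?_ ?_
  · refine Pool.Agent.H64.Cook.PT.flatMap' (m := m) (l := fun a => (E a).flatMap fun e => [e.1, e.2])
      (f := fun z : β × α => (List.range (E z.1).length).flatMap fun i =>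
        gl.map fun w => (nf c₀ z.2 i w.1, nf c₀ z.2 i w.2)) ?_ ?_
    · exact Pool.Agent.H64.Cook.PT.flatMap' (m := m) (l := E) (f := fun z : β × (α × α) => [z.2.1, z.2.2]) h
        (by fun_prop)
    · refine Pool.Agent.H64.Cook.PT.flatMap' (m := m) (l := fun z : β × α => List.range (E z.1).length)
        (f := fun z : (β × α) × ℕ =>
          gl.map fun w => (nf c₀ z.1.2 z.2 w.1, nf c₀ z.1.2 z.2 w.2)) ?_ ?_
      · have : PT m (fun z : β × α => E z.1) := h.comp' PT.fst
        fun_prop
      · have := Pool.Agent.H64.Cook.PT.flatMapConst (m := m) gl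
          (f := fun w (z : (β × α) × ℕ) => [(nf c₀ z.1.2 z.2 w.1, nf c₀ z.1.2 z.2 w.2)])
          (fun w => by
            have h1 : PT m (fun z : (β × α) × ℕ => nf c₀ z.1.2 z.2 w.1) :=
              PT.nf' c₀ w.1 (by fun_prop) (by fun_prop)
            have h2 : PT m (fun z : (β × α) × ℕ => nf c₀ z.1.2 z.2 w.2) :=
              PT.nf' c₀ w.2 (by fun_prop) (by fun_prop)
            fun_prop)
        convert this using 2 with z
        rw [List.map_eq_flatMap]
  · refine PT.map' (m := m) (l := fun a => List.range (E a).length)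
      (f := fun z : β × ℕ => ((((E z.1).getD z.2 default).1, z.2, (c₀, false)),
        (((E z.1).getD z.2 default).2, z.2, (c₀, false)))) (by fun_prop) ?_
    have : PT m (fun z : β × ℕ => E z.1) := h.comp' PT.fst
    have h2 : PT m (fun z : β × ℕ => (E z.1).getD z.2 default) :=
      PT.getD' (by fun_prop) this (by fun_prop)
    fun_prop

omit [Inhabited α] in
theorem nf_false (c₀ : Fin k) (v : α) (i : ℕ) : nf c₀ v i (c₀, false) = (v, i, (c₀, false)) := by
  simp [nf]

omit [Inhabited α] in
theorem nf_true (c₀ : Fin k) (v : α) (i : ℕ) :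
    nf c₀ v i (c₀, true) = (v, i + 1, (c₀, false)) := by
  simp [nf]

omit [Inhabited α] in
theorem nf_of_ne {c₀ : Fin k} {x : Fin k × Bool} (hx : x ≠ (c₀, true)) (v : α) (i : ℕ) :
    nf c₀ v i x = (v, i, x) := by
  simp [nf, hx]

omit [Inhabited α] in
theorem nf_injective (c₀ : Fin k) (v : α) (i : ℕ) : Function.Injective (nf c₀ v i) := by
  intro x y h
  unfold nf at h
  split_ifs at h with h1 h2 h2
  · rw [h1, h2]
  · simp only [Prod.mk.injEq] at h
    omega
  · simp only [Prod.mk.injEq] at h
    omega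
  · simpa using h

omit [Inhabited α] in
/-- The two ways of writing a vertex of the big graph. -/
theorem nf_eq {c₀ : Fin k} {v w : α} {i j : ℕ} {x y : Fin k × Bool}
    (h : (w, j, y) = nf c₀ v i x) :
    v = w ∧ ((j = i ∧ y = x ∧ x ≠ (c₀, true)) ∨ (j = i + 1 ∧ y = (c₀, false) ∧ x = (c₀, true))) := by
  unfold nf at h
  split_ifs at h with h1
  · simp only [Prod.mk.injEq] at h
    exact ⟨h.1.symm, Or.inr ⟨h.2.1, by ext <;> simp [h.2.2], h1⟩⟩
  · simp only [Prod.mk.injEq] at h
    exact ⟨h.1.symm, Or.inl ⟨h.2.1, h.2.2, h1⟩⟩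

/-- The endpoint number `0` or `1` of the edge number `i`. -/
def tmn (c₀ : Fin k) (E : List (α × α)) (i : ℕ) (b : Bool) : FS α k :=
  (if b then (E.getD i default).2 else (E.getD i default).1, i, (c₀, false))

theorem mem_starE {a b : FS α k} : (a, b) ∈ starE gl c₀ E ↔
    (∃ v, (∃ e ∈ E, v = e.1 ∨ v = e.2) ∧ ∃ i < E.length, ∃ z ∈ gl,
      a = nf c₀ v i z.1 ∧ b = nf c₀ v i z.2) ∨
    (∃ i < E.length, a = tmn c₀ E i false ∧ b = tmn c₀ E i true) := by
  simp only [starE, List.mem_append, List.mem_flatMap, List.mem_map, List.mem_range,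
    List.mem_cons, List.not_mem_nil, or_false, Prod.mk.injEq, tmn, Bool.false_eq_true,
    if_false, if_true]
  refine or_congr ?_ ?_
  · refine exists_congr fun v => and_congr Iff.rfl (exists_congr fun i => and_congr Iff.rfl
      (exists_congr fun z => and_congr Iff.rfl ?_))
    exact and_congr eq_comm eq_comm
  · exact exists_congr fun i => and_congr Iff.rfl (and_congr eq_comm eq_comm)

theorem getD_mem {i : ℕ} (hi : i < E.length) : E.getD i default ∈ E := by
  rw [List.getD_eq_getElem _ _ hi]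
  exact List.getElem_mem hi

/-- Adjacency in the big graph. -/
theorem starE_adj (hgl : ∀ x y, H.Adj x y ↔ (x, y) ∈ gl) (hE : ∀ e ∈ E, e.1 ≠ e.2)
    {a b : FS α k} : (relG (starE gl c₀ E)).Adj a b ↔
    (∃ v, (∃ e ∈ E, v = e.1 ∨ v = e.2) ∧ ∃ i < E.length, ∃ x y, H.Adj x y ∧
      a = nf c₀ v i x ∧ b = nf c₀ v i y) ∨
    (∃ i < E.length, ∃ t : Bool, a = tmn c₀ E i t ∧ b = tmn c₀ E i (!t)) := by
  constructor
  · rintro ⟨_, h | h⟩
    · rw [mem_starE] at h
      rcases h with ⟨v, hv, i, hi, z, hz, ha, hb⟩ | ⟨i, hi, ha, hb⟩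
      · exact Or.inl ⟨v, hv, i, hi, z.1, z.2, (hgl _ _).2 hz, ha, hb⟩
      · exact Or.inr ⟨i, hi, false, ha, hb⟩
    · rw [mem_starE] at h
      rcases h with ⟨v, hv, i, hi, z, hz, ha, hb⟩ | ⟨i, hi, ha, hb⟩
      · exact Or.inl ⟨v, hv, i, hi, z.2, z.1, ((hgl _ _).2 hz).symm, hb, ha⟩
      · exact Or.inr ⟨i, hi, true, hb, ha⟩
  · rintro (⟨v, hv, i, hi, x, y, hxy, ha, hb⟩ | ⟨i, hi, t, ha, hb⟩)
    · refine ⟨?_, Or.inl (mem_starE.2 (Or.inl ⟨v, hv, i, hi, (x, y), (hgl _ _).1 hxy, ha, hb⟩))⟩
      rw [ha, hb]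
      exact fun h => hxy.ne (nf_injective c₀ v i h)
    · have hne := hE _ (getD_mem hi)
      cases t with
      | false =>
        refine ⟨?_, Or.inl (mem_starE.2 (Or.inr ⟨i, hi, ha, hb⟩))⟩
        rw [ha, hb]
        simp only [tmn, Bool.not_false, if_true, Bool.false_eq_true, if_false]
        intro h
        exact hne (congrArg Prod.fst h)
      | true =>
        refine ⟨?_, Or.inr (mem_starE.2 (Or.inr ⟨i, hi, hb, ha⟩))⟩
        rw [ha, hb]
        simp only [tmn, Bool.not_true, if_true, Bool.false_eq_true, if_false]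
        intro h
        exact hne (congrArg Prod.fst h).symm

/-- Job THR-5. Degrees. -/
theorem starE_deg (hH : StarGadget k D H) (hgl : ∀ x y, H.Adj x y ↔ (x, y) ∈ gl)
    (hE : ∀ e ∈ E, e.1 ≠ e.2) : MaxDegLE (relG (starE gl c₀ E)) (2 * D + 1) := by
  classical
  rintro ⟨v, i, x⟩
  set S : Set (FS α k) := (nf c₀ v i '' H.neighborSet x) ∪
    (nf c₀ v (i - 1) '' H.neighborSet (c₀, true)) ∪
    {tmn c₀ E i (if v = (E.getD i default).1 then true else false)} with hS
  have hfin : S.Finite := by
    refine Set.Finite.union (Set.Finite.union ?_ ?_) (Set.finite_singleton _)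
    · exact (Set.toFinite _).image _
    · exact (Set.toFinite _).image _
  have hsub : (relG (starE gl c₀ E)).neighborSet (v, i, x) ⊆ S := by
    intro b hb
    rw [SimpleGraph.mem_neighborSet, starE_adj hgl hE] at hb
    rcases hb with ⟨w, _, j, _, x', y, hxy, ha, hb⟩ | ⟨j, hj, t, ha, hb⟩
    · obtain ⟨rfl, h | h⟩ := nf_eq ha
      · obtain ⟨rfl, rfl, _⟩ := h
        exact Or.inl (Or.inl ⟨y, hxy, hb.symm⟩)
      · obtain ⟨rfl, _, rfl⟩ := h
        exact Or.inl (Or.inr ⟨y, hxy, by rw [hb]; simp⟩)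
    · refine Or.inr ?_
      have hne := hE _ (getD_mem hj)
      simp only [tmn, Prod.mk.injEq] at ha
      obtain ⟨hv, rfl, _⟩ := ha
      rw [Set.mem_singleton_iff, hb]
      cases t with
      | false =>
        simp only [Bool.false_eq_true, if_false] at hv
        rw [if_pos hv]
        rfl
      | true =>
        simp only [if_true] at hv
        have : v ≠ (E.getD i default).1 := by
          rw [hv]; exact hne.symm
        rw [if_neg this]
        rfl
  refine ⟨hfin.subset hsub, (Set.ncard_le_ncard hsub hfin).trans ?_⟩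
  refine (Set.ncard_union_le _ _).trans ?_
  rw [Set.ncard_singleton]
  have h1 := Set.ncard_union_le (nf c₀ v i '' H.neighborSet x)
    (nf c₀ v (i - 1) '' H.neighborSet (c₀, true))
  have h2 : (nf c₀ v i '' H.neighborSet x).ncard ≤ D :=
    (Set.ncard_image_le (Set.toFinite _)).trans (hH.deg x)
  have h3 : (nf c₀ v (i - 1) '' H.neighborSet (c₀, true)).ncard ≤ D :=
    (Set.ncard_image_le (Set.toFinite _)).trans (hH.deg _)
  omega

/-- Job THR-5. Soundness. -/
theorem starE_sound (hH : StarGadget k D H) (hgl : ∀ x y, H.Adj x y ↔ (x, y) ∈ gl)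
    (hE : ∀ e ∈ E, e.1 ≠ e.2) (h : StarColourable k (relG (starE gl c₀ E))) :
    EColourable k E := by
  obtain ⟨g, hg1, hg2⟩ := h
  have key : ∀ v, (∃ e ∈ E, v = e.1 ∨ v = e.2) → ∀ i < E.length,
      g (v, i + 1, (c₀, false)) = g (v, i, (c₀, false)) := by
    intro v hv i hi
    have hadj : ∀ x y, H.Adj x y →
        (relG (starE gl c₀ E)).Adj (nf c₀ v i x) (nf c₀ v i y) := fun x y hxy =>
      (starE_adj hgl hE).2 (Or.inl ⟨v, hv, i, hi, x, y, hxy, rfl, rfl⟩)
    have hstar : IsStar H (fun x => g (nf c₀ v i x)) := by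
      refine ⟨fun x y hxy => hg1 _ _ (hadj x y hxy), ?_⟩
      intro a b c d hab hbc hcd hac had hbd
      exact hg2 _ _ _ _ (hadj _ _ hab) (hadj _ _ hbc) (hadj _ _ hcd)
        (fun h => hac (nf_injective c₀ v i h)) (fun h => had (nf_injective c₀ v i h))
        (fun h => hbd (nf_injective c₀ v i h))
    have := hH.uniq _ hstar c₀
    simp only [nf_false, nf_true] at this
    exact this.symm
  have key2 : ∀ v, (∃ e ∈ E, v = e.1 ∨ v = e.2) → ∀ i ≤ E.length,
      g (v, i, (c₀, false)) = g (v, 0, (c₀, false)) := by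
    intro v hv i
    induction i with
    | zero => intro _; rfl
    | succ i ih => intro hi; rw [key v hv i hi, ih (by omega)]
  refine ⟨fun v => g (v, 0, (c₀, false)), ?_⟩
  intro e he
  obtain ⟨i, hi, hie⟩ := List.getElem_of_mem he
  have hget : E.getD i default = e := by rw [List.getD_eq_getElem _ _ hi, hie]
  have hadj : (relG (starE gl c₀ E)).Adj (tmn c₀ E i false) (tmn c₀ E i true) :=
    (starE_adj hgl hE).2 (Or.inr ⟨i, hi, false, rfl, rfl⟩)
  have := hg1 _ _ hadj
  simp only [tmn, Bool.false_eq_true, if_false, if_true, hget] at this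
  rw [key2 e.1 ⟨e, he, Or.inl rfl⟩ i hi.le, key2 e.2 ⟨e, he, Or.inr rfl⟩ i hi.le] at this
  exact this

end

end Pool.Agent.H79.Thr
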